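import Pool.Agent.Helper95.SH.Coord

/-!
# Project RC, SHARP: the local part of `EP` on sections, in the coefficient arrays

`TLc`: `mean (w TL)` at the sections is `LA` = the linear part through the coefficients of `Z1, Z2`, the part
`(9 - cs) |b|²` and `(m - lam) mean (w lo)`; `mean_L`, `mean_b2`, `mean_b3`: the pieces of a quadratic `lo`.
-/

open MeasureTheory Set Filter Topology

namespace Helper95.SH

open Helper49.LT hiding sg
open Helper49.RC (om)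
open Helper95.RC
open Helper49.Sharp
open Helper87.RC (Fam BM intg_of_bddC intg_of_bdd fc_eq fc_sub fc_cmul fc_add fc_conj pars pars2 fc_G1 fc_G2)
open Helper56.RC (fc)
open Helper44.RCG (G1 G2 N0)
open Helper44.GQ (aQ cQ AdmQ A0Q AAQ BBQ FMQ mQ Rq F1Q F2Q)
open Helper49.RC (vvS Wgt)
open Pool.Agent.Helper20.RC (lk lk_ge lk_sq eD eM sM DensI alQ wR wR_wgt wt wt_wR L1)

section

variable {f g h : ℝ → ℂ} {C D E : ℝ} {M K : ℕ}

theorem av_re (hf : BM f C) : (av f).re = mean (fun t => (f t).re) := by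
  unfold av mean
  have e : (1 / (2 * Real.pi) : ℂ) = ((1 / (2 * Real.pi) : ℝ) : ℂ) := by push_cast; rfl
  rw [e, Complex.re_ofReal_mul]
  congr 1
  have := (Complex.reCLM.intervalIntegral_comp_comm (hf.i 0 (2 * Real.pi)))
  simpa using this.symm

theorem av_ee_mul (h : ℝ → ℂ) (n : ℤ) : av (fun t => ee ((n : ℝ) * t) * h t) = fc h (-n) := by
  unfold av
  rw [fc_eq]
  congr 1
  apply intervalIntegral.integral_congr
  intro t _
  show ee ((n : ℝ) * t) * h t = h t * ee (-((-n : ℤ) : ℝ) * t)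
  rw [mul_comm]
  congr 2
  push_cast
  ring

/-- a mean of a product with a function with finitely many coefficients -/
theorem av_lin (hg : BM g D) (hs : Sup M (fc g)) (hh : BM h C) :
    av (fun t => g t * (starRingEnd ℂ) (h t)) = ∑ n ∈ Finset.Icc (-(M : ℤ)) M, fc g n * (starRingEnd ℂ) (fc h n) := by
  rw [av_fin hg hs hh.conj]
  refine Finset.sum_congr rfl fun n _ => ?_
  rw [av_ee_mul, fc_conj, neg_neg]

theorem mean_lin (hg : BM g D) (hs : Sup M (fc g)) (hh : BM h C) :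
    mean (fun t => (g t * (starRingEnd ℂ) (h t)).re) =
      (∑ n ∈ Finset.Icc (-(M : ℤ)) M, fc g n * (starRingEnd ℂ) (fc h n)).re := by
  rw [← av_lin hg hs hh, av_re (hg.mul hh.conj)]

/-- the coefficients of a product -/
theorem fc_prod (hf : BM f C) (hg : BM g D) (hs : Sup M (fc g)) (n : ℤ) :
    fc (fun t => f t * g t) n = ∑ k ∈ Finset.Icc (-(M : ℤ)) M, fc f (n - k) * fc g k := by
  have e : fc (fun t => f t * g t) n = av (fun t => g t * (f t * ee (-(n : ℝ) * t))) := by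
    rw [fc_eq]
    unfold av
    congr 1
    apply intervalIntegral.integral_congr
    intro t _
    show f t * g t * _ = g t * (f t * _)
    ring
  have hb : BM (fun t => f t * ee (-(n : ℝ) * t)) (C * 1) := BM.mul hf (BM.eec _)
  rw [e, av_fin hg hs hb]
  refine Finset.sum_congr rfl fun k _ => ?_
  rw [av_ee_mul, mul_comm (fc f (n - k))]
  congr 1
  rw [fc_eq, fc_eq]
  congr 1
  apply intervalIntegral.integral_congr
  intro t _
  show f t * ee (-(n : ℝ) * t) * ee (-((-k : ℤ) : ℝ) * t) = f t * ee (-((n - k : ℤ) : ℝ) * t)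
  rw [mul_assoc, ← ee_add]
  congr 2
  push_cast
  ring

/-- `mean (Re (F g conj h))` for `g, h` with finitely many coefficients -/
theorem mean_bil (hf : BM f C) (hg : BM g D) (hh : BM h E) (sg : Sup M (fc g)) (sh : Sup M (fc h)) :
    mean (fun t => (f t * g t * (starRingEnd ℂ) (h t)).re) =
      (∑ m ∈ Finset.Icc (-(M : ℤ)) M, ∑ k ∈ Finset.Icc (-(M : ℤ)) M,
        fc f (m - k) * fc g k * (starRingEnd ℂ) (fc h m)).re := by
  have e1 : (fun t => (f t * g t * (starRingEnd ℂ) (h t)).re) =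
      fun t => (h t * (starRingEnd ℂ) (f t * g t)).re := by
    funext t
    rw [← Complex.conj_re (h t * _), map_mul, Complex.conj_conj]
    ring_nf
  rw [e1, mean_lin hh sh (hf.mul hg)]
  rw [← Complex.conj_re, map_sum]
  congr 1
  refine Finset.sum_congr rfl fun m _ => ?_
  rw [map_mul, Complex.conj_conj, fc_prod hf hg sg, Finset.mul_sum]
  refine Finset.sum_congr rfl fun k _ => ?_
  ring

end

section

variable {P : Par} {b z : ℝ → ℂ}

/-- the factors of the edges in the local part -/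
noncomputable def Z1 (P : Par) (t : ℝ) : ℂ :=
  2 * (((P.H (P.th1 t) : ℂ) + Complex.I * (P.H1 (P.th1 t) : ℂ)) * P.u1 t - (P.lam : ℂ) * (P.u1 t - P.v1 t))
noncomputable def Z2 (P : Par) (t : ℝ) : ℂ :=
  2 * (((P.H (P.th2 t) : ℂ) + Complex.I * (P.H1 (P.th2 t) : ℂ)) * P.u2 t - (P.lam : ℂ) * (P.u2 t - P.v2 t))

theorem TL_Z (P : Par) (t : ℝ) (b z : ℂ) : P.TL t b z =
    (g1 b z * (starRingEnd ℂ) (Z1 P t)).re + (g2 b z * (starRingEnd ℂ) (Z2 P t)).re
      + (9 - P.cs) * ‖b‖ ^ 2 + (P.m - P.lam) * P.lo t b z := by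
  unfold Par.TL Par.T1 Par.T2 Z1 Z2
  have h2 : (starRingEnd ℂ) 2 = 2 := Complex.conj_ofReal 2
  have k : ∀ x y : ℂ, (2 * x * y).re = 2 * (x * y).re := fun x y => by
    rw [show (2 : ℂ) = ((2 : ℝ) : ℂ) by norm_num, mul_assoc, Complex.re_ofReal_mul]
  rw [map_mul, map_mul, h2, mul_comm (g1 b z), mul_comm (g2 b z), k, k]
  simp only [map_add, map_sub, map_mul, Complex.conj_I, Complex.conj_ofReal, Complex.mul_re, Complex.mul_im,
    Complex.add_re, Complex.add_im, Complex.sub_re, Complex.sub_im, Complex.neg_re, Complex.neg_im,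
    Complex.ofReal_re, Complex.ofReal_im, Complex.I_re, Complex.I_im, Complex.conj_re, Complex.conj_im]
  ring

theorem br_bm {f : ℝ → ℝ} (h : BR f) : ∃ C, BM (fun t => (f t : ℂ)) C := by
  obtain ⟨C, hC⟩ := h.b
  exact ⟨C, bm_real h.m hC⟩

theorem Z1_bm (hr : P.Reg) : ∃ C, BM (Z1 P) C := by
  obtain ⟨C1, h1⟩ := br_bm (H_br hr (th1_meas hr))
  obtain ⟨C2, h2⟩ := br_bm (H1_br hr (th1_meas hr))
  exact ⟨_, (((h1.add (h2.cmul Complex.I)).mul (u1_bm hr)).sub (((u1_bm hr).sub (v1_bm hr)).cmul (P.lam : ℂ))).cmul 2⟩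

theorem Z2_bm (hr : P.Reg) : ∃ C, BM (Z2 P) C := by
  obtain ⟨C1, h1⟩ := br_bm (H_br hr (th2_meas hr))
  obtain ⟨C2, h2⟩ := br_bm (H1_br hr (th2_meas hr))
  exact ⟨_, (((h1.add (h2.cmul Complex.I)).mul (u2_bm hr)).sub (((u2_bm hr).sub (v2_bm hr)).cmul (P.lam : ℂ))).cmul 2⟩

/-- coefficients of `w g_1`, `w g_2` -/
noncomputable def G1A (P : Par) (p r s : ℤ → ℂ) (n : ℤ) : ℂ :=
  om * wc P.w n + (starRingEnd ℂ) om * wm P.eta p n + kq 2 * wm P.eta r n + wm P.eta s n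
noncomputable def G2A (P : Par) (p r s : ℤ → ℂ) (n : ℤ) : ℂ :=
  om ^ 2 * wc P.w n + (starRingEnd ℂ) om ^ 2 * wm P.eta p n + (starRingEnd ℂ) (kq 2) * wm P.eta r n - wm P.eta s n

theorem G1A_sup (P : Par) (N : ℕ) {p r s : ℤ → ℂ} (hp : Sup N p) (hq : Sup N r) (hs : Sup N s) :
    Sup (N + 2) (G1A P p r s) := by
  intro n hn
  have h0 : Sup (N + 2) (wc P.w) := Sup.mono (by omega) (wc_sup P.eta)
  unfold G1A
  rw [h0 n hn, wm_sup hp n hn, wm_sup hq n hn, wm_sup hs n hn]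
  ring

theorem G2A_sup (P : Par) (N : ℕ) {p r s : ℤ → ℂ} (hp : Sup N p) (hq : Sup N r) (hs : Sup N s) :
    Sup (N + 2) (G2A P p r s) := by
  intro n hn
  have h0 : Sup (N + 2) (wc P.w) := Sup.mono (by omega) (wc_sup P.eta)
  unfold G2A
  rw [h0 n hn, wm_sup hp n hn, wm_sup hq n hn, wm_sup hs n hn]
  ring

theorem pcA (P : Par) (hb : BF b) (N : ℕ) : fc (fun t => ((P.w t * (SN N b t).re : ℝ) : ℂ)) = wm P.eta (tr N (pr b)) := by
  have e2 : pc P.w (SN N b) = wm P.eta (tr N (pr b)) := by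
    show pc (wR P.eta 0 0) (SN N b) = _
    rw [pc_wm P.eta (bf_SN b N), pr_SN hb]
  exact e2

theorem rcA (P : Par) (hb : BF b) (N : ℕ) : fc (fun t => ((P.w t * (SN N b t).im : ℝ) : ℂ)) = wm P.eta (tr N (qr b)) := by
  have e2 : rc P.w (SN N b) = wm P.eta (tr N (qr b)) := by
    show rc (wR P.eta 0 0) (SN N b) = _
    rw [rc_wm P.eta (bf_SN b N), qr_SN hb]
  exact e2

theorem scA (P : Par) (N : ℕ) : fc (fun t => (P.w t : ℂ) * SN N z t) = wm P.eta (tr N (fc z)) := by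
  have e2 : sc P.w (SN N z) = wm P.eta (tr N (fc z)) := by
    show sc (wR P.eta 0 0) (SN N z) = _
    rw [sc_wm P.eta (bf_SN z N), fc_SN]
  exact e2

/-- `w g_j` at the sections: bounded, with the coefficients `G1A`, `G2A` -/
theorem wg1 (hr : P.Reg) (hb : BF b) (z : ℝ → ℂ) (N : ℕ) :
    (∃ C, BM (fun t => (P.w t : ℂ) * g1 (SN N b t) (SN N z t)) C) ∧
    fc (fun t => (P.w t : ℂ) * g1 (SN N b t) (SN N z t)) = G1A P (tr N (pr b)) (tr N (qr b)) (tr N (fc z)) := by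
  obtain ⟨C1, h1⟩ := bmw hr.wgt
  obtain ⟨C2, h2⟩ := bm_wre hr.wgt (bf_SN b N)
  obtain ⟨C3, h3⟩ := bm_wim hr.wgt (bf_SN b N)
  obtain ⟨C4, h4⟩ := bm_wz hr.wgt (bf_SN z N)
  have e : (fun t => (P.w t : ℂ) * g1 (SN N b t) (SN N z t)) = fun t => ((om * (P.w t : ℂ) +
      (starRingEnd ℂ) om * ((P.w t * (SN N b t).re : ℝ) : ℂ)) + kq 2 * ((P.w t * (SN N b t).im : ℝ) : ℂ)) +
      (P.w t : ℂ) * SN N z t := by
    funext t
    rw [g1_form]
    push_cast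
    ring
  rw [e]
  refine ⟨⟨_, (((h1.cmul om).add (h2.cmul ((starRingEnd ℂ) om))).add (h3.cmul (kq 2))).add h4⟩, ?_⟩
  funext n
  rw [fc_add (((h1.cmul om).add (h2.cmul ((starRingEnd ℂ) om))).add (h3.cmul (kq 2))) h4,
    fc_add ((h1.cmul om).add (h2.cmul ((starRingEnd ℂ) om))) (h3.cmul (kq 2)),
    fc_add (h1.cmul om) (h2.cmul ((starRingEnd ℂ) om)), fc_cmul, fc_cmul, fc_cmul, pcA P hb N, rcA P hb N, scA P N]
  rfl

theorem wg2 (hr : P.Reg) (hb : BF b) (z : ℝ → ℂ) (N : ℕ) :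
    (∃ C, BM (fun t => (P.w t : ℂ) * g2 (SN N b t) (SN N z t)) C) ∧
    fc (fun t => (P.w t : ℂ) * g2 (SN N b t) (SN N z t)) = G2A P (tr N (pr b)) (tr N (qr b)) (tr N (fc z)) := by
  obtain ⟨C1, h1⟩ := bmw hr.wgt
  obtain ⟨C2, h2⟩ := bm_wre hr.wgt (bf_SN b N)
  obtain ⟨C3, h3⟩ := bm_wim hr.wgt (bf_SN b N)
  obtain ⟨C4, h4⟩ := bm_wz hr.wgt (bf_SN z N)
  have e : (fun t => (P.w t : ℂ) * g2 (SN N b t) (SN N z t)) = fun t => ((om ^ 2 * (P.w t : ℂ) +
      (starRingEnd ℂ) om ^ 2 * ((P.w t * (SN N b t).re : ℝ) : ℂ)) +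
      (starRingEnd ℂ) (kq 2) * ((P.w t * (SN N b t).im : ℝ) : ℂ)) - (P.w t : ℂ) * SN N z t := by
    funext t
    rw [g2_form]
    push_cast
    ring
  rw [e]
  refine ⟨⟨_, (((h1.cmul (om ^ 2)).add (h2.cmul ((starRingEnd ℂ) om ^ 2))).add
    (h3.cmul ((starRingEnd ℂ) (kq 2)))).sub h4⟩, ?_⟩
  funext n
  rw [fc_sub (((h1.cmul (om ^ 2)).add (h2.cmul ((starRingEnd ℂ) om ^ 2))).add (h3.cmul ((starRingEnd ℂ) (kq 2)))) h4,
    fc_add ((h1.cmul (om ^ 2)).add (h2.cmul ((starRingEnd ℂ) om ^ 2))) (h3.cmul ((starRingEnd ℂ) (kq 2))),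
    fc_add (h1.cmul (om ^ 2)) (h2.cmul ((starRingEnd ℂ) om ^ 2)), fc_cmul, fc_cmul, fc_cmul, pcA P hb N, rcA P hb N,
    scA P N]
  rfl

/-- the local part in the arrays -/
noncomputable def LA (P : Par) (N : ℕ) (p r s : ℤ → ℂ) : ℝ :=
  (∑ n ∈ Finset.Icc (-((N + 2 : ℕ) : ℤ)) ((N + 2 : ℕ) : ℤ), G1A P p r s n * (starRingEnd ℂ) (fc (Z1 P) n)).re
  + (∑ n ∈ Finset.Icc (-((N + 2 : ℕ) : ℤ)) ((N + 2 : ℕ) : ℤ), G2A P p r s n * (starRingEnd ℂ) (fc (Z2 P) n)).re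
  + (9 - P.cs) * (∑ n ∈ Finset.Icc (-((N + 2 : ℕ) : ℤ)) ((N + 2 : ℕ) : ℤ),
      (wm P.eta p n * (starRingEnd ℂ) (p n) + wm P.eta r n * (starRingEnd ℂ) (r n))).re

theorem fc_reA (hb : BF b) (N : ℕ) : fc (fun t => ((SN N b t).re : ℂ)) = tr N (pr b) := pr_SN hb N
theorem fc_imA (hb : BF b) (N : ℕ) : fc (fun t => ((SN N b t).im : ℂ)) = tr N (qr b) := qr_SN hb N

theorem br_re {f : ℝ → ℂ} {C : ℝ} (h : BM f C) : BR fun t => (f t).re :=
  ⟨Complex.measurable_re.comp h.m, C, fun t => (Complex.abs_re_le_norm _).trans (h.b t)⟩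

/-- THE LOCAL PART OF `EP` IN THE ARRAYS -/
theorem TLc (hr : P.Reg) (hl : QL P.lo) (hb : BF b) (z : ℝ → ℂ) (N : ℕ) :
    mean (fun t => P.w t * P.TL t (SN N b t) (SN N z t)) =
      LA P N (tr N (pr b)) (tr N (qr b)) (tr N (fc z))
        + (P.m - P.lam) * mean (fun t => P.w t * P.lo t (SN N b t) (SN N z t)) := by
  obtain ⟨⟨A1, k1⟩, f1⟩ := wg1 hr hb z N
  obtain ⟨⟨A2, k2⟩, f2⟩ := wg2 hr hb z N
  obtain ⟨E1, z1⟩ := Z1_bm hr
  obtain ⟨E2, z2⟩ := Z2_bm hr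
  obtain ⟨B1, p1⟩ := bm_wre hr.wgt (bf_SN b N)
  obtain ⟨B2, p2⟩ := bm_wim hr.wgt (bf_SN b N)
  obtain ⟨B3, p3⟩ := bm_re (bf_SN b N)
  obtain ⟨B4, p4⟩ := bm_im (bf_SN b N)
  have hlo : BR fun t => P.w t * P.lo t (SN N b t) (SN N z t) :=
    (w_br hr).mul (hl.br (bf_SN b N) (bf_SN z N))
  have sp : Sup N (tr N (pr b)) := tr_sup N _
  have sr : Sup N (tr N (qr b)) := tr_sup N _
  have ss : Sup N (tr N (fc z)) := tr_sup N _
  have s1 : Sup (N + 2) (fc (fun t => (P.w t : ℂ) * g1 (SN N b t) (SN N z t))) := by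
    rw [f1]; exact G1A_sup P N sp sr ss
  have s2 : Sup (N + 2) (fc (fun t => (P.w t : ℂ) * g2 (SN N b t) (SN N z t))) := by
    rw [f2]; exact G2A_sup P N sp sr ss
  have s3 : Sup (N + 2) (fc (fun t => ((P.w t * (SN N b t).re : ℝ) : ℂ))) := by rw [pcA P hb N]; exact wm_sup sp
  have s4 : Sup (N + 2) (fc (fun t => ((P.w t * (SN N b t).im : ℝ) : ℂ))) := by rw [rcA P hb N]; exact wm_sup sr
  have m1 := mean_lin k1 s1 z1
  have m2 := mean_lin k2 s2 z2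
  have m3 := mean_lin p1 s3 p3
  have m4 := mean_lin p2 s4 p4
  rw [f1] at m1
  rw [f2] at m2
  rw [pcA P hb N, fc_reA hb N] at m3
  rw [rcA P hb N, fc_imA hb N] at m4
  have e : (fun t => P.w t * P.TL t (SN N b t) (SN N z t)) = fun t =>
      (((((P.w t : ℂ) * g1 (SN N b t) (SN N z t) * (starRingEnd ℂ) (Z1 P t)).re +
      ((P.w t : ℂ) * g2 (SN N b t) (SN N z t) * (starRingEnd ℂ) (Z2 P t)).re) +
      (9 - P.cs) * (((((P.w t * (SN N b t).re : ℝ) : ℂ) * (starRingEnd ℂ) ((SN N b t).re : ℂ)).re) +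
        ((((P.w t * (SN N b t).im : ℝ) : ℂ) * (starRingEnd ℂ) ((SN N b t).im : ℂ)).re))) +
      (P.m - P.lam) * (P.w t * P.lo t (SN N b t) (SN N z t))) := by
    funext t
    rw [TL_Z, mul_assoc, Complex.re_ofReal_mul, mul_assoc, Complex.re_ofReal_mul, Complex.conj_ofReal,
      Complex.conj_ofReal, ← Complex.ofReal_mul, ← Complex.ofReal_mul, Complex.ofReal_re, Complex.ofReal_re,
      ← Complex.normSq_eq_norm_sq, Complex.normSq_apply]
    ring
  rw [e, mean_add ?_ ?_, mean_add ?_ ?_, mean_add ?_ ?_, mean_cmul, mean_cmul, mean_add ?_ ?_, m1, m2, m3, m4]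
  · unfold LA
    rw [Finset.sum_add_distrib, Complex.add_re]
  · exact br_re (p1.mul p3.conj)
  · exact br_re (p2.mul p4.conj)
  · exact br_re (k1.mul z1.conj)
  · exact br_re (k2.mul z2.conj)
  · exact (br_re (k1.mul z1.conj)).add (br_re (k2.mul z2.conj))
  · exact ((br_re (p1.mul p3.conj)).add (br_re (p2.mul p4.conj))).cmul _
  · exact ((br_re (k1.mul z1.conj)).add (br_re (k2.mul z2.conj))).add
      (((br_re (p1.mul p3.conj)).add (br_re (p2.mul p4.conj))).cmul _)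
  · exact hlo.cmul _

/-- EP ON SECTIONS: `EA + LA + (m - lam) mean (w lo)` -/
theorem EP_coord2 (hr : P.Reg) (hl : QL P.lo) (d : Dat b z) (N : ℕ) :
    P.EP (SN N b) (SN N z) = EA P N (tr N (pr b)) (tr N (qr b)) (tr N (fc z))
      + LA P N (tr N (pr b)) (tr N (qr b)) (tr N (fc z))
      + (P.m - P.lam) * mean (fun t => P.w t * P.lo t (SN N b t) (SN N z t)) := by
  rw [EP_coord hr d N, TLc hr hl d.hb z N]
  ring

end

end Helper95.SH
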