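import Pool.Agent.Helper95.SH.HeadT

/-!
# Project RC, SHARP, cell engine: the head terms do not depend on the window; splitting of arrays into head and tail
-/

open MeasureTheory Set Filter Topology

namespace Helper95.SH

open Helper49.LT hiding sg
open Helper49.RC (om)
open Helper95.RC
open Helper49.Sharp
open Helper87.RC (BM)
open Helper56.RC (fc)
open Helper44.RCG (G1 G2 N0)
open Helper49.RC (vvS Wgt)
open Pool.Agent.Helper20.RC (lk lk_ge lk_sq)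

/-! ### windows -/

section

variable {M N : ℕ} {p r s : ℤ → ℂ}

theorem dt_win (h : M ≤ N) {u : ℤ → ℂ} (hu : Sup M u) (X : ℤ → ℂ) : dt N u X = dt M u X := by
  unfold dt
  congr 1
  exact win_eq h fun n hn => by rw [hu n hn, zero_mul]

theorem NF_win (h : M ≤ N) {a b : ℤ → ℂ} (ha : Sup M a) (hb : Sup M b) (ψ : ℝ → ℝ) : NF ψ N a b = NF ψ M a b := by
  unfold NF
  have e1 : ∑ m ∈ Finset.Icc (-(N : ℤ)) N, ‖a m + b m‖ ^ 2 / (m : ℝ) =
      ∑ m ∈ Finset.Icc (-(M : ℤ)) M, ‖a m + b m‖ ^ 2 / (m : ℝ) :=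
    win_eq h fun n hn => by rw [ha n hn, hb n hn]; simp
  have e2 : ∑ m ∈ Finset.Icc (-(N : ℤ)) N, ∑ n ∈ Finset.Icc (-(N : ℤ)) N, a m * (starRingEnd ℂ) (b n) * Kc ψ m n =
      ∑ m ∈ Finset.Icc (-(M : ℤ)) M, ∑ n ∈ Finset.Icc (-(M : ℤ)) M, a m * (starRingEnd ℂ) (b n) * Kc ψ m n := by
    rw [win_eq h fun m hm => Finset.sum_eq_zero fun n _ => by rw [ha m hm]; ring]
    exact Finset.sum_congr rfl fun m _ => win_eq h fun n hn => by rw [hb n hn, map_zero]; ring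
  rw [e1, e2]

theorem LQ_win (h : M ≤ N) {u : ℤ → ℂ} (hu : Sup M u) (F : ℤ → ℂ) : LQ N F u = LQ M F u := by
  unfold LQ
  congr 1
  have hn : ∀ m : ℤ, m ∉ Finset.Icc (-(M : ℤ)) M → u (-m) = 0 := fun m hm => hu _ (by
    rw [Finset.mem_Icc] at hm ⊢; omega)
  rw [win_eq h fun m hm => Finset.sum_eq_zero fun n _ => by rw [hu m hm, hn m hm, map_zero]; ring]
  exact Finset.sum_congr rfl fun m _ => win_eq h fun n hn => by rw [hu n hn]; ring

theorem SQ_win (h : M ≤ N) {u : ℤ → ℂ} (hu : Sup M u) (η : ℂ) : SQ (N + 2) η u = SQ (M + 2) η u := by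
  rw [SQ_dt (Sup.mono h hu), SQ_dt hu, dt_win h hu]

theorem S1Q_win (h : M ≤ N) {u : ℤ → ℂ} (hu : Sup M u) : S1Q N u = S1Q M u := by
  unfold S1Q
  exact win_eq h fun n hn => by rw [hu n hn]; simp

theorem gLQ_win (h : M ≤ N) {u : ℤ → ℂ} (hu : Sup M u) (F : ℤ → ℂ) (n : ℤ) : gLQ N F u n = gLQ M F u n := by
  unfold gLQ
  refine win_eq h fun k hk => ?_
  have : u (-k) = 0 := hu _ (by rw [Finset.mem_Icc] at hk ⊢; omega)
  rw [hu k hk, this, map_zero]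
  ring

theorem gNA_win (h : M ≤ N) {a b : ℤ → ℂ} (hb : Sup M b) (ψ : ℝ → ℝ) (m : ℤ) : gNA ψ N a b m = gNA ψ M a b m := by
  unfold gNA
  rw [win_eq h fun n hn => by rw [hb n hn]; ring]

theorem gNB_win (h : M ≤ N) {a b : ℤ → ℂ} (ha : Sup M a) (ψ : ℝ → ℝ) (m : ℤ) : gNB ψ N a b m = gNB ψ M a b m := by
  unfold gNB
  rw [win_eq h fun n hn => by rw [ha n hn]; ring]

theorem wF_win (h : M ≤ N) {a : ℤ → ℂ} (ha : Sup M a) (Θ Θ' : ℝ → ℝ) (l : ℤ) : wF Θ Θ' N a l = wF Θ Θ' M a l := by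
  unfold wF
  rw [win_eq h fun n hn => by rw [ha n hn, zero_mul, zero_mul, map_zero, add_zero]]

theorem e0I_win (h : M ≤ N) (P : Par) (a : Arr M p r s) (Θ1 Θ1' Θ2 Θ2' : ℝ → ℝ) :
    e0I P Θ1 Θ1' Θ2 Θ2' N p r s = e0I P Θ1 Θ1' Θ2 Θ2' M p r s := by
  have h1 := C1_sup P M a.sp a.sr a.ss
  have h2 := C2_sup P M a.sp a.sr a.ss
  unfold e0I
  rw [win_eq (show M + 3 ≤ N + 3 by omega) fun n hn => by rw [h1 n hn]; simp,
    win_eq (show M + 3 ≤ N + 3 by omega) fun n hn => by rw [h2 n hn]; simp]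

theorem WA_win (h : M ≤ N) (P : Par) (a : Arr M p r s) (Θ1 Θ1' Θ2 Θ2' : ℝ → ℝ) (l : ℤ) :
    WA P Θ1 Θ1' Θ2 Θ2' N p r s l = WA P Θ1 Θ1' Θ2 Θ2' M p r s l := by
  unfold WA
  rw [wF_win (show M + 3 ≤ N + 3 by omega) (C1_sup P M a.sp a.sr a.ss),
    wF_win (show M + 3 ≤ N + 3 by omega) (C2_sup P M a.sp a.sr a.ss)]

theorem L1A_win (h : M ≤ N) (P : Par) (a : Arr M p r s) : L1A P N p r = L1A P M p r := by
  unfold L1A
  congr 1
  refine win_eq (by omega) fun n hn => ?_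
  rw [alA_sup a.sp a.sr (2 * n) (by rw [Finset.mem_Icc] at hn ⊢; omega)]
  simp

theorem LA_win (h : M ≤ N) (P : Par) (a : Arr M p r s) : LA P N p r s = LA P M p r s := by
  have k1 : ∀ N : ℕ, LA P N p r s = dt (N + 2) (G1A P p r s) (fc (Z1 P))
      + dt (N + 2) (G2A P p r s) (fc (Z2 P)) + (9 - P.cs) * (SQ (N + 2) P.eta p + SQ (N + 2) P.eta r) := by
    intro N
    unfold LA SQ dt
    rw [Finset.sum_add_distrib, Complex.add_re]
  rw [k1, k1, dt_win (show M + 2 ≤ N + 2 by omega) (G1A_sup P M a.sp a.sr a.ss),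
    dt_win (show M + 2 ≤ N + 2 by omega) (G2A_sup P M a.sp a.sr a.ss), SQ_win h a.sp, SQ_win h a.sr]

end

section

variable (c : CD) {M N : ℕ} {p r s : ℤ → ℂ}

theorem zes_sup (hM : c.K0 ≤ M) (a : Arr M p r s) : Sup M (zes c s) := sup_sub a.ss (Sup.mono hM c.L.sz)
theorem zep_sup (hM : c.K0 ≤ M) (a : Arr M p r s) : Sup M (zep c p) := sup_sub a.sp (Sup.mono hM c.L.s2)
theorem zer_sup (hM : c.K0 ≤ M) (a : Arr M p r s) : Sup M (zer c r) := sup_sub a.sr (Sup.mono hM c.L.s3)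

theorem LoA_win (h : M ≤ N) (hM : c.K0 ≤ M) (a : Arr M p r s) : LoA c.L N p r s = LoA c.L M p r s := by
  have k : ∀ N : ℕ, LoA c.L N p r s = LQ N (Fw c) (zes c s) - c.L.p2 * SQ (N + 2) c.P.eta (zep c p)
      - c.L.p3 * SQ (N + 2) c.P.eta (zer c r) := fun N => rfl
  rw [k, k, LQ_win h (zes_sup c hM a), SQ_win h (zep_sup c hM a), SQ_win h (zer_sup c hM a)]

theorem Lo1A_win (h : M ≤ N) (hM : c.K0 ≤ M) (a : Arr M p r s) : Lo1A c.L N p r s = Lo1A c.L M p r s := by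
  have k : ∀ N : ℕ, Lo1A c.L N p r s = LQ N (Fn c) (zes c s) - c.L.p2 * S1Q N (zep c p)
      - c.L.p3 * S1Q N (zer c r) := fun N => rfl
  rw [k, k, LQ_win h (zes_sup c hM a), S1Q_win h (zep_sup c hM a), S1Q_win h (zer_sup c hM a)]

theorem NrA_win (h : M ≤ N) (d1 d2 : ℝ → ℂ) (a : Arr M p r s) : NrA d1 d2 N p r s = NrA d1 d2 M p r s := by
  have k1 : ∀ N : ℕ, NrA d1 d2 N p r s = dt N (g1A p r s) (fc d1) + dt N (g2A p r s) (fc d2)
      - 2 + (p 0).re + 3 / 4 * S1Q N p - 1 / 5 := fun N => rfl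
  rw [k1, k1, dt_win h (g1A_sup M a.sp a.sr a.ss), dt_win h (g2A_sup M a.sp a.sr a.ss), S1Q_win h a.sp]

theorem NrLA_win (h : M ≤ N) (hM : c.K0 ≤ M) (a : Arr M p r s) : NrLA c.L N p r s = NrLA c.L M p r s := by
  have k1 : ∀ N : ℕ, NrLA c.L N p r s = dt N (g1A p r s) (fc c.P.u1) + dt N (g2A p r s) (fc c.P.u2)
      + 1 / 2 * Lo1A c.L N p r s - 2 + (p 0).re + 3 / 4 * S1Q N p - 1 / 5 := fun N => rfl
  rw [k1, k1, dt_win h (g1A_sup M a.sp a.sr a.ss), dt_win h (g2A_sup M a.sp a.sr a.ss), S1Q_win h a.sp,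
    Lo1A_win c h hM a]

theorem HG_win (h : M ≤ N) (hM : c.K0 ≤ M) (a : Arr M p r s) : HG c N p r s = HG c M p r s := by
  unfold HG
  rw [L1A_win h c.P a, e0I_win h c.P a, NF_win (show M + 3 ≤ N + 3 by omega) (C1_sup c.P M a.sp a.sr a.ss)
    (C2_sup c.P M a.sp a.sr a.ss), LA_win h c.P a, LoA_win c h hM a, NrLA_win c h hM a, NrA_win h c.d1 c.d2 a]

theorem qk_win (h : M ≤ N) (a : Arr M p r s) (k : ℕ) : qk c N p r s k = qk c M p r s k := by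
  unfold qk
  rw [WA_win h c.P a]

theorem U1_win (h : M ≤ N) (a : Arr M p r s) : U1 c N p r s = U1 c M p r s := by
  funext n
  unfold U1 gA
  rw [gNA_win (show M + 3 ≤ N + 3 by omega) (C2_sup c.P M a.sp a.sr a.ss)]

theorem U2_win (h : M ≤ N) (a : Arr M p r s) : U2 c N p r s = U2 c M p r s := by
  funext n
  unfold U2 gB
  rw [gNB_win (show M + 3 ≤ N + 3 by omega) (C1_sup c.P M a.sp a.sr a.ss)]

theorem Xr_win (h : M ≤ N) (hM : c.K0 ≤ M) (a : Arr M p r s) : Xr c N p r s = Xr c M p r s := by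
  funext n
  unfold Xr
  rw [U1_win c h a, U2_win c h a, gLQ_win h (zes_sup c hM a), gLQ_win h (zes_sup c hM a)]

theorem Yr_win (h : M ≤ N) (a : Arr M p r s) : Yr c N p r s = Yr c M p r s := by
  funext n
  unfold Yr
  rw [U1_win c h a, U2_win c h a]

theorem Zr_win (h : M ≤ N) (a : Arr M p r s) : Zr c N p r s = Zr c M p r s := by
  funext n
  unfold Zr
  rw [U1_win c h a, U2_win c h a]

end

/-! ### splitting -/

theorem tr_apply (K : ℕ) (f : ℤ → ℂ) (n : ℤ) : tr K f n = if n ∈ Finset.Icc (-(K : ℤ)) K then f n else 0 := by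
  by_cases h : n ∈ Finset.Icc (-(K : ℤ)) K
  · rw [tr_mem h, if_pos h]
  · rw [tr_sup K _ n h, if_neg h]

/-- the tail of an array -/
noncomputable def tl (K : ℕ) (f : ℤ → ℂ) (n : ℤ) : ℂ := if n ∈ Finset.Icc (-(K : ℤ)) K then 0 else f n

theorem tr_add_tl (K : ℕ) (f : ℤ → ℂ) : (fun n => tr K f n + tl K f n) = f := by
  funext n
  rw [tr_apply]
  unfold tl
  split_ifs <;> simp

theorem tr_disj (K : ℕ) (f g : ℤ → ℂ) (n : ℤ) : tr K f n = 0 ∨ tl K g n = 0 := by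
  rw [tr_apply]
  unfold tl
  split_ifs
  · right; rfl
  · left; rfl

theorem neg_mem (K : ℕ) (n : ℤ) : -n ∈ Finset.Icc (-(K : ℤ)) K ↔ n ∈ Finset.Icc (-(K : ℤ)) K := by
  rw [Finset.mem_Icc, Finset.mem_Icc]; omega

theorem tr_herm (K : ℕ) {f : ℤ → ℂ} (hf : ∀ n, f (-n) = (starRingEnd ℂ) (f n)) (n : ℤ) :
    tr K f (-n) = (starRingEnd ℂ) (tr K f n) := by
  rw [tr_apply, tr_apply]
  simp only [neg_mem]
  split_ifs
  · exact hf n
  · rw [map_zero]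

theorem tl_herm (K : ℕ) {f : ℤ → ℂ} (hf : ∀ n, f (-n) = (starRingEnd ℂ) (f n)) (n : ℤ) :
    tl K f (-n) = (starRingEnd ℂ) (tl K f n) := by
  unfold tl
  simp only [neg_mem]
  split_ifs
  · rw [map_zero]
  · exact hf n

theorem tr_par (K : ℕ) {f : ℤ → ℂ} {q : ℤ → Prop} (hf : ∀ n, q n → f n = 0) (n : ℤ) (hn : q n) : tr K f n = 0 := by
  rw [tr_apply, hf n hn]; simp

theorem tl_par (K : ℕ) {f : ℤ → ℂ} {q : ℤ → Prop} (hf : ∀ n, q n → f n = 0) (n : ℤ) (hn : q n) : tl K f n = 0 := by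
  unfold tl; rw [hf n hn]; simp

theorem tl_sup {K N : ℕ} {f : ℤ → ℂ} (hf : Sup N f) : Sup N (tl K f) := fun n hn => by
  unfold tl; rw [hf n hn]; simp

theorem arr_head {N K L : ℕ} {p r s : ℤ → ℂ} (a : Arr N p r s) :
    Arr (max K L) (tr L p) (tr L r) (tr K s) :=
  ⟨Sup.mono (le_max_right _ _) (tr_sup L _), Sup.mono (le_max_right _ _) (tr_sup L _),
    Sup.mono (le_max_left _ _) (tr_sup K _), tr_herm L a.hp, tr_herm L a.hr, tr_par L a.ep, tr_par L a.er,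
    tr_par K a.es⟩

theorem arr_tail {N : ℕ} (K L : ℕ) {p r s : ℤ → ℂ} (a : Arr N p r s) : Arr N (tl L p) (tl L r) (tl K s) :=
  ⟨tl_sup a.sp, tl_sup a.sr, tl_sup a.ss, tl_herm L a.hp, tl_herm L a.hr, tl_par L a.ep, tl_par L a.er,
    tl_par K a.es⟩

/-- tails of the windows `K`, `L` -/
structure TlKL (K L : ℕ) (p r s : ℤ → ℂ) : Prop where
  p0 : ∀ n : ℤ, n ∈ Finset.Icc (-(L : ℤ)) L → p n = 0
  r0 : ∀ n : ℤ, n ∈ Finset.Icc (-(L : ℤ)) L → r n = 0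
  s0 : ∀ n : ℤ, n ∈ Finset.Icc (-(K : ℤ)) K → s n = 0

theorem tlKL (K L : ℕ) (p r s : ℤ → ℂ) : TlKL K L (tl L p) (tl L r) (tl K s) :=
  ⟨fun n hn => by unfold tl; rw [if_pos hn], fun n hn => by unfold tl; rw [if_pos hn],
    fun n hn => by unfold tl; rw [if_pos hn]⟩

theorem TlKL.tl4 {K L : ℕ} {p r s : ℤ → ℂ} (h : TlKL K L p r s) (hL : 4 ≤ L) (hK : 5 ≤ K) : Tl4 p r s :=
  ⟨fun n hn => h.p0 n (by rw [Finset.mem_Icc] at hn ⊢; omega),
    fun n hn => h.r0 n (by rw [Finset.mem_Icc] at hn ⊢; omega),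
    fun n hn => h.s0 n (by rw [Finset.mem_Icc] at hn ⊢; omega)⟩

/-- **FROM THE COORDINATES OF THE HEAD TO ALL ARRAYS** -/
theorem GI_nonneg {c : CD} {K L : ℕ} (hK : ¬ Even K) (N0 : ℕ) (HF : (ℕ → ℝ) → ℝ)
    (hHF : ∀ v : ℕ → ℝ, v 0 = 1 → 0 ≤ HF v)
    (hT : ∀ N, N0 ≤ N → ∀ v : ℕ → ℝ, v 0 = 1 → ∀ p' r' s' : ℤ → ℂ, Arr N p' r' s' → TlKL K L p' r' s' →
      HF v ≤ GI c N (fun n => pV K L v n + p' n) (fun n => rV K L v n + r' n) (fun n => sV K v n + s' n)) :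
    ∀ N, N0 ≤ N → ∀ p r s, Arr N p r s → 0 ≤ GI c N p r s := by
  intro N hN p r s a
  set v := vOf K L (tr L p) (tr L r) (tr K s) with hv
  have v0 : v 0 = 1 := vOf_zero _ _ _ _ _
  have e1 : pV K L v = tr L p := pV_vOf K L (tr_sup L _) (tr_herm L a.hp) (tr_par L a.ep)
  have e2 : rV K L v = tr L r := rV_vOf K L (tr_sup L _) (tr_herm L a.hr) (tr_par L a.er)
  have e3 : sV K v = tr K s := sV_vOf hK L (tr_sup K _) (tr_par K a.es)
  have h := hT N hN v v0 _ _ _ (arr_tail K L a) (tlKL K L p r s)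
  rw [e1, e2, e3, tr_add_tl, tr_add_tl, tr_add_tl] at h
  exact (hHF v v0).trans h

end Helper95.SH
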