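import Pool.Agent.Helper95.SH.CoordQ
import Pool.Agent.Helper41.SH.Inv

/-!
# Project RC, SHARP: the coordinate form of `EP` for inverse alignments

`P.ph1 = inv Θ1`, `P.ph2 = inv Θ2` (Helper41/SH/Inv). `En Θ n k = fc (e^{i n Θ}) k`, `Rn Θ Θ' n k = En Θ n k / n`, and
`fc Θ' k / k` for `n = 0`.
`eF_inv`: the aligned moment of a finite array is `(l² - 1) wF` for even `l`,
`wF Θ Θ' M a l = - (1/2) ∑ (a n Rn n (l+1) + conj (a n Rn n (1-l)))`.
`D2_inv`: with `γ = 0` the functional `D2` is `- (2/ν) ∑ (l² - 1) |H_l - (ν/2) W_l|²`.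
`EP_coordI`: the complete finite formula.
-/

open MeasureTheory Set Filter Topology

namespace Helper95.SH

open Helper49.LT hiding sg
open Helper49.RC (om)
open Helper95.RC
open Helper49.Sharp
open Helper41.SH (IA inv trp)
open Helper87.RC (Fam BM intg_of_bddC intg_of_bdd fc_eq fc_sub fc_cmul fc_add fc_conj pars pars2 fc_G1 fc_G2)
open Helper56.RC (fc)
open Helper44.RCG (G1 G2 N0)
open Helper44.GQ (aQ cQ AdmQ A0Q AAQ BBQ FMQ mQ Rq F1Q F2Q)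
open Helper49.RC (vvS Wgt)
open Pool.Agent.Helper20.RC (lk lk_ge lk_sq eD eM sM DensI alQ wR wR_wgt wt wt_wR L1)

/-- the coefficients of `e^{i n Θ}` -/
noncomputable def En (Θ : ℝ → ℝ) (n m : ℤ) : ℂ := fc (fun x => ee ((n : ℝ) * Θ x)) m

/-- `En n k / n`, with its limit for `n = 0` -/
noncomputable def Rn (Θ Θ' : ℝ → ℝ) (n k : ℤ) : ℂ :=
  if n = 0 then fc (fun x => (Θ' x : ℂ)) k / (k : ℂ) else En Θ n k / (n : ℂ)

/-- `e_l / (l² - 1)` of a finite array -/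
noncomputable def wF (Θ Θ' : ℝ → ℝ) (M : ℕ) (a : ℤ → ℂ) (l : ℤ) : ℂ :=
  -(1 / 2) * ∑ n ∈ Finset.Icc (-(M : ℤ)) M,
    (a n * Rn Θ Θ' n (l + 1) + (starRingEnd ℂ) (a n * Rn Θ Θ' n (1 - l)))

section

variable {Θ Θ' : ℝ → ℝ}

theorem En_neg (Θ : ℝ → ℝ) (n m : ℤ) : En Θ (-n) m = (starRingEnd ℂ) (En Θ n (-m)) := by
  unfold En
  rw [← fc_conj]
  congr 1
  funext x
  rw [← ee_neg]
  congr 1
  push_cast
  ring

theorem Rn_neg (Θ Θ' : ℝ → ℝ) (n k : ℤ) : Rn Θ Θ' (-n) k = -(starRingEnd ℂ) (Rn Θ Θ' n (-k)) := by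
  unfold Rn
  by_cases hn : n = 0
  · subst hn
    rw [neg_zero, if_pos rfl, if_pos rfl, map_div₀, fc_real_neg Θ' k, Complex.conj_conj]
    have : (starRingEnd ℂ) ((-k : ℤ) : ℂ) = -(k : ℂ) := by
      rw [map_intCast]; push_cast; rfl
    rw [this, div_neg, neg_neg]
  · rw [if_neg (neg_ne_zero.2 hn), if_neg hn, En_neg, map_div₀, map_intCast]
    push_cast
    rw [div_neg]

/-- the coefficient of the alignment -/
theorem Tc_inv (h : IA Θ Θ') {k : ℤ} (hk : k ≠ 0) (n : ℤ) :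
    (starRingEnd ℂ) (Tc (inv Θ) k n) = (k : ℂ) * Rn Θ Θ' n k := by
  have hkc : (k : ℂ) ≠ 0 := by exact_mod_cast hk
  have e1 : (starRingEnd ℂ) (Tc (inv Θ) k n) = mo (inv Θ) (fun θ => ee ((n : ℝ) * θ)) (k : ℝ) := by
    unfold Tc mo
    rw [← av_conj]
    congr 1
    funext θ
    rw [map_mul, ← ee_neg, ← ee_neg, mul_comm]
    congr 2
    ring
  rw [e1, h.mo_inv (fun x => ee_int n x) k]
  unfold Rn
  by_cases hn : n = 0
  · subst hn
    rw [if_pos rfl]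
    have e2 : trp Θ Θ' (fun θ => ee (((0 : ℤ) : ℝ) * θ)) = fun x => (Θ' x : ℂ) := by
      funext x
      simp only [trp, Int.cast_zero, zero_mul, ee_zero, mul_one]
    rw [e2]
    field_simp
  · rw [if_neg hn, h.fc_mode hn]
    unfold En
    ring

theorem eF_inv (h : IA Θ Θ') (M : ℕ) (a : ℤ → ℂ) {l : ℤ} (hl : Even l) :
    eF (inv Θ) M a l = ((l : ℂ) ^ 2 - 1) * wF Θ Θ' M a l := by
  have h1 : l + 1 ≠ 0 := by
    intro h0
    obtain ⟨j, hj⟩ := hl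
    omega
  have h2 : l - 1 ≠ 0 := by
    intro h0
    obtain ⟨j, hj⟩ := hl
    omega
  unfold eF mF mG wF
  rw [Finset.mul_sum, Finset.mul_sum, ← Finset.sum_add_distrib, Finset.mul_sum, Finset.mul_sum]
  refine Finset.sum_congr rfl fun n _ => ?_
  rw [Tc_inv h h1 n, Tc_inv h h2 (-n), Rn_neg, neg_sub, map_mul]
  push_cast
  ring

theorem wF_zero (Θ Θ' : ℝ → ℝ) (M : ℕ) (a : ℤ → ℂ) :
    wF Θ Θ' M a 0 = -((∑ n ∈ Finset.Icc (-(M : ℤ)) M, (a n * Rn Θ Θ' n 1).re : ℝ) : ℂ) := by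
  unfold wF
  push_cast
  rw [Finset.mul_sum, ← Finset.sum_neg_distrib]
  refine Finset.sum_congr rfl fun n _ => ?_
  rw [Complex.add_conj]
  push_cast
  ring

end

/-- `D2` for `γ = 0` and `e_l = (l² - 1) W_l` -/
theorem D2_inv {ν : ℝ} (hν : 0 < ν) (H W : ℕ → ℂ) :
    D2 ν H (fun k => ((lk k : ℂ) ^ 2 - 1) * W k) 0 =
      -(2 / ν) * ∑' k : ℕ, (lk k ^ 2 - 1) * ‖H k - (ν / 2 : ℂ) * W k‖ ^ 2 := by
  unfold D2
  rw [← tsum_mul_left]
  congr 1
  funext k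
  beta_reduce
  have hs := lk_sq k
  have e0 : ((lk k : ℂ) ^ 2 - 1) = ((lk k ^ 2 - 1 : ℝ) : ℂ) := by push_cast; rfl
  rw [Pi.zero_apply, map_zero, mul_zero, sub_zero, e0, Complex.zero_re]
  have e1 : ‖((lk k ^ 2 - 1 : ℝ) : ℂ) * W k‖ ^ 2 = (lk k ^ 2 - 1) ^ 2 * ‖W k‖ ^ 2 := by
    rw [norm_mul, mul_pow, Complex.norm_real, Real.norm_eq_abs, sq_abs]
  have e2 : (H k * (starRingEnd ℂ) (((lk k ^ 2 - 1 : ℝ) : ℂ) * W k)).re =
      (lk k ^ 2 - 1) * (H k * (starRingEnd ℂ) (W k)).re := by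
    rw [map_mul, Complex.conj_ofReal, ← Complex.re_ofReal_mul]
    congr 1
    ring
  have e3 : ‖H k - (ν / 2 : ℂ) * W k‖ ^ 2 = ‖H k‖ ^ 2 - ν * (H k * (starRingEnd ℂ) (W k)).re
      + (ν / 2) ^ 2 * ‖W k‖ ^ 2 := by
    have e4 : (ν / 2 : ℂ) = ((ν / 2 : ℝ) : ℂ) := by push_cast; rfl
    rw [e4, ← Complex.normSq_eq_norm_sq, ← Complex.normSq_eq_norm_sq, ← Complex.normSq_eq_norm_sq,
      Complex.normSq_apply, Complex.normSq_apply, Complex.normSq_apply, Complex.sub_re, Complex.sub_im,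
      Complex.re_ofReal_mul, Complex.im_ofReal_mul, Complex.mul_re, Complex.conj_re, Complex.conj_im]
    ring
  rw [e1, e2, e3]
  have hs' := hs.ne'
  field_simp
  ring

section

variable (P : Par) (Θ1 Θ1' Θ2 Θ2' : ℝ → ℝ) (N : ℕ) (p r s : ℤ → ℂ)

/-- `W_l` of the families -/
noncomputable def WA (l : ℤ) : ℂ := wF Θ1 Θ1' (N + 3) (C1 P p r s) l + wF Θ2 Θ2' (N + 3) (C2 P p r s) l

/-- `e_0` of the families -/
noncomputable def e0I : ℝ :=
  (∑ n ∈ Finset.Icc (-((N + 3 : ℕ) : ℤ)) ((N + 3 : ℕ) : ℤ), (C1 P p r s n * Rn Θ1 Θ1' n 1).re)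
  + ∑ n ∈ Finset.Icc (-((N + 3 : ℕ) : ℤ)) ((N + 3 : ℕ) : ℤ), (C2 P p r s n * Rn Θ2 Θ2' n 1).re

/-- the functional without the local part, for inverse alignments and `γ = 0` -/
noncomputable def EI : ℝ :=
  2 / 3 * ‖sgA P p r‖ ^ 2 + 4 / 3 * ((starRingEnd ℂ) (sgA P p r) * P.eta).re
  + L1A P N p r
  + 2 * H0A P p r * e0I P Θ1 Θ1' Θ2 Θ2' N p r s - P.pr2 * (H0A P p r - P.h0) ^ 2
  - 2 / P.nu * ∑' k : ℕ, (lk k ^ 2 - 1) *
      ‖HkA P p r k - (P.nu / 2 : ℂ) * WA P Θ1 Θ1' Θ2 Θ2' N p r s (2 * k + 2)‖ ^ 2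
  + NF P.ps (N + 3) (C1 P p r s) (C2 P p r s) - 9

end

section

variable {P : Par} {Θ1 Θ1' Θ2 Θ2' : ℝ → ℝ} {p r s : ℤ → ℂ}

theorem even_two_mul_add (k : ℕ) : Even (2 * (k : ℤ) + 2) := ⟨(k : ℤ) + 1, by ring⟩

/-- the functional in the arrays, inverse alignments -/
theorem EA_inv (hr : P.Reg) (h1 : IA Θ1 Θ1') (h2 : IA Θ2 Θ2') (e1 : P.ph1 = inv Θ1) (e2 : P.ph2 = inv Θ2)
    (hg : P.ga = 0) (N : ℕ) (p r s : ℤ → ℂ) : EA P N p r s = EI P Θ1 Θ1' Θ2 Θ2' N p r s := by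
  have a0 : (eAA P N p r s 0).re = e0I P Θ1 Θ1' Θ2 Θ2' N p r s := by
    unfold eAA e0I
    rw [e1, e2, eF_inv h1 _ _ (by norm_num), eF_inv h2 _ _ (by norm_num), wF_zero, wF_zero]
    have hz : ∀ x : ℝ, (((0 : ℤ) : ℂ) ^ 2 - 1) * -(x : ℂ) = (x : ℂ) := fun x => by push_cast; ring
    rw [hz, hz, Complex.add_re, Complex.ofReal_re, Complex.ofReal_re]
  have ak : (fun k : ℕ => eAA P N p r s (2 * k + 2)) =
      fun k : ℕ => ((lk k : ℂ) ^ 2 - 1) * WA P Θ1 Θ1' Θ2 Θ2' N p r s (2 * k + 2) := by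
    funext k
    unfold eAA WA
    rw [e1, e2, eF_inv h1 _ _ (even_two_mul_add k), eF_inv h2 _ _ (even_two_mul_add k), lk_int k]
    push_cast
    ring
  unfold EA EI
  rw [a0, ak, hg, D2_inv hr.nu0]
  ring

/-- **THE COMPLETE FINITE FORMULA for inverse alignments** -/
theorem EP_coordI {K : ℕ} {b z : ℝ → ℂ} (hr : P.Reg) (L : Lo P K) (h1 : IA Θ1 Θ1') (h2 : IA Θ2 Θ2')
    (e1 : P.ph1 = inv Θ1) (e2 : P.ph2 = inv Θ2) (hg : P.ga = 0) (d : Dat b z) {N : ℕ} (hN : K ≤ N) :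
    P.EP (SN N b) (SN N z) = EI P Θ1 Θ1' Θ2 Θ2' N (tr N (pr b)) (tr N (qr b)) (tr N (fc z))
      + LA P N (tr N (pr b)) (tr N (qr b)) (tr N (fc z))
      + (P.m - P.lam) * LoA L N (tr N (pr b)) (tr N (qr b)) (tr N (fc z)) := by
  rw [EP_coord3 hr L d hN, EA_inv hr h1 h2 e1 e2 hg]

end

/-! ### `Θ x = x - D x`, `D` a real trigonometric polynomial -/

/-- the coefficients of `e^{i n Θ}` through those of `e^{- i n D}` -/
theorem En_D (D : ℝ → ℝ) (n k : ℤ) :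
    En (fun x => x - D x) n k = fc (fun x => ee (-((n : ℝ) * D x))) (k - n) := by
  unfold En
  rw [← Helper87.RC.fc_ee (fun x => ee (-((n : ℝ) * D x))) n k]
  congr 1
  funext x
  rw [← ee_add]
  congr 1
  ring

/-- coefficients of a derivative -/
theorem fc_deriv {D D' : ℝ → ℝ} (hd : ∀ x, HasDerivAt D (D' x) x) (hc : Continuous D')
    (hp : ∀ x, D (x + 2 * Real.pi) = D x) (k : ℤ) :
    fc (fun x => (D' x : ℂ)) k = Complex.I * k * fc (fun x => (D x : ℂ)) k := by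
  have h1 : ∀ x, HasDerivAt (fun x => (D x : ℂ)) (D' x : ℂ) x := fun x => (hd x).ofReal_comp
  have he : ∀ x : ℝ, HasDerivAt (fun x : ℝ => ee (-(k : ℝ) * x)) (-(Complex.I * k) * ee (-(k : ℝ) * x)) x := by
    intro x
    unfold ee
    have h1 : HasDerivAt (fun x : ℝ => ((-(k : ℝ) * x : ℝ) : ℂ) * Complex.I) (((-(k : ℝ) * 1 : ℝ) : ℂ) * Complex.I) x :=
      (((hasDerivAt_id x).const_mul (-(k : ℝ))).ofReal_comp).mul_const Complex.I
    refine h1.cexp.congr_deriv ?_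
    push_cast
    ring
  have hce : Continuous fun x : ℝ => ee (-(k : ℝ) * x) := continuous_iff_continuousAt.2 fun x => (he x).continuousAt
  have hcD : Continuous fun x : ℝ => (D' x : ℂ) := Complex.continuous_ofReal.comp hc
  have h3 := intervalIntegral.integral_mul_deriv_eq_deriv_mul (a := 0) (b := 2 * Real.pi)
    (fun x _ => he x) (fun x _ => h1 x)
    ((continuous_const.mul hce).intervalIntegrable _ _) (hcD.intervalIntegrable _ _)
  have e2 : ee (-(k : ℝ) * (2 * Real.pi)) = ee (-(k : ℝ) * 0) := by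
    have := ee_int (-k) 0
    rw [zero_add] at this
    push_cast at this
    exact this
  have e3 := hp 0
  rw [zero_add] at e3
  rw [e2, e3, sub_self, zero_sub] at h3
  rw [fc_eq, fc_eq]
  have e5 : ∫ x in (0 : ℝ)..(2 * Real.pi), ee (-(k : ℝ) * x) * (D' x : ℂ) =
      ∫ x in (0 : ℝ)..(2 * Real.pi), (D' x : ℂ) * ee (-(k : ℝ) * x) := by
    refine intervalIntegral.integral_congr fun x _ => ?_
    show _ = _
    ring
  have e6 : ∫ x in (0 : ℝ)..(2 * Real.pi), -(Complex.I * k) * ee (-(k : ℝ) * x) * (D x : ℂ) =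
      -(Complex.I * k) * ∫ x in (0 : ℝ)..(2 * Real.pi), (D x : ℂ) * ee (-(k : ℝ) * x) := by
    rw [← intervalIntegral.integral_const_mul]
    refine intervalIntegral.integral_congr fun x _ => ?_
    show _ = _
    ring
  rw [e5, e6] at h3
  rw [h3]
  ring

/-- `Rn` for `Θ x = x - D x` at `n = 0` -/
theorem Rn_zero_D {D D' : ℝ → ℝ} (hd : ∀ x, HasDerivAt D (D' x) x) (hc : Continuous D')
    (hp : ∀ x, D (x + 2 * Real.pi) = D x) {k : ℤ} (hk : k ≠ 0) :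
    Rn (fun x => x - D x) (fun x => 1 - D' x) 0 k = -(Complex.I * fc (fun x => (D x : ℂ)) k) := by
  have hkc : (k : ℂ) ≠ 0 := by exact_mod_cast hk
  unfold Rn
  rw [if_pos rfl]
  have h1 : BM (fun _ : ℝ => (1 : ℂ)) 1 := ⟨measurable_const, fun _ => by simp⟩
  obtain ⟨C, hC⟩ : ∃ C, ∀ x, |D' x| ≤ C := by
    have hp' : ∀ x, D' (x + 2 * Real.pi) = D' x := by
      intro x
      have a1 := (hd (x + 2 * Real.pi)).comp_add_const x (2 * Real.pi)
      have a2 : (fun y => D (y + 2 * Real.pi)) = D := funext hp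
      rw [a2] at a1
      exact a1.unique (hd x)
    have hper : Function.Periodic D' (2 * Real.pi) := hp'
    obtain ⟨C, hC⟩ := isBounded_iff_forall_norm_le.1 (hper.isBounded_of_continuous (by positivity) hc)
    exact ⟨C, fun x => hC _ ⟨x, rfl⟩⟩
  have h2 : BM (fun x => (D' x : ℂ)) C := bm_real hc.measurable hC
  have e : (fun x => ((1 - D' x : ℝ) : ℂ)) = fun x => 1 - (D' x : ℂ) := by funext x; push_cast; rfl
  have e1 : fc (fun _ : ℝ => (1 : ℂ)) k = 0 := by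
    have := Helper95.RC.fc_ee 0 k
    simp only [Int.cast_zero, zero_mul, ee_zero] at this
    rw [this, if_neg (Ne.symm hk)]
  rw [e, fc_sub h1 h2, e1, zero_sub, fc_deriv hd hc hp]
  field_simp

end Helper95.SH
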