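import Pool.Agent.Helper95.SH.Cont1
import Pool.Agent.Helper49.RC.Comb4

/-!
# Project RC, SHARP: continuity of the pieces of `EP` along the trigonometric sections
-/

open MeasureTheory Set Filter Topology

namespace Helper95.SH

open Helper49.LT hiding sg
open Helper49.RC (om)
open Helper95.RC
open Helper49.Sharp
open Helper87.RC (Fam BM intg_of_bddC intg_of_bdd fc_eq fc_sub fc_cmul fc_add fc_conj pars pars2 fc_G1 fc_G2)
open Helper56.RC (fc)
open Helper44.RCG (G1 G2 N0)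
open Helper44.GQ (aQ cQ AdmQ A0Q AAQ BBQ FMQ mQ Rq F1Q F2Q)
open Helper49.RC (vvS Wgt)
open Pool.Agent.Helper20.RC (lk lk_ge lk_sq eD eM sM DensI alQ wR wR_wgt wt wt_wR L1)

section

variable {P : Par} {b z : ℝ → ℂ}

theorem sig_lim (hb : BF b) : Tendsto (fun N => P.sig (SN N b)) atTop (𝓝 (P.sig b)) := by
  have h1 := (tl_p P.eta hb).at_ 2
  have h2 := (tl_r P.eta hb).at_ 2
  exact h1.sub (h2.const_mul Complex.I)

theorem fc_al (hr : P.Reg) (hb : BF b) (n : ℤ) :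
    fc (P.al b) n = pc P.w b n + Complex.I / 2 * rc P.w b n := by
  have h := fc_alQ (q := 2) hr.wgt hb n
  push_cast at h
  exact h

theorem tl_al (hr : P.Reg) (hb : BF b) : Tl (fc (P.al b)) (fun N => fc (P.al (SN N b))) := by
  have h := (tl_p P.eta hb).add ((tl_r P.eta hb).cmul (Complex.I / 2))
  have e1 : fc (P.al b) = fun n => pc (wR P.eta 0 0) b n + Complex.I / 2 * rc (wR P.eta 0 0) b n :=
    funext fun n => fc_al hr hb n
  have e2 : (fun N => fc (P.al (SN N b))) = fun N n => pc (wR P.eta 0 0) (SN N b) n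
      + Complex.I / 2 * rc (wR P.eta 0 0) (SN N b) n := by
    funext N n
    exact fc_al hr (bf_SN b N) n
  rw [e1, e2]
  exact h

theorem L1_lim (hr : P.Reg) (hb : BF b) :
    Tendsto (fun N => L1 P.eta 0 0 (P.al (SN N b))) atTop (𝓝 (L1 P.eta 0 0 (P.al b))) := by
  have h := tl_al hr hb
  have hc := h.comp (i := fun j : ℤ => 2 * j) (fun x y hxy => by simp only at hxy; omega)
  have hm := hc.mulb (m := fun j : ℤ => ((1 / (2 * (j : ℝ) + 1) : ℝ) : ℂ)) (C := 1) (fun j => by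
    rw [Complex.norm_real, Real.norm_eq_abs]
    have := inv_le_one (2 * j + 1)
    push_cast at this
    exact this)
  have h1 := (Complex.continuous_re.tendsto _).comp (hm.inner hc)
  have key : ∀ α : ℝ → ℂ, L2 (fun j : ℤ => fc α (2 * j)) →
      (∑' j : ℤ, ((1 / (2 * (j : ℝ) + 1) : ℝ) : ℂ) * fc α (2 * j) * (starRingEnd ℂ) (fc α (2 * j))).re =
      ∑' j : ℤ, ‖fc α (2 * j)‖ ^ 2 / (2 * (j : ℝ) + 1) := by
    intro α hα
    have hα' : L2 (fun j : ℤ => ((1 / (2 * (j : ℝ) + 1) : ℝ) : ℂ) * fc α (2 * j)) := hα.mulb (C := 1) (fun j => by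
      rw [Complex.norm_real, Real.norm_eq_abs]
      have := inv_le_one (2 * j + 1)
      push_cast at this
      exact this)
    rw [Complex.re_tsum (hα'.inner hα)]
    congr 1
    funext j
    rw [mul_assoc, Complex.mul_conj, Complex.normSq_eq_norm_sq, Complex.re_ofReal_mul, Complex.ofReal_re]
    ring
  have h2 : Tendsto (fun N => ∑' j : ℤ, ‖fc (P.al (SN N b)) (2 * j)‖ ^ 2 / (2 * (j : ℝ) + 1)) atTop
      (𝓝 (∑' j : ℤ, ‖fc (P.al b) (2 * j)‖ ^ 2 / (2 * (j : ℝ) + 1))) := by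
    rw [← key _ hc.s]
    refine h1.congr fun N => ?_
    exact key _ (hc.t N)
  have c := fun n => h.at_ n
  unfold L1
  have h3 := ((((((((c 0).add (((c 2).const_mul ((starRingEnd ℂ) P.eta)).div_const 3)).sub
    ((c (-2)).const_mul P.eta)).add (((c 6).const_mul ((starRingEnd ℂ) (0 : ℂ))).div_const 7)).sub
    (((c (-6)).const_mul (0 : ℂ)).div_const 5)).add
    (((c 10).const_mul ((starRingEnd ℂ) (0 : ℂ))).div_const 11)).sub
    (((c (-10)).const_mul (0 : ℂ)).div_const 9)))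
  have h4 := (Complex.continuous_re.tendsto _).comp h3
  exact ((h4.const_mul 2).const_add _).add h2

/-- the coefficients of `noh2 α` -/
theorem fc_noh2 {α : ℝ → ℂ} {E : ℝ} (h : BM α E) (n : ℤ) :
    fc (noh2 α) n = fc α n - (if n = 2 then fc α 2 else 0) - (if n = -2 then fc α (-2) else 0) := by
  have b2 := BM.cmul (BM.eec 2) (fc α 2)
  have b3 := BM.cmul (BM.eec (-2)) (fc α (-2))
  have e : noh2 α = fun t => (α t - fc α 2 * ee (2 * t)) - fc α (-2) * ee (-2 * t) := rfl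
  have f2 := fc_ee 2 n
  have f3 := fc_ee (-2) n
  push_cast at f2 f3
  rw [e, fc_sub (h.sub b2) b3, fc_sub h b2, fc_cmul, fc_cmul, f2, f3]
  by_cases h2 : n = 2
  · subst h2; simp
  · by_cases h3 : n = -2
    · subst h3; simp
    · rw [if_neg h2, if_neg h3, if_neg (Ne.symm h2), if_neg (Ne.symm h3)]; ring

theorem fc_noh2' {α : ℝ → ℂ} {E : ℝ} (h : BM α E) (n : ℤ) :
    fc (noh2 α) n = (if n = 2 ∨ n = -2 then 0 else 1) * fc α n := by
  rw [fc_noh2 h]
  by_cases h2 : n = 2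
  · subst h2; simp
  · by_cases h3 : n = -2
    · subst h3; simp
    · rw [if_neg h2, if_neg h3, if_neg (by tauto)]; ring

theorem alP (hr : P.Reg) (hb : BF b) : ∃ E, BM (P.al b) E := alQ_BM hr.wgt hb

theorem dalP (hr : P.Reg) (hb : BF b) : ∃ E, BM (P.dal b) E := by
  obtain ⟨E1, h1⟩ := alP hr hb
  obtain ⟨E2, h2⟩ := a0_bm hr
  exact ⟨_, (noh2_bm h1).sub h2⟩

theorem fc_dal (hr : P.Reg) (hb : BF b) (n : ℤ) :
    fc (P.dal b) n = (if n = 2 ∨ n = -2 then 0 else 1) * fc (P.al b) n - fc P.a0 n := by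
  obtain ⟨E1, h1⟩ := alP hr hb
  obtain ⟨E2, h2⟩ := a0_bm hr
  have e : P.dal b = fun t => noh2 (P.al b) t - P.a0 t := rfl
  rw [e, fc_sub (noh2_bm h1) h2, fc_noh2' h1]

theorem tl_dal (hr : P.Reg) (hb : BF b) : Tl (fc (P.dal b)) (fun N => fc (P.dal (SN N b))) := by
  obtain ⟨E2, h2⟩ := a0_bm hr
  have h := ((tl_al hr hb).mulb (m := fun n : ℤ => if n = 2 ∨ n = -2 then (0 : ℂ) else 1) (C := 1) (fun n => by
    split_ifs <;> simp)).sub (Tl.const (L2_fc h2))
  have e1 : fc (P.dal b) = fun n => (if n = 2 ∨ n = -2 then (0 : ℂ) else 1) * fc (P.al b) n - fc P.a0 n :=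
    funext fun n => fc_dal hr hb n
  have e2 : (fun N => fc (P.dal (SN N b))) = fun N n => (if n = 2 ∨ n = -2 then (0 : ℂ) else 1) *
      fc (P.al (SN N b)) n - fc P.a0 n := by
    funext N n
    exact fc_dal hr (bf_SN b N) n
  rw [e1, e2]
  exact h

theorem H0_lim (hr : P.Reg) (hb : BF b) : Tendsto (fun N => P.H0 (SN N b)) atTop (𝓝 (P.H0 b)) :=
  (Complex.continuous_re.tendsto _).comp ((tl_dal hr hb).at_ 0)

/-- the weighted coefficients `√(l² - 1) H_l` -/
theorem tl_H (hr : P.Reg) (hb : BF b) :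
    Tl (fun k : ℕ => ((Real.sqrt (lk k ^ 2 - 1) : ℝ) : ℂ) * Hk (P.dal b) k)
      (fun N k => ((Real.sqrt (lk k ^ 2 - 1) : ℝ) : ℂ) * Hk (P.dal (SN N b)) k) := by
  have h := tl_dal hr hb
  have hA := h.comp (i := fun k : ℕ => (2 * (k : ℤ) + 2)) (fun x y hxy => by simp only at hxy; omega)
  have hB := h.comp (i := fun k : ℕ => (-(2 * (k : ℤ) + 2))) (fun x y hxy => by simp only at hxy; omega)
  have hBc : Tl (fun k : ℕ => (starRingEnd ℂ) (fc (P.dal b) (-(2 * (k : ℤ) + 2))))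
      (fun N k => (starRingEnd ℂ) (fc (P.dal (SN N b)) (-(2 * (k : ℤ) + 2)))) := by
    have e : ∀ f : ℕ → ℂ, (fun n => ‖(starRingEnd ℂ) (f n)‖ ^ 2) = fun n => ‖f n‖ ^ 2 := by
      intro f; funext n; rw [RCLike.norm_conj]
    refine ⟨?_, fun N => ?_, ?_⟩
    · unfold L2; rw [e]; exact hB.s
    · unfold L2; rw [e]; exact hB.t N
    · refine hB.l.congr fun N => ?_
      congr 1
      funext k
      rw [← map_sub, RCLike.norm_conj]
  have hs : ∀ k, 0 < Real.sqrt (lk k ^ 2 - 1) := fun k => Real.sqrt_pos.2 (lk_sq k)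
  have s2 : ∀ k, Real.sqrt (lk k ^ 2 - 1) ^ 2 = lk k ^ 2 - 1 := fun k => Real.sq_sqrt (lk_sq k).le
  have m1 := hA.mulb (m := fun k => ((Real.sqrt (lk k ^ 2 - 1) / (2 * (lk k + 1)) : ℝ) : ℂ)) (C := 1) (fun k => by
    have hl := lk_ge k
    rw [Complex.norm_real, Real.norm_of_nonneg (div_nonneg (hs k).le (by linarith)), div_le_one (by linarith)]
    apply Real.sqrt_le_iff.2
    constructor
    · linarith
    · nlinarith)
  have m2 := hBc.mulb (m := fun k => ((Real.sqrt (lk k ^ 2 - 1) / (2 * (lk k - 1)) : ℝ) : ℂ)) (C := 1) (fun k => by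
    have hl := lk_ge k
    rw [Complex.norm_real, Real.norm_of_nonneg (div_nonneg (hs k).le (by linarith)), div_le_one (by linarith)]
    apply Real.sqrt_le_iff.2
    constructor
    · linarith
    · nlinarith)
  have m3 := m1.sub m2
  have key : ∀ α : ℝ → ℂ, ∀ k : ℕ, ((Real.sqrt (lk k ^ 2 - 1) / (2 * (lk k + 1)) : ℝ) : ℂ) * fc α (2 * (k : ℤ) + 2)
      - ((Real.sqrt (lk k ^ 2 - 1) / (2 * (lk k - 1)) : ℝ) : ℂ) * (starRingEnd ℂ) (fc α (-(2 * (k : ℤ) + 2))) =
      ((Real.sqrt (lk k ^ 2 - 1) : ℝ) : ℂ) * Hk α k := by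
    intro α k
    have hl := lk_ge k
    have n1 : ((lk k : ℂ) + 1) ≠ 0 := by
      have : ((lk k + 1 : ℝ) : ℂ) ≠ 0 := by
        rw [Complex.ofReal_ne_zero]; linarith
      push_cast at this
      exact this
    have n2 : ((lk k : ℂ) - 1) ≠ 0 := by
      have : ((lk k - 1 : ℝ) : ℂ) ≠ 0 := by
        rw [Complex.ofReal_ne_zero]; linarith
      push_cast at this
      exact this
    unfold Hk
    push_cast
    field_simp
  have e1 : (fun k : ℕ => ((Real.sqrt (lk k ^ 2 - 1) : ℝ) : ℂ) * Hk (P.dal b) k) = _ :=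
    funext fun k => (key (P.dal b) k).symm
  have e2 : (fun (N : ℕ) (k : ℕ) => ((Real.sqrt (lk k ^ 2 - 1) : ℝ) : ℂ) * Hk (P.dal (SN N b)) k) = _ :=
    funext fun N => funext fun k => (key (P.dal (SN N b)) k).symm
  rw [e1, e2]
  exact m3

end

end Helper95.SH
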