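import Pool.Agent.Helper95.SH.Lin

/-!
# Project RC, SHARP, cell engine: the exact head/tail identity of `GI`

`GI (h + t) = HG h - (2/ν) ∑ (l² - 1) |qk h + q0 t|² + 2 dt s' X + 2 dt p' Y + 2 dt r' Z + TT t` (`GI_ht`).
-/

open MeasureTheory Set Filter Topology

namespace Helper95.SH

open Helper49.LT hiding sg
open Helper49.RC (om)
open Helper95.RC
open Helper49.Sharp
open Helper87.RC (BM)
open Helper56.RC (fc)
open Helper44.RCG (G1 G2 N0)
open Helper49.RC (vvS Wgt)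
open Pool.Agent.Helper20.RC (lk lk_ge lk_sq)

/-! ### the linear parts -/

section

variable (P : Par) (p r s : ℤ → ℂ)

noncomputable def C1L : ℤ → ℂ := c1 2 (fun _ => 0) (wm P.eta p) (wm P.eta r) (wm P.eta s)
noncomputable def C2L : ℤ → ℂ := c2 2 (fun _ => 0) (wm P.eta p) (wm P.eta r) (wm P.eta s)
noncomputable def G1L (n : ℤ) : ℂ :=
  (starRingEnd ℂ) om * wm P.eta p n + kq 2 * wm P.eta r n + wm P.eta s n
noncomputable def G2L (n : ℤ) : ℂ :=
  (starRingEnd ℂ) om ^ 2 * wm P.eta p n + (starRingEnd ℂ) (kq 2) * wm P.eta r n - wm P.eta s n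
noncomputable def dlL (n : ℤ) : ℂ := (if n = 2 ∨ n = -2 then 0 else 1) * alA P p r n
noncomputable def HkL (k : ℕ) : ℂ :=
  (dlL P p r (2 * k + 2) / ((lk k : ℂ) + 1) - (starRingEnd ℂ) (dlL P p r (-(2 * k + 2))) / ((lk k : ℂ) - 1)) / 2

end

noncomputable def g1L (p r s : ℤ → ℂ) (n : ℤ) : ℂ := (starRingEnd ℂ) om * p n + kq 2 * r n + s n
noncomputable def g2L (p r s : ℤ → ℂ) (n : ℤ) : ℂ := (starRingEnd ℂ) om ^ 2 * p n + (starRingEnd ℂ) (kq 2) * r n - s n

/-- the functional of a cell without the `D2` sum -/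
noncomputable def HG (c : CD) (N : ℕ) (p r s : ℤ → ℂ) : ℝ :=
  2 / 3 * ‖sgA c.P p r‖ ^ 2 + 4 / 3 * ((starRingEnd ℂ) (sgA c.P p r) * c.P.eta).re
  + L1A c.P N p r
  + 2 * H0A c.P p r * e0I c.P c.Th1 c.Th1' c.Th2 c.Th2' N p r s - c.P.pr2 * (H0A c.P p r - c.P.h0) ^ 2
  + NF c.P.ps (N + 3) (C1 c.P p r s) (C2 c.P p r s) - 9
  + LA c.P N p r s + (c.P.m - c.P.lam) * LoA c.L N p r s
  + c.mu1 * NrLA c.L N p r s + c.mu2 * NrA c.d1 c.d2 N p r s - c.Q (s (-3)) (s (-5))

/-- the rows of `D2` -/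
noncomputable def qk (c : CD) (N : ℕ) (p r s : ℤ → ℂ) (k : ℕ) : ℂ :=
  HkA c.P p r k - (c.P.nu / 2 : ℂ) * WA c.P c.Th1 c.Th1' c.Th2 c.Th2' N p r s (2 * k + 2)
/-- the linear part of `WA` -/
noncomputable def WL (c : CD) (N : ℕ) (p r s : ℤ → ℂ) (l : ℤ) : ℂ :=
  wF c.Th1 c.Th1' (N + 3) (C1L c.P p r s) l + wF c.Th2 c.Th2' (N + 3) (C2L c.P p r s) l
/-- the linear parts of the rows of `D2` -/
noncomputable def q0 (c : CD) (N : ℕ) (p r s : ℤ → ℂ) (k : ℕ) : ℂ :=
  HkL c.P p r k - (c.P.nu / 2 : ℂ) * WL c N p r s (2 * k + 2)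

theorem GI_eq (c : CD) (N : ℕ) (p r s : ℤ → ℂ) :
    GI c N p r s = HG c N p r s - 2 / c.P.nu * ∑' k : ℕ, (lk k ^ 2 - 1) * ‖qk c N p r s k‖ ^ 2 := by
  unfold GI EI HG qk
  ring

/-! ### additivity -/

section

variable (P : Par) (p r s p' r' s' : ℤ → ℂ)

theorem wm_add' (η : ℂ) (f g : ℤ → ℂ) : wm η (fun n => f n + g n) = fun n => wm η f n + wm η g n :=
  funext fun n => wm_add η f g n

theorem C1_add : C1 P (fun n => p n + p' n) (fun n => r n + r' n) (fun n => s n + s' n) =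
    fun m => C1 P p r s m + C1L P p' r' s' m := by
  funext m
  unfold C1 C1L c1
  rw [wm_add, wm_add, wm_add]
  ring

theorem C2_add : C2 P (fun n => p n + p' n) (fun n => r n + r' n) (fun n => s n + s' n) =
    fun m => C2 P p r s m + C2L P p' r' s' m := by
  funext m
  unfold C2 C2L c2
  rw [wm_add, wm_add, wm_add]
  ring

theorem G1A_add : G1A P (fun n => p n + p' n) (fun n => r n + r' n) (fun n => s n + s' n) =
    fun m => G1A P p r s m + G1L P p' r' s' m := by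
  funext m
  unfold G1A G1L
  rw [wm_add, wm_add, wm_add]
  ring

theorem G2A_add : G2A P (fun n => p n + p' n) (fun n => r n + r' n) (fun n => s n + s' n) =
    fun m => G2A P p r s m + G2L P p' r' s' m := by
  funext m
  unfold G2A G2L
  rw [wm_add, wm_add, wm_add]
  ring

theorem alA_add : alA P (fun n => p n + p' n) (fun n => r n + r' n) =
    fun m => alA P p r m + alA P p' r' m := by
  funext m
  unfold alA
  rw [wm_add, wm_add]
  ring

theorem HkA_add (k : ℕ) : HkA P (fun n => p n + p' n) (fun n => r n + r' n) k = HkA P p r k + HkL P p' r' k := by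
  unfold HkA HkL dlA dlL
  rw [alA_add]
  simp only [map_add, map_sub, map_mul]
  ring

end

theorem g1A_add (p r s p' r' s' : ℤ → ℂ) : g1A (fun n => p n + p' n) (fun n => r n + r' n) (fun n => s n + s' n) =
    fun m => g1A p r s m + g1L p' r' s' m := by
  funext m; unfold g1A g1L; ring

theorem g2A_add (p r s p' r' s' : ℤ → ℂ) : g2A (fun n => p n + p' n) (fun n => r n + r' n) (fun n => s n + s' n) =
    fun m => g2A p r s m + g2L p' r' s' m := by
  funext m; unfold g2A g2L; ring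

theorem wF_add (Θ Θ' : ℝ → ℝ) (M : ℕ) (a a' : ℤ → ℂ) (l : ℤ) :
    wF Θ Θ' M (fun n => a n + a' n) l = wF Θ Θ' M a l + wF Θ Θ' M a' l := by
  unfold wF
  rw [← mul_add, ← Finset.sum_add_distrib]
  congr 1
  refine Finset.sum_congr rfl fun n _ => ?_
  simp only [map_mul, map_add]
  ring

theorem qk_add (c : CD) (N : ℕ) (p r s p' r' s' : ℤ → ℂ) (k : ℕ) :
    qk c N (fun n => p n + p' n) (fun n => r n + r' n) (fun n => s n + s' n) k =
      qk c N p r s k + q0 c N p' r' s' k := by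
  unfold qk q0 WA WL
  rw [HkA_add, C1_add, C2_add, wF_add, wF_add]
  ring

/-! ### rows through the families -/

section

variable {P : Par} {N : ℕ} {p r s : ℤ → ℂ}

theorem wm_supN {η : ℂ} {f : ℤ → ℂ} (hf : Sup N f) : Sup (N + 2) (wm η f) := wm_sup hf

theorem G1L_sup (hp : Sup N p) (hr : Sup N r) (hs : Sup N s) : Sup (N + 2) (G1L P p r s) := fun n hn => by
  unfold G1L
  rw [wm_supN hp n hn, wm_supN hr n hn, wm_supN hs n hn]
  ring

theorem G2L_sup (hp : Sup N p) (hr : Sup N r) (hs : Sup N s) : Sup (N + 2) (G2L P p r s) := fun n hn => by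
  unfold G2L
  rw [wm_supN hp n hn, wm_supN hr n hn, wm_supN hs n hn]
  ring

theorem C1L_eq (m : ℤ) : C1L P p r s m = ee (-(m : ℝ) * (Real.pi / 3)) * G1L P p r s (m - 1) := by
  unfold C1L c1 G1L
  ring

theorem C2L_eq (m : ℤ) : C2L P p r s m = ee (-(m : ℝ) * (2 * Real.pi / 3)) * G2L P p r s (m - 1) := by
  unfold C2L c2 G2L
  ring

theorem conj_ee' (x : ℝ) : (starRingEnd ℂ) (ee x) = ee (-x) := by rw [← ee_neg]

/-- a row of a family as a row of the weighted edge -/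
theorem dt_fam {G : ℤ → ℂ} (hG : Sup (N + 2) G) (x : ℝ) (A : ℤ → ℂ) :
    dt (N + 3) (fun m => ee (-(m : ℝ) * x) * G (m - 1)) A =
      dt (N + 2) G (fun n => ee (((n + 1 : ℤ) : ℝ) * x) * A (n + 1)) := by
  unfold dt
  congr 1
  have := win_shift (f := fun n => ee (-((n + 1 : ℤ) : ℝ) * x) * G n * (starRingEnd ℂ) (A (n + 1)))
    (M := N + 2) (M' := N + 3) (-1)
    (fun n hn => by rw [hG n hn]; ring)
    (fun n hn => by
      beta_reduce
      rw [hG (n + -1) (by rw [Finset.mem_Icc] at hn ⊢; push_cast at hn ⊢; omega)]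
      ring)
  calc _ = ∑ n ∈ Finset.Icc (-((N + 3 : ℕ) : ℤ)) ((N + 3 : ℕ) : ℤ),
        ee (-((n + -1 + 1 : ℤ) : ℝ) * x) * G (n + -1) * (starRingEnd ℂ) (A (n + -1 + 1)) := by
        refine Finset.sum_congr rfl fun n _ => ?_
        rw [show n + -1 + 1 = n by ring, show n + -1 = n - 1 by ring]
    _ = _ := this
    _ = _ := by
        refine Finset.sum_congr rfl fun n _ => ?_
        rw [map_mul, conj_ee', neg_mul]
        ring

/-- the linear functional of the weighted edges -/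
theorem dt_G (hp : Sup N p) (hr : Sup N r) (hs : Sup N s) (V1 V2 : ℤ → ℂ) :
    dt (N + 2) (G1L P p r s) V1 + dt (N + 2) (G2L P p r s) V2 =
      dt N s (wm P.eta fun n => V1 n - V2 n) + dt N p (wm P.eta fun n => om * V1 n + om ^ 2 * V2 n)
      + dt N r (wm P.eta fun n => (starRingEnd ℂ) (kq 2) * V1 n + kq 2 * V2 n) := by
  have e1 : dt (N + 2) (G1L P p r s) V1 = dt N p (wm P.eta fun n => om * V1 n)
      + dt N r (wm P.eta fun n => (starRingEnd ℂ) (kq 2) * V1 n) + dt N s (wm P.eta V1) := by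
    unfold G1L
    rw [dt_addl, dt_addl, dt_mul, dt_mul, Complex.conj_conj, dt_wm _ hp, dt_wm _ hr, dt_wm _ hs]
  have e2 : dt (N + 2) (G2L P p r s) V2 = dt N p (wm P.eta fun n => om ^ 2 * V2 n)
      + dt N r (wm P.eta fun n => kq 2 * V2 n) - dt N s (wm P.eta V2) := by
    unfold G2L
    rw [dt_subl, dt_addl, dt_mul, dt_mul, Complex.conj_conj, map_pow, Complex.conj_conj, dt_wm _ hp, dt_wm _ hr,
      dt_wm _ hs]
  have a1 : (wm P.eta fun n => V1 n - V2 n) = fun n => wm P.eta V1 n - wm P.eta V2 n :=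
    funext fun n => wm_sub _ _ _ n
  have a2 : (wm P.eta fun n => om * V1 n + om ^ 2 * V2 n) =
      fun n => (wm P.eta fun n => om * V1 n) n + (wm P.eta fun n => om ^ 2 * V2 n) n :=
    wm_add' _ _ _
  have a3 : (wm P.eta fun n => (starRingEnd ℂ) (kq 2) * V1 n + kq 2 * V2 n) =
      fun n => (wm P.eta fun n => (starRingEnd ℂ) (kq 2) * V1 n) n + (wm P.eta fun n => kq 2 * V2 n) n :=
    wm_add' _ _ _
  rw [e1, e2, a1, a2, a3, dt_add, dt_add, dt_sub]
  ring

/-- the linear functional of the edges without weight -/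
theorem dt_g (p r s : ℤ → ℂ) (V1 V2 : ℤ → ℂ) :
    dt N (g1L p r s) V1 + dt N (g2L p r s) V2 =
      dt N s (fun n => V1 n - V2 n) + dt N p (fun n => om * V1 n + om ^ 2 * V2 n)
      + dt N r (fun n => (starRingEnd ℂ) (kq 2) * V1 n + kq 2 * V2 n) := by
  have e1 : dt N (g1L p r s) V1 = dt N p (fun n => om * V1 n)
      + dt N r (fun n => (starRingEnd ℂ) (kq 2) * V1 n) + dt N s V1 := by
    unfold g1L
    rw [dt_addl, dt_addl, dt_mul, dt_mul, Complex.conj_conj]
  have e2 : dt N (g2L p r s) V2 = dt N p (fun n => om ^ 2 * V2 n)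
      + dt N r (fun n => kq 2 * V2 n) - dt N s V2 := by
    unfold g2L
    rw [dt_subl, dt_addl, dt_mul, dt_mul, Complex.conj_conj, map_pow, Complex.conj_conj]
  rw [e1, e2, dt_add, dt_add, dt_sub]
  ring

/-- the linear functional of `α` -/
theorem dt_al (hp : Sup N p) (hr : Sup N r) (V : ℤ → ℂ) :
    dt (N + 2) (alA P p r) V = dt N p (wm P.eta V) + dt N r (wm P.eta fun n => -(Complex.I / 2) * V n) := by
  have h : alA P p r = fun n => wm P.eta p n + Complex.I / 2 * wm P.eta r n := rfl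
  have h2 : (starRingEnd ℂ) (Complex.I / 2) = -(Complex.I / 2) := by
    rw [map_div₀, Complex.conj_I, Complex.conj_ofNat]; ring
  rw [h, dt_addl, dt_mul, h2, dt_wm _ hp, dt_wm _ hr]

end

end Helper95.SH
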