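import Pool.Agent.Helper95.SH.PassI

/-!
# Project RC, SHARP, cell engine: real coordinates of the head arrays, rows, blocks

Coordinates `v : ℕ → ℝ`, `v 0 = 1`. `K` odd: `s_n`, `|n| ≤ K`, `n` odd: `v (1 + (n+K))`, `v (2 + (n+K))` (real, imaginary
part). `L` even: `p_0 = v (bp K)`, `p_n` (`n = 2, 4, ..`): `v (bp K + n - 1)`, `v (bp K + n)`; the same for `r` with the base
`br K L`. `nt K L` coordinates in total.
-/

open MeasureTheory Set Filter Topology

namespace Helper95.SH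

open Helper95.RC

/-- bases of the coordinates of `p`, `r`, total number -/
def bp (K : ℕ) : ℕ := 1 + 2 * (K + 1)
def br (K L : ℕ) : ℕ := bp K + (L + 1)
def nt (K L : ℕ) : ℕ := bp K + (L + 1) + (L + 1)

/-- the array `s` -/
noncomputable def sV (K : ℕ) (v : ℕ → ℝ) (n : ℤ) : ℂ :=
  if Even n ∨ n ∉ Finset.Icc (-(K : ℤ)) K then 0
  else (v (1 + (n + K).toNat) : ℂ) + Complex.I * (v (2 + (n + K).toNat) : ℂ)

/-- a hermitian array with the coordinates from `base` on -/
noncomputable def hV (L base : ℕ) (v : ℕ → ℝ) (n : ℤ) : ℂ :=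
  if ¬ Even n ∨ n ∉ Finset.Icc (-(L : ℤ)) L then 0
  else if n = 0 then (v base : ℂ)
  else if 0 < n then (v (base + (n.toNat - 1)) : ℂ) + Complex.I * (v (base + n.toNat) : ℂ)
  else (v (base + ((-n).toNat - 1)) : ℂ) - Complex.I * (v (base + (-n).toNat) : ℂ)

noncomputable def pV (K L : ℕ) (v : ℕ → ℝ) : ℤ → ℂ := hV L (bp K) v
noncomputable def rV (K L : ℕ) (v : ℕ → ℝ) : ℤ → ℂ := hV L (br K L) v

/-! ### they are admissible -/

theorem sV_sup (K : ℕ) (v : ℕ → ℝ) : Sup K (sV K v) := fun n hn => by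
  unfold sV; rw [if_pos (Or.inr hn)]

theorem hV_sup (L base : ℕ) (v : ℕ → ℝ) : Sup L (hV L base v) := fun n hn => by
  unfold hV; rw [if_pos (Or.inr hn)]

theorem sV_even (K : ℕ) (v : ℕ → ℝ) (n : ℤ) (hn : Even n) : sV K v n = 0 := by
  unfold sV; rw [if_pos (Or.inl hn)]

theorem hV_odd (L base : ℕ) (v : ℕ → ℝ) (n : ℤ) (hn : ¬ Even n) : hV L base v n = 0 := by
  unfold hV; rw [if_pos (Or.inl hn)]

theorem hV_neg (L base : ℕ) (v : ℕ → ℝ) (n : ℤ) : hV L base v (-n) = (starRingEnd ℂ) (hV L base v n) := by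
  by_cases h1 : ¬ Even n ∨ n ∉ Finset.Icc (-(L : ℤ)) L
  · have h2 : ¬ Even (-n) ∨ -n ∉ Finset.Icc (-(L : ℤ)) L := by
      rcases h1 with h | h
      · left; rwa [even_neg]
      · right; rw [Finset.mem_Icc] at h ⊢; omega
    unfold hV
    rw [if_pos h1, if_pos h2, map_zero]
  · have h2 : ¬ (¬ Even (-n) ∨ -n ∉ Finset.Icc (-(L : ℤ)) L) := by
      push Not at h1 ⊢
      refine ⟨even_neg.2 h1.1, ?_⟩
      have := h1.2
      rw [Finset.mem_Icc] at this ⊢; omega
    unfold hV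
    rw [if_neg h1, if_neg h2]
    by_cases h0 : n = 0
    · subst h0
      rw [neg_zero, if_pos rfl, if_pos rfl, Complex.conj_ofReal]
    · rw [if_neg (neg_ne_zero.2 h0), if_neg h0]
      by_cases hp : 0 < n
      · rw [if_pos hp, if_neg (by omega), neg_neg, map_add, map_mul, Complex.conj_I, Complex.conj_ofReal,
          Complex.conj_ofReal]
        ring
      · rw [if_neg hp, if_pos (by omega), map_sub, map_mul, Complex.conj_I, Complex.conj_ofReal,
          Complex.conj_ofReal]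
        ring

theorem arrV {K L N : ℕ} (hK : K ≤ N) (hL : L ≤ N) (v : ℕ → ℝ) : Arr N (pV K L v) (rV K L v) (sV K v) :=
  ⟨Sup.mono hL (hV_sup _ _ _), Sup.mono hL (hV_sup _ _ _), Sup.mono hK (sV_sup _ _), hV_neg _ _ _, hV_neg _ _ _,
    hV_odd _ _ _, hV_odd _ _ _, sV_even _ _⟩

/-! ### every head array comes from coordinates -/

/-- the coordinates of a hermitian array -/
noncomputable def hC (f : ℤ → ℂ) (j : ℕ) : ℝ :=
  if j = 0 then (f 0).re else if j % 2 = 1 then (f (j + 1)).re else (f j).im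

/-- the coordinates of arrays -/
noncomputable def vOf (K L : ℕ) (p r s : ℤ → ℂ) (i : ℕ) : ℝ :=
  if i = 0 then 1
  else if i < bp K then (if (i - 1) % 2 = 0 then (s (((i - 1 : ℕ) : ℤ) - K)).re else (s (((i - 2 : ℕ) : ℤ) - K)).im)
  else if i < br K L then hC p (i - bp K) else hC r (i - br K L)

theorem vOf_zero (K L : ℕ) (p r s : ℤ → ℂ) : vOf K L p r s 0 = 1 := by
  unfold vOf; rw [if_pos rfl]

theorem sV_vOf {K : ℕ} (hK : ¬ Even K) (L : ℕ) {p r s : ℤ → ℂ} (hs : Sup K s) (he : ∀ n, Even n → s n = 0) :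
    sV K (vOf K L p r s) = s := by
  funext n
  by_cases h1 : Even n
  · rw [sV_even _ _ _ h1, he n h1]
  by_cases h2 : n ∈ Finset.Icc (-(K : ℤ)) K
  swap
  · rw [sV_sup _ _ n h2, hs n h2]
  unfold sV
  rw [if_neg (by push Not; exact ⟨h1, h2⟩)]
  rw [Finset.mem_Icc] at h2
  obtain ⟨a, ha⟩ := Int.not_even_iff_odd.1 h1
  obtain ⟨c, hc⟩ := Nat.not_even_iff_odd.1 hK
  have hm : (n + K).toNat = 2 * (a + c + 1).toNat := by omega
  set j := (a + c + 1).toNat with hj
  have hjb : 2 * j ≤ 2 * K := by omega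
  have e1 : vOf K L p r s (1 + (n + K).toNat) = (s n).re := by
    unfold vOf bp
    rw [if_neg (by omega), if_pos (by omega), if_pos (by omega)]
    congr 2
    omega
  have e2 : vOf K L p r s (2 + (n + K).toNat) = (s n).im := by
    unfold vOf bp
    rw [if_neg (by omega), if_pos (by omega), if_neg (by omega)]
    congr 2
    omega
  rw [e1, e2, mul_comm, Complex.re_add_im]

theorem hV_of {L base : ℕ} {f : ℤ → ℂ} (hf : Sup L f) (hh : ∀ n, f (-n) = (starRingEnd ℂ) (f n))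
    (ho : ∀ n, ¬ Even n → f n = 0) {v : ℕ → ℝ} (hv : ∀ j, j ≤ L → v (base + j) = hC f j) : hV L base v = f := by
  have h0 : (f 0).im = 0 := by
    have := hh 0
    rw [neg_zero] at this
    exact Complex.conj_eq_iff_im.mp this.symm
  have pos : ∀ n : ℤ, 0 < n → Even n → n ≤ L →
      (v (base + (n.toNat - 1)) : ℂ) + Complex.I * (v (base + n.toNat) : ℂ) = f n := by
    intro n hn he hL
    obtain ⟨a, ha⟩ := he
    have e1 : v (base + (n.toNat - 1)) = (f n).re := by
      rw [hv _ (by omega)]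
      unfold hC
      rw [if_neg (by omega), if_pos (by omega)]
      congr 2
      omega
    have e2 : v (base + n.toNat) = (f n).im := by
      rw [hv _ (by omega)]
      unfold hC
      rw [if_neg (by omega), if_neg (by omega)]
      congr 2
      omega
    rw [e1, e2, mul_comm, Complex.re_add_im]
  funext n
  by_cases h1 : Even n
  swap
  · rw [hV_odd _ _ _ _ h1, ho n h1]
  by_cases h2 : n ∈ Finset.Icc (-(L : ℤ)) L
  swap
  · rw [hV_sup _ _ _ n h2, hf n h2]
  rw [Finset.mem_Icc] at h2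
  rcases lt_trichotomy n 0 with hn | hn | hn
  · have e := hV_neg L base v (-n)
    rw [neg_neg] at e
    rw [e]
    have e2 := hh (-n)
    rw [neg_neg] at e2
    rw [e2]
    congr 1
    have h3 : ¬ (¬ Even (-n) ∨ -n ∉ Finset.Icc (-(L : ℤ)) L) := by
      push Not
      refine ⟨even_neg.2 h1, ?_⟩
      rw [Finset.mem_Icc]; omega
    unfold hV
    rw [if_neg h3, if_neg (by omega), if_pos (by omega)]
    exact pos (-n) (by omega) (even_neg.2 h1) (by omega)
  · subst hn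
    unfold hV
    rw [if_neg (by push Not; exact ⟨Even.zero, by rw [Finset.mem_Icc]; omega⟩), if_pos rfl]
    have := hv 0 (Nat.zero_le _)
    rw [Nat.add_zero] at this
    rw [this]
    unfold hC
    rw [if_pos rfl]
    apply Complex.ext
    · rw [Complex.ofReal_re]
    · rw [Complex.ofReal_im, h0]
  · unfold hV
    rw [if_neg (by push Not; exact ⟨h1, by rw [Finset.mem_Icc]; omega⟩), if_neg (by omega), if_pos hn]
    exact pos n hn h1 (by omega)

theorem pV_vOf (K L : ℕ) {p r s : ℤ → ℂ} (hf : Sup L p) (hh : ∀ n, p (-n) = (starRingEnd ℂ) (p n))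
    (ho : ∀ n, ¬ Even n → p n = 0) : pV K L (vOf K L p r s) = p := by
  refine hV_of hf hh ho fun j hj => ?_
  unfold vOf br bp
  rw [if_neg (by omega), if_neg (by omega), if_pos (by omega)]
  congr 1
  omega

theorem rV_vOf (K L : ℕ) {p r s : ℤ → ℂ} (hf : Sup L r) (hh : ∀ n, r (-n) = (starRingEnd ℂ) (r n))
    (ho : ∀ n, ¬ Even n → r n = 0) : rV K L (vOf K L p r s) = r := by
  refine hV_of hf hh ho fun j hj => ?_
  unfold vOf br bp
  rw [if_neg (by omega), if_neg (by omega), if_neg (by omega)]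
  congr 1
  omega

/-! ### rows -/

/-- a real linear functional of the coordinates with an integer row at the scale `q` -/
def LR (n : ℕ) (q : ℝ) (X : (ℕ → ℝ) → ℝ) (R : ℕ → ℤ) (e : ℝ) : Prop :=
  ∃ ρ : ℕ → ℝ, (∀ v, v 0 = 1 → X v = ∑ i ∈ Finset.range n, ρ i * v i) ∧ ∀ i < n, |q * ρ i - R i| ≤ e

theorem LR.add {n : ℕ} {q e1 e2 : ℝ} {X Y : (ℕ → ℝ) → ℝ} {R T : ℕ → ℤ} (h : LR n q X R e1) (k : LR n q Y T e2) :
    LR n q (fun v => X v + Y v) (fun i => R i + T i) (e1 + e2) := by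
  obtain ⟨ρ, h1, h2⟩ := h
  obtain ⟨τ, k1, k2⟩ := k
  refine ⟨fun i => ρ i + τ i, fun v hv => ?_, fun i hi => ?_⟩
  · beta_reduce
    rw [h1 v hv, k1 v hv, ← Finset.sum_add_distrib]
    exact Finset.sum_congr rfl fun i _ => by ring
  · have e : q * (ρ i + τ i) - ((R i + T i : ℤ) : ℝ) = (q * ρ i - R i) + (q * τ i - T i) := by push_cast; ring
    rw [e]
    exact (abs_add_le _ _).trans (add_le_add (h2 i hi) (k2 i hi))

theorem LR.smul {n : ℕ} {q e : ℝ} {X : (ℕ → ℝ) → ℝ} {R : ℕ → ℤ} (h : LR n q X R e) (a : ℤ) :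
    LR n q (fun v => a * X v) (fun i => a * R i) (|(a : ℝ)| * e) := by
  obtain ⟨ρ, h1, h2⟩ := h
  refine ⟨fun i => a * ρ i, fun v hv => ?_, fun i hi => ?_⟩
  · beta_reduce
    rw [h1 v hv, Finset.mul_sum]
    exact Finset.sum_congr rfl fun i _ => by ring
  · have e' : q * (a * ρ i) - ((a * R i : ℤ) : ℝ) = a * (q * ρ i - R i) := by push_cast; ring
    rw [e', abs_mul]
    exact mul_le_mul_of_nonneg_left (h2 i hi) (abs_nonneg _)

theorem LR.neg {n : ℕ} {q e : ℝ} {X : (ℕ → ℝ) → ℝ} {R : ℕ → ℤ} (h : LR n q X R e) :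
    LR n q (fun v => -X v) (fun i => -R i) e := by
  have := h.smul (-1)
  simpa using this

theorem LR.sub {n : ℕ} {q e1 e2 : ℝ} {X Y : (ℕ → ℝ) → ℝ} {R T : ℕ → ℤ} (h : LR n q X R e1) (k : LR n q Y T e2) :
    LR n q (fun v => X v - Y v) (fun i => R i - T i) (e1 + e2) := by
  have := h.add k.neg
  simpa [sub_eq_add_neg] using this

/-- change of scale: the functional divided by `a` has the scale `a q` -/
theorem LR.scale {n : ℕ} {q e : ℝ} {X : (ℕ → ℝ) → ℝ} {R : ℕ → ℤ} (h : LR n q X R e) {a : ℝ} (ha : a ≠ 0) :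
    LR n (a * q) (fun v => X v / a) R e := by
  obtain ⟨ρ, h1, h2⟩ := h
  refine ⟨fun i => ρ i / a, fun v hv => ?_, fun i hi => ?_⟩
  · beta_reduce
    rw [h1 v hv, Finset.sum_div]
    exact Finset.sum_congr rfl fun i _ => by ring
  · have : a * q * (ρ i / a) = q * ρ i := by field_simp
    rw [this]
    exact h2 i hi

/-- multiply the integer row and the scale -/
theorem LR.up {n : ℕ} {q e : ℝ} {X : (ℕ → ℝ) → ℝ} {R : ℕ → ℤ} (h : LR n q X R e) (a : ℤ) :
    LR n (a * q) X (fun i => a * R i) (|(a : ℝ)| * e) := by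
  obtain ⟨ρ, h1, h2⟩ := h
  refine ⟨ρ, h1, fun i hi => ?_⟩
  have e' : (a : ℝ) * q * ρ i - ((a * R i : ℤ) : ℝ) = a * (q * ρ i - R i) := by push_cast; ring
  rw [e', abs_mul]
  exact mul_le_mul_of_nonneg_left (h2 i hi) (abs_nonneg _)

theorem LR.mono {n : ℕ} {q e e' : ℝ} {X : (ℕ → ℝ) → ℝ} {R : ℕ → ℤ} (h : LR n q X R e) (he : e ≤ e') :
    LR n q X R e' := by
  obtain ⟨ρ, h1, h2⟩ := h
  exact ⟨ρ, h1, fun i hi => (h2 i hi).trans he⟩

theorem LR.congr {n : ℕ} {q e : ℝ} {X Y : (ℕ → ℝ) → ℝ} {R T : ℕ → ℤ} (h : LR n q X R e)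
    (hX : ∀ v, v 0 = 1 → Y v = X v) (hR : ∀ i < n, T i = R i) : LR n q Y T e := by
  obtain ⟨ρ, h1, h2⟩ := h
  exact ⟨ρ, fun v hv => by rw [hX v hv, h1 v hv], fun i hi => by rw [hR i hi]; exact h2 i hi⟩

/-- rounding an integer row: a nearby integer row -/
theorem LR.round {n : ℕ} {q e d : ℝ} {X : (ℕ → ℝ) → ℝ} {R T : ℕ → ℤ} (h : LR n q X R e)
    (hT : ∀ i < n, |(R i : ℝ) - T i| ≤ d) : LR n q X T (e + d) := by
  obtain ⟨ρ, h1, h2⟩ := h
  refine ⟨ρ, h1, fun i hi => ?_⟩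
  have e' : q * ρ i - T i = (q * ρ i - R i) + ((R i : ℝ) - T i) := by ring
  rw [e']
  exact (abs_add_le _ _).trans (add_le_add (h2 i hi) (hT i hi))

/-- a coordinate -/
theorem LR.coord {n i : ℕ} (hi : i < n) : LR n 1 (fun v => v i) (fun j => if j = i then 1 else 0) 0 := by
  refine ⟨fun j => if j = i then 1 else 0, fun v _ => ?_, fun j _ => ?_⟩
  · rw [Finset.sum_eq_single i]
    · simp
    · intro j _ hj; simp [hj]
    · intro h; exact absurd (Finset.mem_range.2 hi) h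
  · by_cases hj : j = i <;> simp [hj]

/-- the zero functional -/
theorem LR.zero (n : ℕ) (q : ℝ) : LR n q (fun _ => 0) (fun _ => 0) 0 :=
  ⟨fun _ => 0, fun v _ => by simp, fun i _ => by simp⟩

/-- an integer constant -/
theorem LR.one {n : ℕ} (hn : 0 < n) (q : ℤ) : LR n q (fun _ => 1) (fun j => if j = 0 then q else 0) 0 := by
  refine ⟨fun j => if j = 0 then 1 else 0, fun v hv => ?_, fun j _ => ?_⟩
  · rw [Finset.sum_eq_single 0]
    · simp [hv]
    · intro j _ hj; simp [hj]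
    · intro h; exact absurd (Finset.mem_range.2 hn) h
  · by_cases hj : j = 0 <;> simp [hj]

/-! ### blocks -/

/-- a quadratic functional of the coordinates with an integer entry function at the scale `q` -/
def Blk (n : ℕ) (q : ℝ) (g : (ℕ → ℝ) → ℝ) (en : ℕ → ℕ → ℤ) (e : ℝ) : Prop :=
  ∃ F : ℕ → ℕ → ℝ, (∀ i j, F i j = F j i) ∧
    (∀ v, v 0 = 1 → g v = ∑ i ∈ Finset.range n, ∑ j ∈ Finset.range n, F i j * v i * v j) ∧
    ∀ i < n, ∀ j < n, |q * F i j - en i j| ≤ e

theorem Blk.add {n : ℕ} {q e1 e2 : ℝ} {g h : (ℕ → ℝ) → ℝ} {en em : ℕ → ℕ → ℤ} (a : Blk n q g en e1)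
    (b : Blk n q h em e2) : Blk n q (fun v => g v + h v) (fun i j => en i j + em i j) (e1 + e2) := by
  obtain ⟨F, f1, f2, f3⟩ := a
  obtain ⟨G, g1, g2, g3⟩ := b
  refine ⟨fun i j => F i j + G i j, fun i j => by beta_reduce; rw [f1, g1], fun v hv => ?_, fun i hi j hj => ?_⟩
  · beta_reduce
    rw [f2 v hv, g2 v hv, ← Finset.sum_add_distrib]
    refine Finset.sum_congr rfl fun i _ => ?_
    rw [← Finset.sum_add_distrib]
    exact Finset.sum_congr rfl fun j _ => by ring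
  · have e : q * (F i j + G i j) - ((en i j + em i j : ℤ) : ℝ) = (q * F i j - en i j) + (q * G i j - em i j) := by
      push_cast; ring
    rw [e]
    exact (abs_add_le _ _).trans (add_le_add (f3 i hi j hj) (g3 i hi j hj))

/-- the block of a product of two rows -/
theorem LR.mulB {n : ℕ} {q1 q2 e1 e2 A B : ℝ} {X Y : (ℕ → ℝ) → ℝ} {R T : ℕ → ℤ}
    (h : LR n q1 X R e1) (k : LR n q2 Y T e2) (hA : ∀ i < n, |(R i : ℝ)| ≤ A) (hB : ∀ i < n, |(T i : ℝ)| ≤ B) :
    Blk n (2 * (q1 * q2)) (fun v => X v * Y v) (fun i j => R i * T j + R j * T i)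
      (2 * (A * e2 + B * e1 + e1 * e2)) := by
  obtain ⟨ρ, h1, h2⟩ := h
  obtain ⟨τ, k1, k2⟩ := k
  refine ⟨fun i j => (ρ i * τ j + ρ j * τ i) / 2, fun i j => by ring, fun v hv => ?_, fun i hi j hj => ?_⟩
  · beta_reduce
    rw [h1 v hv, k1 v hv, Finset.sum_mul_sum]
    have e : ∑ i ∈ Finset.range n, ∑ j ∈ Finset.range n, (ρ i * τ j + ρ j * τ i) / 2 * v i * v j =
        (∑ i ∈ Finset.range n, ∑ j ∈ Finset.range n, ρ i * v i * (τ j * v j)) / 2 +
        (∑ i ∈ Finset.range n, ∑ j ∈ Finset.range n, ρ j * v j * (τ i * v i)) / 2 := by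
      rw [Finset.sum_div, Finset.sum_div, ← Finset.sum_add_distrib]
      refine Finset.sum_congr rfl fun i _ => ?_
      rw [Finset.sum_div, Finset.sum_div, ← Finset.sum_add_distrib]
      exact Finset.sum_congr rfl fun j _ => by ring
    rw [e]
    have e2 : ∑ i ∈ Finset.range n, ∑ j ∈ Finset.range n, ρ j * v j * (τ i * v i) =
        ∑ i ∈ Finset.range n, ∑ j ∈ Finset.range n, ρ i * v i * (τ j * v j) := Finset.sum_comm
    rw [e2]
    ring
  · have key : ∀ a c, a < n → c < n → |q1 * q2 * (ρ a * τ c) - R a * T c| ≤ A * e2 + B * e1 + e1 * e2 := by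
      intro a c ha hc
      have e : q1 * q2 * (ρ a * τ c) - R a * T c = R a * (q2 * τ c - T c) + T c * (q1 * ρ a - R a)
          + (q1 * ρ a - R a) * (q2 * τ c - T c) := by ring
      have he1 : 0 ≤ e1 := (abs_nonneg _).trans (h2 a ha)
      rw [e]
      refine (abs_add_le _ _).trans (add_le_add ((abs_add_le _ _).trans (add_le_add ?_ ?_)) ?_)
      · rw [abs_mul]
        exact mul_le_mul (hA a ha) (k2 c hc) (abs_nonneg _) ((abs_nonneg _).trans (hA a ha))
      · rw [abs_mul]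
        exact mul_le_mul (hB c hc) (h2 a ha) (abs_nonneg _) ((abs_nonneg _).trans (hB c hc))
      · rw [abs_mul]
        exact mul_le_mul (h2 a ha) (k2 c hc) (abs_nonneg _) he1
    have e : 2 * (q1 * q2) * ((ρ i * τ j + ρ j * τ i) / 2) - ((R i * T j + R j * T i : ℤ) : ℝ) =
        (q1 * q2 * (ρ i * τ j) - R i * T j) + (q1 * q2 * (ρ j * τ i) - R j * T i) := by push_cast; ring
    rw [e]
    refine (abs_add_le _ _).trans ((add_le_add (key i j hi hj) (key j i hj hi)).trans (le_of_eq ?_))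
    ring

end Helper95.SH
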