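import Pool.Agent.Helper95.SH.Head

/-!
# Project RC, SHARP, cell engine: the exact head/tail identity `GI_ht`
-/

open MeasureTheory Set Filter Topology

namespace Helper95.SH

open Helper49.LT hiding sg
open Helper49.RC (om)
open Helper95.RC
open Helper49.Sharp
open Helper87.RC (BM)
open Helper56.RC (fc)
open Helper44.RCG (G1 G2 N0)
open Helper49.RC (vvS Wgt)
open Pool.Agent.Helper20.RC (lk lk_ge lk_sq)

/-! ### the rows -/

section

variable (c : CD) (N : ℕ) (p r s : ℤ → ℂ)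

noncomputable def gA (n : ℤ) : ℂ :=
  ee (((n + 1 : ℤ) : ℝ) * (Real.pi / 3)) * gNA c.P.ps (N + 3) (C1 c.P p r s) (C2 c.P p r s) (n + 1)
noncomputable def gB (n : ℤ) : ℂ :=
  ee (((n + 1 : ℤ) : ℝ) * (2 * Real.pi / 3)) * gNB c.P.ps (N + 3) (C1 c.P p r s) (C2 c.P p r s) (n + 1)
noncomputable def E1 (n : ℤ) : ℂ :=
  ee (((n + 1 : ℤ) : ℝ) * (Real.pi / 3)) * (starRingEnd ℂ) (Rn c.Th1 c.Th1' (n + 1) 1)
noncomputable def E2 (n : ℤ) : ℂ :=
  ee (((n + 1 : ℤ) : ℝ) * (2 * Real.pi / 3)) * (starRingEnd ℂ) (Rn c.Th2 c.Th2' (n + 1) 1)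
noncomputable def gL (n : ℤ) : ℂ := alA c.P p r n / ((n : ℂ) + 1)
noncomputable def U1 (n : ℤ) : ℂ := 1 / 2 * fc (Z1 c.P) n + gA c N p r s n + (H0A c.P p r : ℂ) * E1 c n
noncomputable def U2 (n : ℤ) : ℂ := 1 / 2 * fc (Z2 c.P) n + gB c N p r s n + (H0A c.P p r : ℂ) * E2 c n
noncomputable def V1 (n : ℤ) : ℂ := (c.mu1 / 2 : ℂ) * fc c.P.u1 n + (c.mu2 / 2 : ℂ) * fc c.d1 n
noncomputable def V2 (n : ℤ) : ℂ := (c.mu1 / 2 : ℂ) * fc c.P.u2 n + (c.mu2 / 2 : ℂ) * fc c.d2 n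

/-- the coefficients of `w f`, `f` -/
noncomputable def Fw (n : ℤ) : ℂ := fc (fun t => ((c.P.w t * c.L.f t : ℝ) : ℂ)) n
noncomputable def Fn (n : ℤ) : ℂ := fc (fun t => (c.L.f t : ℂ)) n
noncomputable def zes (n : ℤ) : ℂ := s n - fc c.L.zs n
noncomputable def zep (n : ℤ) : ℂ := p n - fc (fun t => (c.L.b2s t : ℂ)) n
noncomputable def zer (n : ℤ) : ℂ := r n - fc (fun t => (c.L.b3s t : ℂ)) n

/-- THE ROWS OF THE TAIL COORDINATES -/
noncomputable def Xr (n : ℤ) : ℂ :=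
  wm c.P.eta (fun n => U1 c N p r s n - U2 c N p r s n) n + (V1 c n - V2 c n)
  + ((c.P.m - c.P.lam : ℝ) : ℂ) * gLQ N (Fw c) (zes c s) n + (c.mu1 / 2 : ℂ) * gLQ N (Fn c) (zes c s) n
noncomputable def Yr (n : ℤ) : ℂ :=
  sy (fun n => wm c.P.eta (fun n => om * U1 c N p r s n + om ^ 2 * U2 c N p r s n + gL c p r n) n
    + (om * V1 c n + om ^ 2 * V2 c n)) n
  + ((9 - c.P.cs : ℝ) : ℂ) * wm c.P.eta p n
  - (c.L.p2 : ℂ) * (((c.P.m - c.P.lam : ℝ) : ℂ) * wm c.P.eta (zep c p) n + (c.mu1 / 2 : ℂ) * zep c p n)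
noncomputable def Zr (n : ℤ) : ℂ :=
  sy (fun n => wm c.P.eta (fun n => (starRingEnd ℂ) (kq 2) * U1 c N p r s n + kq 2 * U2 c N p r s n
      + -(Complex.I / 2) * gL c p r n) n
    + ((starRingEnd ℂ) (kq 2) * V1 c n + kq 2 * V2 c n)) n
  + ((9 - c.P.cs : ℝ) : ℂ) * wm c.P.eta r n
  - (c.L.p3 : ℂ) * (((c.P.m - c.P.lam : ℝ) : ℂ) * wm c.P.eta (zer c r) n + (c.mu1 / 2 : ℂ) * zer c r n)

/-- THE QUADRATIC FORM OF THE TAIL (without `D2`) -/
noncomputable def TT : ℝ :=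
  ∑ n ∈ Finset.Icc (-((N + 2 : ℕ) : ℤ)) ((N + 2 : ℕ) : ℤ), ‖alA c.P p r n‖ ^ 2 / ((n : ℝ) + 1)
  + NF c.P.ps (N + 3) (C1L c.P p r s) (C2L c.P p r s)
  + (9 - c.P.cs) * (SQ (N + 2) c.P.eta p + SQ (N + 2) c.P.eta r)
  + (c.P.m - c.P.lam) * (LQ N (Fw c) s - c.L.p2 * SQ (N + 2) c.P.eta p - c.L.p3 * SQ (N + 2) c.P.eta r)
  + c.mu1 * (1 / 2 * (LQ N (Fn c) s - c.L.p2 * S1Q N p - c.L.p3 * S1Q N r) + 3 / 4 * S1Q N p)
  + c.mu2 * (3 / 4 * S1Q N p)

end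

/-! ### the pieces -/

/-- a tail: zero at the low frequencies -/
structure Tl4 (p r s : ℤ → ℂ) : Prop where
  p0 : ∀ n : ℤ, n ∈ Finset.Icc (-4 : ℤ) 4 → p n = 0
  r0 : ∀ n : ℤ, n ∈ Finset.Icc (-4 : ℤ) 4 → r n = 0
  s0 : ∀ n : ℤ, n ∈ Finset.Icc (-5 : ℤ) 5 → s n = 0

section

variable {P : Par} {p r s p' r' s' : ℤ → ℂ} {N : ℕ}

theorem alA_low (h : Tl4 p' r' s') {n : ℤ} (hn : n ∈ Finset.Icc (-2 : ℤ) 2) : alA P p' r' n = 0 := by
  rw [Finset.mem_Icc] at hn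
  unfold alA wm
  rw [h.p0 n (by rw [Finset.mem_Icc]; omega), h.p0 (n - 2) (by rw [Finset.mem_Icc]; omega),
    h.p0 (n + 2) (by rw [Finset.mem_Icc]; omega), h.r0 n (by rw [Finset.mem_Icc]; omega),
    h.r0 (n - 2) (by rw [Finset.mem_Icc]; omega), h.r0 (n + 2) (by rw [Finset.mem_Icc]; omega)]
  ring

theorem sgA_ht (h : Tl4 p' r' s') : sgA P (fun n => p n + p' n) (fun n => r n + r' n) = sgA P p r := by
  unfold sgA
  rw [wm_add, wm_add]
  have e1 : wm P.eta p' 2 = 0 := by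
    unfold wm
    rw [h.p0 2 (by decide), h.p0 (2 - 2) (by decide), h.p0 (2 + 2) (by decide)]; ring
  have e2 : wm P.eta r' 2 = 0 := by
    unfold wm
    rw [h.r0 2 (by decide), h.r0 (2 - 2) (by decide), h.r0 (2 + 2) (by decide)]; ring
  rw [e1, e2, add_zero, add_zero]

theorem H0A_ht (h : Tl4 p' r' s') : H0A P (fun n => p n + p' n) (fun n => r n + r' n) = H0A P p r := by
  unfold H0A dlA
  rw [alA_add]
  beta_reduce
  rw [alA_low h (by decide), add_zero]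

/-- the sum over the even frequencies -/
theorem sum_ev {M : ℕ} {f : ℤ → ℝ} (h1 : ∀ n : ℤ, ¬ Even n → f n = 0)
    (h2 : ∀ n : ℤ, n ∉ Finset.Icc (-(M : ℤ)) M → f n = 0) :
    ∑ j ∈ Finset.Icc (-(M : ℤ)) M, f (2 * j) = ∑ n ∈ Finset.Icc (-(M : ℤ)) M, f n := by
  have h3 : ∀ j : ℤ, j ∉ Finset.Icc (-(M : ℤ)) M → f (2 * j) = 0 := fun j hj => h2 _ (by
    rw [Finset.mem_Icc] at hj ⊢; omega)
  rw [sum_win (f := fun j => f (2 * j)) h3, sum_win h2]
  refine Function.Injective.tsum_eq (g := fun j : ℤ => 2 * j) (f := f) (fun a b hab => ?_) ?_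
  · have : 2 * a = 2 * b := hab
    omega
  · intro n hn
    by_contra h
    apply hn
    apply h1
    rintro ⟨j, hj⟩
    exact h ⟨j, by show 2 * j = n; omega⟩

theorem alA_sup (hp : Sup N p) (hr : Sup N r) : Sup (N + 2) (alA P p r) := fun n hn => by
  unfold alA
  rw [wm_sup hp n hn, wm_sup hr n hn]
  ring

theorem wm_odd {η : ℂ} {f : ℤ → ℂ} (hf : ∀ n, ¬ Even n → f n = 0) {n : ℤ} (hn : ¬ Even n) : wm η f n = 0 := by
  unfold wm
  rw [hf n hn, hf (n - 2) (by rw [Int.even_sub]; simp [hn]), hf (n + 2) (by rw [Int.even_add]; simp [hn])]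
  ring

theorem alA_odd (hp : ∀ n, ¬ Even n → p n = 0) (hr : ∀ n, ¬ Even n → r n = 0) {n : ℤ} (hn : ¬ Even n) :
    alA P p r n = 0 := by
  unfold alA
  rw [wm_odd hp hn, wm_odd hr hn]
  ring

/-- the square sum of link 1 over all frequencies -/
theorem L1_sum (hp : Sup N p) (hr : Sup N r) (ep : ∀ n, ¬ Even n → p n = 0) (er : ∀ n, ¬ Even n → r n = 0) :
    ∑ j ∈ Finset.Icc (-((N + 2 : ℕ) : ℤ)) ((N + 2 : ℕ) : ℤ), ‖alA P p r (2 * j)‖ ^ 2 / (2 * (j : ℝ) + 1) =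
      ∑ n ∈ Finset.Icc (-((N + 2 : ℕ) : ℤ)) ((N + 2 : ℕ) : ℤ), ‖alA P p r n‖ ^ 2 / ((n : ℝ) + 1) := by
  have := sum_ev (M := N + 2) (f := fun n => ‖alA P p r n‖ ^ 2 / ((n : ℝ) + 1))
    (fun n hn => by rw [alA_odd ep er hn]; simp) (fun n hn => by rw [alA_sup hp hr n hn]; simp)
  rw [← this]
  refine Finset.sum_congr rfl fun j _ => ?_
  push_cast
  rfl

theorem L1A_ht (a : Arr N p r s) (a' : Arr N p' r' s') (h : Tl4 p' r' s') :
    L1A P N (fun n => p n + p' n) (fun n => r n + r' n) = L1A P N p r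
      + 2 * dt (N + 2) (alA P p' r') (fun n => alA P p r n / ((n : ℂ) + 1))
      + ∑ n ∈ Finset.Icc (-((N + 2 : ℕ) : ℤ)) ((N + 2 : ℕ) : ℤ), ‖alA P p' r' n‖ ^ 2 / ((n : ℝ) + 1) := by
  have s1 : Sup N fun n => p n + p' n := fun n hn => by beta_reduce; rw [a.sp n hn, a'.sp n hn, add_zero]
  have s2 : Sup N fun n => r n + r' n := fun n hn => by beta_reduce; rw [a.sr n hn, a'.sr n hn, add_zero]
  unfold L1A
  rw [L1_sum s1 s2 (fun n hn => by rw [a.ep n hn, a'.ep n hn, add_zero])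
    (fun n hn => by rw [a.er n hn, a'.er n hn, add_zero]), L1_sum a.sp a.sr a.ep a.er, alA_add]
  beta_reduce
  rw [alA_low h (by decide : (0 : ℤ) ∈ _), alA_low h (by decide : (2 : ℤ) ∈ _),
    alA_low h (by decide : (-2 : ℤ) ∈ _), add_zero, add_zero, add_zero]
  have e : ∑ n ∈ Finset.Icc (-((N + 2 : ℕ) : ℤ)) ((N + 2 : ℕ) : ℤ), ‖alA P p r n + alA P p' r' n‖ ^ 2 / ((n : ℝ) + 1) =
      ∑ n ∈ Finset.Icc (-((N + 2 : ℕ) : ℤ)) ((N + 2 : ℕ) : ℤ), ‖alA P p r n‖ ^ 2 / ((n : ℝ) + 1)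
      + 2 * dt (N + 2) (alA P p' r') (fun n => alA P p r n / ((n : ℂ) + 1))
      + ∑ n ∈ Finset.Icc (-((N + 2 : ℕ) : ℤ)) ((N + 2 : ℕ) : ℤ), ‖alA P p' r' n‖ ^ 2 / ((n : ℝ) + 1) := by
    unfold dt
    rw [Complex.re_sum, Finset.mul_sum, ← Finset.sum_add_distrib, ← Finset.sum_add_distrib]
    refine Finset.sum_congr rfl fun n _ => ?_
    rw [nsq_add', map_div₀, map_add, map_intCast, map_one]
    have e2 : alA P p' r' n * ((starRingEnd ℂ) (alA P p r n) / ((n : ℂ) + 1)) =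
        (alA P p' r' n * (starRingEnd ℂ) (alA P p r n)) / (((n : ℝ) + 1 : ℝ) : ℂ) := by push_cast; ring
    rw [e2, Complex.div_ofReal_re]
    ring
  rw [e]
  ring

end

section

variable (c : CD) {p r s p' r' s' : ℤ → ℂ} {N : ℕ}

theorem e0I_lin (N : ℕ) (p r s p' r' s' : ℤ → ℂ) :
    e0I c.P c.Th1 c.Th1' c.Th2 c.Th2' N (fun n => p n + p' n) (fun n => r n + r' n) (fun n => s n + s' n) =
      e0I c.P c.Th1 c.Th1' c.Th2 c.Th2' N p r s
      + (dt (N + 3) (C1L c.P p' r' s') (fun n => (starRingEnd ℂ) (Rn c.Th1 c.Th1' n 1))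
        + dt (N + 3) (C2L c.P p' r' s') (fun n => (starRingEnd ℂ) (Rn c.Th2 c.Th2' n 1))) := by
  unfold e0I dt
  rw [C1_add, C2_add, Complex.re_sum, Complex.re_sum]
  simp only [Complex.conj_conj, add_mul, Complex.add_re, Finset.sum_add_distrib]
  ring

/-- rows of the families -/
theorem dt_C (a' : Arr N p' r' s') (A B : ℤ → ℂ) :
    dt (N + 3) (C1L c.P p' r' s') A + dt (N + 3) (C2L c.P p' r' s') B =
      dt (N + 2) (G1L c.P p' r' s') (fun n => ee (((n + 1 : ℤ) : ℝ) * (Real.pi / 3)) * A (n + 1))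
      + dt (N + 2) (G2L c.P p' r' s') (fun n => ee (((n + 1 : ℤ) : ℝ) * (2 * Real.pi / 3)) * B (n + 1)) := by
  have h1 : C1L c.P p' r' s' = fun m : ℤ => ee (-(m : ℝ) * (Real.pi / 3)) * G1L c.P p' r' s' (m - 1) :=
    funext fun m => C1L_eq m
  have h2 : C2L c.P p' r' s' = fun m : ℤ => ee (-(m : ℝ) * (2 * Real.pi / 3)) * G2L c.P p' r' s' (m - 1) :=
    funext fun m => C2L_eq m
  rw [h1, h2, dt_fam (G1L_sup a'.sp a'.sr a'.ss), dt_fam (G2L_sup a'.sp a'.sr a'.ss)]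

theorem LA_ht (a : Arr N p r s) (a' : Arr N p' r' s') :
    LA c.P N (fun n => p n + p' n) (fun n => r n + r' n) (fun n => s n + s' n) = LA c.P N p r s
      + 2 * (dt (N + 2) (G1L c.P p' r' s') (fun n => 1 / 2 * fc (Z1 c.P) n)
        + dt (N + 2) (G2L c.P p' r' s') (fun n => 1 / 2 * fc (Z2 c.P) n))
      + (9 - c.P.cs) * (2 * (dt N p' (wm c.P.eta p) + dt N r' (wm c.P.eta r)))
      + (9 - c.P.cs) * (SQ (N + 2) c.P.eta p' + SQ (N + 2) c.P.eta r') := by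
  have k1 : ∀ p r s : ℤ → ℂ, LA c.P N p r s = dt (N + 2) (G1A c.P p r s) (fc (Z1 c.P))
      + dt (N + 2) (G2A c.P p r s) (fc (Z2 c.P)) + (9 - c.P.cs) * (SQ (N + 2) c.P.eta p + SQ (N + 2) c.P.eta r) := by
    intro p r s
    unfold LA SQ dt
    rw [Finset.sum_add_distrib, Complex.add_re]
  have k2 : ∀ (G X : ℤ → ℂ), dt (N + 2) G (fun n => 1 / 2 * X n) = 1 / 2 * dt (N + 2) G X := by
    intro G X
    have := dt_rmul (N + 2) (1 / 2) G X
    rw [← this]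
    congr 1
    funext n
    push_cast
    ring
  rw [k1, k1, G1A_add, G2A_add, SQ_ht _ a.sp a'.sp, SQ_ht _ a.sr a'.sr, dt_addl, dt_addl, k2, k2]
  ring

theorem LoA_ht (hF : ∀ n, Fw c (-n) = (starRingEnd ℂ) (Fw c n)) (hN : c.K0 ≤ N) (a : Arr N p r s)
    (a' : Arr N p' r' s') :
    LoA c.L N (fun n => p n + p' n) (fun n => r n + r' n) (fun n => s n + s' n) = LoA c.L N p r s
      + 2 * (dt N s' (gLQ N (Fw c) (zes c s)) - c.L.p2 * dt N p' (wm c.P.eta (zep c p))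
        - c.L.p3 * dt N r' (wm c.P.eta (zer c r)))
      + (LQ N (Fw c) s' - c.L.p2 * SQ (N + 2) c.P.eta p' - c.L.p3 * SQ (N + 2) c.P.eta r') := by
  have f1 : (fun n => s n + s' n - fc c.L.zs n) = fun n => zes c s n + s' n := by
    funext n; unfold zes; ring
  have f2 : (fun n => p n + p' n - fc (fun t => (c.L.b2s t : ℂ)) n) = fun n => zep c p n + p' n := by
    funext n; unfold zep; ring
  have f3 : (fun n => r n + r' n - fc (fun t => (c.L.b3s t : ℂ)) n) = fun n => zer c r n + r' n := by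
    funext n; unfold zer; ring
  have g2 : Sup N (zep c p) := sup_sub a.sp (Sup.mono hN c.L.s2)
  have g3 : Sup N (zer c r) := sup_sub a.sr (Sup.mono hN c.L.s3)
  unfold LoA
  beta_reduce
  rw [f1, f2, f3, SQ_ht _ g2 a'.sp, SQ_ht _ g3 a'.sr]
  have := LQ_ht N hF (zes c s) s'
  unfold Fw at this
  rw [this]
  unfold Fw zes zep zer
  ring

theorem Lo1A_ht (hF : ∀ n, Fn c (-n) = (starRingEnd ℂ) (Fn c n)) :
    Lo1A c.L N (fun n => p n + p' n) (fun n => r n + r' n) (fun n => s n + s' n) = Lo1A c.L N p r s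
      + 2 * (dt N s' (gLQ N (Fn c) (zes c s)) - c.L.p2 * dt N p' (zep c p) - c.L.p3 * dt N r' (zer c r))
      + (LQ N (Fn c) s' - c.L.p2 * S1Q N p' - c.L.p3 * S1Q N r') := by
  have f1 : (fun n => s n + s' n - fc c.L.zs n) = fun n => zes c s n + s' n := by
    funext n; unfold zes; ring
  have f2 : (fun n => p n + p' n - fc (fun t => (c.L.b2s t : ℂ)) n) = fun n => zep c p n + p' n := by
    funext n; unfold zep; ring
  have f3 : (fun n => r n + r' n - fc (fun t => (c.L.b3s t : ℂ)) n) = fun n => zer c r n + r' n := by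
    funext n; unfold zer; ring
  unfold Lo1A
  beta_reduce
  rw [f1, f2, f3, S1Q_ht, S1Q_ht]
  have := LQ_ht N hF (zes c s) s'
  unfold Fn at this
  rw [this]
  unfold Fn zes zep zer
  ring

theorem NrA_ht (h : Tl4 p' r' s') (hd : ∀ n, p n = 0 ∨ p' n = 0) :
    NrA c.d1 c.d2 N (fun n => p n + p' n) (fun n => r n + r' n) (fun n => s n + s' n) = NrA c.d1 c.d2 N p r s
      + (dt N (g1L p' r' s') (fc c.d1) + dt N (g2L p' r' s') (fc c.d2)) + 3 / 4 * S1Q N p' := by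
  have k1 : ∀ p r s : ℤ → ℂ, NrA c.d1 c.d2 N p r s = dt N (g1A p r s) (fc c.d1) + dt N (g2A p r s) (fc c.d2)
      - 2 + (p 0).re + 3 / 4 * S1Q N p - 1 / 5 := fun p r s => rfl
  have k2 : dt N p' p = 0 := by
    unfold dt
    rw [Finset.sum_eq_zero, Complex.zero_re]
    intro n _
    rcases hd n with h1 | h1
    · rw [h1, map_zero, mul_zero]
    · rw [h1, zero_mul]
  rw [k1, k1, g1A_add, g2A_add, dt_addl, dt_addl, S1Q_ht, k2, h.p0 0 (by decide), add_zero]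
  ring

theorem NrLA_ht (hF : ∀ n, Fn c (-n) = (starRingEnd ℂ) (Fn c n)) (h : Tl4 p' r' s') (hd : ∀ n, p n = 0 ∨ p' n = 0) :
    NrLA c.L N (fun n => p n + p' n) (fun n => r n + r' n) (fun n => s n + s' n) = NrLA c.L N p r s
      + (dt N (g1L p' r' s') (fc c.P.u1) + dt N (g2L p' r' s') (fc c.P.u2))
      + 1 / 2 * (2 * (dt N s' (gLQ N (Fn c) (zes c s)) - c.L.p2 * dt N p' (zep c p) - c.L.p3 * dt N r' (zer c r))
      + (LQ N (Fn c) s' - c.L.p2 * S1Q N p' - c.L.p3 * S1Q N r')) + 3 / 4 * S1Q N p' := by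
  have k1 : ∀ p r s : ℤ → ℂ, NrLA c.L N p r s = dt N (g1A p r s) (fc c.P.u1) + dt N (g2A p r s) (fc c.P.u2)
      + 1 / 2 * Lo1A c.L N p r s - 2 + (p 0).re + 3 / 4 * S1Q N p - 1 / 5 := fun p r s => rfl
  have k2 : dt N p' p = 0 := by
    unfold dt
    rw [Finset.sum_eq_zero, Complex.zero_re]
    intro n _
    rcases hd n with h1 | h1
    · rw [h1, map_zero, mul_zero]
    · rw [h1, zero_mul]
  rw [k1, k1, g1A_add, g2A_add, dt_addl, dt_addl, S1Q_ht, k2, h.p0 0 (by decide), add_zero, Lo1A_ht c hF]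
  ring

theorem dt_add3 (N : ℕ) (u X Y Z : ℤ → ℂ) : dt N u (fun n => X n + Y n + Z n) = dt N u X + dt N u Y + dt N u Z := by
  rw [dt_add, dt_add]

theorem Fw_neg (c : CD) (n : ℤ) : Fw c (-n) = (starRingEnd ℂ) (Fw c n) := fc_real_neg _ n
theorem Fn_neg (c : CD) (n : ℤ) : Fn c (-n) = (starRingEnd ℂ) (Fn c n) := fc_real_neg _ n

/-- **THE EXACT HEAD/TAIL IDENTITY** -/
theorem GI_ht (hN : c.K0 ≤ N) (a : Arr N p r s) (a' : Arr N p' r' s') (h : Tl4 p' r' s') (hd : ∀ n, p n = 0 ∨ p' n = 0) :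
    GI c N (fun n => p n + p' n) (fun n => r n + r' n) (fun n => s n + s' n) =
      HG c N p r s - 2 / c.P.nu * ∑' k : ℕ, (lk k ^ 2 - 1) * ‖qk c N p r s k + q0 c N p' r' s' k‖ ^ 2
      + 2 * dt N s' (Xr c N p r s) + 2 * dt N p' (Yr c N p r s) + 2 * dt N r' (Zr c N p r s)
      + TT c N p' r' s' := by
  have hFw := Fw_neg c
  have hFn := Fn_neg c
  have hc := dt_C c a' (gNA c.P.ps (N + 3) (C1 c.P p r s) (C2 c.P p r s))
    (gNB c.P.ps (N + 3) (C1 c.P p r s) (C2 c.P p r s))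
  have he := dt_C c a' (fun n => (starRingEnd ℂ) (Rn c.Th1 c.Th1' n 1)) (fun n => (starRingEnd ℂ) (Rn c.Th2 c.Th2' n 1))
  have hG := dt_G (P := c.P) a'.sp a'.sr a'.ss (U1 c N p r s) (U2 c N p r s)
  have hU1 : dt (N + 2) (G1L c.P p' r' s') (U1 c N p r s) =
      dt (N + 2) (G1L c.P p' r' s') (fun n => 1 / 2 * fc (Z1 c.P) n) + dt (N + 2) (G1L c.P p' r' s') (gA c N p r s)
      + H0A c.P p r * dt (N + 2) (G1L c.P p' r' s') (E1 c) := by
    have e : U1 c N p r s = fun n => 1 / 2 * fc (Z1 c.P) n + gA c N p r s n + (H0A c.P p r : ℂ) * E1 c n := rfl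
    rw [e, dt_add3, dt_rmul]
  have hU2 : dt (N + 2) (G2L c.P p' r' s') (U2 c N p r s) =
      dt (N + 2) (G2L c.P p' r' s') (fun n => 1 / 2 * fc (Z2 c.P) n) + dt (N + 2) (G2L c.P p' r' s') (gB c N p r s)
      + H0A c.P p r * dt (N + 2) (G2L c.P p' r' s') (E2 c) := by
    have e : U2 c N p r s = fun n => 1 / 2 * fc (Z2 c.P) n + gB c N p r s n + (H0A c.P p r : ℂ) * E2 c n := rfl
    rw [e, dt_add3, dt_rmul]
  have hV := dt_g (N := N) p' r' s' (V1 c) (V2 c)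
  have hV1 : dt N (g1L p' r' s') (V1 c) = c.mu1 / 2 * dt N (g1L p' r' s') (fc c.P.u1)
      + c.mu2 / 2 * dt N (g1L p' r' s') (fc c.d1) := by
    have e : V1 c = fun n => ((c.mu1 / 2 : ℝ) : ℂ) * fc c.P.u1 n + ((c.mu2 / 2 : ℝ) : ℂ) * fc c.d1 n := by
      funext n; unfold V1; push_cast; rfl
    rw [e, dt_add, dt_rmul, dt_rmul]
  have hV2 : dt N (g2L p' r' s') (V2 c) = c.mu1 / 2 * dt N (g2L p' r' s') (fc c.P.u2)
      + c.mu2 / 2 * dt N (g2L p' r' s') (fc c.d2) := by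
    have e : V2 c = fun n => ((c.mu1 / 2 : ℝ) : ℂ) * fc c.P.u2 n + ((c.mu2 / 2 : ℝ) : ℂ) * fc c.d2 n := by
      funext n; unfold V2; push_cast; rfl
    rw [e, dt_add, dt_rmul, dt_rmul]
  have hal := dt_al (P := c.P) a'.sp a'.sr (gL c p r)
  have hX : dt N s' (Xr c N p r s) = dt N s' (wm c.P.eta fun n => U1 c N p r s n - U2 c N p r s n)
      + dt N s' (fun n => V1 c n - V2 c n) + (c.P.m - c.P.lam) * dt N s' (gLQ N (Fw c) (zes c s))
      + c.mu1 / 2 * dt N s' (gLQ N (Fn c) (zes c s)) := by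
    have e : Xr c N p r s = fun n => wm c.P.eta (fun n => U1 c N p r s n - U2 c N p r s n) n + (V1 c n - V2 c n)
        + ((c.P.m - c.P.lam : ℝ) : ℂ) * gLQ N (Fw c) (zes c s) n
        + ((c.mu1 / 2 : ℝ) : ℂ) * gLQ N (Fn c) (zes c s) n := by
      funext n; unfold Xr; push_cast; rfl
    rw [e, dt_add, dt_add, dt_add, dt_rmul, dt_rmul]
  have hY : dt N p' (Yr c N p r s) = dt N p' (wm c.P.eta fun n => om * U1 c N p r s n + om ^ 2 * U2 c N p r s n)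
      + dt N p' (wm c.P.eta (gL c p r)) + dt N p' (fun n => om * V1 c n + om ^ 2 * V2 c n)
      + (9 - c.P.cs) * dt N p' (wm c.P.eta p)
      - c.L.p2 * ((c.P.m - c.P.lam) * dt N p' (wm c.P.eta (zep c p)) + c.mu1 / 2 * dt N p' (zep c p)) := by
    have e : Yr c N p r s = fun n => (sy (fun n => wm c.P.eta (fun n => om * U1 c N p r s n + om ^ 2 * U2 c N p r s n
        + gL c p r n) n + (om * V1 c n + om ^ 2 * V2 c n)) n + ((9 - c.P.cs : ℝ) : ℂ) * wm c.P.eta p n)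
        - (c.L.p2 : ℂ) * (((c.P.m - c.P.lam : ℝ) : ℂ) * wm c.P.eta (zep c p) n
          + ((c.mu1 / 2 : ℝ) : ℂ) * zep c p n) := by
      funext n; unfold Yr; push_cast; rfl
    have e2 : (wm c.P.eta fun n => om * U1 c N p r s n + om ^ 2 * U2 c N p r s n + gL c p r n) =
        fun n => (wm c.P.eta fun n => om * U1 c N p r s n + om ^ 2 * U2 c N p r s n) n + wm c.P.eta (gL c p r) n :=
      wm_add' _ _ _
    have e3 : dt N p' (fun n => ((c.P.m - c.P.lam : ℝ) : ℂ) * wm c.P.eta (zep c p) n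
          + ((c.mu1 / 2 : ℝ) : ℂ) * zep c p n) =
        (c.P.m - c.P.lam) * dt N p' (wm c.P.eta (zep c p)) + c.mu1 / 2 * dt N p' (zep c p) := by
      rw [dt_add, dt_rmul, dt_rmul]
    rw [e, dt_sub, dt_add, dt_sy N a'.hp, dt_rmul, dt_rmul, e3, dt_add, e2, dt_add]
  have hZ : dt N r' (Zr c N p r s) =
      dt N r' (wm c.P.eta fun n => (starRingEnd ℂ) (kq 2) * U1 c N p r s n + kq 2 * U2 c N p r s n)
      + dt N r' (wm c.P.eta fun n => -(Complex.I / 2) * gL c p r n)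
      + dt N r' (fun n => (starRingEnd ℂ) (kq 2) * V1 c n + kq 2 * V2 c n)
      + (9 - c.P.cs) * dt N r' (wm c.P.eta r)
      - c.L.p3 * ((c.P.m - c.P.lam) * dt N r' (wm c.P.eta (zer c r)) + c.mu1 / 2 * dt N r' (zer c r)) := by
    have e : Zr c N p r s = fun n => (sy (fun n => wm c.P.eta (fun n => (starRingEnd ℂ) (kq 2) * U1 c N p r s n
        + kq 2 * U2 c N p r s n + -(Complex.I / 2) * gL c p r n) n
        + ((starRingEnd ℂ) (kq 2) * V1 c n + kq 2 * V2 c n)) n + ((9 - c.P.cs : ℝ) : ℂ) * wm c.P.eta r n)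
        - (c.L.p3 : ℂ) * (((c.P.m - c.P.lam : ℝ) : ℂ) * wm c.P.eta (zer c r) n
          + ((c.mu1 / 2 : ℝ) : ℂ) * zer c r n) := by
      funext n; unfold Zr; push_cast; rfl
    have e2 : (wm c.P.eta fun n => (starRingEnd ℂ) (kq 2) * U1 c N p r s n + kq 2 * U2 c N p r s n
          + -(Complex.I / 2) * gL c p r n) =
        fun n => (wm c.P.eta fun n => (starRingEnd ℂ) (kq 2) * U1 c N p r s n + kq 2 * U2 c N p r s n) n
          + (wm c.P.eta fun n => -(Complex.I / 2) * gL c p r n) n :=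
      wm_add' _ _ _
    have e3 : dt N r' (fun n => ((c.P.m - c.P.lam : ℝ) : ℂ) * wm c.P.eta (zer c r) n
          + ((c.mu1 / 2 : ℝ) : ℂ) * zer c r n) =
        (c.P.m - c.P.lam) * dt N r' (wm c.P.eta (zer c r)) + c.mu1 / 2 * dt N r' (zer c r) := by
      rw [dt_add, dt_rmul, dt_rmul]
    rw [e, dt_sub, dt_add, dt_sy N a'.hr, dt_rmul, dt_rmul, e3, dt_add, e2, dt_add]
  have hk : (fun k : ℕ => (lk k ^ 2 - 1) * ‖qk c N (fun n => p n + p' n) (fun n => r n + r' n)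
      (fun n => s n + s' n) k‖ ^ 2) = fun k : ℕ => (lk k ^ 2 - 1) * ‖qk c N p r s k + q0 c N p' r' s' k‖ ^ 2 := by
    funext k
    rw [qk_add]
  have q3 : s' (-3) = 0 := h.s0 _ (by decide)
  have q5 : s' (-5) = 0 := h.s0 _ (by decide)
  rw [GI_eq, hk]
  unfold HG TT
  rw [sgA_ht h, H0A_ht h, L1A_ht a a' h, e0I_lin, C1_add, C2_add, NF_ht, LA_ht c a a', LoA_ht c hFw hN a a',
    NrLA_ht c hFn h hd, NrA_ht c h hd]
  beta_reduce
  rw [q3, q5, add_zero, add_zero]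
  have hgA : dt (N + 2) (G1L c.P p' r' s') (gA c N p r s) + dt (N + 2) (G2L c.P p' r' s') (gB c N p r s) =
      dt (N + 3) (C1L c.P p' r' s') (gNA c.P.ps (N + 3) (C1 c.P p r s) (C2 c.P p r s))
      + dt (N + 3) (C2L c.P p' r' s') (gNB c.P.ps (N + 3) (C1 c.P p r s) (C2 c.P p r s)) := hc.symm
  have hgE : dt (N + 2) (G1L c.P p' r' s') (E1 c) + dt (N + 2) (G2L c.P p' r' s') (E2 c) =
      dt (N + 3) (C1L c.P p' r' s') (fun n => (starRingEnd ℂ) (Rn c.Th1 c.Th1' n 1))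
      + dt (N + 3) (C2L c.P p' r' s') (fun n => (starRingEnd ℂ) (Rn c.Th2 c.Th2' n 1)) := he.symm
  have hgL : dt (N + 2) (alA c.P p' r') (fun n => alA c.P p r n / ((n : ℂ) + 1)) =
      dt N p' (wm c.P.eta (gL c p r)) + dt N r' (wm c.P.eta fun n => -(Complex.I / 2) * gL c p r n) := hal
  rw [hX, hY, hZ, ← hgA, ← hgE, hgL]
  rw [hU1, hU2] at hG
  rw [hV1, hV2] at hV
  have z1 : dt N s' (wm c.P.eta fun n => U1 c N p r s n - U2 c N p r s n)
      + dt N p' (wm c.P.eta fun n => om * U1 c N p r s n + om ^ 2 * U2 c N p r s n)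
      + dt N r' (wm c.P.eta fun n => (starRingEnd ℂ) (kq 2) * U1 c N p r s n + kq 2 * U2 c N p r s n) =
      dt (N + 2) (G1L c.P p' r' s') (fun n => 1 / 2 * fc (Z1 c.P) n)
      + dt (N + 2) (G2L c.P p' r' s') (fun n => 1 / 2 * fc (Z2 c.P) n)
      + (dt (N + 2) (G1L c.P p' r' s') (gA c N p r s) + dt (N + 2) (G2L c.P p' r' s') (gB c N p r s))
      + H0A c.P p r * (dt (N + 2) (G1L c.P p' r' s') (E1 c) + dt (N + 2) (G2L c.P p' r' s') (E2 c)) := by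
    rw [← hG]; ring
  have z2 : dt N s' (fun n => V1 c n - V2 c n) + dt N p' (fun n => om * V1 c n + om ^ 2 * V2 c n)
      + dt N r' (fun n => (starRingEnd ℂ) (kq 2) * V1 c n + kq 2 * V2 c n) =
      c.mu1 / 2 * (dt N (g1L p' r' s') (fc c.P.u1) + dt N (g2L p' r' s') (fc c.P.u2))
      + c.mu2 / 2 * (dt N (g1L p' r' s') (fc c.d1) + dt N (g2L p' r' s') (fc c.d2)) := by
    rw [← hV]; ring
  linear_combination (-2) * z1 + (-2) * z2

end

end Helper95.SH
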