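import Pool.Agent.Helper95.SH.Cell

/-!
# Project RC, SHARP, cell engine: the error of a product of two rows
-/

namespace Helper95.SH

/-- the value of an integer row -/
noncomputable def iv (n : ℕ) (R : ℕ → ℤ) (v : ℕ → ℝ) : ℝ := ∑ i ∈ Finset.range n, (R i : ℝ) * v i

/-- the square sum -/
noncomputable def sqv (n : ℕ) (v : ℕ → ℝ) : ℝ := ∑ i ∈ Finset.range n, v i ^ 2
/-- the sum of the absolute values -/
noncomputable def abv (n : ℕ) (v : ℕ → ℝ) : ℝ := ∑ i ∈ Finset.range n, |v i|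

theorem abv_nonneg (n : ℕ) (v : ℕ → ℝ) : 0 ≤ abv n v := Finset.sum_nonneg fun _ _ => abs_nonneg _

theorem abv_sq (n : ℕ) (v : ℕ → ℝ) : abv n v ^ 2 ≤ n * sqv n v := by
  unfold abv sqv
  have h := sq_sum_le_card_mul_sum_sq (s := Finset.range n) (f := fun i => |v i|)
  rw [Finset.card_range] at h
  simpa [sq_abs] using h

theorem iv_le {n : ℕ} {R : ℕ → ℤ} {A : ℝ} (hA : ∀ i < n, |(R i : ℝ)| ≤ A) (v : ℕ → ℝ) : |iv n R v| ≤ A * abv n v := by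
  unfold iv abv
  rw [Finset.mul_sum]
  refine (Finset.abs_sum_le_sum_abs _ _).trans (Finset.sum_le_sum fun i hi => ?_)
  rw [abs_mul]
  exact mul_le_mul_of_nonneg_right (hA i (Finset.mem_range.1 hi)) (abs_nonneg _)

/-- the error of a row -/
theorem LR.val {n : ℕ} {q e : ℝ} {X : (ℕ → ℝ) → ℝ} {R : ℕ → ℤ} (h : LR n q X R e) {v : ℕ → ℝ} (hv : v 0 = 1) :
    |q * X v - iv n R v| ≤ e * abv n v := by
  obtain ⟨ρ, h1, h2⟩ := h
  unfold iv abv
  rw [h1 v hv, Finset.mul_sum, ← Finset.sum_sub_distrib, Finset.mul_sum]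
  refine (Finset.abs_sum_le_sum_abs _ _).trans (Finset.sum_le_sum fun i hi => ?_)
  have e' : q * (ρ i * v i) - (R i : ℝ) * v i = (q * ρ i - R i) * v i := by ring
  rw [e', abs_mul]
  exact mul_le_mul_of_nonneg_right (h2 i (Finset.mem_range.1 hi)) (abs_nonneg _)

/-- **the error of a product of two rows** -/
theorem LR.mulv {n : ℕ} {q1 q2 e1 e2 A B : ℝ} {X Y : (ℕ → ℝ) → ℝ} {R T : ℕ → ℤ}
    (h : LR n q1 X R e1) (k : LR n q2 Y T e2) (hA : ∀ i < n, |(R i : ℝ)| ≤ A) (hB : ∀ i < n, |(T i : ℝ)| ≤ B)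
    (h1 : 0 ≤ e1) (h2 : 0 ≤ e2) (hA0 : 0 ≤ A) (hB0 : 0 ≤ B) {v : ℕ → ℝ} (hv : v 0 = 1) :
    |q1 * q2 * (X v * Y v) - iv n R v * iv n T v| ≤ n * (A * e2 + B * e1 + e1 * e2) * sqv n v := by
  have a1 := h.val hv
  have a2 := k.val hv
  have b1 := iv_le hA v
  have b2 := iv_le hB v
  have s0 := abv_nonneg n v
  have e : q1 * q2 * (X v * Y v) - iv n R v * iv n T v = iv n R v * (q2 * Y v - iv n T v)
      + iv n T v * (q1 * X v - iv n R v) + (q1 * X v - iv n R v) * (q2 * Y v - iv n T v) := by ring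
  have c1 : |iv n R v * (q2 * Y v - iv n T v)| ≤ (A * abv n v) * (e2 * abv n v) := by
    rw [abs_mul]; exact mul_le_mul b1 a2 (abs_nonneg _) (mul_nonneg hA0 s0)
  have c2 : |iv n T v * (q1 * X v - iv n R v)| ≤ (B * abv n v) * (e1 * abv n v) := by
    rw [abs_mul]; exact mul_le_mul b2 a1 (abs_nonneg _) (mul_nonneg hB0 s0)
  have c3 : |(q1 * X v - iv n R v) * (q2 * Y v - iv n T v)| ≤ (e1 * abv n v) * (e2 * abv n v) := by
    rw [abs_mul]; exact mul_le_mul a1 a2 (abs_nonneg _) (mul_nonneg h1 s0)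
  have c4 := abv_sq n v
  have c5 : 0 ≤ A * e2 + B * e1 + e1 * e2 := by positivity
  rw [e]
  refine (abs_add_le _ _).trans ((add_le_add (abs_add_le _ _) le_rfl).trans ?_)
  calc |iv n R v * (q2 * Y v - iv n T v)| + |iv n T v * (q1 * X v - iv n R v)|
        + |(q1 * X v - iv n R v) * (q2 * Y v - iv n T v)|
      ≤ (A * abv n v) * (e2 * abv n v) + (B * abv n v) * (e1 * abv n v) + (e1 * abv n v) * (e2 * abv n v) :=
        add_le_add (add_le_add c1 c2) c3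
    _ = (A * e2 + B * e1 + e1 * e2) * abv n v ^ 2 := by ring
    _ ≤ (A * e2 + B * e1 + e1 * e2) * (n * sqv n v) := mul_le_mul_of_nonneg_left c4 c5
    _ = _ := by ring

/-- sums of products of rows: `g v = ∑ w_c X_c Y_c` against its integer form -/
theorem rows_err {ι : Type*} (S : Finset ι) {n : ℕ} {q1 q2 : ι → ℝ} {e1 e2 A B w : ι → ℝ}
    {X Y : ι → (ℕ → ℝ) → ℝ} {R T : ι → ℕ → ℤ}
    (h : ∀ c ∈ S, LR n (q1 c) (X c) (R c) (e1 c)) (k : ∀ c ∈ S, LR n (q2 c) (Y c) (T c) (e2 c))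
    (hA : ∀ c ∈ S, ∀ i < n, |(R c i : ℝ)| ≤ A c) (hB : ∀ c ∈ S, ∀ i < n, |(T c i : ℝ)| ≤ B c)
    (h1 : ∀ c ∈ S, 0 ≤ e1 c) (h2 : ∀ c ∈ S, 0 ≤ e2 c) (hA0 : ∀ c ∈ S, 0 ≤ A c) (hB0 : ∀ c ∈ S, 0 ≤ B c)
    {v : ℕ → ℝ} (hv : v 0 = 1) :
    |∑ c ∈ S, w c * (q1 c * q2 c * (X c v * Y c v)) - ∑ c ∈ S, w c * (iv n (R c) v * iv n (T c) v)| ≤
      (∑ c ∈ S, |w c| * (n * (A c * e2 c + B c * e1 c + e1 c * e2 c))) * sqv n v := by
  rw [← Finset.sum_sub_distrib, Finset.sum_mul]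
  refine (Finset.abs_sum_le_sum_abs _ _).trans (Finset.sum_le_sum fun c hc => ?_)
  have m := LR.mulv (h c hc) (k c hc) (hA c hc) (hB c hc) (h1 c hc) (h2 c hc) (hA0 c hc) (hB0 c hc) hv
  rw [← mul_sub, abs_mul]
  calc _ ≤ |w c| * (n * (A c * e2 c + B c * e1 c + e1 c * e2 c) * sqv n v) :=
        mul_le_mul_of_nonneg_left m (abs_nonneg _)
    _ = _ := by ring

end Helper95.SH
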