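import Mathlib

/-!
# Convergence of square summable sequences (any index type)
-/

open Filter Topology

namespace Helper95.SH

variable {ι : Type*}

/-- square summable -/
def L2 (f : ι → ℂ) : Prop := Summable fun n => ‖f n‖ ^ 2

/-- `g N → f` in `ℓ²` -/
structure Tl (f : ι → ℂ) (g : ℕ → ι → ℂ) : Prop where
  s : L2 f
  t : ∀ N, L2 (g N)
  l : Tendsto (fun N => ∑' n, ‖f n - g N n‖ ^ 2) atTop (𝓝 0)

theorem sq_add_le (x y : ℂ) : ‖x + y‖ ^ 2 ≤ 2 * ‖x‖ ^ 2 + 2 * ‖y‖ ^ 2 := by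
  have h := norm_add_le x y
  have h0 := norm_nonneg (x + y)
  nlinarith [sq_nonneg (‖x‖ - ‖y‖), norm_nonneg x, norm_nonneg y]

theorem L2.add {f g : ι → ℂ} (hf : L2 f) (hg : L2 g) : L2 (fun n => f n + g n) := by
  refine Summable.of_nonneg_of_le (fun n => by positivity) (fun n => sq_add_le (f n) (g n)) ?_
  exact (Summable.mul_left 2 hf).add (Summable.mul_left 2 hg)

theorem L2.cmul {f : ι → ℂ} (hf : L2 f) (c : ℂ) : L2 (fun n => c * f n) := by
  have : (fun n => ‖c * f n‖ ^ 2) = fun n => ‖c‖ ^ 2 * ‖f n‖ ^ 2 := by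
    funext n; rw [norm_mul, mul_pow]
  unfold L2
  rw [this]
  exact Summable.mul_left _ hf

theorem L2.sub {f g : ι → ℂ} (hf : L2 f) (hg : L2 g) : L2 (fun n => f n - g n) := by
  have := hf.add (hg.cmul (-1))
  have e : (fun n => f n + -1 * g n) = fun n => f n - g n := by funext n; ring
  rwa [e] at this

theorem L2.mulb {f : ι → ℂ} (hf : L2 f) {m : ι → ℂ} {C : ℝ} (hm : ∀ n, ‖m n‖ ≤ C) : L2 (fun n => m n * f n) := by
  refine Summable.of_nonneg_of_le (fun n => by positivity) (fun n => ?_) (Summable.mul_left (C ^ 2) hf)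
  rw [norm_mul, mul_pow]
  exact mul_le_mul_of_nonneg_right (pow_le_pow_left₀ (norm_nonneg _) (hm n) 2) (by positivity)

theorem L2.comp {κ : Type*} {f : ι → ℂ} (hf : L2 f) {i : κ → ι} (hi : Function.Injective i) :
    L2 (fun k => f (i k)) := Summable.comp_injective hf hi

theorem L2.zero : L2 (fun _ : ι => (0 : ℂ)) := by
  unfold L2
  simp

theorem L2.fin {f : ι → ℂ} (S : Finset ι) (h : ∀ n, n ∉ S → f n = 0) : L2 f :=
  summable_of_ne_finset_zero (s := S) fun n hn => by rw [h n hn]; simp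

theorem tsum_nn (f : ι → ℂ) : 0 ≤ ∑' n, ‖f n‖ ^ 2 := tsum_nonneg fun n => by positivity

namespace Tl

variable {f f' : ι → ℂ} {g g' : ℕ → ι → ℂ}

theorem d (h : Tl f g) (N : ℕ) : L2 (fun n => f n - g N n) := h.s.sub (h.t N)

theorem const (h : L2 f) : Tl f (fun _ => f) := by
  refine ⟨h, fun _ => h, ?_⟩
  simp

theorem add (h : Tl f g) (h' : Tl f' g') : Tl (fun n => f n + f' n) (fun N n => g N n + g' N n) := by
  refine ⟨h.s.add h'.s, fun N => (h.t N).add (h'.t N), ?_⟩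
  have t := (h.l.const_mul 2).add (h'.l.const_mul 2)
  rw [mul_zero, add_zero] at t
  refine squeeze_zero (fun N => tsum_nn _) (fun N => ?_) t
  rw [← tsum_mul_left, ← tsum_mul_left, ← Summable.tsum_add ((h.d N).mul_left 2) ((h'.d N).mul_left 2)]
  refine Summable.tsum_le_tsum (fun n => ?_) ?_ (((h.d N).mul_left 2).add ((h'.d N).mul_left 2))
  · have e : f n + f' n - (g N n + g' N n) = (f n - g N n) + (f' n - g' N n) := by ring
    rw [e]
    exact sq_add_le _ _
  · exact (h.s.add h'.s).sub ((h.t N).add (h'.t N))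

theorem mulb (h : Tl f g) {m : ι → ℂ} {C : ℝ} (hm : ∀ n, ‖m n‖ ≤ C) :
    Tl (fun n => m n * f n) (fun N n => m n * g N n) := by
  refine ⟨h.s.mulb hm, fun N => (h.t N).mulb hm, ?_⟩
  have t := h.l.const_mul (C ^ 2)
  rw [mul_zero] at t
  refine squeeze_zero (fun N => tsum_nn _) (fun N => ?_) t
  rw [← tsum_mul_left]
  refine Summable.tsum_le_tsum (fun n => ?_) ?_ ((h.d N).mul_left _)
  · rw [← mul_sub, norm_mul, mul_pow]
    exact mul_le_mul_of_nonneg_right (pow_le_pow_left₀ (norm_nonneg _) (hm n) 2) (by positivity)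
  · exact (h.s.mulb hm).sub ((h.t N).mulb hm)

theorem cmul (h : Tl f g) (c : ℂ) : Tl (fun n => c * f n) (fun N n => c * g N n) :=
  h.mulb (m := fun _ => c) (C := ‖c‖) fun _ => le_rfl

theorem sub (h : Tl f g) (h' : Tl f' g') : Tl (fun n => f n - f' n) (fun N n => g N n - g' N n) := by
  have := h.add (h'.cmul (-1))
  have e : (fun n => f n + -1 * f' n) = fun n => f n - f' n := by funext n; ring
  have e2 : (fun N n => g N n + -1 * g' N n) = fun N n => g N n - g' N n := by funext N n; ring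
  rwa [e, e2] at this

theorem comp {κ : Type*} (h : Tl f g) {i : κ → ι} (hi : Function.Injective i) :
    Tl (fun k => f (i k)) (fun N k => g N (i k)) := by
  refine ⟨h.s.comp hi, fun N => (h.t N).comp hi, ?_⟩
  refine squeeze_zero (fun N => tsum_nn _) (fun N => ?_) h.l
  exact Summable.tsum_le_tsum_of_inj i hi (fun n _ => by positivity) (fun k => le_rfl)
    ((h.d N).comp hi) (h.d N)

theorem at_ (h : Tl f g) (n : ι) : Tendsto (fun N => g N n) atTop (𝓝 (f n)) := by
  have h1 : Tendsto (fun N => ‖f n - g N n‖ ^ 2) atTop (𝓝 0) :=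
    squeeze_zero (fun N => by positivity) (fun N => (h.d N).le_tsum n (fun m _ => by positivity)) h.l
  have h2 : Tendsto (fun N => ‖f n - g N n‖) atTop (𝓝 0) := by
    have := h1.sqrt
    simpa [Real.sqrt_sq (norm_nonneg _)] using this
  rw [tendsto_iff_norm_sub_tendsto_zero]
  refine h2.congr fun N => ?_
  rw [norm_sub_rev]

theorem win (h : Tl f g) (S : ℕ → Finset ι) :
    Tendsto (fun N => ∑ n ∈ S N, ‖f n - g N n‖ ^ 2) atTop (𝓝 0) :=
  squeeze_zero (fun N => Finset.sum_nonneg fun n _ => by positivity)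
    (fun N => (h.d N).sum_le_tsum _ (fun n _ => by positivity)) h.l

end Tl

/-- Cauchy-Schwarz for sums -/
theorem csT {x y : ι → ℝ} (hx : ∀ k, 0 ≤ x k) (hy : ∀ k, 0 ≤ y k) (sx : Summable fun k => x k ^ 2)
    (sy : Summable fun k => y k ^ 2) : Summable (fun k => x k * y k) ∧
      ∑' k, x k * y k ≤ Real.sqrt (∑' k, x k ^ 2) * Real.sqrt (∑' k, y k ^ 2) := by
  have h1 : Summable (fun k => x k * y k) := by
    refine Summable.of_nonneg_of_le (fun k => mul_nonneg (hx k) (hy k)) (fun k => ?_) (sx.add sy)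
    nlinarith [sq_nonneg (x k - y k), mul_nonneg (hx k) (hy k)]
  refine ⟨h1, h1.tsum_le_of_sum_le fun S => ?_⟩
  refine (Real.sum_mul_le_sqrt_mul_sqrt S x y).trans ?_
  exact mul_le_mul (Real.sqrt_le_sqrt (sx.sum_le_tsum _ fun k _ => by positivity))
    (Real.sqrt_le_sqrt (sy.sum_le_tsum _ fun k _ => by positivity)) (Real.sqrt_nonneg _) (Real.sqrt_nonneg _)

theorem L2.inner {f g : ι → ℂ} (hf : L2 f) (hg : L2 g) : Summable fun k => f k * (starRingEnd ℂ) (g k) := by
  have h := (csT (fun k => norm_nonneg (f k)) (fun k => norm_nonneg (g k)) hf hg).1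
  refine Summable.of_norm_bounded h fun k => ?_
  rw [norm_mul, RCLike.norm_conj]

theorem inner_le {f g : ι → ℂ} (hf : L2 f) (hg : L2 g) :
    ‖∑' k, f k * (starRingEnd ℂ) (g k)‖ ≤ Real.sqrt (∑' k, ‖f k‖ ^ 2) * Real.sqrt (∑' k, ‖g k‖ ^ 2) := by
  have h := csT (fun k => norm_nonneg (f k)) (fun k => norm_nonneg (g k)) hf hg
  have h1 : Summable fun k => ‖f k * (starRingEnd ℂ) (g k)‖ := by
    refine h.1.congr fun k => ?_
    rw [norm_mul, RCLike.norm_conj]
  refine (norm_tsum_le_tsum_norm h1).trans ?_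
  refine le_trans (le_of_eq ?_) h.2
  congr 1
  funext k
  rw [norm_mul, RCLike.norm_conj]

/-- the inner product is continuous -/
theorem Tl.inner {f f' : ι → ℂ} {g g' : ℕ → ι → ℂ} (h : Tl f g) (h' : Tl f' g') :
    Tendsto (fun N => ∑' k, g N k * (starRingEnd ℂ) (g' N k)) atTop (𝓝 (∑' k, f k * (starRingEnd ℂ) (f' k))) := by
  have sa : Tendsto (fun N => Real.sqrt (∑' n, ‖f n - g N n‖ ^ 2)) atTop (𝓝 0) := by
    have := h.l.sqrt
    rwa [Real.sqrt_zero] at this
  have sb : Tendsto (fun N => Real.sqrt (∑' n, ‖f' n - g' N n‖ ^ 2)) atTop (𝓝 0) := by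
    have := h'.l.sqrt
    rwa [Real.sqrt_zero] at this
  rw [tendsto_iff_norm_sub_tendsto_zero]
  apply squeeze_zero (g := fun N => Real.sqrt (∑' n, ‖f n - g N n‖ ^ 2) * Real.sqrt (∑' n, ‖f' n‖ ^ 2)
      + Real.sqrt (∑' n, ‖f n‖ ^ 2) * Real.sqrt (∑' n, ‖f' n - g' N n‖ ^ 2)
      + Real.sqrt (∑' n, ‖f n - g N n‖ ^ 2) * Real.sqrt (∑' n, ‖f' n - g' N n‖ ^ 2)) (fun N => norm_nonneg _)
  · intro N
    have e : ∑' k, g N k * (starRingEnd ℂ) (g' N k) - ∑' k, f k * (starRingEnd ℂ) (f' k) =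
        -(∑' k, (f k - g N k) * (starRingEnd ℂ) (f' k)) - ∑' k, f k * (starRingEnd ℂ) (f' k - g' N k)
        + ∑' k, (f k - g N k) * (starRingEnd ℂ) (f' k - g' N k) := by
      rw [← tsum_neg, ← Summable.tsum_sub ((h.t N).inner (h'.t N)) (h.s.inner h'.s),
        ← Summable.tsum_sub ((h.d N).inner h'.s).neg (h.s.inner (h'.d N)),
        ← Summable.tsum_add (((h.d N).inner h'.s).neg.sub (h.s.inner (h'.d N))) ((h.d N).inner (h'.d N))]
      congr 1
      funext k
      rw [map_sub]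
      ring
    rw [e]
    have k1 := inner_le (h.d N) h'.s
    have k2 := inner_le h.s (h'.d N)
    have k3 := inner_le (h.d N) (h'.d N)
    refine (norm_add_le _ _).trans (add_le_add ((norm_sub_le _ _).trans (add_le_add ?_ k2)) k3)
    rw [norm_neg]
    exact k1
  · have := ((sa.mul_const (Real.sqrt (∑' n, ‖f' n‖ ^ 2))).add
      (sb.const_mul (Real.sqrt (∑' n, ‖f n‖ ^ 2)))).add (sa.mul sb)
    simpa using this

end Helper95.SH
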