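import Pool.Agent.Helper95.SH.Dat
import Pool.Agent.Helper95.SH.L2s

/-!
# Project RC, SHARP: trigonometric sections of the data, coefficients

`SN N f`: the section of order `N` of `f`. `pr, qr`: coefficients of `b₂, b₃`. `wm`: multiplication by the weight
`1 + η e^{2it} + conj η e^{-2it}` on coefficients.
-/

open MeasureTheory Set Filter Topology

namespace Helper95.SH

open Helper49.LT hiding sg
open Helper49.RC (om)
open Helper95.RC
open Helper87.RC (Fam BM intg_of_bddC intg_of_bdd fc_eq fc_sub fc_cmul fc_add fc_conj pars pars2 fc_G1 fc_G2)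
open Helper56.RC (fc)
open Helper44.RCG (G1 G2 N0)
open Helper44.GQ (aQ cQ AdmQ A0Q AAQ BBQ FMQ mQ Rq F1Q F2Q)
open Helper49.RC (vvS Wgt)
open Pool.Agent.Helper20.RC (lk lk_ge lk_sq eD eM sM DensI alQ wR wR_wgt wt wt_wR)

/-- the section of order `N` -/
noncomputable def SN (N : ℕ) (f : ℝ → ℂ) : ℝ → ℂ := tp (Finset.Icc (-(N : ℤ)) N) (fc f)

/-- coefficients of the real and imaginary parts -/
noncomputable def pr (b : ℝ → ℂ) : ℤ → ℂ := fc fun t => ((b t).re : ℂ)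
noncomputable def qr (b : ℝ → ℂ) : ℤ → ℂ := fc fun t => ((b t).im : ℂ)

theorem bm_re {b : ℝ → ℂ} (h : BF b) : ∃ C, BM (fun t => ((b t).re : ℂ)) C := by
  obtain ⟨C, hC⟩ := h.b
  exact ⟨C, bm_real (Complex.measurable_re.comp h.m) fun t => (Complex.abs_re_le_norm _).trans (hC t)⟩

theorem bm_im {b : ℝ → ℂ} (h : BF b) : ∃ C, BM (fun t => ((b t).im : ℂ)) C := by
  obtain ⟨C, hC⟩ := h.b
  exact ⟨C, bm_real (Complex.measurable_im.comp h.m) fun t => (Complex.abs_im_le_norm _).trans (hC t)⟩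

theorem bf_bm {b : ℝ → ℂ} (h : BF b) : ∃ C, BM b C := by
  obtain ⟨C, hC⟩ := h.b
  exact ⟨C, h.m, hC⟩

theorem pr_neg (b : ℝ → ℂ) (n : ℤ) : pr b (-n) = (starRingEnd ℂ) (pr b n) := fc_real_neg _ n
theorem qr_neg (b : ℝ → ℂ) (n : ℤ) : qr b (-n) = (starRingEnd ℂ) (qr b n) := fc_real_neg _ n

theorem fc_pq {b : ℝ → ℂ} (h : BF b) (n : ℤ) : fc b n = pr b n + Complex.I * qr b n := by
  obtain ⟨C, hC⟩ := bm_re h
  obtain ⟨D, hD⟩ := bm_im h
  have e : b = fun t => ((b t).re : ℂ) + Complex.I * ((b t).im : ℂ) := by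
    funext t
    rw [mul_comm, Complex.re_add_im]
  conv_lhs => rw [e]
  rw [fc_add hC (hD.cmul _), fc_cmul]
  rfl

/-- a trigonometric polynomial with hermitian coefficients is real -/
theorem tp_real (N : ℕ) (a : ℤ → ℂ) (ha : ∀ n, a (-n) = (starRingEnd ℂ) (a n)) (t : ℝ) :
    (starRingEnd ℂ) (tp (Finset.Icc (-(N : ℤ)) N) a t) = tp (Finset.Icc (-(N : ℤ)) N) a t := by
  unfold tp
  rw [map_sum]
  refine Finset.sum_nbij' (fun n => -n) (fun n => -n) ?_ ?_ ?_ ?_ ?_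
  · intro n hn
    rw [Finset.mem_Icc] at hn ⊢
    omega
  · intro n hn
    rw [Finset.mem_Icc] at hn ⊢
    omega
  · intro n _; ring
  · intro n _; ring
  · intro n _
    rw [map_mul, ← ha, ← ee_neg]
    congr 2
    push_cast
    ring

theorem tp_lin (S : Finset ℤ) (a b : ℤ → ℂ) (c : ℂ) (t : ℝ) :
    tp S (fun n => a n + c * b n) t = tp S a t + c * tp S b t := by
  unfold tp
  rw [Finset.mul_sum, ← Finset.sum_add_distrib]
  apply Finset.sum_congr rfl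
  intro n _
  ring

theorem SN_eq {b : ℝ → ℂ} (h : BF b) (N : ℕ) (t : ℝ) :
    SN N b t = tp (Finset.Icc (-(N : ℤ)) N) (pr b) t + Complex.I * tp (Finset.Icc (-(N : ℤ)) N) (qr b) t := by
  unfold SN
  rw [← tp_lin]
  congr 1
  funext n
  exact fc_pq h n

theorem SN_re {b : ℝ → ℂ} (h : BF b) (N : ℕ) (t : ℝ) :
    ((SN N b t).re : ℂ) = tp (Finset.Icc (-(N : ℤ)) N) (pr b) t := by
  have e1 := tp_real N (pr b) (pr_neg b) t
  have e2 := tp_real N (qr b) (qr_neg b) t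
  rw [Complex.re_eq_add_conj, SN_eq h, map_add, map_mul, Complex.conj_I, e1, e2]
  ring

theorem SN_im {b : ℝ → ℂ} (h : BF b) (N : ℕ) (t : ℝ) :
    ((SN N b t).im : ℂ) = tp (Finset.Icc (-(N : ℤ)) N) (qr b) t := by
  have e1 := tp_real N (pr b) (pr_neg b) t
  have e2 := tp_real N (qr b) (qr_neg b) t
  rw [Complex.im_eq_sub_conj, SN_eq h, map_add, map_mul, Complex.conj_I, e1, e2]
  have hI := Complex.I_ne_zero
  field_simp
  ring

theorem pr_SN {b : ℝ → ℂ} (h : BF b) (N : ℕ) : pr (SN N b) = tr N (pr b) := by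
  have e : (fun t => ((SN N b t).re : ℂ)) = tp (Finset.Icc (-(N : ℤ)) N) (pr b) := funext fun t => SN_re h N t
  unfold pr
  rw [e]
  funext n
  rw [fc_tp]
  rfl

theorem qr_SN {b : ℝ → ℂ} (h : BF b) (N : ℕ) : qr (SN N b) = tr N (qr b) := by
  have e : (fun t => ((SN N b t).im : ℂ)) = tp (Finset.Icc (-(N : ℤ)) N) (qr b) := funext fun t => SN_im h N t
  unfold qr
  rw [e]
  funext n
  rw [fc_tp]
  rfl

theorem fc_SN (z : ℝ → ℂ) (N : ℕ) : fc (SN N z) = tr N (fc z) := by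
  unfold SN
  funext n
  rw [fc_tp]
  rfl

theorem bf_SN (b : ℝ → ℂ) (N : ℕ) : BF (SN N b) := by
  have h := tp_BM (Finset.Icc (-(N : ℤ)) N) (fc b)
  exact ⟨h.m, _, h.b⟩

/-- the sections of data are data -/
theorem dat_SN {b z : ℝ → ℂ} (d : Dat b z) (N : ℕ) : Dat (SN N b) (SN N z) := by
  obtain ⟨C, hC⟩ := bf_bm d.hb
  obtain ⟨D, hD⟩ := bf_bm d.hz
  refine ⟨bf_SN b N, bf_SN z N, ?_, ?_⟩
  · intro t
    exact tp_pi _ _ (fun m _ hm => Helper87.RC.fc_perpi hC d.pb (Int.not_even_iff_odd.1 hm)) t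
  · intro t
    unfold SN tp
    rw [← Finset.sum_neg_distrib]
    apply Finset.sum_congr rfl
    intro m _
    by_cases he : Even m
    · rw [Helper87.RC.fc_anti hD d.pz he]; simp
    · obtain ⟨k, hk⟩ := Int.not_even_iff_odd.1 he
      have e : ee ((m : ℝ) * (t + Real.pi)) = -ee ((m : ℝ) * t) := by
        have e1 : (m : ℝ) * (t + Real.pi) = (m : ℝ) * t + (Real.pi + ((k : ℤ) : ℝ) * (2 * Real.pi)) := by
          rw [hk]; push_cast; ring
        have e4 : ee (((k : ℤ) : ℝ) * (2 * Real.pi)) = 1 := by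
          rw [ee_int_mul, ee_two_pi, one_zpow]
        rw [e1, ee_add, ee_add, ee_pi, e4]; ring
      rw [e]; ring

/-! ### the weight on coefficients -/

/-- multiplication by `1 + η e^{2it} + conj η e^{-2it}` -/
noncomputable def wm (η : ℂ) (f : ℤ → ℂ) (n : ℤ) : ℂ := f n + η * f (n - 2) + (starRingEnd ℂ) η * f (n + 2)

theorem wR_c (η : ℂ) (t : ℝ) : (wR η 0 0 t : ℂ) =
    1 + (η * ee (((2 : ℤ) : ℝ) * t) + (starRingEnd ℂ) η * ee (((-2 : ℤ) : ℝ) * t)) := by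
  rw [← wt_wR]
  unfold wt
  simp

theorem fc_w (η : ℂ) {f : ℝ → ℂ} {C : ℝ} (hf : BM f C) (n : ℤ) :
    fc (fun t => (wR η 0 0 t : ℂ) * f t) n = wm η (fc f) n := by
  have e : (fun t => (wR η 0 0 t : ℂ) * f t) = fun t => (f t + η * (ee (((2 : ℤ) : ℝ) * t) * f t))
      + (starRingEnd ℂ) η * (ee (((-2 : ℤ) : ℝ) * t) * f t) := by
    funext t
    rw [wR_c]
    ring
  have b2 := Helper87.RC.BM.em hf 2
  have b3 := Helper87.RC.BM.em hf (-2)
  rw [e, fc_add (hf.add (b2.cmul η)) (b3.cmul _), fc_add hf (b2.cmul η), fc_cmul, fc_cmul,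
    Helper87.RC.fc_ee, Helper87.RC.fc_ee]
  unfold wm
  rw [sub_neg_eq_add]

theorem pc_wm (η : ℂ) {b : ℝ → ℂ} (h : BF b) : pc (wR η 0 0) b = wm η (pr b) := by
  obtain ⟨C, hC⟩ := bm_re h
  funext n
  have e : (fun t => ((wR η 0 0 t * (b t).re : ℝ) : ℂ)) = fun t => (wR η 0 0 t : ℂ) * ((b t).re : ℂ) := by
    funext t; push_cast; rfl
  unfold pc
  rw [e, fc_w η hC]
  rfl

theorem rc_wm (η : ℂ) {b : ℝ → ℂ} (h : BF b) : rc (wR η 0 0) b = wm η (qr b) := by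
  obtain ⟨C, hC⟩ := bm_im h
  funext n
  have e : (fun t => ((wR η 0 0 t * (b t).im : ℝ) : ℂ)) = fun t => (wR η 0 0 t : ℂ) * ((b t).im : ℂ) := by
    funext t; push_cast; rfl
  unfold rc
  rw [e, fc_w η hC]
  rfl

theorem sc_wm (η : ℂ) {z : ℝ → ℂ} (h : BF z) : sc (wR η 0 0) z = wm η (fc z) := by
  obtain ⟨C, hC⟩ := bf_bm h
  funext n
  unfold sc
  rw [fc_w η hC]

/-! ### convergence of the sections -/

theorem L2_fc {f : ℝ → ℂ} {C : ℝ} (hf : BM f C) : L2 (fc f) := (pars hf).summable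

theorem L2.shift {f : ℤ → ℂ} (hf : L2 f) (c : ℤ) : L2 (fun n => f (n + c)) :=
  hf.comp (add_left_injective c)

theorem Tl.shift {f : ℤ → ℂ} {g : ℕ → ℤ → ℂ} (h : Tl f g) (c : ℤ) :
    Tl (fun n => f (n + c)) (fun N n => g N (n + c)) := h.comp (add_left_injective c)

theorem Tl.unit {f : ℤ → ℂ} {g : ℕ → ℤ → ℂ} (h : Tl f g) (x : ℤ → ℝ) :
    Tl (fun n => ee (x n) * f n) (fun N n => ee (x n) * g N n) :=
  h.mulb (C := 1) fun n => by rw [norm_ee]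

theorem Tl.trn {f : ℤ → ℂ} (h : L2 f) : Tl f (fun N => tr N f) := by
  refine ⟨h, fun N => L2.fin (Finset.Icc (-(N : ℤ)) N) fun n hn => tr_sup N f n hn, ?_⟩
  obtain ⟨L, hL⟩ := h
  have h1 : Tendsto (fun N : ℕ => ∑ n ∈ Finset.Icc (-(N : ℤ)) N, ‖f n‖ ^ 2) atTop (𝓝 L) :=
    hL.comp tendsto_Icc_int
  have h2 := (tendsto_const_nhds (x := L)).sub h1
  rw [sub_self] at h2
  refine h2.congr fun N => ?_
  have e : ∀ n, ‖f n - tr N f n‖ ^ 2 = ‖f n‖ ^ 2 -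
      (if n ∈ Finset.Icc (-(N : ℤ)) N then ‖f n‖ ^ 2 else 0) := by
    intro n
    by_cases hn : n ∈ Finset.Icc (-(N : ℤ)) N
    · rw [tr_mem hn, if_pos hn]; simp
    · rw [tr_sup N f n hn, if_neg hn]; simp
  have h3 : HasSum (fun n => if n ∈ Finset.Icc (-(N : ℤ)) N then ‖f n‖ ^ 2 else 0)
      (∑ n ∈ Finset.Icc (-(N : ℤ)) N, ‖f n‖ ^ 2) := by
    have h4 : HasSum (fun n => if n ∈ Finset.Icc (-(N : ℤ)) N then ‖f n‖ ^ 2 else 0)
        (∑ n ∈ Finset.Icc (-(N : ℤ)) N, (if n ∈ Finset.Icc (-(N : ℤ)) N then ‖f n‖ ^ 2 else 0)) :=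
      hasSum_sum_of_ne_finset_zero (fun n hn => by simp [hn])
    have h5 : ∑ n ∈ Finset.Icc (-(N : ℤ)) N, (if n ∈ Finset.Icc (-(N : ℤ)) N then ‖f n‖ ^ 2 else 0) =
        ∑ n ∈ Finset.Icc (-(N : ℤ)) N, ‖f n‖ ^ 2 :=
      Finset.sum_congr rfl fun n hn => by simp [hn]
    rwa [h5] at h4
  have h6 := hL.sub h3
  rw [← h6.tsum_eq]
  congr 1
  funext n
  rw [e]

theorem Tl.wmm {f : ℤ → ℂ} {g : ℕ → ℤ → ℂ} (h : Tl f g) (η : ℂ) : Tl (wm η f) (fun N => wm η (g N)) := by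
  have h1 := (h.add ((h.shift (-2)).cmul η)).add ((h.shift 2).cmul ((starRingEnd ℂ) η))
  exact h1

theorem Tl.cc1 {q : ℝ} {W p r s : ℤ → ℂ} {W' p' r' s' : ℕ → ℤ → ℂ} (hW : Tl W W') (hp : Tl p p') (hr : Tl r r')
    (hs : Tl s s') : Tl (c1 q W p r s) (fun N => c1 q (W' N) (p' N) (r' N) (s' N)) := by
  have h := ((((hW.shift (-1)).cmul om).add ((hp.shift (-1)).cmul ((starRingEnd ℂ) om))).add
    ((hr.shift (-1)).cmul (kq q))).add (hs.shift (-1))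
  exact h.unit (fun m => -(m : ℝ) * (Real.pi / 3))

theorem Tl.cc2 {q : ℝ} {W p r s : ℤ → ℂ} {W' p' r' s' : ℕ → ℤ → ℂ} (hW : Tl W W') (hp : Tl p p') (hr : Tl r r')
    (hs : Tl s s') : Tl (c2 q W p r s) (fun N => c2 q (W' N) (p' N) (r' N) (s' N)) := by
  have h := ((((hW.shift (-1)).cmul (om ^ 2)).add ((hp.shift (-1)).cmul ((starRingEnd ℂ) om ^ 2))).add
    ((hr.shift (-1)).cmul ((starRingEnd ℂ) (kq q)))).sub (hs.shift (-1))
  exact h.unit (fun m => -(m : ℝ) * (2 * Real.pi / 3))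

/-- convergence of the coefficient sequences of the sections -/
theorem tl_p (η : ℂ) {b : ℝ → ℂ} (h : BF b) : Tl (pc (wR η 0 0) b) (fun N => pc (wR η 0 0) (SN N b)) := by
  obtain ⟨C, hC⟩ := bm_re h
  have h1 := (Tl.trn (L2_fc hC)).wmm η
  have e : (fun N => pc (wR η 0 0) (SN N b)) = fun N => Helper95.SH.wm η (Helper95.RC.tr N (pr b)) := by
    funext N
    rw [pc_wm η (bf_SN b N), pr_SN h]
  rw [e, pc_wm η h]
  exact h1

theorem tl_r (η : ℂ) {b : ℝ → ℂ} (h : BF b) : Tl (rc (wR η 0 0) b) (fun N => rc (wR η 0 0) (SN N b)) := by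
  obtain ⟨C, hC⟩ := bm_im h
  have h1 := (Tl.trn (L2_fc hC)).wmm η
  have e : (fun N => rc (wR η 0 0) (SN N b)) = fun N => Helper95.SH.wm η (Helper95.RC.tr N (qr b)) := by
    funext N
    rw [rc_wm η (bf_SN b N), qr_SN h]
  rw [e, rc_wm η h]
  exact h1

theorem tl_s (η : ℂ) {z : ℝ → ℂ} (h : BF z) : Tl (sc (wR η 0 0) z) (fun N => sc (wR η 0 0) (SN N z)) := by
  obtain ⟨C, hC⟩ := bf_bm h
  have h1 := (Tl.trn (L2_fc hC)).wmm η
  have e : (fun N => sc (wR η 0 0) (SN N z)) = fun N => Helper95.SH.wm η (Helper95.RC.tr N (fc z)) := by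
    funext N
    rw [sc_wm η (bf_SN z N), fc_SN]
  rw [e, sc_wm η h]
  exact h1

end Helper95.SH
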