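import Pool.Agent.Helper95.SH.Cell

/-!
# Project RC, SHARP, cell engine: linear and bilinear tools for arrays

Windows, shifts, `wm` is self adjoint, the bilinear forms of `NF`, `LQ`, `SQ`, `S1Q`, the rows of linear functionals.
-/

open MeasureTheory Set Filter Topology

namespace Helper95.SH

open Helper49.RC (om)
open Helper95.RC
open Helper56.RC (fc)

/-! ### windows -/

theorem sum_win {E : Type*} [AddCommMonoid E] [TopologicalSpace E] {f : ℤ → E} {M : ℕ}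
    (h : ∀ n, n ∉ Finset.Icc (-(M : ℤ)) M → f n = 0) :
    ∑ n ∈ Finset.Icc (-(M : ℤ)) M, f n = ∑' n, f n := (tsum_eq_sum h).symm

/-- change of the window with a shift -/
theorem win_shift {f : ℤ → ℂ} {M M' : ℕ} (k : ℤ) (h1 : ∀ n, n ∉ Finset.Icc (-(M : ℤ)) M → f n = 0)
    (h2 : ∀ n, n ∉ Finset.Icc (-(M' : ℤ)) M' → f (n + k) = 0) :
    ∑ n ∈ Finset.Icc (-(M' : ℤ)) M', f (n + k) = ∑ n ∈ Finset.Icc (-(M : ℤ)) M, f n := by
  rw [sum_win h1, sum_win h2]
  exact (Equiv.addRight k).tsum_eq f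

theorem win_eq {E : Type*} [AddCommMonoid E] {f : ℤ → E} {M M' : ℕ} (hM : M ≤ M')
    (h1 : ∀ n, n ∉ Finset.Icc (-(M : ℤ)) M → f n = 0) :
    ∑ n ∈ Finset.Icc (-(M' : ℤ)) M', f n = ∑ n ∈ Finset.Icc (-(M : ℤ)) M, f n := by
  symm
  refine Finset.sum_subset ?_ fun n _ hn => h1 n hn
  intro n hn
  rw [Finset.mem_Icc] at hn ⊢
  omega

/-! ### the band operator -/

section

variable (η : ℂ) (f g : ℤ → ℂ)

theorem wm_add (n : ℤ) : wm η (fun n => f n + g n) n = wm η f n + wm η g n := by unfold wm; ring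
theorem wm_sub (n : ℤ) : wm η (fun n => f n - g n) n = wm η f n - wm η g n := by unfold wm; ring
theorem wm_mul (c : ℂ) (n : ℤ) : wm η (fun n => c * f n) n = c * wm η f n := by unfold wm; ring

end

/-- `wm` is self adjoint -/
theorem wm_adj (η : ℂ) {N : ℕ} {f : ℤ → ℂ} (hf : Sup N f) (V : ℤ → ℂ) :
    ∑ n ∈ Finset.Icc (-((N + 2 : ℕ) : ℤ)) ((N + 2 : ℕ) : ℤ), wm η f n * (starRingEnd ℂ) (V n) =
      ∑ n ∈ Finset.Icc (-(N : ℤ)) N, f n * (starRingEnd ℂ) (wm η V n) := by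
  have z : ∀ n : ℤ, n ∉ Finset.Icc (-(N : ℤ)) N → f n = 0 := hf
  have e1 : ∑ n ∈ Finset.Icc (-((N + 2 : ℕ) : ℤ)) ((N + 2 : ℕ) : ℤ), f n * (starRingEnd ℂ) (V n) =
      ∑ n ∈ Finset.Icc (-(N : ℤ)) N, f n * (starRingEnd ℂ) (V n) :=
    win_eq (by omega) fun n hn => by rw [z n hn, zero_mul]
  have e2 : ∑ n ∈ Finset.Icc (-((N + 2 : ℕ) : ℤ)) ((N + 2 : ℕ) : ℤ), f (n - 2) * (starRingEnd ℂ) (V n) =
      ∑ n ∈ Finset.Icc (-(N : ℤ)) N, f n * (starRingEnd ℂ) (V (n + 2)) := by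
    have := win_shift (f := fun n => f n * (starRingEnd ℂ) (V (n + 2))) (M := N) (M' := N + 2) (-2)
      (fun n hn => by rw [z n hn, zero_mul])
      (fun n hn => by
        beta_reduce
        rw [z (n + -2) (by rw [Finset.mem_Icc] at hn ⊢; push_cast at hn; omega), zero_mul])
    rw [← this]
    refine Finset.sum_congr rfl fun n _ => ?_
    beta_reduce
    rw [show n + -2 = n - 2 by ring, show n - 2 + 2 = n by ring]
  have e3 : ∑ n ∈ Finset.Icc (-((N + 2 : ℕ) : ℤ)) ((N + 2 : ℕ) : ℤ), f (n + 2) * (starRingEnd ℂ) (V n) =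
      ∑ n ∈ Finset.Icc (-(N : ℤ)) N, f n * (starRingEnd ℂ) (V (n - 2)) := by
    have := win_shift (f := fun n => f n * (starRingEnd ℂ) (V (n - 2))) (M := N) (M' := N + 2) 2
      (fun n hn => by rw [z n hn, zero_mul])
      (fun n hn => by
        beta_reduce
        rw [z (n + 2) (by rw [Finset.mem_Icc] at hn ⊢; push_cast at hn; omega), zero_mul])
    rw [← this]
    refine Finset.sum_congr rfl fun n _ => ?_
    beta_reduce
    rw [show n + 2 - 2 = n by ring]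
  have l : ∀ n, wm η f n * (starRingEnd ℂ) (V n) = f n * (starRingEnd ℂ) (V n)
      + η * (f (n - 2) * (starRingEnd ℂ) (V n)) + (starRingEnd ℂ) η * (f (n + 2) * (starRingEnd ℂ) (V n)) := by
    intro n; unfold wm; ring
  have r : ∀ n, f n * (starRingEnd ℂ) (wm η V n) = f n * (starRingEnd ℂ) (V n)
      + η * (f n * (starRingEnd ℂ) (V (n + 2))) + (starRingEnd ℂ) η * (f n * (starRingEnd ℂ) (V (n - 2))) := by
    intro n; unfold wm; rw [map_add, map_add, map_mul, map_mul, Complex.conj_conj]; ring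
  simp_rw [l, r, Finset.sum_add_distrib, ← Finset.mul_sum]
  rw [e1, e2, e3]

/-! ### rows of linear functionals -/

/-- pairing of an array with a row over a window -/
noncomputable def dt (N : ℕ) (u X : ℤ → ℂ) : ℝ := (∑ n ∈ Finset.Icc (-(N : ℤ)) N, u n * (starRingEnd ℂ) (X n)).re

theorem dt_add (N : ℕ) (u X Y : ℤ → ℂ) : dt N u (fun n => X n + Y n) = dt N u X + dt N u Y := by
  unfold dt
  rw [← Complex.add_re, ← Finset.sum_add_distrib]
  congr 1
  exact Finset.sum_congr rfl fun n _ => by rw [map_add]; ring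

theorem dt_sub (N : ℕ) (u X Y : ℤ → ℂ) : dt N u (fun n => X n - Y n) = dt N u X - dt N u Y := by
  unfold dt
  rw [← Complex.sub_re, ← Finset.sum_sub_distrib]
  congr 1
  exact Finset.sum_congr rfl fun n _ => by rw [map_sub]; ring

theorem dt_addl (N : ℕ) (u v X : ℤ → ℂ) : dt N (fun n => u n + v n) X = dt N u X + dt N v X := by
  unfold dt
  rw [← Complex.add_re, ← Finset.sum_add_distrib]
  congr 1
  exact Finset.sum_congr rfl fun n _ => by ring

theorem dt_subl (N : ℕ) (u v X : ℤ → ℂ) : dt N (fun n => u n - v n) X = dt N u X - dt N v X := by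
  unfold dt
  rw [← Complex.sub_re, ← Finset.sum_sub_distrib]
  congr 1
  exact Finset.sum_congr rfl fun n _ => by ring

theorem dt_mul (N : ℕ) (c : ℂ) (u X : ℤ → ℂ) :
    dt N (fun n => c * u n) X = dt N u (fun n => (starRingEnd ℂ) c * X n) := by
  unfold dt
  congr 1
  exact Finset.sum_congr rfl fun n _ => by rw [map_mul, Complex.conj_conj]; ring

theorem dt_rmul (N : ℕ) (c : ℝ) (u X : ℤ → ℂ) : dt N u (fun n => (c : ℂ) * X n) = c * dt N u X := by
  unfold dt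
  rw [← Complex.re_ofReal_mul, Finset.mul_sum]
  congr 1
  exact Finset.sum_congr rfl fun n _ => by rw [map_mul, Complex.conj_ofReal]; ring

theorem dt_rmul' (N : ℕ) (c : ℝ) (u X : ℤ → ℂ) : dt N (fun n => (c : ℂ) * u n) X = c * dt N u X := by
  rw [dt_mul, Complex.conj_ofReal, dt_rmul]

theorem dt_congr {N : ℕ} {u X Y : ℤ → ℂ} (h : ∀ n ∈ Finset.Icc (-(N : ℤ)) N, X n = Y n) :
    dt N u X = dt N u Y := by
  unfold dt
  congr 1
  exact Finset.sum_congr rfl fun n hn => by rw [h n hn]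

theorem dt_wm (η : ℂ) {N : ℕ} {f : ℤ → ℂ} (hf : Sup N f) (V : ℤ → ℂ) :
    dt (N + 2) (wm η f) V = dt N f (wm η V) := by
  unfold dt
  rw [wm_adj η hf V]

/-- the hermitian part of a row -/
noncomputable def sy (A : ℤ → ℂ) (n : ℤ) : ℂ := (A n + (starRingEnd ℂ) (A (-n))) / 2

theorem sum_refl (M : ℕ) (f : ℤ → ℂ) :
    ∑ n ∈ Finset.Icc (-(M : ℤ)) M, f (-n) = ∑ n ∈ Finset.Icc (-(M : ℤ)) M, f n := by
  refine Finset.sum_nbij' (fun n => -n) (fun n => -n) ?_ ?_ ?_ ?_ ?_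
  · intro n hn; rw [Finset.mem_Icc] at hn ⊢; omega
  · intro n hn; rw [Finset.mem_Icc] at hn ⊢; omega
  · intro n _; ring
  · intro n _; ring
  · intro n _; rfl

theorem dt_sy (N : ℕ) {u : ℤ → ℂ} (hu : ∀ n, u (-n) = (starRingEnd ℂ) (u n)) (A : ℤ → ℂ) :
    dt N u (sy A) = dt N u A := by
  have e1 : (∑ n ∈ Finset.Icc (-(N : ℤ)) N, u n * A (-n)).re = dt N u A := by
    have : ∑ n ∈ Finset.Icc (-(N : ℤ)) N, u n * A (-n) =
        ∑ n ∈ Finset.Icc (-(N : ℤ)) N, (starRingEnd ℂ) (u n * (starRingEnd ℂ) (A n)) := by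
      rw [← sum_refl N (fun n => u n * A (-n))]
      refine Finset.sum_congr rfl fun n _ => ?_
      rw [hu n, neg_neg, map_mul, Complex.conj_conj]
    rw [this, ← map_sum, Complex.conj_re]
    rfl
  have e2 : dt N u (sy A) = (dt N u A + (∑ n ∈ Finset.Icc (-(N : ℤ)) N, u n * A (-n)).re) / 2 := by
    unfold dt sy
    rw [← Complex.add_re, ← Finset.sum_add_distrib]
    have : ∀ x : ℂ, x.re / 2 = (x / 2).re := fun x => by
      rw [show (2 : ℂ) = ((2 : ℝ) : ℂ) by norm_num, Complex.div_ofReal_re]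
    rw [this, Finset.sum_div]
    congr 1
    refine Finset.sum_congr rfl fun n _ => ?_
    rw [map_div₀, map_add, Complex.conj_conj, Complex.conj_ofNat]
    ring
  rw [e2, e1]
  ring

/-! ### bilinear forms -/

/-- `NF` of a sum -/
noncomputable def gNA (ψ : ℝ → ℝ) (M : ℕ) (a b : ℤ → ℂ) (m : ℤ) : ℂ :=
  (a m + b m) / (m : ℂ) - Complex.I * ∑ n ∈ Finset.Icc (-(M : ℤ)) M, b n * (starRingEnd ℂ) (Kc ψ m n)
noncomputable def gNB (ψ : ℝ → ℝ) (M : ℕ) (a b : ℤ → ℂ) (n : ℤ) : ℂ :=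
  (a n + b n) / (n : ℂ) + Complex.I * ∑ m ∈ Finset.Icc (-(M : ℤ)) M, a m * Kc ψ m n

theorem nsq_add' (x y : ℂ) : ‖x + y‖ ^ 2 = ‖x‖ ^ 2 + 2 * (y * (starRingEnd ℂ) x).re + ‖y‖ ^ 2 := by
  rw [← Complex.normSq_eq_norm_sq, ← Complex.normSq_eq_norm_sq, ← Complex.normSq_eq_norm_sq, Complex.normSq_add]
  have : (x * (starRingEnd ℂ) y).re = (y * (starRingEnd ℂ) x).re := by
    rw [← Complex.conj_re, map_mul, Complex.conj_conj, mul_comm]
  rw [this]
  ring

theorem NF_ht (ψ : ℝ → ℝ) (M : ℕ) (a b a' b' : ℤ → ℂ) :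
    NF ψ M (fun m => a m + a' m) (fun m => b m + b' m) = NF ψ M a b
      + 2 * (dt M a' (gNA ψ M a b) + dt M b' (gNB ψ M a b)) + NF ψ M a' b' := by
  set S := Finset.Icc (-(M : ℤ)) M with hS
  have h1 : ∑ m ∈ S, ‖a m + a' m + (b m + b' m)‖ ^ 2 / (m : ℝ) = ∑ m ∈ S, ‖a m + b m‖ ^ 2 / (m : ℝ)
      + 2 * (∑ m ∈ S, (a' m + b' m) * (starRingEnd ℂ) ((a m + b m) / (m : ℂ))).re
      + ∑ m ∈ S, ‖a' m + b' m‖ ^ 2 / (m : ℝ) := by
    rw [Complex.re_sum, Finset.mul_sum, ← Finset.sum_add_distrib, ← Finset.sum_add_distrib]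
    refine Finset.sum_congr rfl fun m _ => ?_
    have e : a m + a' m + (b m + b' m) = (a m + b m) + (a' m + b' m) := by ring
    rw [e, nsq_add', map_div₀, map_intCast]
    have e2 : (a' m + b' m) * ((starRingEnd ℂ) (a m + b m) / (m : ℂ)) =
        ((a' m + b' m) * (starRingEnd ℂ) (a m + b m)) / ((m : ℝ) : ℂ) := by push_cast; ring
    rw [e2, Complex.div_ofReal_re]
    ring
  have h2 : ∑ m ∈ S, ∑ n ∈ S, (a m + a' m) * (starRingEnd ℂ) (b n + b' n) * Kc ψ m n =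
      ∑ m ∈ S, ∑ n ∈ S, a m * (starRingEnd ℂ) (b n) * Kc ψ m n
      + (∑ m ∈ S, a' m * (∑ n ∈ S, (starRingEnd ℂ) (b n) * Kc ψ m n)
        + ∑ n ∈ S, (starRingEnd ℂ) (b' n) * (∑ m ∈ S, a m * Kc ψ m n))
      + ∑ m ∈ S, ∑ n ∈ S, a' m * (starRingEnd ℂ) (b' n) * Kc ψ m n := by
    have e3 : ∑ n ∈ S, (starRingEnd ℂ) (b' n) * (∑ m ∈ S, a m * Kc ψ m n) =
        ∑ m ∈ S, ∑ n ∈ S, a m * (starRingEnd ℂ) (b' n) * Kc ψ m n := by
      rw [Finset.sum_comm]
      refine Finset.sum_congr rfl fun n _ => ?_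
      rw [Finset.mul_sum]
      exact Finset.sum_congr rfl fun m _ => by ring
    rw [e3, ← Finset.sum_add_distrib, ← Finset.sum_add_distrib, ← Finset.sum_add_distrib]
    refine Finset.sum_congr rfl fun m _ => ?_
    rw [Finset.mul_sum, ← Finset.sum_add_distrib, ← Finset.sum_add_distrib, ← Finset.sum_add_distrib]
    refine Finset.sum_congr rfl fun n _ => ?_
    rw [map_add]
    ring
  have h3 : dt M a' (gNA ψ M a b) + dt M b' (gNB ψ M a b) =
      (∑ m ∈ S, (a' m + b' m) * (starRingEnd ℂ) ((a m + b m) / (m : ℂ))).re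
      - (∑ m ∈ S, a' m * (∑ n ∈ S, (starRingEnd ℂ) (b n) * Kc ψ m n)
        + ∑ n ∈ S, (starRingEnd ℂ) (b' n) * (∑ m ∈ S, a m * Kc ψ m n)).im := by
    have c1 : dt M a' (gNA ψ M a b) = (∑ m ∈ S, a' m * (starRingEnd ℂ) ((a m + b m) / (m : ℂ))).re
        - (∑ m ∈ S, a' m * (∑ n ∈ S, (starRingEnd ℂ) (b n) * Kc ψ m n)).im := by
      unfold dt gNA
      rw [Complex.re_sum, Complex.re_sum, Complex.im_sum, ← Finset.sum_sub_distrib]
      refine Finset.sum_congr rfl fun m _ => ?_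
      rw [map_sub, mul_sub, Complex.sub_re, map_mul, Complex.conj_I, map_sum]
      congr 1
      have : ∑ n ∈ S, (starRingEnd ℂ) (b n * (starRingEnd ℂ) (Kc ψ m n)) =
          ∑ n ∈ S, (starRingEnd ℂ) (b n) * Kc ψ m n :=
        Finset.sum_congr rfl fun n _ => by rw [map_mul, Complex.conj_conj]
      rw [this]
      set X := ∑ n ∈ S, (starRingEnd ℂ) (b n) * Kc ψ m n
      simp only [Complex.mul_re, Complex.mul_im, Complex.neg_re, Complex.neg_im, Complex.I_re, Complex.I_im]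
      ring
    have c2 : dt M b' (gNB ψ M a b) = (∑ m ∈ S, b' m * (starRingEnd ℂ) ((a m + b m) / (m : ℂ))).re
        - (∑ n ∈ S, (starRingEnd ℂ) (b' n) * (∑ m ∈ S, a m * Kc ψ m n)).im := by
      unfold dt gNB
      rw [Complex.re_sum, Complex.re_sum, Complex.im_sum, ← Finset.sum_sub_distrib]
      refine Finset.sum_congr rfl fun m _ => ?_
      rw [map_add, mul_add, Complex.add_re, map_mul, Complex.conj_I, sub_eq_add_neg]
      congr 1
      set X := ∑ n ∈ S, a n * Kc ψ n m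
      simp only [Complex.mul_re, Complex.mul_im, Complex.neg_re, Complex.neg_im, Complex.I_re, Complex.I_im,
        Complex.conj_re, Complex.conj_im]
      ring
    rw [c1, c2, Complex.add_im]
    have c3 : ∑ m ∈ S, (a' m + b' m) * (starRingEnd ℂ) ((a m + b m) / (m : ℂ)) =
        ∑ m ∈ S, a' m * (starRingEnd ℂ) ((a m + b m) / (m : ℂ))
        + ∑ m ∈ S, b' m * (starRingEnd ℂ) ((a m + b m) / (m : ℂ)) := by
      rw [← Finset.sum_add_distrib]
      exact Finset.sum_congr rfl fun m _ => by ring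
    rw [c3, Complex.add_re]
    ring
  rw [h3]
  unfold NF
  rw [← hS, h1, h2, Complex.add_im, Complex.add_im]
  ring

/-- the row of `LQ` -/
noncomputable def gLQ (M : ℕ) (F u : ℤ → ℂ) (n : ℤ) : ℂ :=
  ∑ k ∈ Finset.Icc (-(M : ℤ)) M, F (n - k) * (u k + 1 / 2 * (starRingEnd ℂ) (u (-k)))

theorem LQ_ht (M : ℕ) {F : ℤ → ℂ} (hF : ∀ n, F (-n) = (starRingEnd ℂ) (F n)) (u v : ℤ → ℂ) :
    LQ M F (fun n => u n + v n) = LQ M F u + 2 * dt M v (gLQ M F u) + LQ M F v := by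
  set S := Finset.Icc (-(M : ℤ)) M with hS
  have hF' : ∀ m k : ℤ, (starRingEnd ℂ) (F (m - k)) = F (k - m) := fun m k => by
    rw [← hF, neg_sub]
  have a1 : (∑ m ∈ S, ∑ k ∈ S, F (m - k) * v k * (starRingEnd ℂ) (u m)).re =
      (∑ m ∈ S, ∑ k ∈ S, F (m - k) * u k * (starRingEnd ℂ) (v m)).re := by
    rw [← Complex.conj_re, map_sum, Finset.sum_congr rfl fun m _ => map_sum _ _ _, Finset.sum_comm]
    congr 1
    refine Finset.sum_congr rfl fun m _ => Finset.sum_congr rfl fun k _ => ?_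
    rw [map_mul, map_mul, Complex.conj_conj, hF']
    ring
  have a2 : ∑ m ∈ S, ∑ k ∈ S, F (m - k) * v k * u (-m) = ∑ m ∈ S, ∑ k ∈ S, F (m - k) * u k * v (-m) := by
    have s1 : ∀ g : ℤ → ℤ → ℂ, ∑ m ∈ S, ∑ k ∈ S, g m k = ∑ m ∈ S, ∑ k ∈ S, g (-k) (-m) := by
      intro g
      rw [Finset.sum_comm]
      have : ∀ f : ℤ → ℂ, ∑ n ∈ S, f n = ∑ n ∈ S, f (-n) := fun f => (sum_refl M f).symm
      rw [this fun k => ∑ m ∈ S, g m k]
      refine Finset.sum_congr rfl fun m _ => ?_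
      rw [this fun k => g k (-m)]
    rw [s1 (fun m k => F (m - k) * v k * u (-m))]
    refine Finset.sum_congr rfl fun m _ => Finset.sum_congr rfl fun k _ => ?_
    rw [neg_neg, show -k - -m = m - k by ring]
    ring
  have a3 : dt M v (gLQ M F u) = (∑ m ∈ S, ∑ k ∈ S, F (m - k) * u k * (starRingEnd ℂ) (v m)).re
      + 1 / 2 * (∑ m ∈ S, ∑ k ∈ S, F (m - k) * v k * u (-m)).re := by
    have e1 : dt M v (gLQ M F u) = (∑ m ∈ S, ∑ k ∈ S, F (m - k) * u k * (starRingEnd ℂ) (v m)).re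
        + (∑ m ∈ S, ∑ k ∈ S, 1 / 2 * (F (m - k) * (starRingEnd ℂ) (u (-k)) * (starRingEnd ℂ) (v m))).re := by
      unfold dt gLQ
      rw [← Complex.add_re, ← Finset.sum_add_distrib, ← Complex.conj_re, map_sum]
      congr 1
      refine Finset.sum_congr rfl fun m _ => ?_
      rw [map_mul, Complex.conj_conj, Finset.mul_sum, ← Finset.sum_add_distrib]
      exact Finset.sum_congr rfl fun k _ => by ring
    rw [e1]
    congr 1
    rw [← Complex.conj_re, map_sum, Finset.sum_congr rfl fun m _ => map_sum _ _ _]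
    have e2 : ∀ m k : ℤ, (starRingEnd ℂ) (1 / 2 * (F (m - k) * (starRingEnd ℂ) (u (-k)) * (starRingEnd ℂ) (v m))) =
        1 / 2 * (F (k - m) * v m * u (-k)) := by
      intro m k
      rw [map_mul, map_mul, map_mul, Complex.conj_conj, Complex.conj_conj, hF', map_div₀, map_one, Complex.conj_ofNat]
      ring
    rw [Finset.sum_congr rfl fun m _ => Finset.sum_congr rfl fun k _ => e2 m k, Finset.sum_comm]
    have e3 : ∀ x : ℂ, (1 / 2 : ℝ) * x.re = ((1 / 2 : ℂ) * x).re := fun x => by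
      rw [show (1 / 2 : ℂ) = ((1 / 2 : ℝ) : ℂ) by push_cast; ring, Complex.re_ofReal_mul]
    rw [e3, Finset.mul_sum]
    congr 1
    exact Finset.sum_congr rfl fun m _ => by rw [Finset.mul_sum]
  have a4 : ∑ m ∈ S, ∑ k ∈ S, F (m - k) * (u k + v k) * ((starRingEnd ℂ) (u m + v m) + 1 / 2 * (u (-m) + v (-m))) =
      ∑ m ∈ S, ∑ k ∈ S, F (m - k) * u k * ((starRingEnd ℂ) (u m) + 1 / 2 * u (-m))
      + (∑ m ∈ S, ∑ k ∈ S, F (m - k) * u k * (starRingEnd ℂ) (v m)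
        + ∑ m ∈ S, ∑ k ∈ S, F (m - k) * v k * (starRingEnd ℂ) (u m)
        + 1 / 2 * (∑ m ∈ S, ∑ k ∈ S, F (m - k) * v k * u (-m)
          + ∑ m ∈ S, ∑ k ∈ S, F (m - k) * u k * v (-m)))
      + ∑ m ∈ S, ∑ k ∈ S, F (m - k) * v k * ((starRingEnd ℂ) (v m) + 1 / 2 * v (-m)) := by
    simp only [Finset.mul_sum, ← Finset.sum_add_distrib]
    refine Finset.sum_congr rfl fun m _ => Finset.sum_congr rfl fun k _ => ?_
    rw [map_add]
    ring
  unfold LQ
  rw [← hS, a4, a3, ← a2, Complex.add_re, Complex.add_re, Complex.add_re, Complex.add_re, a1]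
  have e3 : ∀ x : ℂ, ((1 / 2 : ℂ) * x).re = (1 / 2 : ℝ) * x.re := fun x => by
    rw [show (1 / 2 : ℂ) = ((1 / 2 : ℝ) : ℂ) by push_cast; ring, Complex.re_ofReal_mul]
  rw [e3, Complex.add_re]
  ring

theorem SQ_dt {N : ℕ} {η : ℂ} {u : ℤ → ℂ} (hu : Sup N u) :
    SQ (N + 2) η u = dt N u (wm η u) := by
  have : SQ (N + 2) η u = dt (N + 2) (wm η u) u := rfl
  rw [this, dt_wm η hu]

theorem dt_swap {N : ℕ} (u v : ℤ → ℂ) : dt N u v = dt N v u := by
  unfold dt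
  rw [← Complex.conj_re, map_sum]
  congr 1
  exact Finset.sum_congr rfl fun n _ => by rw [map_mul, Complex.conj_conj, mul_comm]

theorem SQ_ht {N : ℕ} (η : ℂ) {u v : ℤ → ℂ} (hu : Sup N u) (hv : Sup N v) :
    SQ (N + 2) η (fun n => u n + v n) = SQ (N + 2) η u + 2 * dt N v (wm η u) + SQ (N + 2) η v := by
  have huv : Sup N (fun n => u n + v n) := fun n hn => by beta_reduce; rw [hu n hn, hv n hn, add_zero]
  rw [SQ_dt huv, SQ_dt hu, SQ_dt hv]
  have e : (wm η fun n => u n + v n) = fun n => wm η u n + wm η v n := funext fun n => wm_add η u v n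
  rw [e, dt_add, dt_addl, dt_addl]
  have : dt N u (wm η v) = dt N v (wm η u) := by
    rw [← dt_wm η hu, dt_swap]
    unfold dt
    congr 1
    exact win_eq (by omega) fun n hn => by rw [hv n hn, zero_mul]
  rw [this]
  ring

theorem S1Q_ht (M : ℕ) (u v : ℤ → ℂ) :
    S1Q M (fun n => u n + v n) = S1Q M u + 2 * dt M v u + S1Q M v := by
  unfold S1Q dt
  rw [Complex.re_sum, Finset.mul_sum, ← Finset.sum_add_distrib, ← Finset.sum_add_distrib]
  exact Finset.sum_congr rfl fun n _ => nsq_add' _ _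

end Helper95.SH
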