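import Pool.Agent.Helper95.SH.CoordL

/-!
# Project RC, SHARP: the quadratic lower bound `lo` on sections, in the coefficient arrays

`Lo P K`: `P.lo t b z = f t * Lf (z - zs t) - p2 (b₂ - b2s t)² - p3 (b₃ - b3s t)²` with `zs, b2s, b3s` of degree `≤ K`.
-/

open MeasureTheory Set Filter Topology

namespace Helper95.SH

open Helper49.LT hiding sg
open Helper49.RC (om)
open Helper95.RC
open Helper49.Sharp
open Helper87.RC (Fam BM intg_of_bddC intg_of_bdd fc_eq fc_sub fc_cmul fc_add fc_conj pars pars2 fc_G1 fc_G2)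
open Helper56.RC (fc)
open Helper44.RCG (G1 G2 N0)
open Helper44.GQ (aQ cQ AdmQ A0Q AAQ BBQ FMQ mQ Rq F1Q F2Q)
open Helper49.RC (vvS Wgt)
open Pool.Agent.Helper20.RC (lk lk_ge lk_sq eD eM sM DensI alQ wR wR_wgt wt wt_wR L1)

/-- the form of `F L(ζ)`: `F` with coefficients `F n`, `ζ` with coefficients `u n`, `|n| ≤ M` -/
noncomputable def LQ (M : ℕ) (F u : ℤ → ℂ) : ℝ :=
  (∑ m ∈ Finset.Icc (-(M : ℤ)) M, ∑ k ∈ Finset.Icc (-(M : ℤ)) M,
    F (m - k) * u k * ((starRingEnd ℂ) (u m) + 1 / 2 * u (-m))).re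

/-- the form of `w x²`, `x` real with coefficients `u n` -/
noncomputable def SQ (M : ℕ) (η : ℂ) (u : ℤ → ℂ) : ℝ :=
  (∑ m ∈ Finset.Icc (-(M : ℤ)) M, wm η u m * (starRingEnd ℂ) (u m)).re

section

variable {f g h : ℝ → ℂ} {C D E : ℝ} {M K : ℕ}

theorem mean_Lf {F : ℝ → ℝ} (hF : BR F) {ζ : ℝ → ℂ} (hζ : BM ζ D) (s : Sup M (fc ζ)) :
    mean (fun t => F t * Lf (ζ t)) = LQ M (fc fun t => (F t : ℂ)) (fc ζ) := by
  obtain ⟨C, hC⟩ := br_bm hF
  have s' : Sup M (fc fun t => (starRingEnd ℂ) (ζ t)) := sup_conj hζ s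
  have a1 := mean_bil hC hζ hζ s s
  have a2 := mean_bil hC hζ hζ.conj s s'
  have e : (fun t => F t * Lf (ζ t)) = fun t => ((F t : ℂ) * ζ t * (starRingEnd ℂ) (ζ t)).re +
      1 / 2 * ((F t : ℂ) * ζ t * (starRingEnd ℂ) ((starRingEnd ℂ) (ζ t))).re := by
    funext t
    rw [Lf_eq, mul_assoc, Complex.re_ofReal_mul, Complex.mul_conj, Complex.normSq_eq_norm_sq, Complex.ofReal_re,
      mul_assoc, Complex.re_ofReal_mul, Complex.conj_conj, pow_two (ζ t)]
    ring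
  rw [e, mean_add (br_re ((hC.mul hζ).mul hζ.conj)) ((br_re ((hC.mul hζ).mul hζ.conj.conj)).cmul _), mean_cmul, a1, a2]
  unfold LQ
  have h2 : ∀ x : ℂ, 1 / 2 * x.re = (1 / 2 * x).re := fun x => by
    rw [show (1 / 2 : ℂ) = ((1 / 2 : ℝ) : ℂ) by norm_num, Complex.re_ofReal_mul]
  rw [h2, ← Complex.add_re, Finset.mul_sum, ← Finset.sum_add_distrib]
  congr 1
  refine Finset.sum_congr rfl fun m _ => ?_
  rw [Finset.mul_sum, ← Finset.sum_add_distrib]
  refine Finset.sum_congr rfl fun k _ => ?_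
  rw [fc_conj, Complex.conj_conj]
  ring

theorem mean_SQ {P : Par} (hr : P.Reg) {x : ℝ → ℝ} (hx : BR x) (s : Sup M (fc fun t => (x t : ℂ))) :
    mean (fun t => P.w t * x t ^ 2) = SQ (M + 2) P.eta (fc fun t => (x t : ℂ)) := by
  obtain ⟨C, hC⟩ := br_bm hx
  obtain ⟨E, hE⟩ := bmw hr.wgt
  have e0 : fc (fun t => (P.w t : ℂ) * (x t : ℂ)) = wm P.eta (fc fun t => (x t : ℂ)) := by
    funext n
    exact fc_w P.eta hC n
  have s1 : Sup (M + 2) (fc (fun t => (P.w t : ℂ) * (x t : ℂ))) := by rw [e0]; exact wm_sup s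
  have h := mean_lin (hE.mul hC) s1 hC
  rw [e0] at h
  have e : (fun t => P.w t * x t ^ 2) = fun t => ((P.w t : ℂ) * (x t : ℂ) * (starRingEnd ℂ) (x t : ℂ)).re := by
    funext t
    rw [Complex.conj_ofReal, ← Complex.ofReal_mul, ← Complex.ofReal_mul, Complex.ofReal_re]
    ring
  rw [e, h]
  rfl

end

/-- quadratic lower bounds -/
structure Lo (P : Par) (K : ℕ) where
  f : ℝ → ℝ
  zs : ℝ → ℂ
  b2s : ℝ → ℝ
  b3s : ℝ → ℝ
  p2 : ℝ
  p3 : ℝ
  hf : BR f
  hz : ∃ C, BM zs C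
  h2 : BR b2s
  h3 : BR b3s
  sz : Sup K (fc zs)
  s2 : Sup K (fc fun t => (b2s t : ℂ))
  s3 : Sup K (fc fun t => (b3s t : ℂ))
  eq : ∀ t b z, P.lo t b z = f t * Lf (z - zs t) - p2 * (b.re - b2s t) ^ 2 - p3 * (b.im - b3s t) ^ 2

section

variable {P : Par} {b z : ℝ → ℂ} {K : ℕ}

/-- `mean (w lo)` in the arrays -/
noncomputable def LoA (L : Lo P K) (N : ℕ) (p r s : ℤ → ℂ) : ℝ :=
  LQ N (fc fun t => ((P.w t * L.f t : ℝ) : ℂ)) (fun n => s n - fc L.zs n)
  - L.p2 * SQ (N + 2) P.eta (fun n => p n - fc (fun t => (L.b2s t : ℂ)) n)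
  - L.p3 * SQ (N + 2) P.eta (fun n => r n - fc (fun t => (L.b3s t : ℂ)) n)

theorem sup_sub {M : ℕ} {u v : ℤ → ℂ} (hu : Sup M u) (hv : Sup M v) : Sup M (fun n => u n - v n) := by
  intro n hn
  show u n - v n = 0
  rw [hu n hn, hv n hn, sub_zero]

theorem lo_coord (hr : P.Reg) (L : Lo P K) (hb : BF b) (z : ℝ → ℂ) {N : ℕ} (hN : K ≤ N) :
    mean (fun t => P.w t * P.lo t (SN N b t) (SN N z t)) =
      LoA L N (tr N (pr b)) (tr N (qr b)) (tr N (fc z)) := by
  obtain ⟨Cz, hz⟩ := L.hz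
  obtain ⟨C2, h2⟩ := br_bm L.h2
  obtain ⟨C3, h3⟩ := br_bm L.h3
  obtain ⟨B3, p3⟩ := bm_re (bf_SN b N)
  obtain ⟨B4, p4⟩ := bm_im (bf_SN b N)
  obtain ⟨Bz, pz⟩ := bf_bm (bf_SN z N)
  have wf : BR fun t => P.w t * L.f t := (w_br hr).mul L.hf
  have x2 : BR fun t => (SN N b t).re - L.b2s t := (BR.re (bf_bm (bf_SN b N)).choose_spec).sub L.h2
  have x3 : BR fun t => (SN N b t).im - L.b3s t := (BR.im (bf_bm (bf_SN b N)).choose_spec).sub L.h3
  have e1 : fc (fun t => SN N z t - L.zs t) = fun n => tr N (fc z) n - fc L.zs n := by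
    funext n
    rw [fc_sub pz hz, fc_SN]
  have e2 : fc (fun t => (((SN N b t).re - L.b2s t : ℝ) : ℂ)) =
      fun n => tr N (pr b) n - fc (fun t => (L.b2s t : ℂ)) n := by
    funext n
    have : (fun t => (((SN N b t).re - L.b2s t : ℝ) : ℂ)) = fun t => ((SN N b t).re : ℂ) - (L.b2s t : ℂ) := by
      funext t; push_cast; rfl
    rw [this, fc_sub p3 h2, fc_reA hb N]
  have e3 : fc (fun t => (((SN N b t).im - L.b3s t : ℝ) : ℂ)) =
      fun n => tr N (qr b) n - fc (fun t => (L.b3s t : ℂ)) n := by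
    funext n
    have : (fun t => (((SN N b t).im - L.b3s t : ℝ) : ℂ)) = fun t => ((SN N b t).im : ℂ) - (L.b3s t : ℂ) := by
      funext t; push_cast; rfl
    rw [this, fc_sub p4 h3, fc_imA hb N]
  have t1 : Sup N (fc (fun t => SN N z t - L.zs t)) := by
    rw [e1]; exact sup_sub (tr_sup N _) (Sup.mono hN L.sz)
  have t2 : Sup N (fc (fun t => (((SN N b t).re - L.b2s t : ℝ) : ℂ))) := by
    rw [e2]; exact sup_sub (tr_sup N _) (Sup.mono hN L.s2)
  have t3 : Sup N (fc (fun t => (((SN N b t).im - L.b3s t : ℝ) : ℂ))) := by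
    rw [e3]; exact sup_sub (tr_sup N _) (Sup.mono hN L.s3)
  have m1 := mean_Lf wf (pz.sub hz) t1
  have m2 := mean_SQ hr x2 t2
  have m3 := mean_SQ hr x3 t3
  have bL : BR fun t => P.w t * L.f t * Lf (SN N z t - L.zs t) := by
    have hL : BR fun t => Lf (SN N z t - L.zs t) := by
      have a := (BR.re (pz.sub hz)).sq.cmul (3 / 2)
      have c := (BR.im (pz.sub hz)).sq.cmul (1 / 2)
      exact a.add c
    exact wf.mul hL
  have e : (fun t => P.w t * P.lo t (SN N b t) (SN N z t)) = fun t =>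
      (P.w t * L.f t * Lf (SN N z t - L.zs t) - L.p2 * (P.w t * ((SN N b t).re - L.b2s t) ^ 2))
        - L.p3 * (P.w t * ((SN N b t).im - L.b3s t) ^ 2) := by
    funext t
    rw [L.eq]
    ring
  rw [e, mean_sub (bL.sub (((w_br hr).mul x2.sq).cmul _)) (((w_br hr).mul x3.sq).cmul _),
    mean_sub bL (((w_br hr).mul x2.sq).cmul _), mean_cmul, mean_cmul, m1, m2, m3, e1, e2, e3]
  rfl

/-- a quadratic `lo` is continuous along sections -/
theorem Lo.ql (L : Lo P K) : QL P.lo := by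
  obtain ⟨Cz, hz⟩ := L.hz
  obtain ⟨Cf, hCf⟩ := L.hf.b
  obtain ⟨C2, hC2⟩ := L.h2.b
  obtain ⟨C3, hC3⟩ := L.h3.b
  have hz0 : 0 ≤ Cz := hz.C0
  have hf0 : 0 ≤ Cf := (abs_nonneg _).trans (hCf 0)
  have h20 : 0 ≤ C2 := (abs_nonneg _).trans (hC2 0)
  have h30 : 0 ≤ C3 := (abs_nonneg _).trans (hC3 0)
  have hLf : ∀ x y : ℂ, |Lf x - Lf y| ≤ 2 * ‖x - y‖ * (‖x‖ + ‖y‖) := by
    intro x y
    have e : Lf x - Lf y = 3 / 2 * ((x - y).re * (x + y).re) + 1 / 2 * ((x - y).im * (x + y).im) := by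
      unfold Lf
      rw [Complex.sub_re, Complex.add_re, Complex.sub_im, Complex.add_im]
      ring
    have a1 : |(x - y).re * (x + y).re| ≤ ‖x - y‖ * (‖x‖ + ‖y‖) := by
      rw [abs_mul]
      exact mul_le_mul (Complex.abs_re_le_norm _) ((Complex.abs_re_le_norm _).trans (norm_add_le _ _))
        (abs_nonneg _) (norm_nonneg _)
    have a2 : |(x - y).im * (x + y).im| ≤ ‖x - y‖ * (‖x‖ + ‖y‖) := by
      rw [abs_mul]
      exact mul_le_mul (Complex.abs_im_le_norm _) ((Complex.abs_im_le_norm _).trans (norm_add_le _ _))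
        (abs_nonneg _) (norm_nonneg _)
    rw [e]
    refine (abs_add_le _ _).trans ?_
    rw [abs_mul (3 / 2 : ℝ), abs_mul (1 / 2 : ℝ), abs_of_pos (by norm_num : (0 : ℝ) < 3 / 2),
      abs_of_pos (by norm_num : (0 : ℝ) < 1 / 2)]
    linarith
  have hsq : ∀ x y c C : ℝ, |c| ≤ C → |(x - c) ^ 2 - (y - c) ^ 2| ≤ |x - y| * (|x| + |y| + 2 * C) := by
    intro x y c C hc
    have e : (x - c) ^ 2 - (y - c) ^ 2 = (x - y) * (x + y - 2 * c) := by ring
    rw [e, abs_mul]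
    refine mul_le_mul_of_nonneg_left ?_ (abs_nonneg _)
    refine (abs_sub _ _).trans ?_
    rw [abs_mul, abs_of_pos (by norm_num : (0 : ℝ) < 2)]
    have := abs_add_le x y
    linarith
  refine ⟨fun b z hb hz' => ?_, ?_, ?_⟩
  · have e : (fun t => P.lo t (b t) (z t)) = fun t => L.f t * Lf (z t - L.zs t) - L.p2 * ((b t).re - L.b2s t) ^ 2
        - L.p3 * ((b t).im - L.b3s t) ^ 2 := funext fun t => L.eq _ _ _
    rw [e]
    have hd := hz'.sub hz.m
    have hL : Measurable fun t => Lf (z t - L.zs t) := by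
      unfold Lf
      exact (((Complex.measurable_re.comp hd).pow_const 2).const_mul _).add
        (((Complex.measurable_im.comp hd).pow_const 2).const_mul _)
    exact ((L.hf.m.mul hL).sub ((((Complex.measurable_re.comp hb).sub L.h2.m).pow_const 2).const_mul _)).sub
      ((((Complex.measurable_im.comp hb).sub L.h3.m).pow_const 2).const_mul _)
  · refine ⟨Cf * (2 * Cz * Cz) + |L.p2| * (C2 * C2) + |L.p3| * (C3 * C3), fun t => ?_⟩
    rw [L.eq, zero_sub, Complex.zero_re, Complex.zero_im, zero_sub, zero_sub]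
    have a1 : |Lf (-L.zs t)| ≤ 2 * Cz * Cz := by
      have h1 := hLf (-L.zs t) 0
      have h2 : Lf 0 = 0 := by unfold Lf; simp
      rw [h2, sub_zero, sub_zero, norm_zero, add_zero, norm_neg] at h1
      refine h1.trans ?_
      have := hz.b t
      have := norm_nonneg (L.zs t)
      gcongr
    have a2 : |(-L.b2s t) ^ 2| ≤ C2 * C2 := by
      rw [neg_sq, abs_pow, pow_two]
      exact mul_le_mul (hC2 t) (hC2 t) (abs_nonneg _) h20
    have a3 : |(-L.b3s t) ^ 2| ≤ C3 * C3 := by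
      rw [neg_sq, abs_pow, pow_two]
      exact mul_le_mul (hC3 t) (hC3 t) (abs_nonneg _) h30
    refine (abs_sub _ _).trans (add_le_add ((abs_sub _ _).trans (add_le_add ?_ ?_)) ?_)
    · rw [abs_mul]
      exact mul_le_mul (hCf t) a1 (abs_nonneg _) hf0
    · rw [abs_mul]
      exact mul_le_mul_of_nonneg_left a2 (abs_nonneg _)
    · rw [abs_mul]
      exact mul_le_mul_of_nonneg_left a3 (abs_nonneg _)
  · refine ⟨Cf * (2 * (2 + 2 * Cz)) + |L.p2| * (2 + 2 * C2) + |L.p3| * (2 + 2 * C3), by positivity,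
      fun t b z b' z' => ?_⟩
    have nb := norm_nonneg b
    have nz := norm_nonneg z
    have nb' := norm_nonneg (b - b')
    have nz' := norm_nonneg (z - z')
    have hb1 : ‖b'‖ ≤ ‖b‖ + ‖b - b'‖ := by
      have := norm_sub_norm_le b' b
      rw [norm_sub_rev] at this
      linarith
    have hz1 : ‖z'‖ ≤ ‖z‖ + ‖z - z'‖ := by
      have := norm_sub_norm_le z' z
      rw [norm_sub_rev] at this
      linarith
    set T : ℝ := 1 + ‖b‖ + ‖z‖ + ‖b - b'‖ + ‖z - z'‖ with hT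
    set δ : ℝ := ‖b - b'‖ + ‖z - z'‖ with hδ
    have hT1 : 1 ≤ T := by rw [hT]; linarith
    have hδ0 : 0 ≤ δ := by positivity
    have a1 : |Lf (z - L.zs t) - Lf (z' - L.zs t)| ≤ 2 * (2 + 2 * Cz) * (δ * T) := by
      refine (hLf _ _).trans ?_
      rw [sub_sub_sub_cancel_right]
      have h1 := norm_sub_le z (L.zs t)
      have h2 := norm_sub_le z' (L.zs t)
      have h3 := hz.b t
      have h4 : ‖z - L.zs t‖ + ‖z' - L.zs t‖ ≤ (2 + 2 * Cz) * T := by
        have : ‖z - L.zs t‖ + ‖z' - L.zs t‖ ≤ 2 * T + 2 * Cz := by rw [hT]; linarith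
        have h5 : 2 * Cz ≤ 2 * Cz * T := le_mul_of_one_le_right (by linarith) hT1
        linarith
      have h5 : ‖z - z'‖ ≤ δ := by rw [hδ]; linarith
      calc 2 * ‖z - z'‖ * (‖z - L.zs t‖ + ‖z' - L.zs t‖) ≤ 2 * δ * ((2 + 2 * Cz) * T) := by
            apply mul_le_mul (by linarith) h4 (by positivity) (by positivity)
        _ = 2 * (2 + 2 * Cz) * (δ * T) := by ring
    have a2 : |(b.re - L.b2s t) ^ 2 - (b'.re - L.b2s t) ^ 2| ≤ (2 + 2 * C2) * (δ * T) := by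
      refine (hsq _ _ _ _ (hC2 t)).trans ?_
      have h1 : |b.re - b'.re| ≤ δ := by
        rw [← Complex.sub_re]
        exact (Complex.abs_re_le_norm _).trans (by rw [hδ]; linarith)
      have h2 := Complex.abs_re_le_norm b
      have h3 := Complex.abs_re_le_norm b'
      have h4 : |b.re| + |b'.re| + 2 * C2 ≤ (2 + 2 * C2) * T := by
        have : |b.re| + |b'.re| + 2 * C2 ≤ 2 * T + 2 * C2 := by rw [hT]; linarith
        have h5 : 2 * C2 ≤ 2 * C2 * T := le_mul_of_one_le_right (by linarith) hT1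
        linarith
      calc |b.re - b'.re| * (|b.re| + |b'.re| + 2 * C2) ≤ δ * ((2 + 2 * C2) * T) := by
            apply mul_le_mul h1 h4 (by positivity) hδ0
        _ = (2 + 2 * C2) * (δ * T) := by ring
    have a3 : |(b.im - L.b3s t) ^ 2 - (b'.im - L.b3s t) ^ 2| ≤ (2 + 2 * C3) * (δ * T) := by
      refine (hsq _ _ _ _ (hC3 t)).trans ?_
      have h1 : |b.im - b'.im| ≤ δ := by
        rw [← Complex.sub_im]
        exact (Complex.abs_im_le_norm _).trans (by rw [hδ]; linarith)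
      have h2 := Complex.abs_im_le_norm b
      have h3 := Complex.abs_im_le_norm b'
      have h4 : |b.im| + |b'.im| + 2 * C3 ≤ (2 + 2 * C3) * T := by
        have : |b.im| + |b'.im| + 2 * C3 ≤ 2 * T + 2 * C3 := by rw [hT]; linarith
        have h5 : 2 * C3 ≤ 2 * C3 * T := le_mul_of_one_le_right (by linarith) hT1
        linarith
      calc |b.im - b'.im| * (|b.im| + |b'.im| + 2 * C3) ≤ δ * ((2 + 2 * C3) * T) := by
            apply mul_le_mul h1 h4 (by positivity) hδ0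
        _ = (2 + 2 * C3) * (δ * T) := by ring
    have e : P.lo t b z - P.lo t b' z' = L.f t * (Lf (z - L.zs t) - Lf (z' - L.zs t))
        - L.p2 * ((b.re - L.b2s t) ^ 2 - (b'.re - L.b2s t) ^ 2)
        - L.p3 * ((b.im - L.b3s t) ^ 2 - (b'.im - L.b3s t) ^ 2) := by
      rw [L.eq, L.eq]; ring
    have hδT : 0 ≤ δ * T := mul_nonneg hδ0 (by linarith)
    rw [e]
    refine (abs_sub _ _).trans ?_
    have b1 : |L.f t * (Lf (z - L.zs t) - Lf (z' - L.zs t))| ≤ Cf * (2 * (2 + 2 * Cz) * (δ * T)) := by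
      rw [abs_mul]
      exact mul_le_mul (hCf t) a1 (abs_nonneg _) hf0
    have b2 : |L.p2 * ((b.re - L.b2s t) ^ 2 - (b'.re - L.b2s t) ^ 2)| ≤ |L.p2| * ((2 + 2 * C2) * (δ * T)) := by
      rw [abs_mul]
      exact mul_le_mul_of_nonneg_left a2 (abs_nonneg _)
    have b3 : |L.p3 * ((b.im - L.b3s t) ^ 2 - (b'.im - L.b3s t) ^ 2)| ≤ |L.p3| * ((2 + 2 * C3) * (δ * T)) := by
      rw [abs_mul]
      exact mul_le_mul_of_nonneg_left a3 (abs_nonneg _)
    have b4 := abs_sub (L.f t * (Lf (z - L.zs t) - Lf (z' - L.zs t))) (L.p2 * ((b.re - L.b2s t) ^ 2 - (b'.re - L.b2s t) ^ 2))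
    nlinarith

/-- EP ON SECTIONS IN THE COEFFICIENT ARRAYS, complete -/
theorem EP_coord3 (hr : P.Reg) (L : Lo P K) (d : Dat b z) {N : ℕ} (hN : K ≤ N) :
    P.EP (SN N b) (SN N z) = EA P N (tr N (pr b)) (tr N (qr b)) (tr N (fc z))
      + LA P N (tr N (pr b)) (tr N (qr b)) (tr N (fc z))
      + (P.m - P.lam) * LoA L N (tr N (pr b)) (tr N (qr b)) (tr N (fc z)) := by
  rw [EP_coord2 hr L.ql d N, lo_coord hr L d.hb z hN]

end

end Helper95.SH
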