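import Pool.Agent.Helper95.SH.Cont3

/-!
# Project RC, SHARP: the functional `EP` is the limit of its values at the trigonometric sections

`EP_lim`: if the field `lo` is a quadratic polynomial with bounded coefficients (`QL P.lo`), then
`EP (SN N b) (SN N z) → EP b z`. `EP_nonneg`: it suffices to prove `0 ≤ EP` for trigonometric polynomials.
-/

open MeasureTheory Set Filter Topology

namespace Helper95.SH

open Helper49.LT hiding sg
open Helper49.RC (om)
open Helper95.RC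
open Helper49.Sharp
open Helper87.RC (Fam BM intg_of_bddC intg_of_bdd fc_eq fc_sub fc_cmul fc_add fc_conj pars pars2 fc_G1 fc_G2)
open Helper56.RC (fc)
open Helper44.RCG (G1 G2 N0)
open Helper44.GQ (aQ cQ AdmQ A0Q AAQ BBQ FMQ mQ Rq F1Q F2Q)
open Helper49.RC (vvS Wgt)
open Pool.Agent.Helper20.RC (lk lk_ge lk_sq eD eM sM DensI alQ wR wR_wgt wt wt_wR L1)

/-- local functions with quadratic growth -/
structure QL (Φ : ℝ → ℂ → ℂ → ℝ) : Prop where
  m : ∀ b z : ℝ → ℂ, Measurable b → Measurable z → Measurable fun t => Φ t (b t) (z t)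
  z : ∃ C, ∀ t, |Φ t 0 0| ≤ C
  l : ∃ C, 0 ≤ C ∧ ∀ (t : ℝ) (b z b' z' : ℂ), |Φ t b z - Φ t b' z'| ≤
    C * (‖b - b'‖ + ‖z - z'‖) * (1 + ‖b‖ + ‖z‖ + ‖b - b'‖ + ‖z - z'‖)

theorem QL.add {Φ Ψ : ℝ → ℂ → ℂ → ℝ} (h : QL Φ) (k : QL Ψ) : QL fun t b z => Φ t b z + Ψ t b z := by
  obtain ⟨C, hC⟩ := h.z
  obtain ⟨D, hD⟩ := k.z
  obtain ⟨C', hC0, hC'⟩ := h.l
  obtain ⟨D', hD0, hD'⟩ := k.l
  refine ⟨fun b z hb hz => (h.m b z hb hz).add (k.m b z hb hz), ⟨C + D, fun t =>
    (abs_add_le _ _).trans (add_le_add (hC t) (hD t))⟩, ?_⟩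
  · refine ⟨C' + D', by positivity, fun t b z b' z' => ?_⟩
    have e : Φ t b z + Ψ t b z - (Φ t b' z' + Ψ t b' z') = (Φ t b z - Φ t b' z') + (Ψ t b z - Ψ t b' z') := by ring
    rw [e]
    refine (abs_add_le _ _).trans ((add_le_add (hC' t b z b' z') (hD' t b z b' z')).trans (le_of_eq ?_))
    ring

theorem QL.bmul {Φ : ℝ → ℂ → ℂ → ℝ} (h : QL Φ) {f : ℝ → ℝ} (hf : BR f) : QL fun t b z => f t * Φ t b z := by
  obtain ⟨C, hC⟩ := h.z
  obtain ⟨C', hC0, hC'⟩ := h.l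
  obtain ⟨D, hD⟩ := hf.b
  have hD0 : 0 ≤ D := (abs_nonneg _).trans (hD 0)
  refine ⟨fun b z hb hz => hf.m.mul (h.m b z hb hz), ⟨D * C, fun t => ?_⟩,
    ⟨D * C', by positivity, fun t b z b' z' => ?_⟩⟩
  · rw [abs_mul]
    exact mul_le_mul (hD t) (hC t) (abs_nonneg _) hD0
  · rw [← mul_sub, abs_mul]
    refine (mul_le_mul (hD t) (hC' t b z b' z') (abs_nonneg _) hD0).trans (le_of_eq ?_)
    ring

theorem QL.cmul {Φ : ℝ → ℂ → ℂ → ℝ} (h : QL Φ) (c : ℝ) : QL fun t b z => c * Φ t b z := h.bmul (BR.const c)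

theorem QL.sub {Φ Ψ : ℝ → ℂ → ℂ → ℝ} (h : QL Φ) (k : QL Ψ) : QL fun t b z => Φ t b z - Ψ t b z := by
  have := h.add (k.cmul (-1))
  have e : (fun t b z => Φ t b z + -1 * Ψ t b z) = fun t b z => Φ t b z - Ψ t b z := by
    funext t b z; ring
  rwa [e] at this

/-- a function of `(b, z)` which is Lipschitz -/
theorem QL.lip {g : ℂ → ℂ → ℂ} (gm : ∀ b z : ℝ → ℂ, Measurable b → Measurable z → Measurable fun t => g (b t) (z t))
    {K : ℝ} (hK : ∀ b z b' z', ‖g b z - g b' z'‖ ≤ K * (‖b - b'‖ + ‖z - z'‖)) {u : ℝ → ℂ} (hu : BM u 1) :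
    QL (fun t b z => ((starRingEnd ℂ) (u t) * g b z).re) ∧ QL (fun t b z => ((starRingEnd ℂ) (u t) * g b z).im) := by
  have hK0 : 0 ≤ K := by
    have h1 := hK 1 0 0 0
    simp only [sub_zero, norm_one, norm_zero, add_zero, mul_one] at h1
    exact (norm_nonneg _).trans h1
  have key : ∀ (t : ℝ) (x : ℂ), ‖(starRingEnd ℂ) (u t) * x‖ ≤ ‖x‖ := by
    intro t x
    rw [norm_mul, RCLike.norm_conj]
    exact mul_le_of_le_one_left (norm_nonneg _) (hu.b t)
  have b1 : ∀ b z b' z' : ℂ, K * (‖b - b'‖ + ‖z - z'‖) ≤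
      K * (‖b - b'‖ + ‖z - z'‖) * (1 + ‖b‖ + ‖z‖ + ‖b - b'‖ + ‖z - z'‖) := by
    intro b z b' z'
    have h2 : (1 : ℝ) ≤ 1 + ‖b‖ + ‖z‖ + ‖b - b'‖ + ‖z - z'‖ := by
      have := norm_nonneg b
      have := norm_nonneg z
      have := norm_nonneg (b - b')
      have := norm_nonneg (z - z')
      linarith
    exact le_mul_of_one_le_right (by positivity) h2
  constructor
  · refine ⟨fun b z hb hz => Complex.measurable_re.comp (hu.conj.m.mul (gm b z hb hz)), ⟨‖g 0 0‖, fun t =>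
      (Complex.abs_re_le_norm _).trans (key t _)⟩, ⟨K, hK0, fun t b z b' z' => ?_⟩⟩
    rw [← Complex.sub_re, ← mul_sub]
    exact ((Complex.abs_re_le_norm _).trans (key t _)).trans ((hK b z b' z').trans (b1 b z b' z'))
  · refine ⟨fun b z hb hz => Complex.measurable_im.comp (hu.conj.m.mul (gm b z hb hz)), ⟨‖g 0 0‖, fun t =>
      (Complex.abs_im_le_norm _).trans (key t _)⟩, ⟨K, hK0, fun t b z b' z' => ?_⟩⟩
    rw [← Complex.sub_im, ← mul_sub]
    exact ((Complex.abs_im_le_norm _).trans (key t _)).trans ((hK b z b' z').trans (b1 b z b' z'))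

theorem g1_form (b z : ℂ) : g1 b z = om + (starRingEnd ℂ) om * (b.re : ℂ) + kq 2 * (b.im : ℂ) + z := by
  unfold g1
  rw [edge1]

theorem g2_form (b z : ℂ) : g2 b z = om ^ 2 + (starRingEnd ℂ) om ^ 2 * (b.re : ℂ)
    + (starRingEnd ℂ) (kq 2) * (b.im : ℂ) - z := by
  unfold g2
  rw [edge2]

theorem g1_lip : (∀ b z : ℝ → ℂ, Measurable b → Measurable z → Measurable fun t => g1 (b t) (z t)) ∧
    ∀ b z b' z', ‖g1 b z - g1 b' z'‖ ≤ (1 + ‖kq 2‖ + 1) * (‖b - b'‖ + ‖z - z'‖) := by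
  constructor
  · intro b z hb hz
    have e : (fun t => g1 (b t) (z t)) = fun t => om + (starRingEnd ℂ) om * ((b t).re : ℂ) + kq 2 * ((b t).im : ℂ)
        + z t := funext fun t => g1_form _ _
    rw [e]
    exact ((measurable_const.add (measurable_const.mul (Complex.measurable_ofReal.comp
      (Complex.measurable_re.comp hb)))).add (measurable_const.mul (Complex.measurable_ofReal.comp
      (Complex.measurable_im.comp hb)))).add hz
  · intro b z b' z'
    rw [g1_form, g1_form]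
    have e : om + (starRingEnd ℂ) om * (b.re : ℂ) + kq 2 * (b.im : ℂ) + z
        - (om + (starRingEnd ℂ) om * (b'.re : ℂ) + kq 2 * (b'.im : ℂ) + z') =
        (starRingEnd ℂ) om * (((b - b').re : ℝ) : ℂ) + kq 2 * (((b - b').im : ℝ) : ℂ) + (z - z') := by
      rw [Complex.sub_re, Complex.sub_im]
      push_cast
      ring
    rw [e]
    have hom : ‖om‖ = 1 := by unfold om; exact norm_ee _
    refine (norm_add_le _ _).trans ((add_le_add (norm_add_le _ _) le_rfl).trans ?_)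
    rw [norm_mul, norm_mul, RCLike.norm_conj, hom, one_mul, Complex.norm_real, Complex.norm_real,
      Real.norm_eq_abs, Real.norm_eq_abs]
    have h1 := Complex.abs_re_le_norm (b - b')
    have h2 := Complex.abs_im_le_norm (b - b')
    have h3 := mul_le_mul_of_nonneg_left h2 (norm_nonneg (kq 2))
    have h4 := mul_nonneg (norm_nonneg (kq 2)) (norm_nonneg (z - z'))
    have h5 := norm_nonneg (z - z')
    have h6 := norm_nonneg (b - b')
    nlinarith

theorem g2_lip : (∀ b z : ℝ → ℂ, Measurable b → Measurable z → Measurable fun t => g2 (b t) (z t)) ∧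
    ∀ b z b' z', ‖g2 b z - g2 b' z'‖ ≤ (1 + ‖kq 2‖ + 1) * (‖b - b'‖ + ‖z - z'‖) := by
  constructor
  · intro b z hb hz
    have e : (fun t => g2 (b t) (z t)) = fun t => om ^ 2 + (starRingEnd ℂ) om ^ 2 * ((b t).re : ℂ)
        + (starRingEnd ℂ) (kq 2) * ((b t).im : ℂ) - z t := funext fun t => g2_form _ _
    rw [e]
    exact ((measurable_const.add (measurable_const.mul (Complex.measurable_ofReal.comp
      (Complex.measurable_re.comp hb)))).add (measurable_const.mul (Complex.measurable_ofReal.comp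
      (Complex.measurable_im.comp hb)))).sub hz
  · intro b z b' z'
    rw [g2_form, g2_form]
    have e : om ^ 2 + (starRingEnd ℂ) om ^ 2 * (b.re : ℂ) + (starRingEnd ℂ) (kq 2) * (b.im : ℂ) - z
        - (om ^ 2 + (starRingEnd ℂ) om ^ 2 * (b'.re : ℂ) + (starRingEnd ℂ) (kq 2) * (b'.im : ℂ) - z') =
        (starRingEnd ℂ) om ^ 2 * (((b - b').re : ℝ) : ℂ) + (starRingEnd ℂ) (kq 2) * (((b - b').im : ℝ) : ℂ)
        - (z - z') := by
      rw [Complex.sub_re, Complex.sub_im]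
      push_cast
      ring
    rw [e]
    have hom : ‖om‖ = 1 := by unfold om; exact norm_ee _
    refine (norm_sub_le _ _).trans ((add_le_add (norm_add_le _ _) le_rfl).trans ?_)
    rw [norm_mul, norm_mul, norm_pow, RCLike.norm_conj, RCLike.norm_conj, hom, one_pow, one_mul, Complex.norm_real,
      Complex.norm_real, Real.norm_eq_abs, Real.norm_eq_abs]
    have h1 := Complex.abs_re_le_norm (b - b')
    have h2 := Complex.abs_im_le_norm (b - b')
    have h3 := mul_le_mul_of_nonneg_left h2 (norm_nonneg (kq 2))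
    have h4 := mul_nonneg (norm_nonneg (kq 2)) (norm_nonneg (z - z'))
    have h5 := norm_nonneg (z - z')
    have h6 := norm_nonneg (b - b')
    nlinarith

theorem QL.nsq : QL fun _ b _ => ‖b‖ ^ 2 := by
  refine ⟨fun b z hb hz => hb.norm.pow_const 2, ⟨0, fun t => by simp⟩, ⟨2, by norm_num, fun t b z b' z' => ?_⟩⟩
  have h1 : |‖b‖ - ‖b'‖| ≤ ‖b - b'‖ := abs_norm_sub_norm_le _ _
  have h2 : ‖b'‖ ≤ ‖b‖ + ‖b - b'‖ := by
    have := norm_sub_norm_le b' b
    rw [norm_sub_rev] at this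
    linarith
  have e : ‖b‖ ^ 2 - ‖b'‖ ^ 2 = (‖b‖ - ‖b'‖) * (‖b‖ + ‖b'‖) := by ring
  rw [e, abs_mul, abs_of_nonneg (by positivity : 0 ≤ ‖b‖ + ‖b'‖)]
  have h3 := mul_le_mul h1 (show ‖b‖ + ‖b'‖ ≤ 2 * ‖b‖ + ‖b - b'‖ by linarith) (by positivity) (norm_nonneg _)
  refine h3.trans ?_
  have := norm_nonneg b
  have := norm_nonneg z
  have := norm_nonneg (b - b')
  have := norm_nonneg (z - z')
  nlinarith [mul_nonneg (norm_nonneg (b - b')) (norm_nonneg z), mul_nonneg (norm_nonneg (z - z')) (norm_nonneg b),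
    mul_nonneg (norm_nonneg (b - b')) (norm_nonneg (z - z')), mul_nonneg (norm_nonneg (z - z')) (norm_nonneg z)]

/-- the local part of `EP` -/
theorem QL_TL {P : Par} (hr : P.Reg) (hl : QL P.lo) : QL fun t b z => P.w t * P.TL t b z := by
  have a1 := QL.lip g1_lip.1 g1_lip.2 (u1_bm hr)
  have a2 := QL.lip g2_lip.1 g2_lip.2 (u2_bm hr)
  have c1 := QL.lip g1_lip.1 g1_lip.2 (v1_bm hr)
  have c2 := QL.lip g2_lip.1 g2_lip.2 (v2_bm hr)
  have T1 := (a1.1.bmul (H_br hr (th1_meas hr))).add (a1.2.bmul (H1_br hr (th1_meas hr)))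
  have T2 := (a2.1.bmul (H_br hr (th2_meas hr))).add (a2.2.bmul (H1_br hr (th2_meas hr)))
  have U := (a1.1.sub c1.1).add (a2.1.sub c2.1)
  have h := ((((T1.add T2).cmul 2).sub (U.cmul (2 * P.lam))).add (QL.nsq.cmul (9 - P.cs))).add (hl.cmul (P.m - P.lam))
  have h2 := h.bmul (w_br hr)
  have e : (fun t b z => P.w t * P.TL t b z) = fun t b z => P.w t * (2 * (P.H (P.th1 t) * ((starRingEnd ℂ) (P.u1 t)
      * g1 b z).re + P.H1 (P.th1 t) * ((starRingEnd ℂ) (P.u1 t) * g1 b z).im + (P.H (P.th2 t) *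
      ((starRingEnd ℂ) (P.u2 t) * g2 b z).re + P.H1 (P.th2 t) * ((starRingEnd ℂ) (P.u2 t) * g2 b z).im))
      - 2 * P.lam * (((starRingEnd ℂ) (P.u1 t) * g1 b z).re - ((starRingEnd ℂ) (P.v1 t) * g1 b z).re
        + (((starRingEnd ℂ) (P.u2 t) * g2 b z).re - ((starRingEnd ℂ) (P.v2 t) * g2 b z).re))
      + (9 - P.cs) * ‖b‖ ^ 2 + (P.m - P.lam) * P.lo t b z) := by
    funext t b z
    unfold Par.TL Par.T1 Par.T2
    rw [map_sub, map_sub, sub_mul, sub_mul, Complex.sub_re, Complex.sub_re]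
  rw [e]
  exact h2

theorem QL.br {Φ : ℝ → ℂ → ℂ → ℝ} (h : QL Φ) {b z : ℝ → ℂ} (hb : BF b) (hz : BF z) : BR fun t => Φ t (b t) (z t) := by
  obtain ⟨C, hC⟩ := h.z
  obtain ⟨C', hC0, hC'⟩ := h.l
  obtain ⟨B, hB⟩ := hb.b
  obtain ⟨Z, hZ⟩ := hz.b
  have hB0 : 0 ≤ B := (norm_nonneg _).trans (hB 0)
  have hZ0 : 0 ≤ Z := (norm_nonneg _).trans (hZ 0)
  refine ⟨h.m b z hb.m hz.m, C + C' * (B + Z) * (1 + B + Z + B + Z), fun t => ?_⟩
  have h1 := hC' t (b t) (z t) 0 0
  rw [sub_zero, sub_zero] at h1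
  have h2 : |Φ t (b t) (z t)| ≤ |Φ t 0 0| + |Φ t (b t) (z t) - Φ t 0 0| := by
    have := abs_add_le (Φ t 0 0) (Φ t (b t) (z t) - Φ t 0 0)
    rwa [add_sub_cancel] at this
  refine h2.trans (add_le_add (hC t) (h1.trans ?_))
  have := hB t
  have := hZ t
  have := norm_nonneg (b t)
  have := norm_nonneg (z t)
  gcongr

/-- continuity of the mean of a local function -/
theorem mean_lim {Φ : ℝ → ℂ → ℂ → ℝ} (h : QL Φ) {b z : ℝ → ℂ} (hb : BF b) (hz : BF z) {b' z' : ℕ → ℝ → ℂ}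
    (hb' : ∀ N, BF (b' N)) (hz' : ∀ N, BF (z' N))
    (tb : Tendsto (fun N => ms (fun t => b t - b' N t)) atTop (𝓝 0))
    (tz : Tendsto (fun N => ms (fun t => z t - z' N t)) atTop (𝓝 0)) :
    Tendsto (fun N => mean (fun t => Φ t (b' N t) (z' N t))) atTop (𝓝 (mean (fun t => Φ t (b t) (z t)))) := by
  have hpi := Real.pi_pos
  obtain ⟨C, hC0, hC⟩ := h.l
  obtain ⟨B, hB⟩ := hb.b
  obtain ⟨Z, hZ⟩ := hz.b
  have hB0 : 0 ≤ B := (norm_nonneg _).trans (hB 0)
  have hZ0 : 0 ≤ Z := (norm_nonneg _).trans (hZ 0)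
  rw [tendsto_iff_norm_sub_tendsto_zero]
  have td : Tendsto (fun N => 2 * ms (fun t => b t - b' N t) + 2 * ms (fun t => z t - z' N t)) atTop (𝓝 0) := by
    have := (tb.const_mul 2).add (tz.const_mul 2)
    simpa using this
  have ts := td.sqrt
  rw [Real.sqrt_zero] at ts
  have tt := (ts.const_mul (C * (1 + B + Z))).add (td.const_mul C)
  rw [mul_zero, mul_zero, add_zero] at tt
  refine squeeze_zero (fun N => norm_nonneg _) (fun N => ?_) tt
  set δ : ℝ → ℝ := fun t => ‖b t - b' N t‖ + ‖z t - z' N t‖ with hδ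
  have hδ0 : ∀ t, 0 ≤ δ t := fun t => by positivity
  obtain ⟨B', hB'⟩ := (hb.sub (hb' N)).b
  obtain ⟨Z', hZ'⟩ := (hz.sub (hz' N)).b
  have brδ : BR δ := ⟨(hb.sub (hb' N)).m.norm.add (hz.sub (hz' N)).m.norm, B' + Z', fun t => by
    rw [abs_of_nonneg (hδ0 t)]; exact add_le_add (hB' t) (hZ' t)⟩
  have br1 := h.br hb hz
  have br2 := h.br (hb' N) (hz' N)
  have hd : ∀ t, |Φ t (b t) (z t) - Φ t (b' N t) (z' N t)| ≤ C * (1 + B + Z) * δ t + C * δ t ^ 2 := by
    intro t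
    refine (hC t _ _ _ _).trans ?_
    have h1 : (1 + ‖b t‖ + ‖z t‖ + ‖b t - b' N t‖ + ‖z t - z' N t‖) ≤ 1 + B + Z + δ t := by
      have := hB t
      have := hZ t
      rw [hδ]
      simp only
      linarith
    have h2 : 0 ≤ C * δ t := mul_nonneg hC0 (hδ0 t)
    have h3 := mul_le_mul_of_nonneg_left h1 h2
    refine h3.trans (le_of_eq ?_)
    ring
  have m2 : mean (fun t => δ t ^ 2) ≤ 2 * ms (fun t => b t - b' N t) + 2 * ms (fun t => z t - z' N t) := by
    have e1 : ∀ f : ℝ → ℂ, ms f = mean fun t => ‖f t‖ ^ 2 := fun f => rfl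
    have bb : BR fun t => ‖b t - b' N t‖ ^ 2 := by
      have : BR fun t => ‖b t - b' N t‖ := BR.nrm ⟨(hb.sub (hb' N)).m, hB'⟩
      exact this.sq
    have bz : BR fun t => ‖z t - z' N t‖ ^ 2 := by
      have : BR fun t => ‖z t - z' N t‖ := BR.nrm ⟨(hz.sub (hz' N)).m, hZ'⟩
      exact this.sq
    rw [e1, e1, ← mean_cmul, ← mean_cmul, ← mean_add (bb.cmul 2) (bz.cmul 2)]
    refine mean_mono brδ.sq ((bb.cmul 2).add (bz.cmul 2)) fun t => ?_
    rw [hδ]
    simp only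
    nlinarith [sq_nonneg (‖b t - b' N t‖ - ‖z t - z' N t‖)]
  have m1 : mean δ ≤ Real.sqrt (2 * ms (fun t => b t - b' N t) + 2 * ms (fun t => z t - z' N t)) := by
    refine le_trans ?_ (Real.sqrt_le_sqrt m2)
    apply Real.le_sqrt_of_sq_le
    obtain ⟨D, hD⟩ := brδ.b
    have hcs := cs (u := δ) (v := fun _ => (1 : ℝ)) (C := D) (D := 1) brδ.m measurable_const hD (fun t => by simp)
      (show (0 : ℝ) ≤ 2 * Real.pi by positivity)
    simp only [mul_one, one_pow, intervalIntegral.integral_const, sub_zero, smul_eq_mul] at hcs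
    have i0 : 0 ≤ ∫ t in (0 : ℝ)..(2 * Real.pi), δ t :=
      intervalIntegral.integral_nonneg (by positivity) fun t _ => hδ0 t
    have i1 : 0 ≤ ∫ t in (0 : ℝ)..(2 * Real.pi), δ t ^ 2 :=
      intervalIntegral.integral_nonneg (by positivity) fun t _ => by positivity
    have h5 := mul_self_le_mul_self i0 hcs
    have h6 : (Real.sqrt (∫ t in (0 : ℝ)..(2 * Real.pi), δ t ^ 2) * Real.sqrt (2 * Real.pi)) *
        (Real.sqrt (∫ t in (0 : ℝ)..(2 * Real.pi), δ t ^ 2) * Real.sqrt (2 * Real.pi)) =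
        (∫ t in (0 : ℝ)..(2 * Real.pi), δ t ^ 2) * (2 * Real.pi) := by
      calc _ = (Real.sqrt (∫ t in (0 : ℝ)..(2 * Real.pi), δ t ^ 2) * Real.sqrt (∫ t in (0 : ℝ)..(2 * Real.pi), δ t ^ 2))
          * (Real.sqrt (2 * Real.pi) * Real.sqrt (2 * Real.pi)) := by ring
        _ = _ := by rw [Real.mul_self_sqrt i1, Real.mul_self_sqrt (by positivity)]
    rw [h6] at h5
    unfold mean
    have h7 : (1 / (2 * Real.pi) * ∫ t in (0 : ℝ)..(2 * Real.pi), δ t) ^ 2 =
        (1 / (2 * Real.pi)) ^ 2 * ((∫ t in (0 : ℝ)..(2 * Real.pi), δ t) * ∫ t in (0 : ℝ)..(2 * Real.pi), δ t) := by ring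
    rw [h7]
    have h8 := mul_le_mul_of_nonneg_left h5 (show 0 ≤ (1 / (2 * Real.pi)) ^ 2 by positivity)
    refine h8.trans (le_of_eq ?_)
    field_simp
  have e : mean (fun t => Φ t (b' N t) (z' N t)) - mean (fun t => Φ t (b t) (z t)) =
      -mean (fun t => Φ t (b t) (z t) - Φ t (b' N t) (z' N t)) := by
    rw [mean_sub br1 br2]; ring
  rw [e, Real.norm_eq_abs, abs_neg]
  have brd := br1.sub br2
  have bru : BR fun t => C * (1 + B + Z) * δ t + C * δ t ^ 2 := (brδ.cmul _).add (brδ.sq.cmul _)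
  have up := mean_mono brd bru fun t => (le_abs_self _).trans (hd t)
  have lo : mean (fun t => -(C * (1 + B + Z) * δ t + C * δ t ^ 2)) ≤
      mean (fun t => Φ t (b t) (z t) - Φ t (b' N t) (z' N t)) :=
    mean_mono bru.neg brd fun t => by
      have := neg_abs_le (Φ t (b t) (z t) - Φ t (b' N t) (z' N t))
      have := hd t
      linarith
  have en : mean (fun t => -(C * (1 + B + Z) * δ t + C * δ t ^ 2)) =
      -mean (fun t => C * (1 + B + Z) * δ t + C * δ t ^ 2) := by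
    have := mean_cmul (-1) (fun t => C * (1 + B + Z) * δ t + C * δ t ^ 2)
    simp only [neg_mul, one_mul] at this
    exact this
  rw [en] at lo
  have ms' : mean (fun t => C * (1 + B + Z) * δ t + C * δ t ^ 2) =
      C * (1 + B + Z) * mean δ + C * mean (fun t => δ t ^ 2) := by
    rw [mean_add (brδ.cmul _) (brδ.sq.cmul _), mean_cmul, mean_cmul]
  rw [ms'] at up lo
  have f1 := mul_le_mul_of_nonneg_left m1 (show 0 ≤ C * (1 + B + Z) by positivity)
  have f2 := mul_le_mul_of_nonneg_left m2 hC0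
  rw [abs_le]
  constructor <;> linarith

theorem ms_SN {f : ℝ → ℂ} (hf : BF f) : Tendsto (fun N => ms (fun t => f t - SN N f t)) atTop (𝓝 0) := by
  obtain ⟨C, hC⟩ := bf_bm hf
  exact ms_tendsto hC

/-- **`EP` is the limit of its values at the trigonometric sections** -/
theorem EP_lim {P : Par} (hr : P.Reg) (hl : QL P.lo) {b z : ℝ → ℂ} (d : Dat b z) :
    Tendsto (fun N => P.EP (SN N b) (SN N z)) atTop (𝓝 (P.EP b z)) := by
  have s := sig_lim (P := P) d.hb
  have s1 := ((s.norm).pow 2).const_mul (2 / 3)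
  have s2 := (((Complex.continuous_re.tendsto _).comp
    (((Complex.continuous_conj.tendsto _).comp s).mul_const P.eta))).const_mul (4 / 3)
  have l1 := L1_lim hr d.hb
  have h0 := H0_lim hr d.hb
  have e0 := e00_lim hr d
  have h2 := ((h0.sub_const P.h0).pow 2).const_mul P.pr2
  have dd := D2_lim hr d
  have mm := mean_lim (QL_TL hr hl) d.hb d.hz (fun N => bf_SN b N) (fun N => bf_SN z N) (ms_SN d.hb) (ms_SN d.hz)
  have nn := NS_limT hr d
  have tot := (((((((s1.add s2).add l1).add ((h0.const_mul 2).mul e0)).sub h2).add dd).add mm).add nn).sub_const 9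
  exact tot

/-- it suffices to treat the trigonometric sections -/
theorem EP_nonneg {P : Par} (hr : P.Reg) (hl : QL P.lo) {b z : ℝ → ℂ} (d : Dat b z) (N0 : ℕ)
    (h : ∀ N, N0 ≤ N → 0 ≤ P.EP (SN N b) (SN N z)) : 0 ≤ P.EP b z := by
  refine ge_of_tendsto (EP_lim hr hl d) ?_
  filter_upwards [eventually_ge_atTop N0] with N hN
  exact h N hN

/-- the version for admissible data -/
theorem EP_nonneg_adm {P : Par} (hr : P.Reg) (hl : QL P.lo) {b z : ℝ → ℂ} (h : AdmQ 2 b z) (N0 : ℕ)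
    (hN : ∀ N, N0 ≤ N → 0 ≤ P.EP (SN N b) (SN N z)) : 0 ≤ P.EP b z :=
  EP_nonneg hr hl (AdmQ.dat (by norm_num) h) N0 hN

end Helper95.SH
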