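import Pool.Agent.Helper95.SH.Pass
import Pool.Agent.Helper56.SH.Near

/-!
# Project RC, SHARP: the field `low` of a certificate (`Helper56.SH.Low`) from the finite form in the arrays

`low_of_arrays`: if for all `N ≥ N0` and all arrays `p, r` (hermitian, even), `s` (odd) in the window `N`
`Q(s(-3), s(-5)) ≤ EA + LA + (m - lam) LoA + mu NrLA`, then `Q(A, B) ≤ EP b z + mu NrL P b z` for all admissible data.
-/

open MeasureTheory Set Filter Topology

namespace Helper95.SH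

open Helper49.LT hiding sg
open Helper49.RC (om)
open Helper95.RC
open Helper49.Sharp
open Helper87.RC (Fam BM intg_of_bddC intg_of_bdd fc_eq fc_sub fc_cmul fc_add fc_conj pars pars2 fc_G1 fc_G2)
open Helper56.RC (fc)
open Helper56.SH (SpL NrL Stat Low)
open Helper44.RCG (G1 G2 N0)
open Helper44.GQ (aQ cQ AdmQ A0Q AAQ BBQ FMQ mQ Rq F1Q F2Q)
open Helper49.RC (vvS Wgt)
open Pool.Agent.Helper20.RC (lk lk_ge lk_sq eD eM sM DensI alQ wR wR_wgt wt wt_wR L1)

/-- the form of `x²` (weight `1`) -/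
noncomputable def S1Q (M : ℕ) (u : ℤ → ℂ) : ℝ := ∑ n ∈ Finset.Icc (-(M : ℤ)) M, ‖u n‖ ^ 2

theorem mean_S1 {M : ℕ} {x : ℝ → ℝ} (hx : BR x) (s : Sup M (fc fun t => (x t : ℂ))) :
    mean (fun t => x t ^ 2) = S1Q M (fc fun t => (x t : ℂ)) := by
  obtain ⟨C, hC⟩ := br_bm hx
  have h := mean_lin hC s hC
  have e : (fun t => x t ^ 2) = fun t => ((x t : ℂ) * (starRingEnd ℂ) (x t : ℂ)).re := by
    funext t
    rw [Complex.conj_ofReal, ← Complex.ofReal_mul, Complex.ofReal_re]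
    ring
  rw [e, h, Complex.re_sum]
  unfold S1Q
  refine Finset.sum_congr rfl fun n _ => ?_
  rw [Complex.mul_conj, Complex.normSq_eq_norm_sq, Complex.ofReal_re]

section

variable {P : Par} {b z : ℝ → ℂ} {K : ℕ}

/-- `mean lo` (weight `1`) in the arrays -/
noncomputable def Lo1A (L : Lo P K) (N : ℕ) (p r s : ℤ → ℂ) : ℝ :=
  LQ N (fc fun t => (L.f t : ℂ)) (fun n => s n - fc L.zs n)
  - L.p2 * S1Q N (fun n => p n - fc (fun t => (L.b2s t : ℂ)) n)
  - L.p3 * S1Q N (fun n => r n - fc (fun t => (L.b3s t : ℂ)) n)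

theorem lo1_coord (L : Lo P K) (hb : BF b) (z : ℝ → ℂ) {N : ℕ} (hN : K ≤ N) :
    mean (fun t => P.lo t (SN N b t) (SN N z t)) =
      Lo1A L N (tr N (pr b)) (tr N (qr b)) (tr N (fc z)) := by
  obtain ⟨Cz, hz⟩ := L.hz
  obtain ⟨C2, h2⟩ := br_bm L.h2
  obtain ⟨C3, h3⟩ := br_bm L.h3
  obtain ⟨B3, p3⟩ := bm_re (bf_SN b N)
  obtain ⟨B4, p4⟩ := bm_im (bf_SN b N)
  obtain ⟨Bz, pz⟩ := bf_bm (bf_SN z N)
  have x2 : BR fun t => (SN N b t).re - L.b2s t := (BR.re (bf_bm (bf_SN b N)).choose_spec).sub L.h2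
  have x3 : BR fun t => (SN N b t).im - L.b3s t := (BR.im (bf_bm (bf_SN b N)).choose_spec).sub L.h3
  have e1 : fc (fun t => SN N z t - L.zs t) = fun n => tr N (fc z) n - fc L.zs n := by
    funext n
    rw [fc_sub pz hz, fc_SN]
  have e2 : fc (fun t => (((SN N b t).re - L.b2s t : ℝ) : ℂ)) =
      fun n => tr N (pr b) n - fc (fun t => (L.b2s t : ℂ)) n := by
    funext n
    have : (fun t => (((SN N b t).re - L.b2s t : ℝ) : ℂ)) = fun t => ((SN N b t).re : ℂ) - (L.b2s t : ℂ) := by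
      funext t; push_cast; rfl
    rw [this, fc_sub p3 h2, fc_reA hb N]
  have e3 : fc (fun t => (((SN N b t).im - L.b3s t : ℝ) : ℂ)) =
      fun n => tr N (qr b) n - fc (fun t => (L.b3s t : ℂ)) n := by
    funext n
    have : (fun t => (((SN N b t).im - L.b3s t : ℝ) : ℂ)) = fun t => ((SN N b t).im : ℂ) - (L.b3s t : ℂ) := by
      funext t; push_cast; rfl
    rw [this, fc_sub p4 h3, fc_imA hb N]
  have t1 : Sup N (fc (fun t => SN N z t - L.zs t)) := by
    rw [e1]; exact sup_sub (tr_sup N _) (Sup.mono hN L.sz)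
  have t2 : Sup N (fc (fun t => (((SN N b t).re - L.b2s t : ℝ) : ℂ))) := by
    rw [e2]; exact sup_sub (tr_sup N _) (Sup.mono hN L.s2)
  have t3 : Sup N (fc (fun t => (((SN N b t).im - L.b3s t : ℝ) : ℂ))) := by
    rw [e3]; exact sup_sub (tr_sup N _) (Sup.mono hN L.s3)
  have m1 := mean_Lf L.hf (pz.sub hz) t1
  have m2 := mean_S1 x2 t2
  have m3 := mean_S1 x3 t3
  have bL : BR fun t => L.f t * Lf (SN N z t - L.zs t) := by
    have hL : BR fun t => Lf (SN N z t - L.zs t) := by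
      have a := (BR.re (pz.sub hz)).sq.cmul (3 / 2)
      have c := (BR.im (pz.sub hz)).sq.cmul (1 / 2)
      exact a.add c
    exact L.hf.mul hL
  have e : (fun t => P.lo t (SN N b t) (SN N z t)) = fun t =>
      (L.f t * Lf (SN N z t - L.zs t) - L.p2 * ((SN N b t).re - L.b2s t) ^ 2)
        - L.p3 * ((SN N b t).im - L.b3s t) ^ 2 := by
    funext t
    rw [L.eq]
  rw [e, mean_sub (bL.sub (x2.sq.cmul _)) (x3.sq.cmul _),
    mean_sub bL (x2.sq.cmul _), mean_cmul, mean_cmul, m1, m2, m3, e1, e2, e3]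
  rfl

/-- the near functional in the arrays -/
noncomputable def NrLA (L : Lo P K) (N : ℕ) (p r s : ℤ → ℂ) : ℝ :=
  (∑ n ∈ Finset.Icc (-(N : ℤ)) N, g1A p r s n * (starRingEnd ℂ) (fc P.u1 n)).re
  + (∑ n ∈ Finset.Icc (-(N : ℤ)) N, g2A p r s n * (starRingEnd ℂ) (fc P.u2 n)).re
  + 1 / 2 * Lo1A L N p r s - 2 + (p 0).re + 3 / 4 * S1Q N p - 1 / 5

theorem NrL_SN (hr : P.Reg) (L : Lo P K) (d : Dat b z) {N : ℕ} (hN : K ≤ N) :
    NrL P (SN N b) (SN N z) = NrLA L N (tr N (pr b)) (tr N (qr b)) (tr N (fc z)) := by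
  obtain ⟨⟨C1, k1⟩, f1⟩ := g1s d.hb z N
  obtain ⟨⟨C2, k2⟩, f2⟩ := g2s d.hb z N
  obtain ⟨B3, p3⟩ := bm_re (bf_SN b N)
  have sp : Sup N (tr N (pr b)) := tr_sup N _
  have sr : Sup N (tr N (qr b)) := tr_sup N _
  have ss : Sup N (tr N (fc z)) := tr_sup N _
  have s1 : Sup N (fc (fun t => g1 (SN N b t) (SN N z t))) := by rw [f1]; exact g1A_sup N sp sr ss
  have s2 : Sup N (fc (fun t => g2 (SN N b t) (SN N z t))) := by rw [f2]; exact g2A_sup N sp sr ss
  have s3 : Sup N (fc (fun t => ((SN N b t).re : ℂ))) := by rw [fc_reA d.hb N]; exact sp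
  have m1 := mean_lin k1 s1 (u1_bm hr)
  have m2 := mean_lin k2 s2 (u2_bm hr)
  have m3 := mean_S1 (BR.re (bf_bm (bf_SN b N)).choose_spec) s3
  rw [f1] at m1
  rw [f2] at m2
  rw [fc_reA d.hb N] at m3
  have e0 : (fc (SN N b) 0).re = (tr N (pr b) 0).re := by
    have h := fc_pq (bf_SN b N) 0
    have hq : ((tr N (qr b)) 0).im = 0 := by
      rw [tr_mem (by rw [Finset.mem_Icc]; omega)]
      have := qr_neg b 0
      rw [neg_zero] at this
      exact Complex.conj_eq_iff_im.mp this.symm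
    rw [h, pr_SN d.hb N, qr_SN d.hb N, Complex.add_re, Complex.I_mul_re, hq, neg_zero, add_zero]
  have e : (fun t => ((starRingEnd ℂ) (P.u1 t) * g1 (SN N b t) (SN N z t)).re +
      ((starRingEnd ℂ) (P.u2 t) * g2 (SN N b t) (SN N z t)).re) = fun t =>
      (g1 (SN N b t) (SN N z t) * (starRingEnd ℂ) (P.u1 t)).re +
        (g2 (SN N b t) (SN N z t) * (starRingEnd ℂ) (P.u2 t)).re := by
    funext t
    rw [mul_comm ((starRingEnd ℂ) (P.u1 t)), mul_comm ((starRingEnd ℂ) (P.u2 t))]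
  unfold NrL SpL NrLA
  rw [e, mean_add (br_re (k1.mul (u1_bm hr).conj)) (br_re (k2.mul (u2_bm hr).conj)), m1, m2, m3, e0,
    lo1_coord L d.hb z hN]

theorem NrL_lim (hr : P.Reg) (hl : QL P.lo) (d : Dat b z) :
    Tendsto (fun N => NrL P (SN N b) (SN N z)) atTop (𝓝 (NrL P b z)) := by
  have m := mean_lim ((QL.lip g1_lip.1 g1_lip.2 (u1_bm hr)).1.add (QL.lip g2_lip.1 g2_lip.2 (u2_bm hr)).1)
    d.hb d.hz (fun N => bf_SN b N) (fun N => bf_SN z N) (ms_SN d.hb) (ms_SN d.hz)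
  have m2 := mean_lim hl d.hb d.hz (fun N => bf_SN b N) (fun N => bf_SN z N) (ms_SN d.hb) (ms_SN d.hz)
  have m3 := mean_lim QL.re2 d.hb d.hz (fun N => bf_SN b N) (fun N => bf_SN z N) (ms_SN d.hb) (ms_SN d.hz)
  have c : Tendsto (fun N => fc (SN N b) 0) atTop (𝓝 (fc b 0)) := by
    refine tendsto_const_nhds.congr' ?_
    filter_upwards with N
    rw [fc_SN, tr_mem]
    rw [Finset.mem_Icc]
    omega
  have c1 := (Complex.continuous_re.tendsto _).comp c
  exact ((((m.add (m2.const_mul (1 / 2))).sub_const 2).add c1).add (m3.const_mul (3 / 4))).sub_const (1 / 5)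

/-- **the field `low` of a certificate from the finite form in the arrays** -/
theorem low_of_arrays (hr : P.Reg) (L : Lo P K) {mu : ℝ} (Q : ℂ → ℂ → ℝ) (N0 : ℕ)
    (hc : ∀ N, N0 ≤ N → ∀ p r s : ℤ → ℂ, Sup N p → Sup N r → Sup N s → (∀ n, p (-n) = (starRingEnd ℂ) (p n)) →
      (∀ n, r (-n) = (starRingEnd ℂ) (r n)) → (∀ n, ¬ Even n → p n = 0) → (∀ n, ¬ Even n → r n = 0) →
      (∀ n, Even n → s n = 0) →
      Q (s (-3)) (s (-5)) ≤ EA P N p r s + LA P N p r s + (P.m - P.lam) * LoA L N p r s + mu * NrLA L N p r s)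
    (h : AdmQ 2 b z) : Q (fc z (-3)) (fc z (-5)) ≤ P.EP b z + mu * NrL P b z := by
  have d : Dat b z := AdmQ.dat (by norm_num) h
  have l1 := EP_lim hr L.ql d
  have l2 := (NrL_lim hr L.ql d).const_mul mu
  refine ge_of_tendsto (l1.add l2) ?_
  filter_upwards [eventually_ge_atTop N0, eventually_ge_atTop K, eventually_ge_atTop 5] with N hN hK h5
  have e3 : tr N (fc z) (-3) = fc z (-3) := tr_mem (by rw [Finset.mem_Icc]; omega)
  have e5 : tr N (fc z) (-5) = fc z (-5) := tr_mem (by rw [Finset.mem_Icc]; omega)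
  have c := hc N hN (tr N (pr b)) (tr N (qr b)) (tr N (fc z)) (tr_sup N _) (tr_sup N _) (tr_sup N _) ?_ ?_ ?_ ?_ ?_
  · rw [e3, e5] at c
    rw [NrL_SN hr L d hK, EP_coord3 hr L d hK]
    exact c
  · intro n
    by_cases hn' : n ∈ Finset.Icc (-(N : ℤ)) N
    · have hn2 : -n ∈ Finset.Icc (-(N : ℤ)) N := by rw [Finset.mem_Icc] at hn' ⊢; omega
      rw [tr_mem hn', tr_mem hn2, pr_neg]
    · have hn2 : -n ∉ Finset.Icc (-(N : ℤ)) N := by rw [Finset.mem_Icc] at hn' ⊢; omega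
      rw [tr_sup N _ n hn', tr_sup N _ (-n) hn2, map_zero]
  · intro n
    by_cases hn' : n ∈ Finset.Icc (-(N : ℤ)) N
    · have hn2 : -n ∈ Finset.Icc (-(N : ℤ)) N := by rw [Finset.mem_Icc] at hn' ⊢; omega
      rw [tr_mem hn', tr_mem hn2, qr_neg]
    · have hn2 : -n ∉ Finset.Icc (-(N : ℤ)) N := by rw [Finset.mem_Icc] at hn' ⊢; omega
      rw [tr_sup N _ n hn', tr_sup N _ (-n) hn2, map_zero]
  · intro n hne
    by_cases hn' : n ∈ Finset.Icc (-(N : ℤ)) N
    · rw [tr_mem hn']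
      exact fc_evp d n hne
    · exact tr_sup N _ n hn'
  · intro n hne
    by_cases hn' : n ∈ Finset.Icc (-(N : ℤ)) N
    · rw [tr_mem hn']
      exact fc_evr d n hne
    · exact tr_sup N _ n hn'
  · intro n hne
    by_cases hn' : n ∈ Finset.Icc (-(N : ℤ)) N
    · rw [tr_mem hn']
      exact fc_odz d n hne
    · exact tr_sup N _ n hn'

/-- `Blo` for a quadratic `lo` -/
theorem blo_of (L : Lo P K) (h : AdmQ 2 b z) : P.Blo b z := by
  have d : Dat b z := AdmQ.dat (by norm_num) h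
  have := L.ql.br d.hb d.hz
  exact ⟨this.m, this.b⟩

/-- the limit passage for any functional which is a limit along sections -/
theorem low_of_sections (hr : P.Reg) (hl : QL P.lo) {mu : ℝ} (Q : ℂ → ℂ → ℝ) (N0 : ℕ) (d : Dat b z)
    (hc : ∀ N, N0 ≤ N → Q (fc z (-3)) (fc z (-5)) ≤ P.EP (SN N b) (SN N z) + mu * NrL P (SN N b) (SN N z)) :
    Q (fc z (-3)) (fc z (-5)) ≤ P.EP b z + mu * NrL P b z := by
  refine ge_of_tendsto ((EP_lim hr hl d).add ((NrL_lim hr hl d).const_mul mu)) ?_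
  filter_upwards [eventually_ge_atTop N0] with N hN
  exact hc N hN

end

end Helper95.SH
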