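import Pool.Agent.Helper95.RC.FrameT
import Pool.Agent.Helper49.RC.StSharp

/-!
# Project RC, SHARP: Bessel inequality for an alignment with bounded density

`bes`: `Σ_{m ∈ S} |⟨g ee(-m φ)⟩|² ≤ ρ ⟨|g|²⟩` if `DensI φ ρ`. `eM_sq`, `eM_summable`: the aligned moments are square
summable with the weights `1/(l² - 1)`, with the bound `8 ρ (⟨|g1|²⟩ + ⟨|g2|²⟩)`.
-/

open MeasureTheory Set Filter Topology

namespace Helper95.SH

open Helper49.LT hiding sg
open Helper95.RC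
open Helper87.RC (Fam BM intg_of_bddC intg_of_bdd fc_eq fc_sub fc_cmul fc_add fc_conj pars pars2)
open Helper56.RC (fc)
open Pool.Agent.Helper20.RC (lk lk_ge lk_sq eD eM sM DensI)

/-- the moment of `g` along `φ` -/
noncomputable def mo (φ : ℝ → ℝ) (g : ℝ → ℂ) (m : ℝ) : ℂ := av fun θ => g θ * ee (-(m * φ θ))

section

variable {g g1 g2 : ℝ → ℂ} {φ φ1 φ2 : ℝ → ℝ} {D D1 D2 ρ : ℝ}

theorem mo_BM (hg : BM g D) (hφ : Measurable φ) (m : ℝ) : BM (fun θ => g θ * ee (-(m * φ θ))) D := by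
  constructor
  · exact hg.m.mul (continuous_ee.measurable.comp ((hφ.const_mul m).neg))
  · intro t
    rw [norm_mul, norm_ee, mul_one]
    exact hg.b t

theorem mo_sub (hg : BM g D) {g' : ℝ → ℂ} {D' : ℝ} (hg' : BM g' D') (hφ : Measurable φ) (m : ℝ) :
    mo φ (fun t => g t - g' t) m = mo φ g m - mo φ g' m := by
  unfold mo av
  rw [← mul_sub]
  congr 1
  have h := intervalIntegral.integral_sub ((mo_BM hg hφ m).i 0 (2 * Real.pi)) ((mo_BM hg' hφ m).i 0 (2 * Real.pi))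
  rw [← h]
  apply intervalIntegral.integral_congr
  intro t _
  show (g t - g' t) * _ = _
  ring

/-- Cauchy-Schwarz for `av` -/
theorem av_le {f h : ℝ → ℂ} {C E : ℝ} (hf : BM f C) (hh : BM h E) :
    ‖av fun t => f t * h t‖ ≤ Real.sqrt (ms f) * Real.sqrt (ms h) := by
  have hpi := Real.pi_pos
  unfold av
  rw [norm_mul]
  have hn : ‖(1 / (2 * Real.pi) : ℂ)‖ = 1 / (2 * Real.pi) := by
    rw [norm_div, norm_mul, norm_one, Complex.norm_real, Complex.norm_ofNat,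
      Real.norm_of_nonneg hpi.le]
  rw [hn]
  have h1 : ‖∫ t in (0 : ℝ)..(2 * Real.pi), f t * h t‖ ≤ ∫ t in (0 : ℝ)..(2 * Real.pi), ‖f t‖ * ‖h t‖ := by
    refine (intervalIntegral.norm_integral_le_integral_norm (by positivity)).trans (le_of_eq ?_)
    apply intervalIntegral.integral_congr
    intro t _
    show ‖f t * h t‖ = _
    rw [norm_mul]
  have h2 := cs (u := fun t => ‖f t‖) (v := fun t => ‖h t‖) (C := C) (D := E) hf.m.norm hh.m.norm
    (fun t => by rw [abs_of_nonneg (norm_nonneg _)]; exact hf.b t)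
    (fun t => by rw [abs_of_nonneg (norm_nonneg _)]; exact hh.b t) (show (0 : ℝ) ≤ 2 * Real.pi by positivity)
  have h3 : ∀ u : ℝ → ℂ, ∫ t in (0 : ℝ)..(2 * Real.pi), ‖u t‖ ^ 2 = (2 * Real.pi) * ms u := by
    intro u
    unfold ms; field_simp
  rw [h3, h3] at h2
  have h4 : Real.sqrt (2 * Real.pi * ms f) * Real.sqrt (2 * Real.pi * ms h) =
      2 * Real.pi * (Real.sqrt (ms f) * Real.sqrt (ms h)) := by
    rw [Real.sqrt_mul (show (0 : ℝ) ≤ 2 * Real.pi by positivity) (ms f),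
      Real.sqrt_mul (show (0 : ℝ) ≤ 2 * Real.pi by positivity) (ms h)]
    have := Real.mul_self_sqrt (show (0 : ℝ) ≤ 2 * Real.pi by positivity)
    calc _ = (Real.sqrt (2 * Real.pi) * Real.sqrt (2 * Real.pi)) * (Real.sqrt (ms f) * Real.sqrt (ms h)) := by ring
      _ = _ := by rw [this]
  rw [h4] at h2
  calc 1 / (2 * Real.pi) * ‖∫ t in (0 : ℝ)..(2 * Real.pi), f t * h t‖
      ≤ 1 / (2 * Real.pi) * (2 * Real.pi * (Real.sqrt (ms f) * Real.sqrt (ms h))) :=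
        mul_le_mul_of_nonneg_left (h1.trans h2) (by positivity)
    _ = _ := by field_simp

/-- **Bessel inequality along an alignment** -/
theorem bes (hφ : Measurable φ) (d : DensI φ ρ) (hg : BM g D) (S : Finset ℤ) :
    ∑ m ∈ S, ‖mo φ g m‖ ^ 2 ≤ ρ * ms g := by
  have hpi := Real.pi_pos
  set X : ℤ → ℂ := fun m => mo φ g m with hX
  set B : ℝ := ∑ m ∈ S, ‖X m‖ ^ 2 with hB
  have hB0 : 0 ≤ B := Finset.sum_nonneg fun m _ => by positivity
  set T : ℝ → ℂ := tp S X with hT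
  have hTB : BM T (∑ m ∈ S, ‖X m‖) := tp_BM S X
  have hTφ : BM (fun θ => (starRingEnd ℂ) (T (φ θ))) (∑ m ∈ S, ‖X m‖) :=
    ⟨Complex.continuous_conj.measurable.comp (hTB.m.comp hφ), fun t => by
      rw [RCLike.norm_conj]; exact hTB.b _⟩
  have e1 : (av fun θ => g θ * (starRingEnd ℂ) (T (φ θ))) = (B : ℂ) := by
    have e2 : ∀ θ, g θ * (starRingEnd ℂ) (T (φ θ)) =
        ∑ m ∈ S, (starRingEnd ℂ) (X m) * (g θ * ee (-((m : ℝ) * φ θ))) := by
      intro θ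
      rw [hT]
      unfold tp
      rw [map_sum, Finset.mul_sum]
      apply Finset.sum_congr rfl
      intro m _
      rw [map_mul, ← ee_neg]
      ring
    unfold av
    simp_rw [e2]
    rw [intervalIntegral.integral_finsetSum, Finset.mul_sum, hB]
    · push_cast
      apply Finset.sum_congr rfl
      intro m _
      rw [intervalIntegral.integral_const_mul]
      have e3 : (1 / (2 * Real.pi) : ℂ) * ((starRingEnd ℂ) (X m) *
          ∫ θ in (0 : ℝ)..(2 * Real.pi), g θ * ee (-((m : ℝ) * φ θ))) = (starRingEnd ℂ) (X m) * X m := by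
        rw [hX]
        simp only
        unfold mo av
        ring
      rw [e3, mul_comm, Complex.mul_conj, Complex.normSq_eq_norm_sq]
      push_cast
      rfl
    · intro m _
      exact ((mo_BM hg hφ m).i _ _).const_mul _
  have h1 := av_le hg hTφ
  rw [e1, Complex.norm_real, Real.norm_of_nonneg hB0] at h1
  have h2 : ms (fun θ => (starRingEnd ℂ) (T (φ θ))) ≤ ρ * B := by
    have h3 := d (fun x => ‖T x‖ ^ 2) (hTB.m.norm.pow_const 2) (fun x => by positivity)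
      ⟨(∑ m ∈ S, ‖X m‖) ^ 2, fun x => pow_le_pow_left₀ (norm_nonneg _) (hTB.b x) 2⟩
      (fun x => by rw [hT, tp_per])
    have h4 : ms T = B := ms_tp S X
    unfold ms at h4 ⊢
    simp only [RCLike.norm_conj]
    have h5 : (1 / (2 * Real.pi)) * ∫ t in (0 : ℝ)..(2 * Real.pi), ‖T (φ t)‖ ^ 2 ≤
        (1 / (2 * Real.pi)) * (ρ * ∫ t in (0 : ℝ)..(2 * Real.pi), ‖T t‖ ^ 2) :=
      mul_le_mul_of_nonneg_left h3 (by positivity)
    refine h5.trans (le_of_eq ?_)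
    rw [← h4]
    ring
  rcases eq_or_lt_of_le hB0 with h0 | h0
  · rw [← h0]
    have h3 := d (fun _ => (1 : ℝ)) measurable_const (fun x => by norm_num) ⟨1, fun x => le_rfl⟩ (fun x => rfl)
    simp only [intervalIntegral.integral_const, sub_zero, smul_eq_mul, mul_one] at h3
    have h4 : 1 ≤ ρ := by
      by_contra hc
      rw [not_le] at hc
      have : ρ * (2 * Real.pi) < 1 * (2 * Real.pi) := mul_lt_mul_of_pos_right hc (by positivity)
      linarith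
    exact mul_nonneg (by linarith) (ms_nonneg g)
  · have h6 : B ≤ Real.sqrt (ms g) * Real.sqrt (ρ * B) :=
      h1.trans (mul_le_mul_of_nonneg_left (Real.sqrt_le_sqrt h2) (Real.sqrt_nonneg _))
    have h7 : B ^ 2 ≤ ms g * (ρ * B) := by
      have h8 : 0 ≤ ρ * B := (ms_nonneg _).trans h2
      have h9 := mul_self_le_mul_self hB0 h6
      have h10 : (Real.sqrt (ms g) * Real.sqrt (ρ * B)) * (Real.sqrt (ms g) * Real.sqrt (ρ * B)) =
          ms g * (ρ * B) := by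
        calc _ = (Real.sqrt (ms g) * Real.sqrt (ms g)) * (Real.sqrt (ρ * B) * Real.sqrt (ρ * B)) := by ring
          _ = _ := by rw [Real.mul_self_sqrt (ms_nonneg g), Real.mul_self_sqrt h8]
      rw [h10] at h9
      calc B ^ 2 = B * B := by ring
        _ ≤ _ := h9
    have h11 : B * B ≤ (ρ * ms g) * B := by linarith [h7, (show B ^ 2 = B * B by ring),
      (show ms g * (ρ * B) = (ρ * ms g) * B by ring)]
    exact le_of_mul_le_mul_right h11 h0

/-- the aligned moments in terms of `mo` -/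
theorem eM_mo (h1 : BM g1 D1) (h2 : BM g2 D2) (m1 : Measurable φ1) (m2 : Measurable φ2) (l : ℝ) :
    eM g1 g2 φ1 φ2 l =
      ((1 - l) / 2 * mo φ1 g1 (l + 1) + (1 + l) / 2 * mo φ1 (fun t => (starRingEnd ℂ) (g1 t)) (l - 1))
      + ((1 - l) / 2 * mo φ2 g2 (l + 1) + (1 + l) / 2 * mo φ2 (fun t => (starRingEnd ℂ) (g2 t)) (l - 1)) := by
  have key : ∀ (g : ℝ → ℂ) (φ : ℝ → ℝ) (θ : ℝ), eD g φ l θ =
      (1 - l) / 2 * (g θ * ee (-((l + 1) * φ θ))) +
        (1 + l) / 2 * ((starRingEnd ℂ) (g θ) * ee (-((l - 1) * φ θ))) := by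
    intro g φ θ
    unfold eD
    set x : ℂ := g θ * ee (-φ θ) with hx
    have hre : (x.re : ℂ) = (x + (starRingEnd ℂ) x) / 2 := by
      rw [Complex.add_conj]; push_cast; ring
    have him : Complex.I * (l : ℂ) * (x.im : ℂ) = (l : ℂ) * (x - (starRingEnd ℂ) x) / 2 := by
      rw [Complex.sub_conj]; push_cast; ring
    rw [hre, him]
    have e1 : x * ee (-(l * φ θ)) = g θ * ee (-((l + 1) * φ θ)) := by
      rw [hx, mul_assoc, ← ee_add]; congr 2; ring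
    have e2 : (starRingEnd ℂ) x * ee (-(l * φ θ)) = (starRingEnd ℂ) (g θ) * ee (-((l - 1) * φ θ)) := by
      rw [hx, map_mul, mul_assoc, ← ee_neg, ← ee_add]; congr 2; ring
    linear_combination ((1 - l) / 2 : ℂ) * e1 + ((1 + l) / 2 : ℂ) * e2
  have c1 : BM (fun t => (starRingEnd ℂ) (g1 t)) D1 := h1.conj
  have c2 : BM (fun t => (starRingEnd ℂ) (g2 t)) D2 := h2.conj
  have i1 := (mo_BM h1 m1 (l + 1)).i 0 (2 * Real.pi)
  have i2 := (mo_BM c1 m1 (l - 1)).i 0 (2 * Real.pi)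
  have i3 := (mo_BM h2 m2 (l + 1)).i 0 (2 * Real.pi)
  have i4 := (mo_BM c2 m2 (l - 1)).i 0 (2 * Real.pi)
  unfold eM mo av
  simp_rw [key]
  rw [intervalIntegral.integral_add ((i1.const_mul _).add (i2.const_mul _)) ((i3.const_mul _).add (i4.const_mul _)),
    intervalIntegral.integral_add (i1.const_mul _) (i2.const_mul _),
    intervalIntegral.integral_add (i3.const_mul _) (i4.const_mul _)]
  simp only [intervalIntegral.integral_const_mul]
  ring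

theorem ms_conj (g : ℝ → ℂ) : ms (fun t => (starRingEnd ℂ) (g t)) = ms g := by
  unfold ms
  simp only [RCLike.norm_conj]

/-- integer frequencies -/
theorem lk_int (k : ℕ) : lk k = ((2 * (k : ℤ) + 2 : ℤ) : ℝ) := by
  unfold lk; push_cast; rfl

theorem eM_sq_le (h1 : BM g1 D1) (h2 : BM g2 D2) (m1 : Measurable φ1) (m2 : Measurable φ2) (k : ℕ) :
    ‖eM g1 g2 φ1 φ2 (lk k)‖ ^ 2 / (lk k ^ 2 - 1) ≤
      3 * (‖mo φ1 g1 ((2 * (k : ℤ) + 3 : ℤ) : ℝ)‖ ^ 2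
        + ‖mo φ1 (fun t => (starRingEnd ℂ) (g1 t)) ((2 * (k : ℤ) + 1 : ℤ) : ℝ)‖ ^ 2
        + ‖mo φ2 g2 ((2 * (k : ℤ) + 3 : ℤ) : ℝ)‖ ^ 2
        + ‖mo φ2 (fun t => (starRingEnd ℂ) (g2 t)) ((2 * (k : ℤ) + 1 : ℤ) : ℝ)‖ ^ 2) := by
  have hl := lk_ge k
  have hs := lk_sq k
  have e3 : ((2 * (k : ℤ) + 3 : ℤ) : ℝ) = lk k + 1 := by unfold lk; push_cast; ring
  have e4 : ((2 * (k : ℤ) + 1 : ℤ) : ℝ) = lk k - 1 := by unfold lk; push_cast; ring
  rw [eM_mo h1 h2 m1 m2, e3, e4]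
  set a := mo φ1 g1 (lk k + 1)
  set b := mo φ1 (fun t => (starRingEnd ℂ) (g1 t)) (lk k - 1)
  set c := mo φ2 g2 (lk k + 1)
  set d := mo φ2 (fun t => (starRingEnd ℂ) (g2 t)) (lk k - 1)
  set l := lk k with hldef
  have h0 : ‖((1 - l) / 2 * a + (1 + l) / 2 * b) + ((1 - l) / 2 * c + (1 + l) / 2 * d)‖ ≤
      (l - 1) / 2 * ‖a‖ + (l + 1) / 2 * ‖b‖ + (l - 1) / 2 * ‖c‖ + (l + 1) / 2 * ‖d‖ := by
    have n1 : ‖((1 - (l : ℂ)) / 2)‖ = (l - 1) / 2 := by
      have : ((1 - (l : ℂ)) / 2) = (((1 - l) / 2 : ℝ) : ℂ) := by push_cast; rfl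
      rw [this, Complex.norm_real, Real.norm_eq_abs, abs_of_nonpos (by linarith)]
      ring
    have n2 : ‖((1 + (l : ℂ)) / 2)‖ = (l + 1) / 2 := by
      have : ((1 + (l : ℂ)) / 2) = (((1 + l) / 2 : ℝ) : ℂ) := by push_cast; rfl
      rw [this, Complex.norm_real, Real.norm_eq_abs, abs_of_nonneg (by linarith)]
      ring
    refine (norm_add_le _ _).trans ?_
    refine (add_le_add (norm_add_le _ _) (norm_add_le _ _)).trans (le_of_eq ?_)
    rw [norm_mul, norm_mul, norm_mul, norm_mul, n1, n2]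
    ring
  rw [div_le_iff₀ hs]
  set A := ‖a‖
  set B := ‖b‖
  set C := ‖c‖
  set E := ‖d‖
  have hA : 0 ≤ A := norm_nonneg _
  have hB : 0 ≤ B := norm_nonneg _
  have hC : 0 ≤ C := norm_nonneg _
  have hE : 0 ≤ E := norm_nonneg _
  have h5 : ‖((1 - (l : ℂ)) / 2 * a + (1 + (l : ℂ)) / 2 * b) + ((1 - (l : ℂ)) / 2 * c + (1 + (l : ℂ)) / 2 * d)‖ ^ 2 ≤
      ((l - 1) / 2 * A + (l + 1) / 2 * B + (l - 1) / 2 * C + (l + 1) / 2 * E) ^ 2 :=
    pow_le_pow_left₀ (norm_nonneg _) h0 2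
  refine h5.trans ?_
  have h6 : ((l - 1) / 2 * A + (l + 1) / 2 * B + (l - 1) / 2 * C + (l + 1) / 2 * E) ^ 2 ≤
      4 * (((l - 1) / 2 * A) ^ 2 + ((l + 1) / 2 * B) ^ 2 + ((l - 1) / 2 * C) ^ 2 + ((l + 1) / 2 * E) ^ 2) := by
    nlinarith [sq_nonneg ((l - 1) / 2 * A - (l + 1) / 2 * B), sq_nonneg ((l - 1) / 2 * A - (l - 1) / 2 * C),
      sq_nonneg ((l - 1) / 2 * A - (l + 1) / 2 * E), sq_nonneg ((l + 1) / 2 * B - (l - 1) / 2 * C),
      sq_nonneg ((l + 1) / 2 * B - (l + 1) / 2 * E), sq_nonneg ((l - 1) / 2 * C - (l + 1) / 2 * E)]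
  refine h6.trans ?_
  have k1 : (l - 1) ^ 2 ≤ 3 * (l ^ 2 - 1) := by nlinarith
  have k2 : (l + 1) ^ 2 ≤ 3 * (l ^ 2 - 1) := by nlinarith
  have q1 := mul_le_mul_of_nonneg_right k1 (sq_nonneg A)
  have q2 := mul_le_mul_of_nonneg_right k2 (sq_nonneg B)
  have q3 := mul_le_mul_of_nonneg_right k1 (sq_nonneg C)
  have q4 := mul_le_mul_of_nonneg_right k2 (sq_nonneg E)
  have e5 : 4 * (((l - 1) / 2 * A) ^ 2 + ((l + 1) / 2 * B) ^ 2 + ((l - 1) / 2 * C) ^ 2 + ((l + 1) / 2 * E) ^ 2) =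
      (l - 1) ^ 2 * A ^ 2 + (l + 1) ^ 2 * B ^ 2 + (l - 1) ^ 2 * C ^ 2 + (l + 1) ^ 2 * E ^ 2 := by ring
  rw [e5]
  linarith

/-- the weighted Bessel inequality for the aligned moments -/
theorem eM_sum (h1 : BM g1 D1) (h2 : BM g2 D2) (m1 : Measurable φ1) (m2 : Measurable φ2)
    (d1 : DensI φ1 ρ) (d2 : DensI φ2 ρ) (S : Finset ℕ) :
    ∑ k ∈ S, ‖eM g1 g2 φ1 φ2 (lk k)‖ ^ 2 / (lk k ^ 2 - 1) ≤ 6 * ρ * (ms g1 + ms g2) := by
  have hb : ∀ (g : ℝ → ℂ) (φ : ℝ → ℝ) (D : ℝ) (c : ℤ), BM g D → Measurable φ → DensI φ ρ →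
      ∑ k ∈ S, ‖mo φ g ((2 * (k : ℤ) + c : ℤ) : ℝ)‖ ^ 2 ≤ ρ * ms g := by
    intro g φ D c hg hφ d
    have hinj : Set.InjOn (fun k : ℕ => (2 * (k : ℤ) + c : ℤ)) (S : Set ℕ) := by
      intro a _ b _ hab
      simp only at hab
      omega
    have := bes hφ d hg (S.image fun k : ℕ => (2 * (k : ℤ) + c : ℤ))
    rw [Finset.sum_image hinj] at this
    exact this
  have s := Finset.sum_le_sum fun k (_ : k ∈ S) => eM_sq_le h1 h2 m1 m2 k
  refine s.trans ?_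
  rw [← Finset.mul_sum, Finset.sum_add_distrib, Finset.sum_add_distrib, Finset.sum_add_distrib]
  have b1 := hb g1 φ1 D1 3 h1 m1 d1
  have b2 := hb (fun t => (starRingEnd ℂ) (g1 t)) φ1 D1 1 h1.conj m1 d1
  have b3 := hb g2 φ2 D2 3 h2 m2 d2
  have b4 := hb (fun t => (starRingEnd ℂ) (g2 t)) φ2 D2 1 h2.conj m2 d2
  rw [ms_conj] at b2 b4
  nlinarith

theorem eM_summable (h1 : BM g1 D1) (h2 : BM g2 D2) (m1 : Measurable φ1) (m2 : Measurable φ2)
    (d1 : DensI φ1 ρ) (d2 : DensI φ2 ρ) :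
    Summable fun k : ℕ => ‖eM g1 g2 φ1 φ2 (lk k)‖ ^ 2 / (lk k ^ 2 - 1) := by
  refine summable_of_sum_le (fun k => div_nonneg (by positivity) (lk_sq k).le) (fun S => ?_)
    (c := 6 * ρ * (ms g1 + ms g2))
  exact eM_sum h1 h2 m1 m2 d1 d2 S

end

end Helper95.SH
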