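import Pool.Agent.Helper95.SH.Pass2
import Pool.Agent.Helper95.SH.CoordI

/-!
# Project RC, SHARP: a cell from the finite certificate (inverse alignments, two near multipliers)

`GI` = the functional of a cell in the arrays, `cell_passI : (0 ≤ GI on all windows) → Stat → Lam → Cs → Cell Q`.
-/

open MeasureTheory Set Filter Topology

namespace Helper95.SH

open Helper49.LT hiding sg
open Helper49.RC (om)
open Helper95.RC
open Helper49.Sharp
open Helper41.SH (IA inv trp)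
open Helper87.RC (Fam BM intg_of_bddC intg_of_bdd fc_eq fc_sub fc_cmul fc_add fc_conj pars pars2 fc_G1 fc_G2)
open Helper56.RC (fc)
open Helper56.SH (SpL NrL Stat Low Cell Cert SpL_le)
open Helper44.Far (Near)
open Helper44.RCG (G1 G2 N0)
open Helper44.GQ (aQ cQ AdmQ A0Q AAQ BBQ FMQ mQ Rq F1Q F2Q)
open Helper49.RC (vvS Wgt)
open Pool.Agent.Helper20.RC (lk lk_ge lk_sq eD eM sM DensI alQ wR wR_wgt wt wt_wR L1)

/-- admissible arrays in the window `N` -/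
structure Arr (N : ℕ) (p r s : ℤ → ℂ) : Prop where
  sp : Sup N p
  sr : Sup N r
  ss : Sup N s
  hp : ∀ n, p (-n) = (starRingEnd ℂ) (p n)
  hr : ∀ n, r (-n) = (starRingEnd ℂ) (r n)
  ep : ∀ n, ¬ Even n → p n = 0
  er : ∀ n, ¬ Even n → r n = 0
  es : ∀ n, Even n → s n = 0

theorem Arr.mono {N M : ℕ} (h : N ≤ M) {p r s : ℤ → ℂ} (a : Arr N p r s) : Arr M p r s :=
  ⟨Sup.mono h a.sp, Sup.mono h a.sr, Sup.mono h a.ss, a.hp, a.hr, a.ep, a.er, a.es⟩

/-- the truncated coefficients of data are admissible arrays -/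
theorem arr_tr {b z : ℝ → ℂ} (d : Dat b z) (N : ℕ) : Arr N (tr N (pr b)) (tr N (qr b)) (tr N (fc z)) := by
  refine ⟨tr_sup N _, tr_sup N _, tr_sup N _, ?_, ?_, ?_, ?_, ?_⟩
  · intro n
    by_cases hn' : n ∈ Finset.Icc (-(N : ℤ)) N
    · have hn2 : -n ∈ Finset.Icc (-(N : ℤ)) N := by rw [Finset.mem_Icc] at hn' ⊢; omega
      rw [tr_mem hn', tr_mem hn2, pr_neg]
    · have hn2 : -n ∉ Finset.Icc (-(N : ℤ)) N := by rw [Finset.mem_Icc] at hn' ⊢; omega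
      rw [tr_sup N _ n hn', tr_sup N _ (-n) hn2, map_zero]
  · intro n
    by_cases hn' : n ∈ Finset.Icc (-(N : ℤ)) N
    · have hn2 : -n ∈ Finset.Icc (-(N : ℤ)) N := by rw [Finset.mem_Icc] at hn' ⊢; omega
      rw [tr_mem hn', tr_mem hn2, qr_neg]
    · have hn2 : -n ∉ Finset.Icc (-(N : ℤ)) N := by rw [Finset.mem_Icc] at hn' ⊢; omega
      rw [tr_sup N _ n hn', tr_sup N _ (-n) hn2, map_zero]
  · intro n hne
    by_cases hn' : n ∈ Finset.Icc (-(N : ℤ)) N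
    · rw [tr_mem hn']
      exact fc_evp d n hne
    · exact tr_sup N _ n hn'
  · intro n hne
    by_cases hn' : n ∈ Finset.Icc (-(N : ℤ)) N
    · rw [tr_mem hn']
      exact fc_evr d n hne
    · exact tr_sup N _ n hn'
  · intro n hne
    by_cases hn' : n ∈ Finset.Icc (-(N : ℤ)) N
    · rw [tr_mem hn']
      exact fc_odz d n hne
    · exact tr_sup N _ n hn'

/-- data of the finite form of a cell: certificate, `lo`, inverse alignments, near multipliers, lower bound -/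
structure CD where
  P : Par
  K0 : ℕ
  L : Lo P K0
  Th1 : ℝ → ℝ
  Th1' : ℝ → ℝ
  Th2 : ℝ → ℝ
  Th2' : ℝ → ℝ
  d1 : ℝ → ℂ
  d2 : ℝ → ℂ
  mu1 : ℝ
  mu2 : ℝ
  Q : ℂ → ℂ → ℝ

/-- static conditions -/
structure CD.OK (c : CD) : Prop where
  st : Stat c.P
  i1 : IA c.Th1 c.Th1'
  i2 : IA c.Th2 c.Th2'
  e1 : c.P.ph1 = inv c.Th1
  e2 : c.P.ph2 = inv c.Th2
  ga : c.P.ga = 0
  b1 : BM c.d1 1
  b2 : BM c.d2 1
  m1 : 0 ≤ c.mu1
  m2 : 0 ≤ c.mu2

/-- THE FUNCTIONAL OF A CELL -/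
noncomputable def GI (c : CD) (N : ℕ) (p r s : ℤ → ℂ) : ℝ :=
  EI c.P c.Th1 c.Th1' c.Th2 c.Th2' N p r s + LA c.P N p r s + (c.P.m - c.P.lam) * LoA c.L N p r s
    + c.mu1 * NrLA c.L N p r s + c.mu2 * NrA c.d1 c.d2 N p r s - c.Q (s (-3)) (s (-5))

/-- **from the finite form to the data** -/
theorem passI {c : CD} (ok : c.OK) (N0 : ℕ) (hc : ∀ N, N0 ≤ N → ∀ p r s, Arr N p r s → 0 ≤ GI c N p r s)
    {b z : ℝ → ℂ} (h : AdmQ 2 b z) (hn : Near b z) : c.Q (fc z (-3)) (fc z (-5)) ≤ c.P.EP b z := by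
  have hr := ok.st.reg
  have d : Dat b z := AdmQ.dat (by norm_num) h
  have l1 := EP_lim hr c.L.ql d
  have l2 := (NrL_lim hr c.L.ql d).const_mul c.mu1
  have l3 := (NrM_lim ok.b1 ok.b2 d).const_mul c.mu2
  have key : c.Q (fc z (-3)) (fc z (-5)) ≤ c.P.EP b z + c.mu1 * NrL c.P b z + c.mu2 * NrM c.d1 c.d2 b z := by
    refine ge_of_tendsto ((l1.add l2).add l3) ?_
    filter_upwards [eventually_ge_atTop N0, eventually_ge_atTop c.K0, eventually_ge_atTop 5] with N hN hK h5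
    have e3 : tr N (fc z) (-3) = fc z (-3) := tr_mem (by rw [Finset.mem_Icc]; omega)
    have e5 : tr N (fc z) (-5) = fc z (-5) := tr_mem (by rw [Finset.mem_Icc]; omega)
    have g := hc N hN _ _ _ (arr_tr d N)
    unfold GI at g
    rw [e3, e5] at g
    rw [NrM_SN ok.b1 ok.b2 d N, NrL_SN hr c.L d hK, EP_coordI hr c.L ok.i1 ok.i2 ok.e1 ok.e2 ok.ga d hK]
    linarith
  have a1 : NrL c.P b z ≤ 0 := by
    have := SpL_le ok.st h
    unfold Near at hn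
    unfold NrL
    linarith
  have a2 : NrM c.d1 c.d2 b z ≤ 0 := by
    have := NrM_le ok.b1 ok.b2 d
    unfold Near at hn
    linarith
  have a3 := mul_nonneg ok.m1 (neg_nonneg.2 a1)
  have a4 := mul_nonneg ok.m2 (neg_nonneg.2 a2)
  linarith

/-- **A CELL FROM THE FINITE CERTIFICATE** -/
theorem cell_passI {c : CD} (ok : c.OK) (N0 : ℕ) (hc : ∀ N, N0 ≤ N → ∀ p r s, Arr N p r s → 0 ≤ GI c N p r s)
    (hlam : ∀ b z : ℝ → ℂ, AdmQ 2 b z → Near b z → 0 ≤ c.Q (fc z (-3)) (fc z (-5)) → c.P.Lam b z)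
    (hcs : ∀ b z : ℝ → ℂ, AdmQ 2 b z → Near b z → 0 ≤ c.Q (fc z (-3)) (fc z (-5)) → c.P.Cs b) : Cell c.Q := by
  intro b z h hn hq
  exact ⟨c.P, ⟨ok.st.reg, ok.st.cur, ok.st.loc, ok.st.blo b z h, hlam b z h hn hq, hcs b z h hn hq⟩,
    hq.trans (passI ok N0 hc h hn)⟩

end Helper95.SH
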