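import Pool.Agent.Helper95.SH.Cont2

/-!
# Project RC, SHARP: continuity of `EP` along the trigonometric sections (moments, `D2`, `NS`, local part)
-/

open MeasureTheory Set Filter Topology

namespace Helper95.SH

open Helper49.LT hiding sg
open Helper49.RC (om)
open Helper95.RC
open Helper49.Sharp
open Helper87.RC (Fam BM intg_of_bddC intg_of_bdd fc_eq fc_sub fc_cmul fc_add fc_conj pars pars2 fc_G1 fc_G2)
open Helper56.RC (fc)
open Helper44.RCG (G1 G2 N0)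
open Helper44.GQ (aQ cQ AdmQ A0Q AAQ BBQ FMQ mQ Rq F1Q F2Q)
open Helper49.RC (vvS Wgt)
open Pool.Agent.Helper20.RC (lk lk_ge lk_sq eD eM sM DensI alQ wR wR_wgt wt wt_wR L1)

section

variable {P : Par} {b z : ℝ → ℂ}

theorem ms_fc {f : ℝ → ℂ} {C : ℝ} (h : BM f C) : ms f = ∑' n, ‖fc f n‖ ^ 2 := (pars h).tsum_eq.symm

theorem FP1 (hr : P.Reg) (d : Dat b z) : ∃ C, BM (P.F1 b z) C := bm_F1 hr.wgt d
theorem FP2 (hr : P.Reg) (d : Dat b z) : ∃ C, BM (P.F2 b z) C := bm_F2 hr.wgt d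

theorem w_L2 (hr : P.Reg) : L2 (wc P.w) := by
  obtain ⟨C, hC⟩ := bmw hr.wgt
  exact L2_fc hC

theorem tl_F1 (hr : P.Reg) (d : Dat b z) :
    Tl (fc (P.F1 b z)) (fun N => fc (P.F1 (SN N b) (SN N z))) := by
  have h := Tl.cc1 (q := 2) (Tl.const (w_L2 hr)) (tl_p P.eta d.hb) (tl_r P.eta d.hb) (tl_s P.eta d.hz)
  have e1 : fc (P.F1 b z) = c1 2 (wc P.w) (pc P.w b) (rc P.w b) (sc P.w z) := funext fun m => fc_F1d hr.wgt d m
  have e2 : (fun N => fc (P.F1 (SN N b) (SN N z))) = fun N =>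
      c1 2 (wc P.w) (pc P.w (SN N b)) (rc P.w (SN N b)) (sc P.w (SN N z)) :=
    funext fun N => funext fun m => fc_F1d hr.wgt (dat_SN d N) m
  rw [e1, e2]
  exact h

theorem tl_F2 (hr : P.Reg) (d : Dat b z) :
    Tl (fc (P.F2 b z)) (fun N => fc (P.F2 (SN N b) (SN N z))) := by
  have h := Tl.cc2 (q := 2) (Tl.const (w_L2 hr)) (tl_p P.eta d.hb) (tl_r P.eta d.hb) (tl_s P.eta d.hz)
  have e1 : fc (P.F2 b z) = c2 2 (wc P.w) (pc P.w b) (rc P.w b) (sc P.w z) := funext fun m => fc_F2d hr.wgt d m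
  have e2 : (fun N => fc (P.F2 (SN N b) (SN N z))) = fun N =>
      c2 2 (wc P.w) (pc P.w (SN N b)) (rc P.w (SN N b)) (sc P.w (SN N z)) :=
    funext fun N => funext fun m => fc_F2d hr.wgt (dat_SN d N) m
  rw [e1, e2]
  exact h

/-- the mean square of the difference of the families -/
theorem ms_F1 (hr : P.Reg) (d : Dat b z) :
    Tendsto (fun N => ms (fun t => P.F1 b z t - P.F1 (SN N b) (SN N z) t)) atTop (𝓝 0) := by
  obtain ⟨C, hC⟩ := FP1 hr d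
  refine (tl_F1 hr d).l.congr fun N => ?_
  obtain ⟨D, hD⟩ := FP1 hr (dat_SN d N)
  rw [ms_fc (hC.sub hD)]
  congr 1
  funext n
  rw [fc_sub hC hD]

theorem ms_F2 (hr : P.Reg) (d : Dat b z) :
    Tendsto (fun N => ms (fun t => P.F2 b z t - P.F2 (SN N b) (SN N z) t)) atTop (𝓝 0) := by
  obtain ⟨C, hC⟩ := FP2 hr d
  refine (tl_F2 hr d).l.congr fun N => ?_
  obtain ⟨D, hD⟩ := FP2 hr (dat_SN d N)
  rw [ms_fc (hC.sub hD)]
  congr 1
  funext n
  rw [fc_sub hC hD]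

theorem eM_sub {g1 g2 h1 h2 : ℝ → ℂ} {φ1 φ2 : ℝ → ℝ} {D1 D2 E1 E2 : ℝ} (b1 : BM g1 D1) (b2 : BM g2 D2)
    (c1 : BM h1 E1) (c2 : BM h2 E2) (m1 : Measurable φ1) (m2 : Measurable φ2) (l : ℝ) :
    eM (fun t => g1 t - h1 t) (fun t => g2 t - h2 t) φ1 φ2 l = eM g1 g2 φ1 φ2 l - eM h1 h2 φ1 φ2 l := by
  rw [eM_mo (b1.sub c1) (b2.sub c2) m1 m2, eM_mo b1 b2 m1 m2, eM_mo c1 c2 m1 m2]
  simp only [map_sub]
  rw [mo_sub b1 c1 m1, mo_sub b2 c2 m2, mo_sub b1.conj c1.conj m1, mo_sub b2.conj c2.conj m2]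
  ring

theorem ms_one {f : ℝ → ℂ} (h : ∀ t, ‖f t‖ = 1) : ms f = 1 := by
  have hpi := Real.pi_pos
  unfold ms
  simp only [h, one_pow, intervalIntegral.integral_const, sub_zero, smul_eq_mul, mul_one]
  field_simp

theorem mo_le {g : ℝ → ℂ} {φ : ℝ → ℝ} {D : ℝ} (hg : BM g D) (hφ : Measurable φ) (m : ℝ) :
    ‖mo φ g m‖ ≤ Real.sqrt (ms g) := by
  have h : BM (fun θ => ee (-(m * φ θ))) 1 :=
    ⟨continuous_ee.measurable.comp ((hφ.const_mul m).neg), fun t => by rw [norm_ee]⟩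
  have := av_le hg h
  rw [ms_one fun t => norm_ee _, Real.sqrt_one, mul_one] at this
  exact this

/-- the bound of one aligned moment -/
theorem eM_le {g1 g2 : ℝ → ℂ} {φ1 φ2 : ℝ → ℝ} {D1 D2 : ℝ} (h1 : BM g1 D1) (h2 : BM g2 D2)
    (m1 : Measurable φ1) (m2 : Measurable φ2) (l : ℝ) :
    ‖eM g1 g2 φ1 φ2 l‖ ≤ (1 + |l|) * (Real.sqrt (ms g1) + Real.sqrt (ms g2)) := by
  rw [eM_mo h1 h2 m1 m2]
  have a1 := mo_le h1 m1 (l + 1)
  have a2 := mo_le h1.conj m1 (l - 1)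
  have a3 := mo_le h2 m2 (l + 1)
  have a4 := mo_le h2.conj m2 (l - 1)
  rw [ms_conj] at a2 a4
  have n1 : ‖((1 - (l : ℂ)) / 2)‖ ≤ (1 + |l|) / 2 := by
    rw [norm_div, Complex.norm_ofNat]
    refine div_le_div_of_nonneg_right ((norm_sub_le _ _).trans (le_of_eq ?_)) (by norm_num)
    rw [norm_one, Complex.norm_real, Real.norm_eq_abs]
  have n2 : ‖((1 + (l : ℂ)) / 2)‖ ≤ (1 + |l|) / 2 := by
    rw [norm_div, Complex.norm_ofNat]
    refine div_le_div_of_nonneg_right ((norm_add_le _ _).trans (le_of_eq ?_)) (by norm_num)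
    rw [norm_one, Complex.norm_real, Real.norm_eq_abs]
  have p0 : 0 ≤ (1 + |l|) / 2 := by positivity
  have q1 := mul_le_mul n1 a1 (norm_nonneg _) p0
  have q2 := mul_le_mul n2 a2 (norm_nonneg _) p0
  have q3 := mul_le_mul n1 a3 (norm_nonneg _) p0
  have q4 := mul_le_mul n2 a4 (norm_nonneg _) p0
  rw [← norm_mul] at q1 q2 q3 q4
  refine (norm_add_le _ _).trans ?_
  refine (add_le_add (norm_add_le _ _) (norm_add_le _ _)).trans ?_
  refine (add_le_add (add_le_add q1 q2) (add_le_add q3 q4)).trans (le_of_eq ?_)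
  ring

theorem eM_lim (hr : P.Reg) (d : Dat b z) (l : ℝ) :
    Tendsto (fun N => eM (P.F1 (SN N b) (SN N z)) (P.F2 (SN N b) (SN N z)) P.ph1 P.ph2 l) atTop
      (𝓝 (eM (P.F1 b z) (P.F2 b z) P.ph1 P.ph2 l)) := by
  obtain ⟨C1, h1⟩ := FP1 hr d
  obtain ⟨C2, h2⟩ := FP2 hr d
  rw [tendsto_iff_norm_sub_tendsto_zero]
  have t1 := (ms_F1 hr d).sqrt
  have t2 := (ms_F2 hr d).sqrt
  rw [Real.sqrt_zero] at t1 t2
  have t3 := (t1.add t2).const_mul (1 + |l|)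
  rw [add_zero, mul_zero] at t3
  refine squeeze_zero (fun N => norm_nonneg _) (fun N => ?_) t3
  obtain ⟨D1, k1⟩ := FP1 hr (dat_SN d N)
  obtain ⟨D2, k2⟩ := FP2 hr (dat_SN d N)
  rw [norm_sub_rev, ← eM_sub h1 h2 k1 k2 hr.mph1 hr.mph2]
  exact eM_le (h1.sub k1) (h2.sub k2) hr.mph1 hr.mph2 l

theorem e00_lim (hr : P.Reg) (d : Dat b z) :
    Tendsto (fun N => P.e00 (SN N b) (SN N z)) atTop (𝓝 (P.e00 b z)) :=
  (Complex.continuous_re.tendsto _).comp (eM_lim hr d 0)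

/-- the weighted moments `e_l / √(l² - 1)` -/
theorem L2_e (hr : P.Reg) (d : Dat b z) :
    L2 (fun k : ℕ => ((1 / Real.sqrt (lk k ^ 2 - 1) : ℝ) : ℂ) * P.eA b z k) := by
  obtain ⟨C1, h1⟩ := FP1 hr d
  obtain ⟨C2, h2⟩ := FP2 hr d
  have s := eM_summable h1 h2 hr.mph1 hr.mph2 hr.dph1 hr.dph2
  refine s.congr fun k => ?_
  rw [norm_mul, mul_pow, Complex.norm_real, Real.norm_eq_abs, sq_abs, div_pow, one_pow,
    Real.sq_sqrt (lk_sq k).le]
  unfold Par.eA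
  ring

theorem tl_e (hr : P.Reg) (d : Dat b z) :
    Tl (fun k : ℕ => ((1 / Real.sqrt (lk k ^ 2 - 1) : ℝ) : ℂ) * P.eA b z k)
      (fun N k => ((1 / Real.sqrt (lk k ^ 2 - 1) : ℝ) : ℂ) * P.eA (SN N b) (SN N z) k) := by
  obtain ⟨C1, h1⟩ := FP1 hr d
  obtain ⟨C2, h2⟩ := FP2 hr d
  refine ⟨L2_e hr d, fun N => L2_e hr (dat_SN d N), ?_⟩
  have t := ((ms_F1 hr d).add (ms_F2 hr d)).const_mul (6 * P.rho)
  rw [add_zero, mul_zero] at t
  refine squeeze_zero (fun N => tsum_nn _) (fun N => ?_) t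
  obtain ⟨D1, k1⟩ := FP1 hr (dat_SN d N)
  obtain ⟨D2, k2⟩ := FP2 hr (dat_SN d N)
  have s := eM_summable (h1.sub k1) (h2.sub k2) hr.mph1 hr.mph2 hr.dph1 hr.dph2
  have e : (fun k => ‖((1 / Real.sqrt (lk k ^ 2 - 1) : ℝ) : ℂ) * P.eA b z k
      - ((1 / Real.sqrt (lk k ^ 2 - 1) : ℝ) : ℂ) * P.eA (SN N b) (SN N z) k‖ ^ 2) =
      fun k => ‖eM (fun t => P.F1 b z t - P.F1 (SN N b) (SN N z) t) (fun t => P.F2 b z t - P.F2 (SN N b) (SN N z) t)
        P.ph1 P.ph2 (lk k)‖ ^ 2 / (lk k ^ 2 - 1) := by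
    funext k
    rw [eM_sub h1 h2 k1 k2 hr.mph1 hr.mph2, ← mul_sub, norm_mul, mul_pow, Complex.norm_real, Real.norm_eq_abs,
      sq_abs, div_pow, one_pow, Real.sq_sqrt (lk_sq k).le]
    unfold Par.eA
    ring
  rw [e]
  refine s.tsum_le_of_sum_le fun S => ?_
  exact eM_sum (h1.sub k1) (h2.sub k2) hr.mph1 hr.mph2 hr.dph1 hr.dph2 S

/-- `D2` as inner products -/
theorem D2_inner {ν : ℝ} {H e γ : ℕ → ℂ}
    (hH : L2 (fun k : ℕ => ((Real.sqrt (lk k ^ 2 - 1) : ℝ) : ℂ) * H k))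
    (he : L2 (fun k : ℕ => ((1 / Real.sqrt (lk k ^ 2 - 1) : ℝ) : ℂ) * e k))
    (hγ : L2 (fun k : ℕ => ((1 / Real.sqrt (lk k ^ 2 - 1) : ℝ) : ℂ) * γ k)) :
    D2 ν H e γ = 2 * (∑' k, (((Real.sqrt (lk k ^ 2 - 1) : ℝ) : ℂ) * H k) *
        (starRingEnd ℂ) (((1 / Real.sqrt (lk k ^ 2 - 1) : ℝ) : ℂ) * e k)).re
      + 2 * (∑' k, (((Real.sqrt (lk k ^ 2 - 1) : ℝ) : ℂ) * H k) *
        (starRingEnd ℂ) (((1 / Real.sqrt (lk k ^ 2 - 1) : ℝ) : ℂ) * γ k)).re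
      - 2 / ν * (∑' k, (((Real.sqrt (lk k ^ 2 - 1) : ℝ) : ℂ) * H k) *
        (starRingEnd ℂ) (((Real.sqrt (lk k ^ 2 - 1) : ℝ) : ℂ) * H k)).re
      - ν / 2 * (∑' k, (((1 / Real.sqrt (lk k ^ 2 - 1) : ℝ) : ℂ) * e k
          - ((1 / Real.sqrt (lk k ^ 2 - 1) : ℝ) : ℂ) * γ k) *
        (starRingEnd ℂ) (((1 / Real.sqrt (lk k ^ 2 - 1) : ℝ) : ℂ) * e k
          - ((1 / Real.sqrt (lk k ^ 2 - 1) : ℝ) : ℂ) * γ k)).re := by
  have i1 := hH.inner he
  have i2 := hH.inner hγ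
  have i3 := hH.inner hH
  have i4 := (he.sub hγ).inner (he.sub hγ)
  have r : ∀ {f : ℕ → ℂ}, Summable f → Summable fun k => (f k).re := fun h => by
    have := (Complex.reCLM.summable h)
    exact this
  rw [Complex.re_tsum i1, Complex.re_tsum i2, Complex.re_tsum i3, Complex.re_tsum i4, ← tsum_mul_left,
    ← tsum_mul_left, ← tsum_mul_left, ← tsum_mul_left, ← Summable.tsum_add ((r i1).mul_left 2) ((r i2).mul_left 2),
    ← Summable.tsum_sub (((r i1).mul_left 2).add ((r i2).mul_left 2)) ((r i3).mul_left (2 / ν)),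
    ← Summable.tsum_sub ((((r i1).mul_left 2).add ((r i2).mul_left 2)).sub ((r i3).mul_left (2 / ν)))
      ((r i4).mul_left (ν / 2))]
  unfold D2
  congr 1
  funext k
  have hs : 0 < Real.sqrt (lk k ^ 2 - 1) := Real.sqrt_pos.2 (lk_sq k)
  have s2 : Real.sqrt (lk k ^ 2 - 1) ^ 2 = lk k ^ 2 - 1 := Real.sq_sqrt (lk_sq k).le
  set S := Real.sqrt (lk k ^ 2 - 1) with hS
  have hSc : (S : ℂ) ≠ 0 := by exact_mod_cast hs.ne'
  have e1 : ∀ x : ℂ, ((S : ℂ) * H k) * (starRingEnd ℂ) (((1 / S : ℝ) : ℂ) * x) = H k * (starRingEnd ℂ) x := by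
    intro x
    rw [map_mul, Complex.conj_ofReal]
    push_cast
    field_simp
  have e3 : ((S : ℂ) * H k * (starRingEnd ℂ) ((S : ℂ) * H k)).re = (lk k ^ 2 - 1) * ‖H k‖ ^ 2 := by
    rw [Complex.mul_conj, Complex.ofReal_re, Complex.normSq_eq_norm_sq, norm_mul, mul_pow, Complex.norm_real,
      Real.norm_eq_abs, sq_abs, s2]
  have e4 : (((1 / S : ℝ) : ℂ) * e k - ((1 / S : ℝ) : ℂ) * γ k) *
      (starRingEnd ℂ) (((1 / S : ℝ) : ℂ) * e k - ((1 / S : ℝ) : ℂ) * γ k) =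
      ((‖e k - γ k‖ ^ 2 / (lk k ^ 2 - 1) : ℝ) : ℂ) := by
    rw [← mul_sub, Complex.mul_conj, Complex.normSq_eq_norm_sq, norm_mul, mul_pow, Complex.norm_real,
      Real.norm_eq_abs, sq_abs, div_pow, one_pow, s2]
    congr 1
    ring
  rw [e1, e1, e3, e4, Complex.ofReal_re]
  ring

theorem L2_ga (hr : P.Reg) : L2 (fun k : ℕ => ((1 / Real.sqrt (lk k ^ 2 - 1) : ℝ) : ℂ) * P.ga k) := by
  refine L2.fin hr.fga.toFinset fun k hk => ?_
  have : P.ga k = 0 := by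
    by_contra h
    exact hk (hr.fga.mem_toFinset.2 h)
  rw [this, mul_zero]

theorem D2_lim (hr : P.Reg) (d : Dat b z) :
    Tendsto (fun N => D2 P.nu (Hk (P.dal (SN N b))) (P.eA (SN N b) (SN N z)) P.ga) atTop
      (𝓝 (D2 P.nu (Hk (P.dal b)) (P.eA b z) P.ga)) := by
  have tH := tl_H hr d.hb
  have te := tl_e hr d
  have tg := Tl.const (L2_ga hr)
  have ted := te.sub tg
  have l1 := (Complex.continuous_re.tendsto _).comp (tH.inner te)
  have l2 := (Complex.continuous_re.tendsto _).comp (tH.inner tg)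
  have l3 := (Complex.continuous_re.tendsto _).comp (tH.inner tH)
  have l4 := (Complex.continuous_re.tendsto _).comp (ted.inner ted)
  rw [D2_inner tH.s te.s tg.s]
  refine ((((l1.const_mul 2).add (l2.const_mul 2)).sub (l3.const_mul (2 / P.nu))).sub
    (l4.const_mul (P.nu / 2))).congr fun N => ?_
  rw [D2_inner (tH.t N) (te.t N) (tg.t N)]
  rfl

/-! ### `NS` -/

theorem wm_sup {η : ℂ} {f : ℤ → ℂ} {N : ℕ} (h : Sup N f) : Sup (N + 2) (wm η f) := by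
  intro n hn
  rw [Finset.mem_Icc] at hn
  push_cast at hn
  unfold wm
  rw [h n (by rw [Finset.mem_Icc]; omega), h (n - 2) (by rw [Finset.mem_Icc]; omega),
    h (n + 2) (by rw [Finset.mem_Icc]; omega)]
  ring

theorem c1_sup {q : ℝ} {W p r s : ℤ → ℂ} {N : ℕ} (hW : Sup N W) (hp : Sup N p) (hr : Sup N r) (hs : Sup N s) :
    Sup (N + 1) (c1 q W p r s) := by
  intro n hn
  rw [Finset.mem_Icc] at hn
  push_cast at hn
  have hm : n - 1 ∉ Finset.Icc (-(N : ℤ)) N := by rw [Finset.mem_Icc]; omega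
  unfold c1
  rw [hW _ hm, hp _ hm, hr _ hm, hs _ hm]
  ring

theorem c2_sup {q : ℝ} {W p r s : ℤ → ℂ} {N : ℕ} (hW : Sup N W) (hp : Sup N p) (hr : Sup N r) (hs : Sup N s) :
    Sup (N + 1) (c2 q W p r s) := by
  intro n hn
  rw [Finset.mem_Icc] at hn
  push_cast at hn
  have hm : n - 1 ∉ Finset.Icc (-(N : ℤ)) N := by rw [Finset.mem_Icc]; omega
  unfold c2
  rw [hW _ hm, hp _ hm, hr _ hm, hs _ hm]
  ring

theorem Sup.mono {N M : ℕ} (h : N ≤ M) {f : ℤ → ℂ} (hf : Sup N f) : Sup M f := by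
  intro n hn
  apply hf
  rw [Finset.mem_Icc] at hn ⊢
  omega

/-- on supported sequences the sections do not depend on the window -/
theorem NF_const {ψ : ℝ → ℝ} {K M : ℕ} (hKM : K ≤ M) {a b : ℤ → ℂ} (ha : Sup K a) (hb : Sup K b) :
    NF ψ M a b = NF ψ K a b := by
  have hsub : Finset.Icc (-(K : ℤ)) K ⊆ Finset.Icc (-(M : ℤ)) M := by
    apply Finset.Icc_subset_Icc <;> push_cast <;> omega
  unfold NF
  have h1 : ∑ m ∈ Finset.Icc (-(M : ℤ)) M, ‖a m + b m‖ ^ 2 / (m : ℝ) =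
      ∑ m ∈ Finset.Icc (-(K : ℤ)) K, ‖a m + b m‖ ^ 2 / (m : ℝ) := by
    symm
    apply Finset.sum_subset hsub
    intro m _ hm
    rw [ha m hm, hb m hm]; simp
  have h2 : ∑ m ∈ Finset.Icc (-(M : ℤ)) M, ∑ n ∈ Finset.Icc (-(M : ℤ)) M,
      a m * (starRingEnd ℂ) (b n) * Kc ψ m n =
      ∑ m ∈ Finset.Icc (-(K : ℤ)) K, ∑ n ∈ Finset.Icc (-(K : ℤ)) K, a m * (starRingEnd ℂ) (b n) * Kc ψ m n := by
    symm
    rw [← Finset.sum_subset hsub]
    · apply Finset.sum_congr rfl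
      intro m _
      apply Finset.sum_subset hsub
      intro n _ hn
      rw [hb n hn]; simp
    · intro m _ hm
      apply Finset.sum_eq_zero
      intro n _
      rw [ha m hm]; simp
  rw [h1, h2]

/-- the coefficients of the weight are supported in `|n| ≤ 2` -/
theorem wc_sup (η : ℂ) : Sup 2 (wc (wR η 0 0)) := by
  intro n hn
  have h1 : BM (fun _ : ℝ => (1 : ℂ)) 1 := ⟨measurable_const, fun _ => by simp⟩
  have e : wc (wR η 0 0) n = wm η (fc fun _ => 1) n := by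
    rw [← fc_w η h1]
    unfold wc
    congr 1
    funext t
    rw [mul_one]
  have e1 : ∀ m : ℤ, fc (fun _ : ℝ => (1 : ℂ)) m = if m = 0 then 1 else 0 := by
    intro m
    have h := fc_ee 0 m
    simp only [Int.cast_zero, zero_mul, ee_zero] at h
    rw [h]
    by_cases hm : m = 0
    · subst hm; simp
    · rw [if_neg hm, if_neg (Ne.symm hm)]
  rw [Finset.mem_Icc] at hn
  push_cast at hn
  rw [e]
  unfold wm
  rw [e1, e1, e1, if_neg (by omega), if_neg (by omega), if_neg (by omega)]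
  ring

theorem NS_SN (hr : P.Reg) (d : Dat b z) (N : ℕ) (hN : 2 ≤ N + 2) :
    P.NS (SN N b) (SN N z) = NF P.ps (N + 3) (fc (P.F1 (SN N b) (SN N z))) (fc (P.F2 (SN N b) (SN N z))) := by
  have dN := dat_SN d N
  have h := NS_lim (q := 2) hr.wgt dN hr.mps hr.bps
  have sp : Sup (N + 2) (pc P.w (SN N b)) := by
    have : pc P.w (SN N b) = wm P.eta (tr N (pr b)) := by
      show pc (wR P.eta 0 0) (SN N b) = _
      rw [pc_wm P.eta (bf_SN b N), pr_SN d.hb]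
    rw [this]
    exact wm_sup (tr_sup N _)
  have sr : Sup (N + 2) (rc P.w (SN N b)) := by
    have : rc P.w (SN N b) = wm P.eta (tr N (qr b)) := by
      show rc (wR P.eta 0 0) (SN N b) = _
      rw [rc_wm P.eta (bf_SN b N), qr_SN d.hb]
    rw [this]
    exact wm_sup (tr_sup N _)
  have ss : Sup (N + 2) (sc P.w (SN N z)) := by
    have : sc P.w (SN N z) = wm P.eta (tr N (fc z)) := by
      show sc (wR P.eta 0 0) (SN N z) = _
      rw [sc_wm P.eta (bf_SN z N), fc_SN]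
    rw [this]
    exact wm_sup (tr_sup N _)
  have sW : Sup (N + 2) (wc P.w) := Sup.mono hN (wc_sup P.eta)
  have k1 := c1_sup (q := 2) sW sp sr ss
  have k2 := c2_sup (q := 2) sW sp sr ss
  have e1 : fc (P.F1 (SN N b) (SN N z)) = c1 2 (wc P.w) (pc P.w (SN N b)) (rc P.w (SN N b)) (sc P.w (SN N z)) :=
    funext fun m => fc_F1d hr.wgt dN m
  have e2 : fc (P.F2 (SN N b) (SN N z)) = c2 2 (wc P.w) (pc P.w (SN N b)) (rc P.w (SN N b)) (sc P.w (SN N z)) :=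
    funext fun m => fc_F2d hr.wgt dN m
  rw [e1, e2]
  refine tendsto_nhds_unique h ?_
  refine tendsto_const_nhds.congr' ?_
  filter_upwards [eventually_ge_atTop (N + 3)] with M hM
  exact (NF_const hM k1 k2).symm

theorem NS_limT (hr : P.Reg) (d : Dat b z) :
    Tendsto (fun N => P.NS (SN N b) (SN N z)) atTop (𝓝 (P.NS b z)) := by
  have t1 := tl_F1 hr d
  have t2 := tl_F2 hr d
  have h := NS_lim (q := 2) hr.wgt d hr.mps hr.bps
  have e1 : fc (P.F1 b z) = c1 2 (wc P.w) (pc P.w b) (rc P.w b) (sc P.w z) := funext fun m => fc_F1d hr.wgt d m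
  have e2 : fc (P.F2 b z) = c2 2 (wc P.w) (pc P.w b) (rc P.w b) (sc P.w z) := funext fun m => fc_F2d hr.wgt d m
  rw [← e1, ← e2] at h
  have h3 := h.comp (tendsto_add_atTop_nat 3)
  have l := NF_lim hr.mps hr.bps 3 (a := fc (P.F1 b z)) (b := fc (P.F2 b z))
    (a' := fun N => fc (P.F1 (SN N b) (SN N z))) (b' := fun N => fc (P.F2 (SN N b) (SN N z)))
    t1.s t2.s (t1.win _) (t2.win _)
  have h4 := h3.sub l
  rw [sub_zero] at h4
  refine h4.congr fun N => ?_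
  rw [NS_SN hr d N (by omega)]
  show NF P.ps (N + 3) _ _ - (NF P.ps (N + 3) _ _ - NF P.ps (N + 3) _ _) = _
  ring

end

end Helper95.SH
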