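import Pool.Agent.Helper95.SH.Cont4

/-!
# Project RC, SHARP: `EP` of trigonometric sections as one finite formula in the coefficient arrays

`mo_fin`, `eM_fin`: the aligned moments of families with finitely many coefficients.
`av_lin`, `av_bil`: means of products with a bounded measurable factor.
-/

open MeasureTheory Set Filter Topology

namespace Helper95.SH

open Helper49.LT hiding sg
open Helper49.RC (om)
open Helper95.RC
open Helper49.Sharp
open Helper87.RC (Fam BM intg_of_bddC intg_of_bdd fc_eq fc_sub fc_cmul fc_add fc_conj pars pars2 fc_G1 fc_G2)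
open Helper56.RC (fc)
open Helper44.RCG (G1 G2 N0)
open Helper44.GQ (aQ cQ AdmQ A0Q AAQ BBQ FMQ mQ Rq F1Q F2Q)
open Helper49.RC (vvS Wgt)
open Pool.Agent.Helper20.RC (lk lk_ge lk_sq eD eM sM DensI alQ wR wR_wgt wt wt_wR L1)

/-- the moment of a finite array along `φ` -/
noncomputable def mF (φ : ℝ → ℝ) (M : ℕ) (a : ℤ → ℂ) (m : ℤ) : ℂ :=
  ∑ n ∈ Finset.Icc (-(M : ℤ)) M, a n * (starRingEnd ℂ) (Tc φ m n)

/-- the same for the conjugate family -/
noncomputable def mG (φ : ℝ → ℝ) (M : ℕ) (a : ℤ → ℂ) (m : ℤ) : ℂ :=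
  ∑ n ∈ Finset.Icc (-(M : ℤ)) M, (starRingEnd ℂ) (a n) * (starRingEnd ℂ) (Tc φ m (-n))

/-- the aligned moment of one family -/
noncomputable def eF (φ : ℝ → ℝ) (M : ℕ) (a : ℤ → ℂ) (l : ℤ) : ℂ :=
  (1 - (l : ℂ)) / 2 * mF φ M a (l + 1) + (1 + (l : ℂ)) / 2 * mG φ M a (l - 1)

section

variable {g g1 g2 : ℝ → ℂ} {φ φ1 φ2 : ℝ → ℝ} {D D1 D2 : ℝ} {M : ℕ}

theorem av_cfac (c : ℂ) (f : ℝ → ℂ) : av (fun θ => c * f θ) = c * av f := av_const_mul c f

/-- `av (ee (n t) h) ` with `h` bounded -/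
theorem av_sum_mul (S : Finset ℤ) (a : ℤ → ℂ) {h : ℝ → ℂ} {C : ℝ} (hh : BM h C) :
    av (fun t => tp S a t * h t) = ∑ n ∈ S, a n * av (fun t => ee ((n : ℝ) * t) * h t) := by
  have e : (fun t => tp S a t * h t) = fun t => ∑ n ∈ S, a n * (ee ((n : ℝ) * t) * h t) := by
    funext t
    unfold tp
    rw [Finset.sum_mul]
    exact Finset.sum_congr rfl fun n _ => by ring
  rw [e]
  unfold av
  rw [intervalIntegral.integral_finsetSum]
  · rw [Finset.mul_sum]
    refine Finset.sum_congr rfl fun n _ => ?_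
    rw [intervalIntegral.integral_const_mul]
    ring
  · intro n _
    exact (BM.i (BM.mul (BM.eec n) hh) 0 (2 * Real.pi)).const_mul _

/-- a bounded function with finitely many coefficients has distance `0` from its section -/
theorem ms_fin (hg : BM g D) (hs : Sup M (fc g)) :
    ms (fun t => g t - tp (Finset.Icc (-(M : ℤ)) M) (fc g) t) = 0 := by
  have hb := tp_BM (Finset.Icc (-(M : ℤ)) M) (fc g)
  rw [ms_fc (hg.sub hb)]
  have e : (fun n => ‖fc (fun t => g t - tp (Finset.Icc (-(M : ℤ)) M) (fc g) t) n‖ ^ 2) = fun _ => 0 := by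
    funext n
    rw [fc_sub hg hb, fc_tp]
    by_cases hn : n ∈ Finset.Icc (-(M : ℤ)) M
    · rw [if_pos hn, sub_self, norm_zero]; norm_num
    · rw [if_neg hn, sub_zero, hs n hn, norm_zero]; norm_num
  rw [e, tsum_zero]

/-- means against a bounded function see only the coefficients -/
theorem av_fin (hg : BM g D) (hs : Sup M (fc g)) {h : ℝ → ℂ} {C : ℝ} (hh : BM h C) :
    av (fun t => g t * h t) = ∑ n ∈ Finset.Icc (-(M : ℤ)) M, fc g n * av (fun t => ee ((n : ℝ) * t) * h t) := by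
  have hb := tp_BM (Finset.Icc (-(M : ℤ)) M) (fc g)
  rw [← av_sum_mul _ _ hh]
  have h1 := av_le (hg.sub hb) hh
  rw [ms_fin hg hs, Real.sqrt_zero, zero_mul] at h1
  have h2 := norm_le_zero_iff.mp h1
  have h3 : av (fun t => (g t - tp (Finset.Icc (-(M : ℤ)) M) (fc g) t) * h t) =
      av (fun t => g t * h t) - av (fun t => tp (Finset.Icc (-(M : ℤ)) M) (fc g) t * h t) := by
    unfold av
    rw [← mul_sub, ← intervalIntegral.integral_sub ((hg.mul hh).i 0 (2 * Real.pi)) ((hb.mul hh).i 0 (2 * Real.pi))]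
    congr 1
    apply intervalIntegral.integral_congr
    intro t _
    show (g t - _) * _ = _
    ring
  rw [h3] at h2
  exact sub_eq_zero.mp h2

theorem bm_eph (hφ : Measurable φ) (m : ℝ) : BM (fun θ => ee (-(m * φ θ))) 1 :=
  ⟨continuous_ee.measurable.comp ((hφ.const_mul m).neg), fun t => by rw [norm_ee]⟩

theorem av_conj (f : ℝ → ℂ) : av (fun t => (starRingEnd ℂ) (f t)) = (starRingEnd ℂ) (av f) := by
  unfold av
  rw [map_mul, ← intervalIntegral.intervalIntegral_conj]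
  congr 1
  have : (1 / (2 * Real.pi) : ℂ) = ((1 / (2 * Real.pi) : ℝ) : ℂ) := by push_cast; rfl
  rw [this, Complex.conj_ofReal]

theorem mo_fin (hg : BM g D) (hφ : Measurable φ) (hs : Sup M (fc g)) (m : ℤ) :
    mo φ g m = mF φ M (fc g) m := by
  unfold mo mF
  rw [av_fin hg hs (bm_eph hφ m)]
  refine Finset.sum_congr rfl fun n _ => ?_
  congr 1
  unfold Tc
  rw [← av_conj]
  congr 1
  funext t
  rw [map_mul, ← ee_neg, ← ee_neg, mul_comm]
  congr 2
  ring

theorem sup_conj (hg : BM g D) (hs : Sup M (fc g)) : Sup M (fc (fun t => (starRingEnd ℂ) (g t))) := by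
  intro n hn
  rw [fc_conj, hs (-n) ?_, map_zero]
  rw [Finset.mem_Icc] at hn ⊢
  omega

theorem sum_neg (M : ℕ) (f : ℤ → ℂ) :
    ∑ n ∈ Finset.Icc (-(M : ℤ)) M, f (-n) = ∑ n ∈ Finset.Icc (-(M : ℤ)) M, f n := by
  refine Finset.sum_bij (fun n _ => -n) ?_ ?_ ?_ ?_
  · intro n hn
    rw [Finset.mem_Icc] at hn ⊢
    omega
  · intro a _ b _ h
    exact neg_injective h
  · intro n hn
    refine ⟨-n, ?_, neg_neg n⟩
    rw [Finset.mem_Icc] at hn ⊢
    omega
  · intro n _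
    rfl

theorem mo_finc (hg : BM g D) (hφ : Measurable φ) (hs : Sup M (fc g)) (m : ℤ) :
    mo φ (fun t => (starRingEnd ℂ) (g t)) m = mG φ M (fc g) m := by
  rw [mo_fin hg.conj hφ (sup_conj hg hs)]
  unfold mF mG
  rw [← sum_neg]
  refine Finset.sum_congr rfl fun n _ => ?_
  rw [fc_conj, neg_neg]

theorem eM_fin (h1 : BM g1 D1) (h2 : BM g2 D2) (m1 : Measurable φ1) (m2 : Measurable φ2) (s1 : Sup M (fc g1))
    (s2 : Sup M (fc g2)) (l : ℤ) : eM g1 g2 φ1 φ2 l = eF φ1 M (fc g1) l + eF φ2 M (fc g2) l := by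
  have e1 : ((l : ℝ) + 1) = ((l + 1 : ℤ) : ℝ) := by push_cast; ring
  have e2 : ((l : ℝ) - 1) = ((l - 1 : ℤ) : ℝ) := by push_cast; ring
  rw [eM_mo h1 h2 m1 m2, e1, e2, mo_fin h1 m1 s1, mo_fin h2 m2 s2, mo_finc h1 m1 s1, mo_finc h2 m2 s2]
  unfold eF
  push_cast
  rfl

end

/-! ### the pieces in the arrays `p, r` (hermitian), `s` -/

section

variable (P : Par) (N : ℕ) (p r s : ℤ → ℂ)

/-- the coefficients of the families -/
noncomputable def C1 : ℤ → ℂ := c1 2 (wc P.w) (wm P.eta p) (wm P.eta r) (wm P.eta s)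
noncomputable def C2 : ℤ → ℂ := c2 2 (wc P.w) (wm P.eta p) (wm P.eta r) (wm P.eta s)
/-- `σ` -/
noncomputable def sgA : ℂ := wm P.eta p 2 - Complex.I * wm P.eta r 2
/-- the coefficients of `α` and of `α - a0` without the harmonics `± 2` -/
noncomputable def alA (n : ℤ) : ℂ := wm P.eta p n + Complex.I / 2 * wm P.eta r n
noncomputable def dlA (n : ℤ) : ℂ := (if n = 2 ∨ n = -2 then 0 else 1) * alA P p r n - fc P.a0 n
noncomputable def H0A : ℝ := (dlA P p r 0).re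
noncomputable def HkA (k : ℕ) : ℂ :=
  (dlA P p r (2 * k + 2) / ((lk k : ℂ) + 1) - (starRingEnd ℂ) (dlA P p r (-(2 * k + 2))) / ((lk k : ℂ) - 1)) / 2
/-- the aligned moments, frequency `l` -/
noncomputable def eAA (l : ℤ) : ℂ := eF P.ph1 (N + 3) (C1 P p r s) l + eF P.ph2 (N + 3) (C2 P p r s) l
/-- link 1 -/
noncomputable def L1A : ℝ :=
  1 - 2 * (‖P.eta‖ ^ 2 / 3) + 2 * (alA P p r 0 + (starRingEnd ℂ) P.eta * alA P p r 2 / 3 - P.eta * alA P p r (-2)).re
    + ∑ j ∈ Finset.Icc (-((N + 2 : ℕ) : ℤ)) ((N + 2 : ℕ) : ℤ), ‖alA P p r (2 * j)‖ ^ 2 / (2 * (j : ℝ) + 1)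

/-- THE FUNCTIONAL WITHOUT THE LOCAL PART, IN THE ARRAYS -/
noncomputable def EA : ℝ :=
  2 / 3 * ‖sgA P p r‖ ^ 2 + 4 / 3 * ((starRingEnd ℂ) (sgA P p r) * P.eta).re
  + L1A P N p r
  + 2 * H0A P p r * (eAA P N p r s 0).re - P.pr2 * (H0A P p r - P.h0) ^ 2
  + D2 P.nu (HkA P p r) (fun k => eAA P N p r s (2 * k + 2)) P.ga
  + NF P.ps (N + 3) (C1 P p r s) (C2 P p r s) - 9

end

section

variable {P : Par} {b z : ℝ → ℂ}

theorem fc_F1A (hr : P.Reg) (d : Dat b z) (N : ℕ) :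
    fc (P.F1 (SN N b) (SN N z)) = C1 P (tr N (pr b)) (tr N (qr b)) (tr N (fc z)) := by
  have e1 : fc (P.F1 (SN N b) (SN N z)) = c1 2 (wc P.w) (pc P.w (SN N b)) (rc P.w (SN N b)) (sc P.w (SN N z)) :=
    funext fun m => fc_F1d hr.wgt (dat_SN d N) m
  have e2 : pc P.w (SN N b) = wm P.eta (tr N (pr b)) := by
    show pc (wR P.eta 0 0) (SN N b) = _
    rw [pc_wm P.eta (bf_SN b N), pr_SN d.hb]
  have e3 : rc P.w (SN N b) = wm P.eta (tr N (qr b)) := by
    show rc (wR P.eta 0 0) (SN N b) = _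
    rw [rc_wm P.eta (bf_SN b N), qr_SN d.hb]
  have e4 : sc P.w (SN N z) = wm P.eta (tr N (fc z)) := by
    show sc (wR P.eta 0 0) (SN N z) = _
    rw [sc_wm P.eta (bf_SN z N), fc_SN]
  rw [e1, e2, e3, e4]
  rfl

theorem fc_F2A (hr : P.Reg) (d : Dat b z) (N : ℕ) :
    fc (P.F2 (SN N b) (SN N z)) = C2 P (tr N (pr b)) (tr N (qr b)) (tr N (fc z)) := by
  have e1 : fc (P.F2 (SN N b) (SN N z)) = c2 2 (wc P.w) (pc P.w (SN N b)) (rc P.w (SN N b)) (sc P.w (SN N z)) :=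
    funext fun m => fc_F2d hr.wgt (dat_SN d N) m
  have e2 : pc P.w (SN N b) = wm P.eta (tr N (pr b)) := by
    show pc (wR P.eta 0 0) (SN N b) = _
    rw [pc_wm P.eta (bf_SN b N), pr_SN d.hb]
  have e3 : rc P.w (SN N b) = wm P.eta (tr N (qr b)) := by
    show rc (wR P.eta 0 0) (SN N b) = _
    rw [rc_wm P.eta (bf_SN b N), qr_SN d.hb]
  have e4 : sc P.w (SN N z) = wm P.eta (tr N (fc z)) := by
    show sc (wR P.eta 0 0) (SN N z) = _
    rw [sc_wm P.eta (bf_SN z N), fc_SN]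
  rw [e1, e2, e3, e4]
  rfl

theorem C1_sup (P : Par) (N : ℕ) {p r s : ℤ → ℂ} (hp : Sup N p) (hq : Sup N r) (hs : Sup N s) :
    Sup (N + 3) (C1 P p r s) :=
  c1_sup (q := 2) (Sup.mono (by omega) (wc_sup P.eta)) (wm_sup hp) (wm_sup hq) (wm_sup hs)

theorem C2_sup (P : Par) (N : ℕ) {p r s : ℤ → ℂ} (hp : Sup N p) (hq : Sup N r) (hs : Sup N s) :
    Sup (N + 3) (C2 P p r s) :=
  c2_sup (q := 2) (Sup.mono (by omega) (wc_sup P.eta)) (wm_sup hp) (wm_sup hq) (wm_sup hs)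

theorem fc_alA (hr : P.Reg) (d : Dat b z) (N : ℕ) :
    fc (P.al (SN N b)) = alA P (tr N (pr b)) (tr N (qr b)) := by
  funext n
  rw [fc_al hr (bf_SN b N)]
  have e2 : pc P.w (SN N b) = wm P.eta (tr N (pr b)) := by
    show pc (wR P.eta 0 0) (SN N b) = _
    rw [pc_wm P.eta (bf_SN b N), pr_SN d.hb]
  have e3 : rc P.w (SN N b) = wm P.eta (tr N (qr b)) := by
    show rc (wR P.eta 0 0) (SN N b) = _
    rw [rc_wm P.eta (bf_SN b N), qr_SN d.hb]
  rw [e2, e3]
  rfl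

theorem fc_dalA (hr : P.Reg) (d : Dat b z) (N : ℕ) :
    fc (P.dal (SN N b)) = dlA P (tr N (pr b)) (tr N (qr b)) := by
  funext n
  rw [fc_dal hr (bf_SN b N), fc_alA hr d]
  rfl

/-- THE COORDINATE FORM OF `EP` ON SECTIONS -/
theorem EP_coord (hr : P.Reg) (d : Dat b z) (N : ℕ) :
    P.EP (SN N b) (SN N z) = EA P N (tr N (pr b)) (tr N (qr b)) (tr N (fc z))
      + mean (fun t => P.w t * P.TL t (SN N b t) (SN N z t)) := by
  have dN := dat_SN d N
  set p := tr N (pr b) with hp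
  set r := tr N (qr b) with hq
  set s := tr N (fc z) with hs
  have sp : Sup N p := tr_sup N _
  have sr : Sup N r := tr_sup N _
  have ss : Sup N s := tr_sup N _
  -- sigma
  have e1 : P.sig (SN N b) = sgA P p r := by
    have a1 : fc (fun t => ((P.w t * (SN N b t).re : ℝ) : ℂ)) = wm P.eta p := by
      have : pc P.w (SN N b) = wm P.eta (tr N (pr b)) := by
        show pc (wR P.eta 0 0) (SN N b) = _
        rw [pc_wm P.eta (bf_SN b N), pr_SN d.hb]
      exact this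
    have a2 : fc (fun t => ((P.w t * (SN N b t).im : ℝ) : ℂ)) = wm P.eta r := by
      have : rc P.w (SN N b) = wm P.eta (tr N (qr b)) := by
        show rc (wR P.eta 0 0) (SN N b) = _
        rw [rc_wm P.eta (bf_SN b N), qr_SN d.hb]
      exact this
    unfold Par.sig
    rw [a1, a2]
    rfl
  -- link 1
  have e2 : L1 P.eta 0 0 (P.al (SN N b)) = L1A P N p r := by
    unfold L1 L1A
    rw [fc_alA hr d N]
    have t1 : ∑' j : ℤ, ‖alA P p r (2 * j)‖ ^ 2 / (2 * (j : ℝ) + 1) =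
        ∑ j ∈ Finset.Icc (-((N + 2 : ℕ) : ℤ)) ((N + 2 : ℕ) : ℤ), ‖alA P p r (2 * j)‖ ^ 2 / (2 * (j : ℝ) + 1) := by
      refine tsum_eq_sum fun j hj => ?_
      have h1 : wm P.eta p (2 * j) = 0 := wm_sup sp (2 * j) (by
        rw [Finset.mem_Icc] at hj ⊢
        push_cast at hj ⊢
        omega)
      have h2 : wm P.eta r (2 * j) = 0 := wm_sup sr (2 * j) (by
        rw [Finset.mem_Icc] at hj ⊢
        push_cast at hj ⊢
        omega)
      unfold alA
      rw [h1, h2, mul_zero, add_zero, norm_zero]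
      norm_num
    rw [← hp, ← hq, t1]
    simp only [map_zero, zero_mul, zero_div, norm_zero, add_zero, sub_zero]
    norm_num
  -- H
  have e3 : P.H0 (SN N b) = H0A P p r := by
    unfold Par.H0 H0A
    rw [fc_dalA hr d N]
  have e4 : Hk (P.dal (SN N b)) = HkA P p r := by
    funext k
    unfold Hk HkA
    rw [fc_dalA hr d N]
  -- moments
  obtain ⟨D1, k1⟩ := FP1 hr dN
  obtain ⟨D2, k2⟩ := FP2 hr dN
  have s1 : Sup (N + 3) (fc (P.F1 (SN N b) (SN N z))) := by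
    rw [fc_F1A hr d N]; exact C1_sup P N sp sr ss
  have s2 : Sup (N + 3) (fc (P.F2 (SN N b) (SN N z))) := by
    rw [fc_F2A hr d N]; exact C2_sup P N sp sr ss
  have e5 : ∀ l : ℤ, eM (P.F1 (SN N b) (SN N z)) (P.F2 (SN N b) (SN N z)) P.ph1 P.ph2 l = eAA P N p r s l := by
    intro l
    rw [eM_fin k1 k2 hr.mph1 hr.mph2 s1 s2 l, fc_F1A hr d N, fc_F2A hr d N]
    rfl
  have e6 : P.e00 (SN N b) (SN N z) = (eAA P N p r s 0).re := by
    unfold Par.e00
    rw [← e5 0]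
    norm_num
  have e7 : P.eA (SN N b) (SN N z) = fun k : ℕ => eAA P N p r s (2 * k + 2) := by
    funext k
    unfold Par.eA
    rw [lk_int k]
    exact e5 _
  have e8 : P.NS (SN N b) (SN N z) = NF P.ps (N + 3) (C1 P p r s) (C2 P p r s) := by
    rw [NS_SN hr d N (by omega), fc_F1A hr d N, fc_F2A hr d N]
  unfold Par.EP EA
  rw [e1, e2, e3, e4, e6, e7, e8]
  ring

end

end Helper95.SH
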