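import Pool.Agent.Helper95.SH.Bes

/-!
# Project RC, SHARP: data of the quadratic functional

`Dat b z`: bounded measurable data with the two parities (no domain). The families of such data, their coefficients,
and the Fourier form of `N0` minus the shift form.
-/

open MeasureTheory Set Filter Topology

namespace Helper95.SH

open Helper49.LT hiding sg
open Helper49.RC (om)
open Helper95.RC
open Helper87.RC (Fam BM intg_of_bddC intg_of_bdd fc_eq fc_sub fc_cmul fc_add fc_conj pars pars2 fc_G1 fc_G2)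
open Helper56.RC (fc)
open Helper44.RCG (G1 G2 N0)
open Helper44.GQ (aQ cQ AdmQ A0Q AAQ BBQ FMQ mQ Rq F1Q F2Q)
open Helper49.RC (vvS Wgt)
open Pool.Agent.Helper20.RC (lk lk_ge lk_sq eD eM sM DensI alQ wR wR_wgt)

/-- bounded measurable data with the parities -/
structure Dat (b z : ℝ → ℂ) : Prop where
  hb : BF b
  hz : BF z
  pb : ∀ t, b (t + Real.pi) = b t
  pz : ∀ t, z (t + Real.pi) = -z t

theorem AdmQ.dat {q : ℝ} (hq : 0 < q) {b z : ℝ → ℂ} (h : AdmQ q b z) : Dat b z :=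
  ⟨AdmQ.bfb h, AdmQ.bfz hq h, h.perb, h.perz⟩

section

variable {q : ℝ} {b z : ℝ → ℂ} {w : ℝ → ℝ}

theorem AAQ_form (w : ℝ → ℝ) (q : ℝ) (b : ℝ → ℂ) (t : ℝ) : AAQ w q b t = ee (((1 : ℤ) : ℝ) * t) * (((om * (w t : ℂ)) +
      (starRingEnd ℂ) om * ((w t * (b t).re : ℝ) : ℂ)) + kq q * ((w t * (b t).im : ℝ) : ℂ)) := by
  unfold AAQ
  rw [edge1]
  push_cast
  rw [one_mul]
  ring

theorem BBQ_form (w : ℝ → ℝ) (q : ℝ) (b : ℝ → ℂ) (t : ℝ) : BBQ w q b t = ee (((1 : ℤ) : ℝ) * t) * (((om ^ 2 * (w t : ℂ)) +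
      (starRingEnd ℂ) om ^ 2 * ((w t * (b t).re : ℝ) : ℂ)) + (starRingEnd ℂ) (kq q) * ((w t * (b t).im : ℝ) : ℂ)) := by
  unfold BBQ
  rw [edge2]
  push_cast
  rw [one_mul]
  ring

theorem bm_ee1 : BM (fun t : ℝ => ee (((1 : ℤ) : ℝ) * t)) 1 :=
  ⟨continuous_ee.measurable.comp (measurable_id.const_mul _), fun t => by rw [norm_ee]⟩

theorem bm_AAQ (hw : Wgt w) (hb : BF b) : ∃ C, BM (AAQ w q b) C := by
  obtain ⟨C1, h1⟩ := bmw hw
  obtain ⟨C2, h2⟩ := bm_wre hw hb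
  obtain ⟨C3, h3⟩ := bm_wim hw hb
  have e : AAQ w q b = _ := funext fun t => AAQ_form w q b t
  rw [e]
  exact ⟨_, bm_ee1.mul (((h1.cmul om).add (h2.cmul _)).add (h3.cmul _))⟩

theorem bm_BBQ (hw : Wgt w) (hb : BF b) : ∃ C, BM (BBQ w q b) C := by
  obtain ⟨C1, h1⟩ := bmw hw
  obtain ⟨C2, h2⟩ := bm_wre hw hb
  obtain ⟨C3, h3⟩ := bm_wim hw hb
  have e : BBQ w q b = _ := funext fun t => BBQ_form w q b t
  rw [e]
  exact ⟨_, bm_ee1.mul (((h1.cmul _).add (h2.cmul _)).add (h3.cmul _))⟩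

theorem bm_vvS (hw : Wgt w) (hz : BF z) : ∃ C, BM (vvS w z) C := by
  obtain ⟨C, hC⟩ := bm_wz hw hz
  have e : vvS w z = fun t => ee (((1 : ℤ) : ℝ) * t) * ((w t : ℂ) * z t) := by
    funext t
    unfold vvS
    push_cast
    rw [one_mul]
    ring
  rw [e]
  exact ⟨_, bm_ee1.mul hC⟩

theorem dat_fam (hw : Wgt w) (d : Dat b z) : ∃ C, Fam (AAQ w q b) (BBQ w q b) (vvS w z) C := by
  obtain ⟨C1, h1⟩ := bm_AAQ (q := q) hw d.hb
  obtain ⟨C2, h2⟩ := bm_BBQ (q := q) hw d.hb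
  obtain ⟨C3, h3⟩ := bm_vvS hw d.hz
  have hpi : ∀ t, ee (t + Real.pi) = -ee t := fun t => by rw [ee_add, ee_pi]; ring
  refine ⟨max C1 (max C2 C3), h1.m, h2.m, h3.m, ?_, ?_, ?_, fun t => (h1.b t).trans (le_max_left _ _),
    fun t => (h2.b t).trans ((le_max_left _ _).trans (le_max_right _ _)),
    fun t => (h3.b t).trans ((le_max_right _ _).trans (le_max_right _ _))⟩
  · intro t
    unfold AAQ
    rw [hw.per, d.pb, hpi]; ring
  · intro t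
    unfold BBQ
    rw [hw.per, d.pb, hpi]; ring
  · intro t
    unfold vvS
    rw [hw.per, d.pz, hpi]; ring

theorem fc_AAQd (hw : Wgt w) (hb : BF b) (n : ℤ) : fc (AAQ w q b) n =
    om * wc w (n - 1) + (starRingEnd ℂ) om * pc w b (n - 1) + kq q * rc w b (n - 1) := by
  obtain ⟨C1, h1⟩ := bmw hw
  obtain ⟨C2, h2⟩ := bm_wre hw hb
  obtain ⟨C3, h3⟩ := bm_wim hw hb
  have e : AAQ w q b = _ := funext fun t => AAQ_form w q b t
  rw [e, Helper87.RC.fc_ee, fc_add ((h1.cmul om).add (h2.cmul _)) (h3.cmul _), fc_add (h1.cmul om) (h2.cmul _),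
    fc_cmul, fc_cmul, fc_cmul]
  rfl

theorem fc_BBQd (hw : Wgt w) (hb : BF b) (n : ℤ) : fc (BBQ w q b) n =
    om ^ 2 * wc w (n - 1) + (starRingEnd ℂ) om ^ 2 * pc w b (n - 1) + (starRingEnd ℂ) (kq q) * rc w b (n - 1) := by
  obtain ⟨C1, h1⟩ := bmw hw
  obtain ⟨C2, h2⟩ := bm_wre hw hb
  obtain ⟨C3, h3⟩ := bm_wim hw hb
  have e : BBQ w q b = _ := funext fun t => BBQ_form w q b t
  rw [e, Helper87.RC.fc_ee, fc_add ((h1.cmul _).add (h2.cmul _)) (h3.cmul _), fc_add (h1.cmul _) (h2.cmul _),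
    fc_cmul, fc_cmul, fc_cmul]
  rfl

/-- the coefficients of the families -/
theorem fc_F1d (hw : Wgt w) (d : Dat b z) (m : ℤ) :
    fc (F1Q w q b z) m = c1 q (wc w) (pc w b) (rc w b) (sc w z) m := by
  obtain ⟨C, hC⟩ := dat_fam (q := q) hw d
  unfold F1Q c1
  rw [fc_G1 hC, fc_AAQd hw d.hb, fc_vvS]

theorem fc_F2d (hw : Wgt w) (d : Dat b z) (m : ℤ) :
    fc (F2Q w q b z) m = c2 q (wc w) (pc w b) (rc w b) (sc w z) m := by
  obtain ⟨C, hC⟩ := dat_fam (q := q) hw d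
  unfold F2Q c2
  rw [fc_G2 hC, fc_BBQd hw d.hb, fc_vvS]

theorem bm_F1 (hw : Wgt w) (d : Dat b z) : ∃ C, BM (F1Q w q b z) C := by
  obtain ⟨C, hC⟩ := dat_fam (q := q) hw d
  exact ⟨2 * C, Helper44.RCG.G1_meas hC, Helper44.RCG.G1_le hC⟩

theorem bm_F2 (hw : Wgt w) (d : Dat b z) : ∃ C, BM (F2Q w q b z) C := by
  obtain ⟨C, hC⟩ := dat_fam (q := q) hw d
  exact ⟨2 * C, Helper44.RCG.G2_meas hC, Helper44.RCG.G2_le hC⟩

/-- the double integral of the shift in terms of `SH` -/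
theorem shift_SH {A B v : ℝ → ℂ} {C : ℝ} (h : Fam A B v C) {ψ : ℝ → ℝ} (hψ : Measurable ψ)
    (hb : ∀ φ, |ψ φ| ≤ Real.pi / 3) :
    1 / Real.pi * (∫ φ in (0 : ℝ)..(2 * Real.pi), ∫ u in (0 : ℝ)..(ψ φ),
      (G1 A v (φ + u / 2) * (starRingEnd ℂ) (G2 B v (φ - u / 2))).im) =
      2 * (SH ψ (G1 A v) (G2 B v)).im := by
  have hpi := Real.pi_pos
  have B1 : BM (G1 A v) (2 * C) := ⟨Helper44.RCG.G1_meas h, Helper44.RCG.G1_le h⟩
  have B2 : BM (G2 B v) (2 * C) := ⟨Helper44.RCG.G2_meas h, Helper44.RCG.G2_le h⟩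
  have hP0 : (0 : ℝ) ≤ Real.pi / 3 := by positivity
  have i1 : ∀ φ a b : ℝ, IntervalIntegrable
      (fun u => G1 A v (φ + u / 2) * (starRingEnd ℂ) (G2 B v (φ - u / 2))) volume a b := by
    intro φ a b
    refine intg_of_bddC (C := (2 * C) * (2 * C)) ((B1.m.comp
      (measurable_const.add (measurable_id.div_const 2))).mul (B2.conj.m.comp
      (measurable_const.sub (measurable_id.div_const 2)))) (fun t => ?_) _ _
    show ‖G1 A v (φ + t / 2) * (starRingEnd ℂ) (G2 B v (φ - t / 2))‖ ≤ _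
    rw [norm_mul, RCLike.norm_conj]
    exact mul_le_mul (B1.b _) (B2.b _) (norm_nonneg _) B1.C0
  have e1 : ∀ φ : ℝ, ∫ u in (0 : ℝ)..(ψ φ),
      (G1 A v (φ + u / 2) * (starRingEnd ℂ) (G2 B v (φ - u / 2))).im =
      (∫ u in (0 : ℝ)..(ψ φ), G1 A v (φ + u / 2) * (starRingEnd ℂ) (G2 B v (φ - u / 2))).im := by
    intro φ
    exact Complex.imCLM.intervalIntegral_comp_comm (i1 φ _ _)
  simp_rw [e1]
  have i2 : IntervalIntegrable (fun φ => ∫ u in (0 : ℝ)..(ψ φ),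
      G1 A v (φ + u / 2) * (starRingEnd ℂ) (G2 B v (φ - u / 2))) volume 0 (2 * Real.pi) := by
    have e2 : (fun φ => ∫ u in (0 : ℝ)..(ψ φ),
        G1 A v (φ + u / 2) * (starRingEnd ℂ) (G2 B v (φ - u / 2))) =
        fun φ => ∫ u in (-(Real.pi / 3))..(Real.pi / 3), hh ψ (G1 A v) (G2 B v) φ u := by
      funext φ
      exact wn_int (hb φ) _
    rw [e2]
    exact intg_of_bddC (inner_meas B1 B2 hψ hP0) (fun φ => inner_bd B1 B2 φ hP0) _ _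
  have e3 : ∫ φ in (0 : ℝ)..(2 * Real.pi), (∫ u in (0 : ℝ)..(ψ φ),
      G1 A v (φ + u / 2) * (starRingEnd ℂ) (G2 B v (φ - u / 2))).im =
      (∫ φ in (0 : ℝ)..(2 * Real.pi), ∫ u in (0 : ℝ)..(ψ φ),
        G1 A v (φ + u / 2) * (starRingEnd ℂ) (G2 B v (φ - u / 2))).im :=
    Complex.imCLM.intervalIntegral_comp_comm i2
  rw [e3]
  unfold SH
  have e4 : (1 / (2 * Real.pi) : ℂ) = ((1 / (2 * Real.pi) : ℝ) : ℂ) := by push_cast; rfl
  rw [e4, Complex.im_ofReal_mul]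
  generalize (∫ φ in (0 : ℝ)..(2 * Real.pi), ∫ u in (0 : ℝ)..(ψ φ),
        G1 A v (φ + u / 2) * (starRingEnd ℂ) (G2 B v (φ - u / 2))) = Z
  field_simp

/-- **`N0` minus the shift form is the limit of the sections `NF`** -/
theorem NS_lim (hw : Wgt w) (d : Dat b z) {ψ : ℝ → ℝ} (hψ : Measurable ψ) (hb : ∀ φ, |ψ φ| ≤ Real.pi / 3) :
    Tendsto (fun N : ℕ => NF ψ N (c1 q (wc w) (pc w b) (rc w b) (sc w z)) (c2 q (wc w) (pc w b) (rc w b) (sc w z)))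
      atTop (𝓝 (N0 (AAQ w q b) (BBQ w q b) (vvS w z)
        - 1 / Real.pi * (∫ φ in (0 : ℝ)..(2 * Real.pi), ∫ u in (0 : ℝ)..(ψ φ),
          (F1Q w q b z (φ + u / 2) * (starRingEnd ℂ) (F2Q w q b z (φ - u / 2))).im))) := by
  obtain ⟨C, hC⟩ := dat_fam (q := q) hw d
  have B1 : BM (G1 (AAQ w q b) (vvS w z)) (2 * C) := ⟨Helper44.RCG.G1_meas hC, Helper44.RCG.G1_le hC⟩
  have B2 : BM (G2 (BBQ w q b) (vvS w z)) (2 * C) := ⟨Helper44.RCG.G2_meas hC, Helper44.RCG.G2_le hC⟩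
  have h1 : Tendsto (fun N : ℕ => ∑ m ∈ Finset.Icc (-(N : ℤ)) N,
      ‖fc (G1 (AAQ w q b) (vvS w z)) m + fc (G2 (BBQ w q b) (vvS w z)) m‖ ^ 2 / (m : ℝ)) atTop
      (𝓝 (N0 (AAQ w q b) (BBQ w q b) (vvS w z))) :=
    (Helper87.RC.hNZ _ _ _ C hC).comp tendsto_Icc_int
  have h2 := hSHL (G1 (AAQ w q b) (vvS w z)) (G2 (BBQ w q b) (vvS w z)) (2 * C) (2 * C) (Real.pi / 3) ψ B1 B2
    (Helper44.RCG.G1_per hC) (Helper44.RCG.G2_per hC) hψ hb
  have h3 := (Complex.continuous_im.tendsto _).comp h2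
  have h4 := h1.sub (h3.const_mul 2)
  rw [← shift_SH hC hψ hb] at h4
  refine h4.congr fun N => ?_
  have e1 : fc (G1 (AAQ w q b) (vvS w z)) = c1 q (wc w) (pc w b) (rc w b) (sc w z) :=
    funext fun m => fc_F1d hw d m
  have e2 : fc (G2 (BBQ w q b) (vvS w z)) = c2 q (wc w) (pc w b) (rc w b) (sc w z) :=
    funext fun m => fc_F2d hw d m
  rw [← e1, ← e2]
  rfl

end

end Helper95.SH
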