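import Pool.Agent.Helper95.SH.CoordQ
import Pool.Agent.Helper44.RC.M_FX4

/-!
# Project RC, SHARP: the passage from a finite certificate (all windows `N`) to all admissible data

`cell_pass`: if for all `N ≥ N0` and all arrays `p, r` (hermitian, even), `s` (odd) in the window `N`
`π(s(-3), s(-5)) ≤ EA + LA + (m - lam) LoA + mu NrA - tau (|σ|² - σ₁²)`, then `π(A, B) ≤ EP b z` for all admissible
`(b, z)` in the near region with `σ₁² ≤ |σ b|²` (no condition if `tau = 0`).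
-/

open MeasureTheory Set Filter Topology

namespace Helper95.SH

open Helper49.LT hiding sg
open Helper49.RC (om)
open Helper95.RC
open Helper49.Sharp
open Helper87.RC (Fam BM intg_of_bddC intg_of_bdd fc_eq fc_sub fc_cmul fc_add fc_conj pars pars2 fc_G1 fc_G2)
open Helper56.RC (fc)
open Helper44.RCG (G1 G2 N0)
open Helper44.GQ (aQ cQ AdmQ A0Q AAQ BBQ FMQ mQ Rq F1Q F2Q)
open Helper49.RC (vvS Wgt)
open Pool.Agent.Helper20.RC (lk lk_ge lk_sq eD eM sM DensI alQ wR wR_wgt wt wt_wR L1)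

/-- coefficients of `g_1`, `g_2` with the weight `1` -/
noncomputable def g1A (p r s : ℤ → ℂ) (n : ℤ) : ℂ :=
  om * (if n = 0 then 1 else 0) + (starRingEnd ℂ) om * p n + kq 2 * r n + s n
noncomputable def g2A (p r s : ℤ → ℂ) (n : ℤ) : ℂ :=
  om ^ 2 * (if n = 0 then 1 else 0) + (starRingEnd ℂ) om ^ 2 * p n + (starRingEnd ℂ) (kq 2) * r n - s n

/-- the near quantity with the directions `d1, d2`: a lower bound of `Sp + (3/4) <b₂²> - 1/5` -/
noncomputable def NrA (d1 d2 : ℝ → ℂ) (N : ℕ) (p r s : ℤ → ℂ) : ℝ :=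
  (∑ n ∈ Finset.Icc (-(N : ℤ)) N, g1A p r s n * (starRingEnd ℂ) (fc d1 n)).re
  + (∑ n ∈ Finset.Icc (-(N : ℤ)) N, g2A p r s n * (starRingEnd ℂ) (fc d2 n)).re
  - 2 + (p 0).re + 3 / 4 * ∑ n ∈ Finset.Icc (-(N : ℤ)) N, ‖p n‖ ^ 2 - 1 / 5

section

variable {P : Par} {b z : ℝ → ℂ} {K : ℕ} {d1 d2 : ℝ → ℂ}

theorem g1s (hb : BF b) (z : ℝ → ℂ) (N : ℕ) :
    (∃ C, BM (fun t => g1 (SN N b t) (SN N z t)) C) ∧
    fc (fun t => g1 (SN N b t) (SN N z t)) = g1A (tr N (pr b)) (tr N (qr b)) (tr N (fc z)) := by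
  obtain ⟨C2, h2⟩ := bm_re (bf_SN b N)
  obtain ⟨C3, h3⟩ := bm_im (bf_SN b N)
  obtain ⟨C4, h4⟩ := bf_bm (bf_SN z N)
  have h1 : BM (fun _ : ℝ => (1 : ℂ)) 1 := ⟨measurable_const, fun _ => by simp⟩
  have e : (fun t => g1 (SN N b t) (SN N z t)) = fun t => ((om * 1 +
      (starRingEnd ℂ) om * ((SN N b t).re : ℂ)) + kq 2 * ((SN N b t).im : ℂ)) + SN N z t := by
    funext t
    rw [g1_form]
    ring
  have e1 : ∀ n : ℤ, fc (fun _ : ℝ => (1 : ℂ)) n = if n = 0 then 1 else 0 := by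
    intro n
    have := fc_ee 0 n
    simp only [Int.cast_zero, zero_mul, ee_zero] at this
    rw [this]
    by_cases hn : n = 0
    · subst hn; simp
    · rw [if_neg hn, if_neg (Ne.symm hn)]
  rw [e]
  refine ⟨⟨_, (((h1.cmul om).add (h2.cmul ((starRingEnd ℂ) om))).add (h3.cmul (kq 2))).add h4⟩, ?_⟩
  funext n
  rw [fc_add (((h1.cmul om).add (h2.cmul ((starRingEnd ℂ) om))).add (h3.cmul (kq 2))) h4,
    fc_add ((h1.cmul om).add (h2.cmul ((starRingEnd ℂ) om))) (h3.cmul (kq 2)),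
    fc_add (h1.cmul om) (h2.cmul ((starRingEnd ℂ) om)), fc_cmul, fc_cmul, fc_cmul, fc_reA hb N, fc_imA hb N, fc_SN, e1]
  rfl

theorem g2s (hb : BF b) (z : ℝ → ℂ) (N : ℕ) :
    (∃ C, BM (fun t => g2 (SN N b t) (SN N z t)) C) ∧
    fc (fun t => g2 (SN N b t) (SN N z t)) = g2A (tr N (pr b)) (tr N (qr b)) (tr N (fc z)) := by
  obtain ⟨C2, h2⟩ := bm_re (bf_SN b N)
  obtain ⟨C3, h3⟩ := bm_im (bf_SN b N)
  obtain ⟨C4, h4⟩ := bf_bm (bf_SN z N)
  have h1 : BM (fun _ : ℝ => (1 : ℂ)) 1 := ⟨measurable_const, fun _ => by simp⟩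
  have e : (fun t => g2 (SN N b t) (SN N z t)) = fun t => ((om ^ 2 * 1 +
      (starRingEnd ℂ) om ^ 2 * ((SN N b t).re : ℂ)) + (starRingEnd ℂ) (kq 2) * ((SN N b t).im : ℂ)) - SN N z t := by
    funext t
    rw [g2_form]
    ring
  have e1 : ∀ n : ℤ, fc (fun _ : ℝ => (1 : ℂ)) n = if n = 0 then 1 else 0 := by
    intro n
    have := fc_ee 0 n
    simp only [Int.cast_zero, zero_mul, ee_zero] at this
    rw [this]
    by_cases hn : n = 0
    · subst hn; simp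
    · rw [if_neg hn, if_neg (Ne.symm hn)]
  rw [e]
  refine ⟨⟨_, (((h1.cmul (om ^ 2)).add (h2.cmul ((starRingEnd ℂ) om ^ 2))).add
    (h3.cmul ((starRingEnd ℂ) (kq 2)))).sub h4⟩, ?_⟩
  funext n
  rw [fc_sub (((h1.cmul (om ^ 2)).add (h2.cmul ((starRingEnd ℂ) om ^ 2))).add (h3.cmul ((starRingEnd ℂ) (kq 2)))) h4,
    fc_add ((h1.cmul (om ^ 2)).add (h2.cmul ((starRingEnd ℂ) om ^ 2))) (h3.cmul ((starRingEnd ℂ) (kq 2))),
    fc_add (h1.cmul (om ^ 2)) (h2.cmul ((starRingEnd ℂ) om ^ 2)), fc_cmul, fc_cmul, fc_cmul, fc_reA hb N, fc_imA hb N,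
    fc_SN, e1]
  rfl

theorem g1A_sup (N : ℕ) {p r s : ℤ → ℂ} (hp : Sup N p) (hq : Sup N r) (hs : Sup N s) : Sup N (g1A p r s) := by
  intro n hn
  unfold g1A
  rw [hp n hn, hq n hn, hs n hn, if_neg]
  · ring
  · rintro rfl
    apply hn
    rw [Finset.mem_Icc]
    omega

theorem g2A_sup (N : ℕ) {p r s : ℤ → ℂ} (hp : Sup N p) (hq : Sup N r) (hs : Sup N s) : Sup N (g2A p r s) := by
  intro n hn
  unfold g2A
  rw [hp n hn, hq n hn, hs n hn, if_neg]
  · ring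
  · rintro rfl
    apply hn
    rw [Finset.mem_Icc]
    omega

/-- the near quantity as a mean -/
noncomputable def NrM (d1 d2 : ℝ → ℂ) (b z : ℝ → ℂ) : ℝ :=
  mean (fun t => ((starRingEnd ℂ) (d1 t) * g1 (b t) (z t)).re + ((starRingEnd ℂ) (d2 t) * g2 (b t) (z t)).re
    + 3 / 4 * (b t).re ^ 2) - 2 + (fc b 0).re - 1 / 5

theorem QL.re2 : QL fun _ b _ => b.re ^ 2 := by
  refine ⟨fun b z hb hz => (Complex.measurable_re.comp hb).pow_const 2, ⟨0, fun t => by simp⟩,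
    ⟨2, by norm_num, fun t b z b' z' => ?_⟩⟩
  have e : b.re ^ 2 - b'.re ^ 2 = (b - b').re * (b.re + b'.re) := by rw [Complex.sub_re]; ring
  have h1 := Complex.abs_re_le_norm (b - b')
  have h2 := Complex.abs_re_le_norm b
  have h3 := Complex.abs_re_le_norm b'
  have h4 : ‖b'‖ ≤ ‖b‖ + ‖b - b'‖ := by
    have := norm_sub_norm_le b' b
    rw [norm_sub_rev] at this
    linarith
  have h5 : |b.re + b'.re| ≤ 2 * ‖b‖ + ‖b - b'‖ := (abs_add_le _ _).trans (by linarith)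
  rw [e, abs_mul]
  have h6 := mul_le_mul h1 h5 (abs_nonneg _) (norm_nonneg _)
  refine h6.trans ?_
  nlinarith [mul_nonneg (norm_nonneg (b - b')) (norm_nonneg z), mul_nonneg (norm_nonneg (z - z')) (norm_nonneg b),
    mul_nonneg (norm_nonneg (b - b')) (norm_nonneg (z - z')), mul_nonneg (norm_nonneg (z - z')) (norm_nonneg z),
    norm_nonneg (b - b'), norm_nonneg (z - z'), norm_nonneg b, norm_nonneg z,
    mul_nonneg (norm_nonneg (z - z')) (norm_nonneg (z - z')), mul_nonneg (norm_nonneg (b - b')) (norm_nonneg (b - b'))]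

theorem NrM_ql (h1 : BM d1 1) (h2 : BM d2 1) : QL fun t b z => ((starRingEnd ℂ) (d1 t) * g1 b z).re +
    ((starRingEnd ℂ) (d2 t) * g2 b z).re + 3 / 4 * b.re ^ 2 :=
  ((QL.lip g1_lip.1 g1_lip.2 h1).1.add (QL.lip g2_lip.1 g2_lip.2 h2).1).add (QL.re2.cmul (3 / 4))

theorem NrM_lim (h1 : BM d1 1) (h2 : BM d2 1) (d : Dat b z) :
    Tendsto (fun N => NrM d1 d2 (SN N b) (SN N z)) atTop (𝓝 (NrM d1 d2 b z)) := by
  have m := mean_lim (NrM_ql h1 h2) d.hb d.hz (fun N => bf_SN b N) (fun N => bf_SN z N) (ms_SN d.hb) (ms_SN d.hz)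
  have c : Tendsto (fun N => fc (SN N b) 0) atTop (𝓝 (fc b 0)) := by
    refine tendsto_const_nhds.congr' ?_
    filter_upwards with N
    rw [fc_SN, tr_mem]
    rw [Finset.mem_Icc]
    omega
  have c1 := (Complex.continuous_re.tendsto _).comp c
  exact ((m.sub_const 2).add c1).sub_const (1 / 5)

/-- the near quantity on sections, in the arrays -/
theorem NrM_SN (h1 : BM d1 1) (h2 : BM d2 1) (d : Dat b z) (N : ℕ) :
    NrM d1 d2 (SN N b) (SN N z) = NrA d1 d2 N (tr N (pr b)) (tr N (qr b)) (tr N (fc z)) := by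
  obtain ⟨⟨C1, k1⟩, f1⟩ := g1s d.hb z N
  obtain ⟨⟨C2, k2⟩, f2⟩ := g2s d.hb z N
  obtain ⟨B3, p3⟩ := bm_re (bf_SN b N)
  have sp : Sup N (tr N (pr b)) := tr_sup N _
  have sr : Sup N (tr N (qr b)) := tr_sup N _
  have ss : Sup N (tr N (fc z)) := tr_sup N _
  have s1 : Sup N (fc (fun t => g1 (SN N b t) (SN N z t))) := by rw [f1]; exact g1A_sup N sp sr ss
  have s2 : Sup N (fc (fun t => g2 (SN N b t) (SN N z t))) := by rw [f2]; exact g2A_sup N sp sr ss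
  have s3 : Sup N (fc (fun t => ((SN N b t).re : ℂ))) := by rw [fc_reA d.hb N]; exact sp
  have m1 := mean_lin k1 s1 h1
  have m2 := mean_lin k2 s2 h2
  have m3 := mean_lin p3 s3 p3
  rw [f1] at m1
  rw [f2] at m2
  rw [fc_reA d.hb N] at m3
  have e0 : (fc (SN N b) 0).re = (tr N (pr b) 0).re := by
    have h := fc_pq (bf_SN b N) 0
    have hq : ((tr N (qr b)) 0).im = 0 := by
      rw [tr_mem (by rw [Finset.mem_Icc]; omega)]
      have := qr_neg b 0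
      rw [neg_zero] at this
      exact Complex.conj_eq_iff_im.mp this.symm
    rw [h, pr_SN d.hb N, qr_SN d.hb N, Complex.add_re, Complex.I_mul_re, hq, neg_zero, add_zero]
  have e : (fun t => ((starRingEnd ℂ) (d1 t) * g1 (SN N b t) (SN N z t)).re +
      ((starRingEnd ℂ) (d2 t) * g2 (SN N b t) (SN N z t)).re + 3 / 4 * (SN N b t).re ^ 2) = fun t =>
      ((g1 (SN N b t) (SN N z t) * (starRingEnd ℂ) (d1 t)).re +
        (g2 (SN N b t) (SN N z t) * (starRingEnd ℂ) (d2 t)).re) +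
        3 / 4 * (((SN N b t).re : ℂ) * (starRingEnd ℂ) ((SN N b t).re : ℂ)).re := by
    funext t
    rw [mul_comm ((starRingEnd ℂ) (d1 t)), mul_comm ((starRingEnd ℂ) (d2 t)), Complex.conj_ofReal,
      ← Complex.ofReal_mul, Complex.ofReal_re]
    ring
  unfold NrM NrA
  rw [e, mean_add ((br_re (k1.mul h1.conj)).add (br_re (k2.mul h2.conj))) ((br_re (p3.mul p3.conj)).cmul _),
    mean_add (br_re (k1.mul h1.conj)) (br_re (k2.mul h2.conj)), mean_cmul, m1, m2, m3, e0]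
  have e5 : (∑ n ∈ Finset.Icc (-(N : ℤ)) N, tr N (pr b) n * (starRingEnd ℂ) (tr N (pr b) n)).re =
      ∑ n ∈ Finset.Icc (-(N : ℤ)) N, ‖tr N (pr b) n‖ ^ 2 := by
    rw [Complex.re_sum]
    refine Finset.sum_congr rfl fun n _ => ?_
    rw [Complex.mul_conj, Complex.normSq_eq_norm_sq, Complex.ofReal_re]
  rw [e5]
  ring

/-- the near quantity is a lower bound -/
theorem NrM_le (h1 : BM d1 1) (h2 : BM d2 1) (d : Dat b z) :
    NrM d1 d2 b z ≤ Sp b z + 3 / 4 * mean (fun t => (b t).re ^ 2) - 1 / 5 := by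
  obtain ⟨Cb, kb⟩ := bf_bm d.hb
  have q1 := (QL.lip g1_lip.1 g1_lip.2 h1).1.br d.hb d.hz
  have q2 := (QL.lip g2_lip.1 g2_lip.2 h2).1.br d.hb d.hz
  have q3 : BR fun t => 3 / 4 * (b t).re ^ 2 := (BR.re kb).sq.cmul _
  have n1 : BR fun t => ‖g1 (b t) (z t)‖ := by
    obtain ⟨B, hB⟩ := d.hb.b
    obtain ⟨Z, hZ⟩ := d.hz.b
    have m := g1_lip.1 b z d.hb.m d.hz.m
    refine ⟨m.norm, ‖g1 0 0‖ + (1 + ‖kq 2‖ + 1) * (B + Z), fun t => ?_⟩
    rw [abs_of_nonneg (norm_nonneg _)]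
    have h3 := g1_lip.2 (b t) (z t) 0 0
    rw [sub_zero, sub_zero] at h3
    have h4 := norm_sub_norm_le (g1 (b t) (z t)) (g1 0 0)
    have h5 : (1 + ‖kq 2‖ + 1) * (‖b t‖ + ‖z t‖) ≤ (1 + ‖kq 2‖ + 1) * (B + Z) :=
      mul_le_mul_of_nonneg_left (add_le_add (hB t) (hZ t)) (by positivity)
    linarith
  have n2 : BR fun t => ‖g2 (b t) (z t)‖ := by
    obtain ⟨B, hB⟩ := d.hb.b
    obtain ⟨Z, hZ⟩ := d.hz.b
    have m := g2_lip.1 b z d.hb.m d.hz.m
    refine ⟨m.norm, ‖g2 0 0‖ + (1 + ‖kq 2‖ + 1) * (B + Z), fun t => ?_⟩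
    rw [abs_of_nonneg (norm_nonneg _)]
    have h3 := g2_lip.2 (b t) (z t) 0 0
    rw [sub_zero, sub_zero] at h3
    have h4 := norm_sub_norm_le (g2 (b t) (z t)) (g2 0 0)
    have h5 : (1 + ‖kq 2‖ + 1) * (‖b t‖ + ‖z t‖) ≤ (1 + ‖kq 2‖ + 1) * (B + Z) :=
      mul_le_mul_of_nonneg_left (add_le_add (hB t) (hZ t)) (by positivity)
    linarith
  have key : ∀ (x y : ℂ), ‖x‖ ≤ 1 → ((starRingEnd ℂ) x * y).re ≤ ‖y‖ := by
    intro x y hx
    refine (Complex.re_le_norm _).trans ?_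
    rw [norm_mul, RCLike.norm_conj]
    exact mul_le_of_le_one_left (norm_nonneg _) hx
  have m := mean_mono ((q1.add q2).add q3) ((n1.add n2).add q3) fun t =>
    add_le_add (add_le_add (key (d1 t) (g1 (b t) (z t)) (h1.b t)) (key (d2 t) (g2 (b t) (z t)) (h2.b t))) le_rfl
  rw [mean_add (n1.add n2) q3, mean_cmul] at m
  unfold NrM Sp
  linarith

theorem fc_evp (d : Dat b z) (n : ℤ) (hn : ¬ Even n) : pr b n = 0 := by
  obtain ⟨C, hC⟩ := bm_re d.hb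
  exact Helper87.RC.fc_perpi hC (fun t => by rw [d.pb]) (Int.not_even_iff_odd.1 hn)

theorem fc_evr (d : Dat b z) (n : ℤ) (hn : ¬ Even n) : qr b n = 0 := by
  obtain ⟨C, hC⟩ := bm_im d.hb
  exact Helper87.RC.fc_perpi hC (fun t => by rw [d.pb]) (Int.not_even_iff_odd.1 hn)

theorem fc_odz (d : Dat b z) (n : ℤ) (hn : Even n) : fc z n = 0 := by
  obtain ⟨C, hC⟩ := bf_bm d.hz
  exact Helper87.RC.fc_anti hC d.pz hn

/-- **FROM THE FINITE CERTIFICATE TO ALL ADMISSIBLE DATA** -/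
theorem cell_pass (hr : P.Reg) (L : Lo P K) (h1 : BM d1 1) (h2 : BM d2 1) {mu tau s1 : ℝ} (hmu : 0 ≤ mu)
    (ht : 0 ≤ tau) (Q : ℂ → ℂ → ℝ) (N0 : ℕ)
    (hc : ∀ N, N0 ≤ N → ∀ p r s : ℤ → ℂ, Sup N p → Sup N r → Sup N s → (∀ n, p (-n) = (starRingEnd ℂ) (p n)) →
      (∀ n, r (-n) = (starRingEnd ℂ) (r n)) → (∀ n, ¬ Even n → p n = 0) → (∀ n, ¬ Even n → r n = 0) →
      (∀ n, Even n → s n = 0) →
      Q (s (-3)) (s (-5)) ≤ EA P N p r s + LA P N p r s + (P.m - P.lam) * LoA L N p r s + mu * NrA d1 d2 N p r s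
        - tau * (‖sgA P p r‖ ^ 2 - s1 ^ 2))
    (h : AdmQ 2 b z) (hn : Helper44.Far.Near b z) (hs : tau = 0 ∨ s1 ^ 2 ≤ ‖P.sig b‖ ^ 2) :
    Q (fc z (-3)) (fc z (-5)) ≤ P.EP b z := by
  have d : Dat b z := AdmQ.dat (by norm_num) h
  have l1 := EP_lim hr L.ql d
  have l2 := (NrM_lim h1 h2 d).const_mul mu
  have l3 := (((sig_lim (P := P) d.hb).norm.pow 2).sub_const (s1 ^ 2)).const_mul tau
  have tot := (l1.add l2).sub l3
  have key : Q (fc z (-3)) (fc z (-5)) ≤ P.EP b z + mu * NrM d1 d2 b z - tau * (‖P.sig b‖ ^ 2 - s1 ^ 2) := by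
    refine ge_of_tendsto tot ?_
    filter_upwards [eventually_ge_atTop N0, eventually_ge_atTop K, eventually_ge_atTop 5] with N hN hK h5
    have e3 : tr N (fc z) (-3) = fc z (-3) := tr_mem (by rw [Finset.mem_Icc]; omega)
    have e5 : tr N (fc z) (-5) = fc z (-5) := tr_mem (by rw [Finset.mem_Icc]; omega)
    have e1 : P.sig (SN N b) = sgA P (tr N (pr b)) (tr N (qr b)) := by
      unfold Par.sig
      rw [pcA P d.hb N, rcA P d.hb N]
      rfl
    have c := hc N hN (tr N (pr b)) (tr N (qr b)) (tr N (fc z)) (tr_sup N _) (tr_sup N _) (tr_sup N _) ?_ ?_ ?_ ?_ ?_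
    · rw [e3, e5] at c
      rw [NrM_SN h1 h2 d N, EP_coord3 hr L d hK, e1]
      exact c
    · intro n
      by_cases hn' : n ∈ Finset.Icc (-(N : ℤ)) N
      · have hn2 : -n ∈ Finset.Icc (-(N : ℤ)) N := by rw [Finset.mem_Icc] at hn' ⊢; omega
        rw [tr_mem hn', tr_mem hn2, pr_neg]
      · have hn2 : -n ∉ Finset.Icc (-(N : ℤ)) N := by rw [Finset.mem_Icc] at hn' ⊢; omega
        rw [tr_sup N _ n hn', tr_sup N _ (-n) hn2, map_zero]
    · intro n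
      by_cases hn' : n ∈ Finset.Icc (-(N : ℤ)) N
      · have hn2 : -n ∈ Finset.Icc (-(N : ℤ)) N := by rw [Finset.mem_Icc] at hn' ⊢; omega
        rw [tr_mem hn', tr_mem hn2, qr_neg]
      · have hn2 : -n ∉ Finset.Icc (-(N : ℤ)) N := by rw [Finset.mem_Icc] at hn' ⊢; omega
        rw [tr_sup N _ n hn', tr_sup N _ (-n) hn2, map_zero]
    · intro n hne
      by_cases hn' : n ∈ Finset.Icc (-(N : ℤ)) N
      · rw [tr_mem hn']
        exact fc_evp d n hne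
      · exact tr_sup N _ n hn'
    · intro n hne
      by_cases hn' : n ∈ Finset.Icc (-(N : ℤ)) N
      · rw [tr_mem hn']
        exact fc_evr d n hne
      · exact tr_sup N _ n hn'
    · intro n hne
      by_cases hn' : n ∈ Finset.Icc (-(N : ℤ)) N
      · rw [tr_mem hn']
        exact fc_odz d n hne
      · exact tr_sup N _ n hn'
  have hn2 : NrM d1 d2 b z ≤ 0 := by
    have := NrM_le h1 h2 d
    unfold Helper44.Far.Near at hn
    linarith
  have h3 := mul_nonneg hmu (neg_nonneg.mpr hn2)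
  have h4 : 0 ≤ tau * (‖P.sig b‖ ^ 2 - s1 ^ 2) := by
    rcases hs with hs | hs
    · rw [hs, zero_mul]
    · exact mul_nonneg ht (by linarith)
  linarith

end

end Helper95.SH
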